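import Pool.Agent.Lib.MP_b00168_gt.Defs

set_option autoImplicit false

/-!
# MP_b00168_gt : exact statements of the modules

Paper proof of every module: /team-store/MP_b00168_gt_PROOF.md.
-/

namespace MPb00168

open Finset

universe u v

/-! ## A. Tuples -/

/-- Module SDT, part 1: subdivision is a chain map. -/
def SpecSdMap : Prop :=
  ∀ (E E' : Type) (L : ∀ k, Tup E k → E') (n : ℕ) (c : Tup E (n + 1) →₀ ℤ),
    bdT (Sd L c) = Sd L (bdT c)

/-- Module SDT, part 2: the operators `hT` form a chain homotopy. -/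
def SpecSdHomot : Prop :=
  ∀ (E E' : Type) (L : ∀ k, Tup E k → E') (ψ : E → E'),
    (∀ (n : ℕ) (c : Tup E (n + 1) →₀ ℤ),
      bdT (Finsupp.linearCombination ℤ (hT L ψ (n + 1)) c) =
        Sd L c - mapT ψ c - Finsupp.linearCombination ℤ (hT L ψ n) (bdT c)) ∧
    (∀ (c : Tup E 0 →₀ ℤ),
      bdT (Finsupp.linearCombination ℤ (hT L ψ 0) c) = Sd L c - mapT ψ c)

/-- Module SDT, part 3: the same for cycles, with the supports. -/
def SpecSdHom : Prop :=
  ∀ (E E' : Type) (L : ∀ k, Tup E k → E') (ψ : E → E') (n : ℕ) (c : Tup E (n + 1) →₀ ℤ),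
    bdT c = 0 →
    ∃ b : Tup E' (n + 2) →₀ ℤ, bdT b = Sd L c - mapT ψ c ∧
      ∀ y ∈ b.support, ∃ x ∈ c.support, ∀ j, (∃ i, y j = ψ (x i)) ∨
        (∃ (k : ℕ) (θ : Fin (k + 1) → Fin (n + 2)), StrictMono θ ∧ y j = L k (x ∘ θ))

/-- Module PRISM: contiguous maps. -/
def SpecPrism : Prop :=
  ∀ (E E' : Type) (f g : E → E') (n : ℕ) (c : Tup E (n + 1) →₀ ℤ), bdT c = 0 →
    ∃ b : Tup E' (n + 2) →₀ ℤ, bdT b = mapT g c - mapT f c ∧
      ∀ y ∈ b.support, ∃ x ∈ c.support, ∀ j, (∃ i, y j = f (x i)) ∨ (∃ i, y j = g (x i))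

/-! ## B. Singular chains -/

/-- Module SS: barycentric subdivision of singular chains. -/
def SpecSS : Prop :=
  ∀ (X : Type u) [TopologicalSpace X],
    (∀ (n : ℕ) (c : Chain X (n + 1)), bd (SdS c) = SdS (bd c)) ∧
    (∀ (k : ℕ) (σ : Sing X k), ∀ τ ∈ (SdS (Finsupp.single σ (1 : ℤ))).support,
      Set.range τ ⊆ Set.range σ) ∧
    ∃ T : ∀ k, Chain X k →ₗ[ℤ] Chain X (k + 1),
      (∀ (k : ℕ) (c : Chain X (k + 1)), bd (T (k + 1) c) = SdS c - c - T k (bd c)) ∧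
      (∀ c : Chain X 0, bd (T 0 c) = SdS c - c) ∧
      (∀ (k : ℕ) (σ : Sing X k), ∀ τ ∈ (T k (Finsupp.single σ (1 : ℤ))).support,
        Set.range τ ⊆ Set.range σ)

/-- Module SMALL: iterated subdivisions are small. -/
def SpecSmall : Prop :=
  ∀ (X : Type u) [TopologicalSpace X] (V : Set (Set X)), (∀ U ∈ V, IsOpen U) →
    (∀ x, ∃ U ∈ V, x ∈ U) → ∀ (k : ℕ) (c : Chain X k),
    ∃ r : ℕ, ∀ r' ≥ r, ∀ τ ∈ ((⇑(SdS (X := X) (n := k)))^[r'] c).support,
      ∃ U ∈ V, Set.range τ ⊆ U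

/-- Module FAMILY: homotopy of the simplices of a cycle. -/
def SpecFamily : Prop :=
  ∀ (X : Type u) [TopologicalSpace X] (n : ℕ) (c : Chain X (n + 1)), bd c = 0 →
    ∀ (H1 : Sing X (n + 1) → C(stdSimplex ℝ (Fin (n + 2)) × unitInterval, X))
      (H0 : Sing X n → C(stdSimplex ℝ (Fin (n + 1)) × unitInterval, X)),
      (∀ σ ∈ c.support, ∀ t, H1 σ (t, 0) = σ t) →
      (∀ σ ∈ c.support, ∀ (i : Fin (n + 2)) t s,
        H1 σ (faceMap n i t, s) = H0 (face i σ) (t, s)) →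
      Homologous (c.sum fun σ a => Finsupp.single
        (⟨fun t => H1 σ (t, 1), by fun_prop⟩ : Sing X (n + 1)) a) c

/-- Module POINT: a cycle of positive dimension pushed to a point is a boundary. -/
def SpecPoint : Prop :=
  ∀ (X : Type u) (Y : Type v) [TopologicalSpace X] [TopologicalSpace Y] (y : Y) (n : ℕ)
    (c : Chain X (n + 1)), bd c = 0 → Homologous (push (ContinuousMap.const X y) c) 0

/-- Module TRANSFER. -/
def SpecTransfer : Prop :=
  ∀ (T M : Type) [TopologicalSpace T] [TopologicalSpace M] (p : C(T, M)), IsCoveringMap p →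
    (∀ x, (p ⁻¹' {x}).Finite) →
    (∀ (k : ℕ) (σ : Sing M k), (liftsOf p σ).Finite) ∧
    (∀ (k : ℕ) (c : Chain M (k + 1)), bd (transfer p c) = transfer p (bd c)) ∧
    (∀ (k : ℕ) (c : Chain M k), SdS (transfer p c) = transfer p (SdS c)) ∧
    (∀ (d : ℕ), (∀ x, (p ⁻¹' {x}).ncard = d) → ∀ (k : ℕ) (c : Chain M k),
      push p (transfer p c) = (d : ℤ) • c)

/-- Module LOCAL: the transfer of a fundamental cycle is a fundamental cycle. -/
def SpecLocal : Prop :=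
  ∀ (T M : Type) [TopologicalSpace T] [TopologicalSpace M] [T1Space T] [T1Space M] (p : C(T, M)),
    IsCoveringMap p → (∀ x, (p ⁻¹' {x}).Finite) → ∀ (n : ℕ) (c : Chain M (n + 1)),
    IsFund c → IsFund (transfer p c)

/-! ## C. Coverings of compact Hausdorff spaces -/

/-- Module PULL: the pull-back of a finite covering. -/
def SpecPull : Prop :=
  ∀ (N Y Y' : Type) [TopologicalSpace N] [TopologicalSpace Y] [TopologicalSpace Y']
    [T2Space N] [T2Space Y] [T2Space Y'] [CompactSpace N] [CompactSpace Y'] (f : C(N, Y))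
    (q : C(Y', Y)), IsCoveringMap q →
    CompactSpace {z : N × Y' // f z.1 = q z.2} ∧ T2Space {z : N × Y' // f z.1 = q z.2} ∧
    IsCoveringMap (fun z : {z : N × Y' // f z.1 = q z.2} => z.1.1)

/-- Module COMP: components of a finite covering. -/
def SpecComp : Prop :=
  ∀ (N N' : Type) [TopologicalSpace N] [TopologicalSpace N'] [T2Space N] [T2Space N']
    [CompactSpace N] [CompactSpace N'] [ConnectedSpace N] [LocallyConnectedSpace N] (p : C(N', N)),
    IsCoveringMap p → ∀ (d : ℕ), (∀ x, (p ⁻¹' {x}).Finite ∧ (p ⁻¹' {x}).ncard = d) →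
    ∀ x' : N', CompactSpace (connectedComponent x') ∧
      ConnectedSpace (connectedComponent x') ∧ LocallyConnectedSpace (connectedComponent x') ∧
      IsCoveringMap (fun z : connectedComponent x' => p z.1) ∧
      ∃ d' : ℕ, 0 < d' ∧ d' ≤ d ∧
        ∀ x, ((fun z : connectedComponent x' => p z.1) ⁻¹' {x}).Finite ∧
          ((fun z : connectedComponent x' => p z.1) ⁻¹' {x}).ncard = d'

/-- Module COMPOSE: composition of finite coverings. -/
def SpecCompose : Prop :=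
  ∀ (A B C : Type) [TopologicalSpace A] [TopologicalSpace B] [TopologicalSpace C]
    [T2Space A] [T2Space B] [T2Space C] [CompactSpace A] [CompactSpace B] (p : C(A, B))
    (q : C(B, C)), IsCoveringMap p → IsCoveringMap q → ∀ (d e : ℕ),
    (∀ x, (p ⁻¹' {x}).Finite ∧ (p ⁻¹' {x}).ncard = d) →
    (∀ x, (q ⁻¹' {x}).Finite ∧ (q ⁻¹' {x}).ncard = e) →
    IsCoveringMap (q.comp p) ∧
      ∀ x, ((q.comp p) ⁻¹' {x}).Finite ∧ ((q.comp p) ⁻¹' {x}).ncard = d * e

/-- Module LC: the total space of a local homeomorphism over a locally connected space. -/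
def SpecLC : Prop :=
  ∀ (A B : Type) [TopologicalSpace A] [TopologicalSpace B] [LocallyConnectedSpace B] (p : C(A, B)),
    IsLocalHomeomorph p → LocallyConnectedSpace A

/-! ## D. Coloured sets and their realisations -/

/-- Module ZC: `zT C` is a cycle supported on chains of the poset of cells; so `zR C` is a
cycle. -/
def SpecZC : Prop :=
  ∀ (n : ℕ) (S : Type) [Fintype S] (C : Colored n S),
    ChainSupp (zT C) ∧ bdT (zT C) = 0 ∧ bd (zR C) = 0

/-- Module REALT: realisation of tuple chains commutes with the boundary. -/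
def SpecRealT : Prop :=
  ∀ (P : Type) [Fintype P] [PartialOrder P] (k : ℕ) (c : Tup P (k + 1) →₀ ℤ), ChainSupp c →
    bd (realT P c) = realT P (bdT c)

/-- Module PATH: the realisation of a connected coloured set is path-connected. -/
def SpecPath : Prop :=
  ∀ (n : ℕ) (S : Type) [Fintype S] [Nonempty S] (C : Colored n S), C.Conn →
    PathConnectedSpace (RP C.Cells)

/-- Module COVER: star maps of coloured sets give coverings of the realisations. -/
def SpecCover : Prop :=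
  ∀ (n : ℕ) (S S' : Type) [Fintype S] [Fintype S'] (C : Colored n S) (C' : Colored n S')
    (φ : S → S'), IsStarMap C C' φ →
    ∃ p : C(RP C.Cells, RP C'.Cells), IsCoveringMap p ∧
      (∀ d : ℕ, (∀ s', (φ ⁻¹' {s'}).ncard = d) → ∀ y, (p ⁻¹' {y}).Finite ∧
        (p ⁻¹' {y}).ncard = d) ∧
      transfer p (zR C') = zR C

/-- Module PUSH: compatible singular simplices on a coloured set give a map of the realisation. -/
def SpecPush : Prop :=
  ∀ (X : Type u) [TopologicalSpace X] (n : ℕ) (S : Type) [Fintype S] (C : Colored n S)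
    (σ : S → Sing X (n + 1)), (∀ i s, face i (σ (C.a i s)) = face i (σ s)) →
    ∃ g : C(RP C.Cells, X), push g (zR C) = SdS (∑ s, Finsupp.single (σ s) (C.ε s))

/-- Module TOP: the top homology of a connected coloured set. -/
def SpecTop : Prop :=
  ∀ (n : ℕ) (S : Type) [Fintype S] [Nonempty S] (C : Colored n S), C.Conn →
    ∀ c : Chain (RP C.Cells) (n + 1), bd c = 0 → ∃ a : ℤ, Homologous c (a • zR C)

/-- Module GROUP: the universal coloured set. -/
def SpecGroup : Prop :=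
  ∀ (n B : ℕ), ∃ (G : Type) (_ : Fintype G) (_ : Nonempty G) (CG : Colored n G), CG.Conn ∧
    ∀ (U : Type) [Fintype U] (CU : Colored n U), (∀ i u, (CU.cell {i} u).ncard ≤ B) →
      ∀ (i : Fin (n + 2)) (w : List (Fin (n + 2))), i ∉ w → ∀ (g : G) (u : U),
        CG.act w g = g → CU.act w u = u

/-- Module COLX: a singular cycle gives a coloured set. -/
def SpecColX : Prop :=
  ∀ (X : Type u) [TopologicalSpace X] (n : ℕ) (z : Chain X (n + 1)), bd z = 0 →
    ∃ (S : Type) (_ : Fintype S) (C : Colored n S) (σ : S → Sing X (n + 1)),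
      (∀ i s, face i (σ (C.a i s)) = face i (σ s)) ∧
      ∑ s, Finsupp.single (σ s) (C.ε s) = SdS z

/-- Module ARC: making the poset path-connected. -/
def SpecArc : Prop :=
  ∀ (X : Type u) [TopologicalSpace X] [PathConnectedSpace X] (n : ℕ) (P : Type) [Fintype P]
    [PartialOrder P], (∀ t : Finset P, IsChain (· ≤ ·) (t : Set P) → t.card ≤ n + 2) →
    ∀ (h : C(RP P, X)) (ζ : Tup P (n + 1) →₀ ℤ), bdT ζ = 0 → ChainSupp ζ →
    ∃ (P' : Type) (_ : Fintype P') (_ : PartialOrder P'),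
      (∀ t : Finset P', IsChain (· ≤ ·) (t : Set P') → t.card ≤ n + 2) ∧
      PathConnectedSpace (RP P') ∧
      ∃ (h' : C(RP P', X)) (ζ' : Tup P' (n + 1) →₀ ℤ), bdT ζ' = 0 ∧ ChainSupp ζ' ∧
        push h' (realT P' ζ') = push h (realT P ζ)

/-- Module CHAINS: chains of cells have at most `n+2` elements. -/
def SpecChains : Prop :=
  ∀ (n : ℕ) (S : Type) (C : Colored n S) (t : Finset C.Cells),
    IsChain (· ≤ ·) (t : Set C.Cells) → t.card ≤ n + 2

/-! ## E. Lattice cycles -/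

/-- Module EMB: general position embedding of the realisation of a poset. -/
def SpecEmb : Prop :=
  ∀ (n N : ℕ), 2 * n + 4 ≤ N → ∀ (P : Type) [Fintype P] [PartialOrder P],
    (∀ t : Finset P, IsChain (· ≤ ·) (t : Set P) → t.card ≤ n + 2) →
    ∃ L : (P → ℝ) →ₗ[ℝ] (Fin N → ℝ), ∀ ε : ℝ, 0 < ε → ∃ δ : ℝ, 0 < δ ∧ ∀ y ∈ RP P, ∀ y' ∈ RP P,
      (∀ i, |L y i - L y' i| ≤ δ) → ∀ p, |y p - y' p| < ε

/-- Module MASS: iterated barycentric subdivision of tuples. -/
def SpecMass : Prop :=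
  ∀ (n : ℕ), 1 ≤ n → ∀ (E : Type) [AddCommGroup E] [Module ℝ E] (c : Tup E n →₀ ℤ) (j : ℕ),
    (∑ y ∈ ((⇑(Sd (bary (E := E)) (n := n)))^[n * j] c).support,
        |((⇑(Sd (bary (E := E)) (n := n)))^[n * j] c) y| ≤
      ((n + 1).factorial : ℤ) ^ (n * j) * ∑ x ∈ c.support, |c x|) ∧
    ∀ y ∈ ((⇑(Sd (bary (E := E)) (n := n)))^[n * j] c).support, ∃ x ∈ c.support,
      (∀ a, y a ∈ convexHull ℝ (Set.range x)) ∧
      ∀ (w : E →ₗ[ℝ] ℝ) (D : ℝ), (∀ a b, |w (x a) - w (x b)| ≤ D) →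
        ∀ a b, |w (y a) - w (y b)| ≤ D / 2 ^ j

/-- Module FLOOR: a lattice cycle of small mass is homologous to one with bounded
coefficients. -/
def SpecFloor : Prop :=
  ∀ (N n Λ : ℕ), 1 ≤ Λ → ∀ c : Tup (Fin N → ℤ) (n + 1) →₀ ℤ, bdT c = 0 →
    (∀ x ∈ c.support, ∀ a b i, |x a i - x b i| ≤ 1) → (∑ x ∈ c.support, |c x| ≤ (Λ : ℤ) ^ N) →
    ∃ b : Tup (Fin N → ℤ) (n + 2) →₀ ℤ,
      (∀ x, |(c - bdT b) x| ≤ 1 + (n + 3) * 5 ^ N) ∧
      ∀ w ∈ b.support, (∀ a a' i, |w a i - w a' i| ≤ 2) ∧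
        ∃ x ∈ c.support, ∀ a, ∃ a', ∀ i, 0 ≤ w a i - x a' i ∧ w a i - x a' i ≤ Λ

/-- Module PACK: bounded lattice cycles representing a cycle of the realisation of a poset. -/
def SpecPack : Prop :=
  ∀ n : ℕ, ∃ A N : ℕ, ∀ (P : Type) [Fintype P] [PartialOrder P],
    (∀ t : Finset P, IsChain (· ≤ ·) (t : Set P) → t.card ≤ n + 2) →
    PathConnectedSpace (RP P) → ∀ ζ : Tup P (n + 1) →₀ ℤ, bdT ζ = 0 → ChainSupp ζ →
    ∀ F₀ : ℕ, ∃ (D : Finset (Fin N → ℤ)) (ψ : (Fin N → ℤ) → P)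
      (c : Tup (Fin N → ℤ) (n + 1) →₀ ℤ), bdT c = 0 ∧
      (∀ x ∈ c.support, (∀ a, x a ∈ D) ∧ ∀ a b i, |x a i - x b i| ≤ 2) ∧
      (∀ x, |c x| ≤ A) ∧
      (∀ v : Finset (Fin N → ℤ), v ⊆ D → (∀ x ∈ v, ∀ y ∈ v, ∀ i, |x i - y i| ≤ 2) →
        IsChain (· ≤ ·) (ψ '' (v : Set (Fin N → ℤ)))) ∧
      (∀ x ∈ D, ∀ y ∈ D, Relation.ReflTransGen
        (fun a b => a ∈ D ∧ b ∈ D ∧ ∀ i, |a i - b i| ≤ 1) x y) ∧
      F₀ ≤ D.card ∧ D.Nonempty ∧
      ∃ b : Chain (P → ℝ) (n + 2), SuppIn (RP P) b ∧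
        bd b = affS (mapT vert (mapT ψ c)) - affS (mapT vert ζ)

open Classical in
/-- Module MATCH: matchings making a coloured set connected. -/
def SpecMatch : Prop :=
  ∀ (n : ℕ) (Typ : Type) [Fintype Typ] [Nonempty Typ] (Key : Fin (n + 2) → Type)
    (κ : ∀ i, Typ → Key i) (Np Nm : Typ → ℕ), (∀ t, 1 ≤ Np t ∧ 1 ≤ Nm t) →
    (∀ i (κ₀ : Key i), ∑ t with κ i t = κ₀, Np t = ∑ t with κ i t = κ₀, Nm t) →
    (∀ t t', Relation.ReflTransGen (fun t t' => ∃ i, κ i t = κ i t') t t') →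
    ∃ C : Colored n (Σ t, Fin (Np t) ⊕ Fin (Nm t)), C.Conn ∧
      (∀ i u, κ i (C.a i u).1 = κ i u.1) ∧
      (∀ t (j : Fin (Np t)), C.ε ⟨t, Sum.inl j⟩ = 1) ∧
      (∀ t (j : Fin (Nm t)), C.ε ⟨t, Sum.inr j⟩ = -1)

/-- Module TYPES: the main geometric statement (bounded geometry). -/
def SpecLattice : Prop :=
  ∀ n : ℕ, ∃ B : ℕ, ∀ (P : Type) [Fintype P] [PartialOrder P],
    (∀ t : Finset P, IsChain (· ≤ ·) (t : Set P) → t.card ≤ n + 2) →
    PathConnectedSpace (RP P) → ∀ ζ : Tup P (n + 1) →₀ ℤ, bdT ζ = 0 → ChainSupp ζ →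
    ∀ F₀ : ℕ, 1 ≤ F₀ → ∃ (U : Type) (_ : Fintype U) (_ : Nonempty U) (C : Colored n U)
      (β : U → Tup (P → ℝ) (n + 1)), C.Conn ∧
      (∀ i u, (C.cell {i} u).ncard ≤ B) ∧
      (∀ i u k, k ≠ i → β (C.a i u) k = β u k) ∧
      (∀ u, ∃ t : Set P, IsChain (· ≤ ·) t ∧ ∀ k, β u k ∈ RP P ∧ ∀ p, β u k p ≠ 0 → p ∈ t) ∧
      Nat.Coprime {u | C.ε u = 1}.ncard F₀ ∧
      ∃ b : Chain (P → ℝ) (n + 2), SuppIn (RP P) b ∧
        bd b = (∑ u, Finsupp.single (aff (β u)) (C.ε u)) - affS (mapT vert ζ)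

/-! ## F. The result -/

/-- Module GEN: from path-connected spaces to all nonempty spaces. -/
def SpecGen : Prop :=
  ∀ (n : ℕ) (M : Type) [TopologicalSpace M] [T2Space M] [CompactSpace M] [ConnectedSpace M]
    (μ : Chain M (n + 1)), IsFund μ → ∀ q : ℕ,
    (∀ (X : Type u) [TopologicalSpace X] [PathConnectedSpace X] (z : Chain X (n + 1)),
      bd z = 0 → Realised μ ((q : ℤ) • z)) →
    ∀ (X : Type u) [TopologicalSpace X] [Nonempty X] (z : Chain X (n + 1)), bd z = 0 →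
      ∃ r, 0 < r ∧ RealisedSum μ r ((q : ℤ) • z)

/-- The theorem. -/
def SpecResult : Prop :=
  ∀ (n : ℕ) (M : Type) [TopologicalSpace M] [T2Space M] [CompactSpace M] [ConnectedSpace M]
    [LocallyConnectedSpace M] (μ : Chain M (n + 1)), IsFund μ → IsURC μ →
    ∃ q : ℕ, 0 < q ∧ IsUniform.{u} μ q

end MPb00168
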