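import Pool.Agent.Lib.MP_b00168_gt.Defs
import Pool.Agent.Lib.MP_b00168_gt.Spec

section
set_option autoImplicit false

/-! # MP_b00168_gt : basic API -/

namespace MPb00168

open Finset

universe u v w

section Sing

variable {X : Type u} {Y : Type v} {Z : Type w} [TopologicalSpace X] [TopologicalSpace Y]
  [TopologicalSpace Z]

@[simp] lemma bd_single {k : ℕ} (σ : Sing X (k + 1)) (a : ℤ) :
    bd (Finsupp.single σ a) =
      a • ∑ i : Fin (k + 2), (-1 : ℤ) ^ (i : ℕ) • Finsupp.single (face i σ) (1 : ℤ) := by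
  simp [bd]

@[simp] lemma push_single (f : C(X, Y)) {k : ℕ} (σ : Sing X k) (a : ℤ) :
    push f (Finsupp.single σ a) = Finsupp.single (f.comp σ) a := by
  simp [push, Finsupp.lmapDomain_apply, Finsupp.mapDomain_single]

lemma face_comp (f : C(X, Y)) {k : ℕ} (i : Fin (k + 2)) (σ : Sing X (k + 1)) :
    face i (f.comp σ) = f.comp (face i σ) := rfl

lemma linext {M : Type*} [AddCommGroup M] {α : Type*} {f g : (α →₀ ℤ) →ₗ[ℤ] M}
    (h : ∀ x, f (Finsupp.single x 1) = g (Finsupp.single x 1)) : f = g := by
  apply Finsupp.lhom_ext'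
  intro x
  apply LinearMap.ext_ring
  exact h x

lemma linext_apply {M : Type*} [AddCommGroup M] {α : Type*} {f g : (α →₀ ℤ) →ₗ[ℤ] M}
    (h : ∀ x, f (Finsupp.single x 1) = g (Finsupp.single x 1)) (c : α →₀ ℤ) : f c = g c := by
  rw [linext h]

/-- Linear maps which agree on the support agree on the chain. -/
lemma lin_congr {M : Type*} [AddCommGroup M] {α : Type*} {f g : (α →₀ ℤ) →ₗ[ℤ] M} (c : α →₀ ℤ)
    (h : ∀ x ∈ c.support, f (Finsupp.single x 1) = g (Finsupp.single x 1)) : f c = g c := by
  have key : ∀ φ : (α →₀ ℤ) →ₗ[ℤ] M, φ c = ∑ x ∈ c.support, c x • φ (Finsupp.single x 1) := by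
    intro φ
    conv_lhs => rw [← Finsupp.sum_single c]
    rw [Finsupp.sum, map_sum]
    refine Finset.sum_congr rfl fun x _ => ?_
    rw [← map_smul, Finsupp.smul_single, smul_eq_mul, mul_one]
  rw [key f, key g]
  exact Finset.sum_congr rfl fun x hx => by rw [h x hx]

/-- The value of a linear map on a chain as a sum over the support. -/
lemma lin_eq_sum {M : Type*} [AddCommGroup M] {α : Type*} (φ : (α →₀ ℤ) →ₗ[ℤ] M) (c : α →₀ ℤ) :
    φ c = ∑ x ∈ c.support, c x • φ (Finsupp.single x 1) := by
  conv_lhs => rw [← Finsupp.sum_single c]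
  rw [Finsupp.sum, map_sum]
  refine Finset.sum_congr rfl fun x _ => ?_
  rw [← map_smul, Finsupp.smul_single, smul_eq_mul, mul_one]

/-- If all `φ (single x 1)` have support in `A` for `x` in the support of `c`, then so has
`φ c`. -/
lemma mem_support_lin {α β : Type*} (φ : (α →₀ ℤ) →ₗ[ℤ] (β →₀ ℤ)) (c : α →₀ ℤ) {y : β}
    (hy : y ∈ (φ c).support) : ∃ x ∈ c.support, y ∈ (φ (Finsupp.single x 1)).support := by
  classical
  by_contra hcon
  push Not at hcon
  rw [Finsupp.mem_support_iff] at hy
  apply hy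
  rw [lin_eq_sum φ c, Finsupp.finsetSum_apply]
  refine Finset.sum_eq_zero fun x hx => ?_
  have := hcon x hx
  rw [Finsupp.notMem_support_iff] at this
  simp [this]

lemma push_bd (f : C(X, Y)) {k : ℕ} (c : Chain X (k + 1)) : push f (bd c) = bd (push f c) := by
  have := linext_apply (f := (push f).comp bd) (g := bd.comp (push f)) (c := c) (by
    intro σ
    simp [map_sum, face_comp])
  simpa using this

lemma push_comp (g : C(Y, Z)) (f : C(X, Y)) {k : ℕ} (c : Chain X k) :
    push (g.comp f) c = push g (push f c) := by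
  have := linext_apply (f := push (g.comp f)) (g := (push g).comp (push f)) (c := c) (by
    intro σ
    simp [ContinuousMap.comp_assoc])
  simpa using this

@[simp] lemma push_id {k : ℕ} (c : Chain X k) : push (ContinuousMap.id X) c = c := by
  have := linext_apply (f := push (ContinuousMap.id X)) (g := LinearMap.id) (c := c) (by
    intro σ
    simp)
  simpa using this

lemma faceMap_faceMap {k : ℕ} (i : Fin (k + 3)) (j : Fin (k + 2)) :
    (faceMap (k + 1) i).comp (faceMap k j) =
      (faceMap (k + 1) (i.succAbove j)).comp (faceMap k (j.predAbove i)) := by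
  ext t x
  have e : ((i.succAbove) ∘ (j.succAbove)) =
      ((i.succAbove j).succAbove) ∘ ((j.predAbove i).succAbove) := by
    funext m
    simp only [Function.comp_apply]
    exact (Fin.succAbove_succAbove_succAbove_predAbove i j m).symm
  have h1 : ∀ (a : Fin (k + 2) → Fin (k + 3)) (b : Fin (k + 1) → Fin (k + 2)),
      stdSimplex.map a (stdSimplex.map b t) = stdSimplex.map (a ∘ b) t := by
    intro a b
    exact stdSimplex.map_comp_apply b a t
  simp only [faceMap, ContinuousMap.comp_apply, ContinuousMap.coe_mk, h1, e]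

/-- The alternating double sum of faces of faces vanishes. -/
lemma alt_sum_zero {M : Type*} [AddCommGroup M] {k : ℕ} (g : Fin (k + 3) → Fin (k + 2) → M)
    (h : ∀ i j, g i j = g (i.succAbove j) (j.predAbove i)) :
    ∑ i : Fin (k + 3), ∑ j : Fin (k + 2), ((-1 : ℤ) ^ (i : ℕ) * (-1) ^ (j : ℕ)) • g i j = 0 := by
  rw [← Finset.sum_product']
  refine Finset.sum_involution (fun a _ => (a.1.succAbove a.2, a.2.predAbove a.1)) ?_ ?_ ?_ ?_
  · rintro ⟨i, j⟩ -
    simp only
    rw [← h i j, ← add_smul, ← pow_add, ← pow_add, Fin.neg_one_pow_succAbove_add_predAbove]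
    simp
  · rintro ⟨i, j⟩ - - heq
    exact Fin.succAbove_ne i j (congrArg Prod.fst heq)
  · intro a _; exact Finset.mem_univ _
  · rintro ⟨i, j⟩ -
    simp only [Fin.succAbove_succAbove_predAbove, Fin.predAbove_predAbove_succAbove]

lemma bd_bd {k : ℕ} (c : Chain X (k + 2)) : bd (bd c) = 0 := by
  have := linext_apply (f := bd.comp bd) (g := (0 : Chain X (k + 2) →ₗ[ℤ] Chain X k)) (c := c) (by
    intro σ
    have := alt_sum_zero (fun (i : Fin (k + 3)) (j : Fin (k + 2)) =>
      (Finsupp.single (face j (face i σ)) (1 : ℤ) : Chain X k)) (by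
        intro i j
        congr 1
        unfold face
        rw [ContinuousMap.comp_assoc, faceMap_faceMap, ← ContinuousMap.comp_assoc])
    simp only [LinearMap.comp_apply, bd_single, map_sum, LinearMap.zero_apply, map_smul,
      Finset.smul_sum, smul_smul, one_mul]
    exact this)
  simpa using this

namespace Homologous

variable {k : ℕ} {c c' c'' : Chain X k}

lemma refl (c : Chain X k) : Homologous c c := ⟨0, by simp⟩

lemma symm (h : Homologous c c') : Homologous c' c := by
  obtain ⟨b, hb⟩ := h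
  exact ⟨-b, by rw [map_neg, hb]; abel⟩

lemma trans (h : Homologous c c') (h' : Homologous c' c'') : Homologous c c'' := by
  obtain ⟨b, hb⟩ := h
  obtain ⟨b', hb'⟩ := h'
  exact ⟨b + b', by rw [map_add, hb, hb']; abel⟩

lemma add {d d' : Chain X k} (h : Homologous c c') (h' : Homologous d d') :
    Homologous (c + d) (c' + d') := by
  obtain ⟨b, hb⟩ := h
  obtain ⟨b', hb'⟩ := h'
  exact ⟨b + b', by rw [map_add, hb, hb']; abel⟩

lemma smul (a : ℤ) (h : Homologous c c') : Homologous (a • c) (a • c') := by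
  obtain ⟨b, hb⟩ := h
  exact ⟨a • b, by rw [map_smul, hb, smul_sub]⟩

lemma sum {ι : Type*} (s : Finset ι) (f g : ι → Chain X k)
    (h : ∀ i ∈ s, Homologous (f i) (g i)) : Homologous (∑ i ∈ s, f i) (∑ i ∈ s, g i) := by
  classical
  induction s using Finset.induction_on with
  | empty => simpa using Homologous.refl _
  | insert a s ha ih =>
      rw [Finset.sum_insert ha, Finset.sum_insert ha]
      exact (h a (Finset.mem_insert_self a s)).add
        (ih fun i hi => h i (Finset.mem_insert_of_mem hi))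

lemma push (f : C(X, Y)) (h : Homologous c c') :
    Homologous (MPb00168.push f c) (MPb00168.push f c') := by
  obtain ⟨b, hb⟩ := h
  exact ⟨MPb00168.push f b, by rw [← push_bd, hb, map_sub]⟩

lemma of_eq (h : c = c') : Homologous c c' := h ▸ refl c

end Homologous

/-- Homologous chains have the same boundary. -/
lemma Homologous.bd_eq {k : ℕ} {c c' : Chain X (k + 1)} (h : Homologous c c') : bd c = bd c' := by
  obtain ⟨b, hb⟩ := h
  have := congrArg bd hb
  rw [bd_bd, map_sub] at this
  exact (sub_eq_zero.mp this.symm)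

namespace Avoids

variable {k : ℕ} {x : X}

lemma zero : Avoids x (0 : Chain X k) := by intro σ hσ; simp at hσ

lemma add {c d : Chain X k} (hc : Avoids x c) (hd : Avoids x d) : Avoids x (c + d) := by
  classical
  intro σ hσ
  rcases Finset.mem_union.mp (Finsupp.support_add hσ) with h | h
  · exact hc σ h
  · exact hd σ h

lemma neg {c : Chain X k} (hc : Avoids x c) : Avoids x (-c) := by
  intro σ hσ
  rw [Finsupp.support_neg] at hσ
  exact hc σ hσ

lemma sub {c d : Chain X k} (hc : Avoids x c) (hd : Avoids x d) : Avoids x (c - d) := by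
  rw [sub_eq_add_neg]; exact hc.add hd.neg

lemma smul {c : Chain X k} (a : ℤ) (hc : Avoids x c) : Avoids x (a • c) := by
  intro σ hσ
  exact hc σ (Finsupp.support_smul hσ)

lemma sum {ι : Type*} (s : Finset ι) (f : ι → Chain X k) (h : ∀ i ∈ s, Avoids x (f i)) :
    Avoids x (∑ i ∈ s, f i) := by
  classical
  induction s using Finset.induction_on with
  | empty => simpa using zero
  | insert a s ha ih =>
      rw [Finset.sum_insert ha]
      exact (h a (Finset.mem_insert_self a s)).add (ih fun i hi => h i (Finset.mem_insert_of_mem hi))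

lemma bd {c : Chain X (k + 1)} (hc : Avoids x c) : Avoids x (MPb00168.bd c) := by
  intro τ hτ
  obtain ⟨σ, hσ, hτ'⟩ := mem_support_lin MPb00168.bd c hτ
  have hx := hc σ hσ
  have : Avoids x (MPb00168.bd (Finsupp.single σ (1 : ℤ))) := by
    rw [bd_single, one_smul]
    refine Avoids.sum _ _ fun i _ => Avoids.smul _ ?_
    intro ρ hρ
    have : ρ = face i σ := by
      have := Finsupp.support_single_subset hρ
      simpa using this
    subst this
    rintro ⟨t, ht⟩
    exact hx ⟨_, ht⟩
  exact this τ hτ'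

end Avoids

@[simp] lemma SdS_single {n : ℕ} (σ : Sing X n) (a : ℤ) :
    SdS (Finsupp.single σ a) = a • ∑ F : Flag n, F.sgn •
      Finsupp.single (σ.comp (affD (lab baryD F (vertsD n)))) (1 : ℤ) := by
  simp [SdS]

lemma push_SdS (f : C(X, Y)) {n : ℕ} (c : Chain X n) : push f (SdS c) = SdS (push f c) := by
  have := linext_apply (f := (push f).comp SdS) (g := SdS.comp (push f)) (c := c) (by
    intro σ
    simp [map_sum, ContinuousMap.comp_assoc])
  simpa using this

end Sing

section Tuples

variable {E : Type u} {E' : Type v} {E'' : Type w}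

@[simp] lemma bdT_single {k : ℕ} (x : Tup E (k + 1)) (a : ℤ) :
    bdT (Finsupp.single x a) =
      a • ∑ i : Fin (k + 2), (-1 : ℤ) ^ (i : ℕ) • Finsupp.single (x ∘ i.succAbove) (1 : ℤ) := by
  simp [bdT]

@[simp] lemma mapT_single (f : E → E') {k : ℕ} (x : Tup E k) (a : ℤ) :
    mapT f (Finsupp.single x a) = Finsupp.single (f ∘ x) a := by
  simp [mapT, Finsupp.lmapDomain_apply, Finsupp.mapDomain_single]

lemma mapT_bdT (f : E → E') {k : ℕ} (c : Tup E (k + 1) →₀ ℤ) : mapT f (bdT c) = bdT (mapT f c) := by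
  have := linext_apply (f := (mapT f).comp bdT) (g := bdT.comp (mapT f)) (c := c) (by
    intro σ
    simp [map_sum, Function.comp_assoc])
  simpa using this

lemma mapT_comp (g : E' → E'') (f : E → E') {k : ℕ} (c : Tup E k →₀ ℤ) :
    mapT (g ∘ f) c = mapT g (mapT f c) := by
  have := linext_apply (f := mapT (g ∘ f)) (g := (mapT g).comp (mapT f)) (c := c) (by
    intro σ
    simp [Function.comp_assoc])
  simpa using this

@[simp] lemma mapT_id {k : ℕ} (c : Tup E k →₀ ℤ) : mapT (id : E → E) c = c := by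
  have := linext_apply (f := mapT (id : E → E)) (g := LinearMap.id) (c := c) (by
    intro σ
    simp)
  simpa using this

lemma bdT_bdT {k : ℕ} (c : Tup E (k + 2) →₀ ℤ) : bdT (bdT c) = 0 := by
  have := linext_apply (f := bdT.comp bdT)
    (g := (0 : (Tup E (k + 2) →₀ ℤ) →ₗ[ℤ] (Tup E k →₀ ℤ))) (c := c) (by
    intro x
    have := alt_sum_zero (fun (i : Fin (k + 3)) (j : Fin (k + 2)) =>
      (Finsupp.single ((x ∘ i.succAbove) ∘ j.succAbove) (1 : ℤ) : Tup E k →₀ ℤ)) (by
        intro i j
        congr 1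
        funext m
        simp only [Function.comp_apply]
        rw [Fin.succAbove_succAbove_succAbove_predAbove])
    simp only [LinearMap.comp_apply, bdT_single, map_sum, LinearMap.zero_apply, map_smul,
      Finset.smul_sum, smul_smul, one_mul]
    exact this)
  simpa using this

@[simp] lemma Sd_single (L : ∀ k, Tup E k → E') {n : ℕ} (x : Tup E n) (a : ℤ) :
    Sd L (Finsupp.single x a) =
      a • ∑ F : Flag n, F.sgn • Finsupp.single (lab L F x) (1 : ℤ) := by
  simp [Sd]

@[simp] lemma snocT_single (b : E) {n : ℕ} (x : Tup E n) (a : ℤ) :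
    snocT b (Finsupp.single x a) =
      Finsupp.single (Fin.snoc (α := fun _ => E) x b : Tup E (n + 1)) a := by
  simp [snocT, Finsupp.lmapDomain_apply, Finsupp.mapDomain_single]

variable {F : Type u} [AddCommGroup F] [Module ℝ F] [TopologicalSpace F]
    [ContinuousAdd F] [ContinuousSMul ℝ F]

@[simp] lemma affS_single {k : ℕ} (x : Tup F k) (a : ℤ) :
    affS (Finsupp.single x a) = Finsupp.single (aff x) a := by
  simp [affS, Finsupp.lmapDomain_apply, Finsupp.mapDomain_single]

lemma faceMap_apply {k : ℕ} (i : Fin (k + 2)) (t : stdSimplex ℝ (Fin (k + 1))) (j : Fin (k + 1)) :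
    (faceMap k i t : Fin (k + 2) → ℝ) (i.succAbove j) = (t : Fin (k + 1) → ℝ) j := by
  classical
  have : (faceMap k i t : Fin (k + 2) → ℝ) (i.succAbove j) =
      ∑ m : Fin (k + 1) with i.succAbove m = i.succAbove j, (t : Fin (k + 1) → ℝ) m := by
    simp only [faceMap, ContinuousMap.coe_mk]
    rw [show (stdSimplex.map i.succAbove t : Fin (k + 2) → ℝ) =
      FunOnFinite.linearMap ℝ ℝ i.succAbove (t : Fin (k + 1) → ℝ) from stdSimplex.map_coe _ _]
    rw [FunOnFinite.linearMap_apply_apply]
  rw [this]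
  have h2 : (Finset.univ.filter fun m : Fin (k + 1) => i.succAbove m = i.succAbove j) = {j} := by
    ext m
    simp [Fin.succAbove_right_injective.eq_iff]
  rw [h2, Finset.sum_singleton]

lemma faceMap_apply_self {k : ℕ} (i : Fin (k + 2)) (t : stdSimplex ℝ (Fin (k + 1))) :
    (faceMap k i t : Fin (k + 2) → ℝ) i = 0 := by
  classical
  have : (faceMap k i t : Fin (k + 2) → ℝ) i =
      ∑ m : Fin (k + 1) with i.succAbove m = i, (t : Fin (k + 1) → ℝ) m := by
    simp only [faceMap, ContinuousMap.coe_mk]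
    rw [show (stdSimplex.map i.succAbove t : Fin (k + 2) → ℝ) =
      FunOnFinite.linearMap ℝ ℝ i.succAbove (t : Fin (k + 1) → ℝ) from stdSimplex.map_coe _ _]
    rw [FunOnFinite.linearMap_apply_apply]
  rw [this]
  have h2 : (Finset.univ.filter fun m : Fin (k + 1) => i.succAbove m = i) = ∅ := by
    ext m
    simp [Fin.succAbove_ne]
  rw [h2, Finset.sum_empty]

lemma face_aff {k : ℕ} (i : Fin (k + 2)) (x : Tup F (k + 1)) :
    face i (aff x) = aff (x ∘ i.succAbove) := by
  ext t
  simp only [face, aff, ContinuousMap.comp_apply, ContinuousMap.coe_mk]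
  rw [Fin.sum_univ_succAbove _ i, faceMap_apply_self, zero_smul, zero_add]
  exact Finset.sum_congr rfl fun j _ => by rw [faceMap_apply]; rfl

lemma affS_bdT {k : ℕ} (c : Tup F (k + 1) →₀ ℤ) : affS (bdT c) = bd (affS c) := by
  have := linext_apply (f := affS.comp bdT) (g := bd.comp affS) (c := c) (by
    intro σ
    simp [map_sum, face_aff])
  simpa using this

end Tuples

section Affine

lemma face_affD {k n : ℕ} (i : Fin (k + 2)) (x : Tup (stdSimplex ℝ (Fin (n + 1))) (k + 1)) :
    (affD x).comp (faceMap k i) = affD (x ∘ i.succAbove) := by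
  ext t m
  simp only [affD, ContinuousMap.comp_apply, ContinuousMap.coe_mk]
  change (∑ j, (faceMap k i t : Fin (k + 2) → ℝ) j • (x j : Fin (n + 1) → ℝ)) m =
    (∑ j, (t : Fin (k + 1) → ℝ) j • ((x ∘ i.succAbove) j : Fin (n + 1) → ℝ)) m
  rw [Fin.sum_univ_succAbove _ i, faceMap_apply_self, zero_smul, zero_add]
  refine congrFun (Finset.sum_congr rfl fun j _ => ?_) m
  rw [faceMap_apply]; rfl

lemma affD_vertsD (n : ℕ) : affD (vertsD n) = ContinuousMap.id _ := by
  ext t m
  simp only [affD, ContinuousMap.coe_mk, ContinuousMap.id_apply]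
  change (∑ j, (t : Fin (n + 1) → ℝ) j • (Pi.single j 1 : Fin (n + 1) → ℝ)) m =
    (t : Fin (n + 1) → ℝ) m
  rw [Finset.sum_apply]
  simp [Pi.single_apply]

end Affine

namespace Colored

variable {n : ℕ} {S : Type} (C : Colored n S)

@[simp] lemma act_nil (s : S) : C.act [] s = s := rfl

@[simp] lemma act_cons (i : Fin (n + 2)) (w : List (Fin (n + 2))) (s : S) :
    C.act (i :: w) s = C.a i (C.act w s) := rfl

lemma act_append (w w' : List (Fin (n + 2))) (s : S) :
    C.act (w ++ w') s = C.act w (C.act w' s) := by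
  simp [act, List.foldr_append]

lemma act_reverse_act (w : List (Fin (n + 2))) (s : S) : C.act w.reverse (C.act w s) = s := by
  induction w generalizing s with
  | nil => rfl
  | cons i w ih =>
      rw [List.reverse_cons, act_append, act_cons, act_cons, act_nil, C.inv, ih]

lemma act_injective (w : List (Fin (n + 2))) : Function.Injective (C.act w) :=
  Function.LeftInverse.injective (C.act_reverse_act w)

lemma ε_act (w : List (Fin (n + 2))) (s : S) : C.ε (C.act w s) = (-1) ^ w.length * C.ε s := by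
  induction w with
  | nil => simp
  | cons i w ih => rw [act_cons, C.flip, ih, List.length_cons, pow_succ]; ring

lemma a_ne (i : Fin (n + 2)) (s : S) : C.a i s ≠ s := by
  intro h
  have h1 := C.flip i s
  rw [h] at h1
  rcases C.unit s with h2 | h2 <;> rw [h2] at h1 <;> omega

lemma self_mem_cell (J : Finset (Fin (n + 2))) (s : S) : s ∈ C.cell J s :=
  ⟨[], by simp, rfl⟩

lemma cell_eq_of_mem {J : Finset (Fin (n + 2))} {s t : S} (h : t ∈ C.cell J s) :
    C.cell J t = C.cell J s := by
  obtain ⟨w, hw, rfl⟩ := h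
  ext r
  constructor
  · rintro ⟨w', hw', rfl⟩
    refine ⟨w' ++ w, ?_, by rw [act_append]⟩
    intro i hi
    rcases List.mem_append.mp hi with h | h
    · exact hw' i h
    · exact hw i h
  · rintro ⟨w', hw', rfl⟩
    refine ⟨w' ++ w.reverse, ?_, by rw [act_append, act_reverse_act]⟩
    intro i hi
    rcases List.mem_append.mp hi with h | h
    · exact hw' i h
    · exact hw i (List.mem_reverse.mp h)

lemma cell_a {J : Finset (Fin (n + 2))} {i : Fin (n + 2)} (hi : i ∉ J) (s : S) :
    C.cell J (C.a i s) = C.cell J s :=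
  C.cell_eq_of_mem ⟨[i], by simpa using hi, rfl⟩

lemma cell_anti {J J' : Finset (Fin (n + 2))} (h : J ⊆ J') (s : S) : C.cell J' s ⊆ C.cell J s := by
  rintro _ ⟨w, hw, rfl⟩
  exact ⟨w, fun i hi hJ => hw i hi (h hJ), rfl⟩

lemma cell_univ (s : S) : C.cell Finset.univ s = {s} := by
  ext t
  simp only [Set.mem_singleton_iff]
  constructor
  · rintro ⟨w, hw, rfl⟩
    cases w with
    | nil => rfl
    | cons i w => exact absurd (Finset.mem_univ i) (hw i (by simp))
  · rintro rfl; exact C.self_mem_cell _ _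

lemma cellOf_le {J J' : Finset (Fin (n + 2))} (hJ : J.Nonempty) (hJ' : J'.Nonempty) (h : J ⊆ J')
    (s : S) : C.cellOf J hJ s ≤ C.cellOf J' hJ' s := by
  refine ⟨h, ?_⟩
  exact C.cell_anti h s

end Colored

end MPb00168
end

section
set_option autoImplicit false

/-! # MP_b00168_gt : module TRANSFER -/

namespace MPb00168

namespace Transfer

open Finset

instance simply (k : ℕ) : SimplyConnectedSpace (stdSimplex ℝ (Fin (k + 1))) := by
  have : ContractibleSpace (stdSimplex ℝ (Fin (k + 1))) :=
    (convex_stdSimplex ℝ (Fin (k + 1))).contractibleSpace ⟨_, (vertsD k 0).2⟩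
  infer_instance

instance locpc (k : ℕ) : LocallyPathConnectedSpace (stdSimplex ℝ (Fin (k + 1))) :=
  (convex_stdSimplex ℝ (Fin (k + 1))).locallyPathConnectedSpace

variable {T M : Type} [TopologicalSpace T] [TopologicalSpace M]

/-- Evaluation at a point is a bijection from the lifts to the fibre. -/
lemma lifts_bij (p : C(T, M)) (hp : IsCoveringMap p) {k : ℕ} (σ : Sing M k)
    (t₀ : stdSimplex ℝ (Fin (k + 1))) :
    Set.BijOn (fun τ : Sing T k => τ t₀) (liftsOf p σ) (p ⁻¹' {σ t₀}) := by
  refine ⟨?_, ?_, ?_⟩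
  · intro τ hτ
    have h : p.comp τ = σ := hτ
    change p (τ t₀) = σ t₀
    rw [← h]; rfl
  · intro τ hτ τ' hτ' he
    have h : p.comp τ = σ := hτ
    have h' : p.comp τ' = σ := hτ'
    have he' : τ t₀ = τ' t₀ := he
    have hpt : p (τ t₀) = σ t₀ := by rw [← h]; rfl
    obtain ⟨G, -, hG⟩ := hp.existsUnique_continuousMap_lifts σ t₀ (τ t₀) hpt
    have h1 : τ = G := hG τ ⟨rfl, by rw [← h]; rfl⟩
    have h2 : τ' = G := hG τ' ⟨he'.symm, by rw [← h']; rfl⟩
    rw [h1, h2]
  · intro e he
    have hpt : p e = σ t₀ := he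
    obtain ⟨G, ⟨hG1, hG2⟩, -⟩ := hp.existsUnique_continuousMap_lifts σ t₀ e hpt
    refine ⟨G, ?_, hG1⟩
    change p.comp G = σ
    ext t
    exact congrFun hG2 t

/-- Precomposition is a bijection between lifts. -/
lemma comp_bij (p : C(T, M)) (hp : IsCoveringMap p) {k m : ℕ} (σ : Sing M k)
    (α : C(stdSimplex ℝ (Fin (m + 1)), stdSimplex ℝ (Fin (k + 1)))) :
    Set.BijOn (fun τ : Sing T k => (τ.comp α : Sing T m)) (liftsOf p σ)
      (liftsOf p (σ.comp α : Sing M m)) := by
  have t₀ : stdSimplex ℝ (Fin (m + 1)) := vertsD m 0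
  refine ⟨?_, ?_, ?_⟩
  · intro τ hτ
    have h : p.comp τ = σ := hτ
    change p.comp (τ.comp α) = σ.comp α
    rw [← h]; rfl
  · intro τ hτ τ' hτ' he
    refine (lifts_bij p hp σ (α t₀)).injOn hτ hτ' ?_
    exact congrArg (fun g : Sing T m => g t₀) he
  · intro ρ hρ
    have h : p.comp ρ = σ.comp α := hρ
    have hm : ρ t₀ ∈ p ⁻¹' {σ (α t₀)} := by
      change p (ρ t₀) = σ (α t₀)
      exact congrArg (fun g : Sing M m => g t₀) h
    obtain ⟨τ, hτ, hτe⟩ := (lifts_bij p hp σ (α t₀)).surjOn hm
    refine ⟨τ, hτ, ?_⟩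
    refine (lifts_bij p hp (σ.comp α : Sing M m) t₀).injOn ?_ hρ hτe
    have h' : p.comp τ = σ := hτ
    change p.comp (τ.comp α) = σ.comp α
    rw [← h']; rfl

lemma lifts_finite (p : C(T, M)) (hp : IsCoveringMap p) (hf : ∀ x, (p ⁻¹' {x}).Finite) {k : ℕ}
    (σ : Sing M k) : (liftsOf p σ).Finite :=
  (lifts_bij p hp σ (vertsD k 0)).finite_iff_finite.mpr (hf _)

lemma transfer_single (p : C(T, M)) {k : ℕ} (σ : Sing M k) (h : (liftsOf p σ).Finite) (a : ℤ) :
    transfer p (Finsupp.single σ a) = a • ∑ τ ∈ h.toFinset, Finsupp.single τ (1 : ℤ) := by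
  simp [transfer, h]

lemma sum_comp (p : C(T, M)) (hp : IsCoveringMap p) {k m : ℕ} (σ : Sing M k)
    (α : C(stdSimplex ℝ (Fin (m + 1)), stdSimplex ℝ (Fin (k + 1))))
    (h : (liftsOf p σ).Finite) (h' : (liftsOf p (σ.comp α : Sing M m)).Finite) :
    ∑ τ ∈ h.toFinset, Finsupp.single (τ.comp α : Sing T m) (1 : ℤ) =
      ∑ τ ∈ h'.toFinset, Finsupp.single τ (1 : ℤ) := by
  have hb := comp_bij p hp σ α
  refine Finset.sum_nbij (fun τ : Sing T k => (τ.comp α : Sing T m)) ?_ ?_ ?_ ?_
  · intro τ hτ
    rw [Set.Finite.mem_toFinset] at hτ ⊢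
    exact hb.mapsTo hτ
  · intro τ hτ τ' hτ' he
    rw [Set.Finite.coe_toFinset] at hτ hτ'
    exact hb.injOn hτ hτ' he
  · intro τ hτ
    rw [Set.Finite.coe_toFinset] at hτ
    obtain ⟨ρ, hρ, hρe⟩ := hb.surjOn hτ
    exact ⟨ρ, by rwa [Set.Finite.coe_toFinset], hρe⟩
  · intro τ _; rfl

end Transfer

open Transfer in
theorem specTransfer : SpecTransfer := by
  intro T M _ _ p hp hf
  have hfin : ∀ (k : ℕ) (σ : Sing M k), (liftsOf p σ).Finite :=
    fun k σ => lifts_finite p hp hf σ
  refine ⟨hfin, ?_, ?_, ?_⟩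
  · intro k c
    have := linext_apply (f := bd.comp (transfer p)) (g := (transfer p).comp bd) (c := c) (by
      intro σ
      rw [LinearMap.comp_apply, LinearMap.comp_apply, transfer_single p σ (hfin _ σ), bd_single,
        one_smul, one_smul, map_sum, map_sum]
      simp only [bd_single, one_smul]
      rw [Finset.sum_comm]
      refine Finset.sum_congr rfl fun i _ => ?_
      rw [← Finset.smul_sum, map_smul, transfer_single p _ (hfin _ _), one_smul]
      congr 1
      exact sum_comp p hp σ (faceMap k i) (hfin _ _) (hfin _ _))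
    simpa using this
  · intro k c
    have := linext_apply (f := SdS.comp (transfer p)) (g := (transfer p).comp SdS) (c := c) (by
      intro σ
      rw [LinearMap.comp_apply, LinearMap.comp_apply, transfer_single p σ (hfin _ σ), SdS_single,
        one_smul, one_smul, map_sum, map_sum]
      simp only [SdS_single, one_smul]
      rw [Finset.sum_comm]
      refine Finset.sum_congr rfl fun i _ => ?_
      rw [← Finset.smul_sum, map_smul, transfer_single p _ (hfin _ _), one_smul]
      congr 1
      exact sum_comp p hp σ _ (hfin _ _) (hfin _ _))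
    simpa using this
  · intro d hd k c
    have := linext_apply (f := (push p).comp (transfer p)) (g := (d : ℤ) • LinearMap.id)
      (c := c) (by
      intro σ
      rw [LinearMap.comp_apply, transfer_single p σ (hfin _ σ), one_smul, map_sum]
      have h1 : ∀ τ ∈ (hfin _ σ).toFinset, push p (Finsupp.single τ (1 : ℤ)) =
          Finsupp.single σ 1 := by
        intro τ hτ
        rw [Set.Finite.mem_toFinset] at hτ
        have h : p.comp τ = σ := hτ
        rw [push_single, h]
      rw [Finset.sum_congr rfl h1, Finset.sum_const]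
      have h2 : (hfin _ σ).toFinset.card = d := by
        rw [← Set.ncard_eq_toFinset_card _ (hfin _ σ), ← hd (σ (vertsD k 0))]
        have hb := lifts_bij p hp σ (vertsD k 0)
        rw [← hb.image_eq]
        exact hb.injOn.ncard_image.symm
      rw [h2]
      simp)
    simpa using this

end MPb00168
end
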