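import Pool.Agent.Lib.MP_b00168_gt.Spec

set_option autoImplicit false

/-!
# MP_b00168_gt : module SDT (subdivision of tuple chains)
-/

namespace MPb00168

universe u v

namespace SDT

open Finset

variable {E : Type u} {E' : Type v}

lemma bdT_single {k : ℕ} (x : Tup E (k + 1)) (a : ℤ) :
    bdT (Finsupp.single x a) =
      a • ∑ i : Fin (k + 2), (-1 : ℤ) ^ (i : ℕ) • Finsupp.single (x ∘ i.succAbove) (1 : ℤ) := by
  simp [bdT, Finsupp.linearCombination_single]

lemma single_eq_smul {A : Type u} (x : A) (a : ℤ) :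
    Finsupp.single x a = a • Finsupp.single x (1 : ℤ) := by
  simp

/-- Induction: two linear maps agreeing on the basis. -/
lemma lin_ext {A : Type u} {N : Type v} [AddCommGroup N] {f g : (A →₀ ℤ) →ₗ[ℤ] N}
    (h : ∀ x, f (Finsupp.single x 1) = g (Finsupp.single x 1)) : f = g := by
  refine Finsupp.lhom_ext fun x a => ?_
  rw [single_eq_smul, map_smul, map_smul, h]

lemma sum_pair_zero {A : Type u} [AddCommGroup A] {n : ℕ} (f : Fin (n + 2) → Fin (n + 1) → A)
    (h : ∀ i j, f (i.succAbove j) (j.predAbove i) = -f i j) : ∑ i, ∑ j, f i j = 0 := by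
  rw [← Finset.sum_product']
  refine Finset.sum_involution
    (fun (ij : Fin (n + 2) × Fin (n + 1)) _ => (ij.1.succAbove ij.2, ij.2.predAbove ij.1)) ?_ ?_ ?_ ?_
  · rintro ⟨i, j⟩ _
    simp only [h]
    abel
  · rintro ⟨i, j⟩ _ _ he
    exact (Fin.succAbove_ne i j) (congrArg Prod.fst he)
  · rintro ⟨i, j⟩ _
    simp
  · rintro ⟨i, j⟩ _
    exact Prod.ext (Fin.succAbove_succAbove_predAbove i j) (Fin.predAbove_predAbove_succAbove i j)

lemma bdT_bdT {k : ℕ} (c : Tup E (k + 2) →₀ ℤ) : bdT (bdT c) = 0 := by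
  have : (bdT.comp bdT : (Tup E (k + 2) →₀ ℤ) →ₗ[ℤ] (Tup E k →₀ ℤ)) = 0 := by
    refine lin_ext fun x => ?_
    rw [LinearMap.comp_apply, bdT_single, one_smul, map_sum]
    simp_rw [map_smul, bdT_single, one_smul, Finset.smul_sum]
    rw [LinearMap.zero_apply]
    refine sum_pair_zero _ fun i j => ?_
    have h1 : (x ∘ (i.succAbove j).succAbove) ∘ (j.predAbove i).succAbove =
        (x ∘ i.succAbove) ∘ j.succAbove := by
      funext l
      simp only [Function.comp_apply]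
      rw [Fin.succAbove_succAbove_succAbove_predAbove]
    rw [h1, smul_smul, smul_smul, ← pow_add, ← pow_add, Fin.neg_one_pow_succAbove_add_predAbove,
      neg_smul]
  exact LinearMap.congr_fun this c

/-- The augmentation. -/
noncomputable def aug {A : Type u} : (A →₀ ℤ) →ₗ[ℤ] ℤ :=
  Finsupp.linearCombination ℤ fun _ => (1 : ℤ)

lemma aug_single {A : Type u} (x : A) (a : ℤ) : aug (Finsupp.single x a) = a := by
  simp [aug]

lemma aug_bdT (c : Tup E 1 →₀ ℤ) : aug (bdT c) = 0 := by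
  have : (aug.comp bdT : (Tup E 1 →₀ ℤ) →ₗ[ℤ] ℤ) = 0 := by
    refine lin_ext fun x => ?_
    rw [LinearMap.comp_apply, bdT_single, one_smul, map_sum]
    simp [aug_single, Fin.sum_univ_succ]
  exact LinearMap.congr_fun this c

lemma snocT_single (b : E) {n : ℕ} (x : Tup E n) (a : ℤ) :
    snocT b (Finsupp.single x a) = Finsupp.single (Fin.snoc (α := fun _ => E) x b : Tup E (n + 1)) a := by
  simp [snocT]

lemma mapT_single (f : E → E') {n : ℕ} (x : Tup E n) (a : ℤ) :
    mapT f (Finsupp.single x a) = Finsupp.single (f ∘ x) a := by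
  simp [mapT]

lemma snoc_comp_castSucc_succAbove {n : ℕ} (x : Tup E (n + 1)) (b : E) (i : Fin (n + 2)) :
    (Fin.snoc (α := fun _ => E) x b : Tup E (n + 2)) ∘ (i.castSucc).succAbove =
      (Fin.snoc (α := fun _ => E) (x ∘ i.succAbove) b : Tup E (n + 1)) := by
  funext l
  refine Fin.lastCases ?_ (fun l => ?_) l
  · simp
  · simp [Fin.castSucc_succAbove_castSucc]

lemma snoc_comp_last_succAbove {n : ℕ} (x : Tup E n) (b : E) :
    (Fin.snoc (α := fun _ => E) x b : Tup E (n + 1)) ∘ (Fin.last (n + 1)).succAbove = x := by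
  funext l
  simp

lemma bdT_snocT {n : ℕ} (b : E) (c : Tup E (n + 1) →₀ ℤ) :
    bdT (snocT b c) = snocT b (bdT c) + (-1 : ℤ) ^ (n + 2) • c := by
  have : (bdT.comp (snocT b) : (Tup E (n + 1) →₀ ℤ) →ₗ[ℤ] (Tup E (n + 1) →₀ ℤ)) =
      (snocT b).comp bdT + (-1 : ℤ) ^ (n + 2) • LinearMap.id := by
    refine lin_ext fun x => ?_
    rw [LinearMap.comp_apply, snocT_single, bdT_single, one_smul, Fin.sum_univ_castSucc,
      LinearMap.add_apply, LinearMap.comp_apply, bdT_single, one_smul, map_sum,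
      LinearMap.smul_apply, LinearMap.id_apply]
    congr 1
    · refine Finset.sum_congr rfl fun i _ => ?_
      rw [snoc_comp_castSucc_succAbove, map_smul, snocT_single]
      simp
    · rw [snoc_comp_last_succAbove]
      simp
  exact LinearMap.congr_fun this c

lemma bdT_snocT_zero (b : E) (c : Tup E 0 →₀ ℤ) :
    bdT (snocT b c) = aug c • Finsupp.single (fun _ => b) (1 : ℤ) - c := by
  have : (bdT.comp (snocT b) : (Tup E 0 →₀ ℤ) →ₗ[ℤ] (Tup E 0 →₀ ℤ)) =
      (LinearMap.toSpanSingleton ℤ _ (Finsupp.single (fun _ => b) (1 : ℤ))).comp aug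
        - LinearMap.id := by
    refine lin_ext fun x => ?_
    rw [LinearMap.comp_apply, snocT_single, bdT_single, one_smul, Fin.sum_univ_castSucc,
      LinearMap.sub_apply, LinearMap.comp_apply, aug_single,
      LinearMap.id_apply, snoc_comp_last_succAbove]
    have h1 : (Fin.snoc (α := fun _ => E) x b : Tup E 1) ∘ (Fin.castSucc (0 : Fin 1)).succAbove =
        fun _ => b := by
      funext l
      fin_cases l
      rfl
    simp only [Finset.univ_unique, Finset.sum_singleton, Fin.default_eq_zero,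
      LinearMap.toSpanSingleton_apply, one_smul]
    rw [h1]
    simp [sub_eq_add_neg]
  have h := LinearMap.congr_fun this c
  simpa using h

lemma Sd_single (L : ∀ k, Tup E k → E') {n : ℕ} (x : Tup E n) :
    Sd L (Finsupp.single x (1 : ℤ)) =
      ∑ F : Flag n, F.sgn • Finsupp.single (lab L F x) (1 : ℤ) := by
  simp [Sd, Finsupp.linearCombination_single]

lemma Sd_single_zero (L : ∀ k, Tup E k → E') (x : Tup E 0) :
    Sd L (Finsupp.single x (1 : ℤ)) = Finsupp.single (fun _ => L 0 x) (1 : ℤ) := by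
  rw [Sd_single]
  have : ∀ f : Flag 0 → (Tup E' 0 →₀ ℤ), ∑ F : Flag 0, f F = f (() : Unit) := fun f => by
    exact Fintype.sum_unique (fun F : Unit => f F)
  rw [this]
  simp [Flag.sgn, lab]

lemma sum_flag_succ {N : Type v} [AddCommGroup N] {n : ℕ} (f : Flag (n + 1) → N) :
    ∑ F : Flag (n + 1), f F = ∑ p : Fin (n + 2), ∑ F : Flag n, f (p, F) := by
  exact Fintype.sum_prod_type (f := fun F : Fin (n + 2) × Flag n => f F)

lemma Sd_single_succ (L : ∀ k, Tup E k → E') {n : ℕ} (x : Tup E (n + 1)) :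
    Sd L (Finsupp.single x (1 : ℤ)) =
      (-1 : ℤ) ^ (n + 1) • snocT (L (n + 1) x) (Sd L (bdT (Finsupp.single x (1 : ℤ)))) := by
  rw [Sd_single, sum_flag_succ, bdT_single, one_smul, map_sum, map_sum, Finset.smul_sum]
  refine Finset.sum_congr rfl fun p _ => ?_
  rw [map_smul, Sd_single, Finset.smul_sum, map_sum, Finset.smul_sum]
  refine Finset.sum_congr rfl fun F _ => ?_
  rw [map_smul, map_smul, snocT_single, smul_smul, smul_smul]
  simp only [Flag.sgn, lab]
  rw [pow_add]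

lemma aug_Sd_zero (L : ∀ k, Tup E k → E') (c : Tup E 0 →₀ ℤ) : aug (Sd L c) = aug c := by
  have : (aug.comp (Sd L) : (Tup E 0 →₀ ℤ) →ₗ[ℤ] ℤ) = aug := by
    refine lin_ext fun x => ?_
    rw [LinearMap.comp_apply, Sd_single_zero, aug_single, aug_single]
  exact LinearMap.congr_fun this c

lemma aug_mapT (f : E → E') {n : ℕ} (c : Tup E n →₀ ℤ) : aug (mapT f c) = aug c := by
  have : (aug.comp (mapT f) : (Tup E n →₀ ℤ) →ₗ[ℤ] ℤ) = aug := by
    refine lin_ext fun x => ?_
    rw [LinearMap.comp_apply, mapT_single, aug_single, aug_single]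
  exact LinearMap.congr_fun this c

lemma bdT_mapT (f : E → E') {n : ℕ} (c : Tup E (n + 1) →₀ ℤ) :
    bdT (mapT f c) = mapT f (bdT c) := by
  have : (bdT.comp (mapT f) : (Tup E (n + 1) →₀ ℤ) →ₗ[ℤ] (Tup E' n →₀ ℤ)) =
      (mapT f).comp bdT := by
    refine lin_ext fun x => ?_
    rw [LinearMap.comp_apply, mapT_single, bdT_single, one_smul, LinearMap.comp_apply, bdT_single,
      one_smul, map_sum]
    refine Finset.sum_congr rfl fun i _ => ?_
    rw [map_smul, mapT_single]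
    rfl
  exact LinearMap.congr_fun this c

lemma bdT_Sd (L : ∀ k, Tup E k → E') : ∀ (n : ℕ) (c : Tup E (n + 1) →₀ ℤ),
    bdT (Sd L c) = Sd L (bdT c)
  | 0, c => by
      have : (bdT.comp (Sd L) : (Tup E 1 →₀ ℤ) →ₗ[ℤ] (Tup E' 0 →₀ ℤ)) = (Sd L).comp bdT := by
        refine lin_ext fun x => ?_
        rw [LinearMap.comp_apply, Sd_single_succ, map_smul, bdT_snocT_zero, aug_Sd_zero, aug_bdT,
          LinearMap.comp_apply]
        simp
      exact LinearMap.congr_fun this c
  | n + 1, c => by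
      have : (bdT.comp (Sd L) : (Tup E (n + 2) →₀ ℤ) →ₗ[ℤ] (Tup E' (n + 1) →₀ ℤ)) =
          (Sd L).comp bdT := by
        refine lin_ext fun x => ?_
        rw [LinearMap.comp_apply, Sd_single_succ, map_smul, bdT_snocT, bdT_Sd L n, bdT_bdT,
          map_zero, map_zero, zero_add, smul_smul, ← pow_add, LinearMap.comp_apply]
        have : (-1 : ℤ) ^ (n + 1 + 1 + (n + 2)) = 1 := Even.neg_one_pow ⟨n + 2, by ring⟩
        rw [this, one_smul]
      exact LinearMap.congr_fun this c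

lemma bdT_hT_zero (L : ∀ k, Tup E k → E') (ψ : E → E') (c : Tup E 0 →₀ ℤ) :
    bdT (Finsupp.linearCombination ℤ (hT L ψ 0) c) = Sd L c - mapT ψ c := by
  have : (bdT.comp (Finsupp.linearCombination ℤ (hT L ψ 0)) : (Tup E 0 →₀ ℤ) →ₗ[ℤ] _) =
      Sd L - mapT ψ := by
    refine lin_ext fun x => ?_
    rw [LinearMap.comp_apply, Finsupp.linearCombination_single, one_smul, hT, map_neg,
      bdT_snocT_zero, map_sub, aug_Sd_zero, aug_mapT, sub_self, zero_smul, zero_sub, neg_neg,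
      LinearMap.sub_apply]
  exact LinearMap.congr_fun this c

lemma bdT_hT (L : ∀ k, Tup E k → E') (ψ : E → E') : ∀ (n : ℕ) (c : Tup E (n + 1) →₀ ℤ),
    bdT (Finsupp.linearCombination ℤ (hT L ψ (n + 1)) c) =
      Sd L c - mapT ψ c - Finsupp.linearCombination ℤ (hT L ψ n) (bdT c)
  | n, c => by
      have : (bdT.comp (Finsupp.linearCombination ℤ (hT L ψ (n + 1))) :
          (Tup E (n + 1) →₀ ℤ) →ₗ[ℤ] _) =
          Sd L - mapT ψ - (Finsupp.linearCombination ℤ (hT L ψ n)).comp bdT := by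
        refine lin_ext fun x => ?_
        rw [LinearMap.comp_apply, Finsupp.linearCombination_single, one_smul, hT, map_smul,
          bdT_snocT]
        have hz : bdT (Sd L (Finsupp.single x 1) - mapT ψ (Finsupp.single x 1) -
            Finsupp.linearCombination ℤ (hT L ψ n) (bdT (Finsupp.single x 1))) = 0 := by
          rw [map_sub, map_sub, bdT_Sd, bdT_mapT]
          cases n with
          | zero => rw [bdT_hT_zero, sub_self]
          | succ n =>
            rw [bdT_hT L ψ n, bdT_bdT, map_zero, sub_zero, sub_self]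
        rw [hz, map_zero, zero_add, smul_smul, ← pow_add]
        have : (-1 : ℤ) ^ (n + 2 + (n + 2)) = 1 := Even.neg_one_pow ⟨n + 2, rfl⟩
        rw [this, one_smul]
        rfl
      exact LinearMap.congr_fun this c

/-! ### supports -/

lemma map_mem {A : Type u} {N : Type v} [AddCommGroup N] (f : (A →₀ ℤ) →ₗ[ℤ] N)
    (c : A →₀ ℤ) (S : Submodule ℤ N) (h : ∀ x ∈ c.support, f (Finsupp.single x 1) ∈ S) :
    f c ∈ S := by
  rw [← Finsupp.sum_single c, map_finsuppSum]
  refine Submodule.sum_mem _ fun x hx => ?_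
  change f (Finsupp.single x (c x)) ∈ S
  rw [single_eq_smul, map_smul]
  exact S.smul_mem _ (h x hx)

lemma snocT_mem (b : E) {n : ℕ} (c : Tup E n →₀ ℤ) (A : Set (Tup E n)) (B : Set (Tup E (n + 1)))
    (hc : c ∈ Finsupp.supported ℤ ℤ A)
    (h : ∀ y ∈ A, (Fin.snoc (α := fun _ => E) y b : Tup E (n + 1)) ∈ B) :
    snocT b c ∈ Finsupp.supported ℤ ℤ B := by
  refine map_mem _ _ _ fun x hx => ?_
  rw [snocT_single]
  exact Finsupp.single_mem_supported ℤ _ (h x (hc (by simpa using hx)))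

/-- The tuples with entries labels of subtuples of `x`. -/
def LabSet (L : ∀ k, Tup E k → E') {n : ℕ} (x : Tup E n) (m : ℕ) : Set (Tup E' m) :=
  {y | ∀ j, ∃ (k : ℕ) (θ : Fin (k + 1) → Fin (n + 1)), StrictMono θ ∧ y j = L k (x ∘ θ)}

/-- The tuples with entries labels of subtuples of `x` or images of entries of `x`. -/
def GoodSet (L : ∀ k, Tup E k → E') (ψ : E → E') {n : ℕ} (x : Tup E n) (m : ℕ) : Set (Tup E' m) :=
  {y | ∀ j, (∃ i, y j = ψ (x i)) ∨
    ∃ (k : ℕ) (θ : Fin (k + 1) → Fin (n + 1)), StrictMono θ ∧ y j = L k (x ∘ θ)}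

lemma lab_mem (L : ∀ k, Tup E k → E') : ∀ {n : ℕ} (F : Flag n) (x : Tup E n),
    lab L F x ∈ LabSet L x n
  | 0, F, x, j => ⟨0, id, strictMono_id, rfl⟩
  | n + 1, F, x, j => by
      refine Fin.lastCases ?_ (fun j => ?_) j
      · refine ⟨n + 1, id, strictMono_id, ?_⟩
        simp [lab]
      · obtain ⟨k, θ, hθ, h⟩ := lab_mem L F.2 (x ∘ F.1.succAbove) j
        refine ⟨k, F.1.succAbove ∘ θ, (Fin.strictMono_succAbove F.1).comp hθ, ?_⟩
        simp only [lab, Fin.snoc_castSucc]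
        exact h

lemma Sd_mem (L : ∀ k, Tup E k → E') {n : ℕ} (x : Tup E n) :
    Sd L (Finsupp.single x 1) ∈ Finsupp.supported ℤ ℤ (LabSet L x n) := by
  rw [Sd_single]
  refine Submodule.sum_mem _ fun F _ => Submodule.smul_mem _ _ ?_
  exact Finsupp.single_mem_supported ℤ _ (lab_mem L F x)

lemma labSet_subset_goodSet (L : ∀ k, Tup E k → E') (ψ : E → E') {n : ℕ} (x : Tup E n) (m : ℕ) :
    LabSet L x m ⊆ GoodSet L ψ x m := fun _ hy j => Or.inr (hy j)

lemma snoc_goodSet (L : ∀ k, Tup E k → E') (ψ : E → E') {n : ℕ} (x : Tup E n) {m : ℕ}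
    (y : Tup E' m) (hy : y ∈ GoodSet L ψ x m) :
    (Fin.snoc (α := fun _ => E') y (L n x) : Tup E' (m + 1)) ∈ GoodSet L ψ x (m + 1) := by
  intro j
  refine Fin.lastCases ?_ (fun j => ?_) j
  · exact Or.inr ⟨n, id, strictMono_id, by simp⟩
  · simpa using hy j

lemma hT_mem (L : ∀ k, Tup E k → E') (ψ : E → E') : ∀ (n : ℕ) (x : Tup E n),
    hT L ψ n x ∈ Finsupp.supported ℤ ℤ (GoodSet L ψ x (n + 1))
  | 0, x => by
      rw [hT]
      refine Submodule.neg_mem _ (snocT_mem _ _ (GoodSet L ψ x 0) _ ?_ (snoc_goodSet L ψ x))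
      refine Submodule.sub_mem _ ?_ ?_
      · exact Finsupp.supported_mono (labSet_subset_goodSet L ψ x 0) (Sd_mem L x)
      · rw [mapT_single]
        exact Finsupp.single_mem_supported ℤ _ fun j => Or.inl ⟨j, rfl⟩
  | n + 1, x => by
      rw [hT]
      refine Submodule.smul_mem _ _ (snocT_mem _ _ (GoodSet L ψ x (n + 1)) _ ?_
        (snoc_goodSet L ψ x))
      refine Submodule.sub_mem _ (Submodule.sub_mem _ ?_ ?_) ?_
      · exact Finsupp.supported_mono (labSet_subset_goodSet L ψ x _) (Sd_mem L x)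
      · rw [mapT_single]
        exact Finsupp.single_mem_supported ℤ _ fun j => Or.inl ⟨j, rfl⟩
      · rw [bdT_single, one_smul, map_sum]
        refine Submodule.sum_mem _ fun i _ => ?_
        rw [map_smul, Finsupp.linearCombination_single, one_smul]
        refine Submodule.smul_mem _ _ ?_
        refine Finsupp.supported_mono ?_ (hT_mem L ψ n _)
        intro y hy j
        rcases hy j with ⟨l, hl⟩ | ⟨k, θ, hθ, h⟩
        · exact Or.inl ⟨_, hl⟩
        · exact Or.inr ⟨k, i.succAbove ∘ θ, (Fin.strictMono_succAbove i).comp hθ, h⟩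

lemma hT_lc_mem (L : ∀ k, Tup E k → E') (ψ : E → E') (n : ℕ) (c : Tup E n →₀ ℤ) :
    Finsupp.linearCombination ℤ (hT L ψ n) c ∈
      Finsupp.supported ℤ ℤ (⋃ x ∈ c.support, GoodSet L ψ x (n + 1)) := by
  refine map_mem _ _ _ fun x hx => ?_
  rw [Finsupp.linearCombination_single, one_smul]
  exact Finsupp.supported_mono (Set.subset_biUnion_of_mem (u := fun x => GoodSet L ψ x (n + 1)) hx)
    (hT_mem L ψ n x)

lemma Sd_supp (L : ∀ k, Tup E k → E') (n : ℕ) (c : Tup E n →₀ ℤ) :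
    ∀ y ∈ (Sd L c).support, ∃ x ∈ c.support, y ∈ LabSet L x n := by
  have h : Sd L c ∈ Finsupp.supported ℤ ℤ (⋃ x ∈ c.support, LabSet L x n) := by
    refine map_mem _ _ _ fun x hx => ?_
    exact Finsupp.supported_mono (Set.subset_biUnion_of_mem (u := fun x => LabSet L x n) hx)
      (Sd_mem L x)
  intro y hy
  have := h hy
  simpa using this

end SDT

theorem specSdMap : SpecSdMap := fun _ _ L n c => SDT.bdT_Sd L n c

theorem specSdHomot : SpecSdHomot := fun _ _ L ψ =>
  ⟨fun n c => SDT.bdT_hT L ψ n c, fun c => SDT.bdT_hT_zero L ψ c⟩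

theorem specSdHom : SpecSdHom := fun _ _ L ψ n c hc => by
  refine ⟨Finsupp.linearCombination ℤ (hT L ψ (n + 1)) c, ?_, ?_⟩
  · rw [SDT.bdT_hT, hc, map_zero, sub_zero]
  · intro y hy
    have h := SDT.hT_lc_mem L ψ (n + 1) c hy
    simp only [Set.mem_iUnion] at h
    obtain ⟨x, hx, h⟩ := h
    exact ⟨x, hx, h⟩

/-- Universe polymorphic version. -/
theorem specSdHom' {E : Type u} {E' : Type v} (L : ∀ k, Tup E k → E') (ψ : E → E') (n : ℕ)
    (c : Tup E (n + 1) →₀ ℤ) (hc : bdT c = 0) :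
    ∃ b : Tup E' (n + 2) →₀ ℤ, bdT b = Sd L c - mapT ψ c ∧
      ∀ y ∈ b.support, ∃ x ∈ c.support, ∀ j, (∃ i, y j = ψ (x i)) ∨
        (∃ (k : ℕ) (θ : Fin (k + 1) → Fin (n + 2)), StrictMono θ ∧ y j = L k (x ∘ θ)) := by
  refine ⟨Finsupp.linearCombination ℤ (hT L ψ (n + 1)) c, ?_, ?_⟩
  · rw [SDT.bdT_hT, hc, map_zero, sub_zero]
  · intro y hy
    have h := SDT.hT_lc_mem L ψ (n + 1) c hy
    simp only [Set.mem_iUnion] at h
    obtain ⟨x, hx, h⟩ := h
    exact ⟨x, hx, h⟩

/-- Contiguous maps, universe polymorphic version. -/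
theorem specPrism' {E : Type u} {E' : Type v} (f g : E → E') (n : ℕ) (c : Tup E (n + 1) →₀ ℤ)
    (hc : bdT c = 0) :
    ∃ b : Tup E' (n + 2) →₀ ℤ, bdT b = mapT g c - mapT f c ∧
      ∀ y ∈ b.support, ∃ x ∈ c.support, ∀ j, (∃ i, y j = f (x i)) ∨ (∃ i, y j = g (x i)) := by
  classical
  obtain ⟨b1, h1, s1⟩ := specSdHom' (fun _ x => f (x 0)) f n c hc
  obtain ⟨b2, h2, s2⟩ := specSdHom' (fun _ x => f (x 0)) g n c hc
  refine ⟨b1 - b2, by rw [map_sub, h1, h2]; abel, fun y hy => ?_⟩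
  rcases Finset.mem_union.1 (Finsupp.support_sub hy) with hy | hy
  · obtain ⟨x, hx, h⟩ := s1 y hy
    refine ⟨x, hx, fun j => ?_⟩
    rcases h j with ⟨i, hi⟩ | ⟨k, θ, _, hi⟩
    · exact Or.inl ⟨i, hi⟩
    · exact Or.inl ⟨θ 0, hi⟩
  · obtain ⟨x, hx, h⟩ := s2 y hy
    refine ⟨x, hx, fun j => ?_⟩
    rcases h j with ⟨i, hi⟩ | ⟨k, θ, _, hi⟩
    · exact Or.inr ⟨i, hi⟩
    · exact Or.inl ⟨θ 0, hi⟩

theorem specPrism : SpecPrism := fun _ _ f g n c hc => specPrism' f g n c hc

end MPb00168
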