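import Pool.Agent.Lib.MP_b00168_gt.Spec
import Pool.Agent.Lib.MP_b00168_gt.Transfer
import Pool.Agent.Lib.MP_b00168_gt.SDT

section
set_option autoImplicit false

/-!
# MP_b00168_gt, module MASS: iterated barycentric subdivision of tuples
-/

namespace MPb00168

namespace Mass

open Finset

/-- The mass (sum of the absolute values of the coefficients). -/
noncomputable def mass {α : Type*} (c : α →₀ ℤ) : ℤ := ∑ x ∈ c.support, |c x|

lemma mass_eq_sum {α : Type*} (c : α →₀ ℤ) (s : Finset α) (hs : c.support ⊆ s) :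
    mass c = ∑ x ∈ s, |c x| := by
  unfold mass
  refine Finset.sum_subset hs ?_
  intro x _ hx
  rw [Finsupp.notMem_support_iff] at hx
  rw [hx, abs_zero]

lemma mass_nonneg {α : Type*} (c : α →₀ ℤ) : 0 ≤ mass c :=
  Finset.sum_nonneg fun _ _ => abs_nonneg _

@[simp] lemma mass_zero {α : Type*} : mass (0 : α →₀ ℤ) = 0 := by simp [mass]

lemma mass_add {α : Type*} (c d : α →₀ ℤ) : mass (c + d) ≤ mass c + mass d := by
  classical
  rw [mass_eq_sum (c + d) (c.support ∪ d.support) Finsupp.support_add,
    mass_eq_sum c (c.support ∪ d.support) Finset.subset_union_left,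
    mass_eq_sum d (c.support ∪ d.support) Finset.subset_union_right, ← Finset.sum_add_distrib]
  exact Finset.sum_le_sum fun x _ => by rw [Finsupp.add_apply]; exact abs_add_le _ _

lemma mass_smul {α : Type*} (a : ℤ) (c : α →₀ ℤ) : mass (a • c) = |a| * mass c := by
  rw [mass_eq_sum (a • c) c.support Finsupp.support_smul, mass, Finset.mul_sum]
  exact Finset.sum_congr rfl fun x _ => by rw [Finsupp.smul_apply, smul_eq_mul, abs_mul]

lemma mass_sum {α ι : Type*} (s : Finset ι) (f : ι → α →₀ ℤ) :
    mass (∑ i ∈ s, f i) ≤ ∑ i ∈ s, mass (f i) := by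
  classical
  induction s using Finset.induction_on with
  | empty => simp
  | insert a s ha ih =>
      rw [Finset.sum_insert ha, Finset.sum_insert ha]
      exact (mass_add _ _).trans (by linarith)

lemma mass_single {α : Type*} (x : α) (a : ℤ) : mass (Finsupp.single x a) = |a| := by
  classical
  rw [mass_eq_sum (Finsupp.single x a) {x} Finsupp.support_single_subset]
  simp

/-- The mass of the image under a linear map. -/
lemma mass_lin {α β : Type*} (φ : (α →₀ ℤ) →ₗ[ℤ] (β →₀ ℤ)) (K : ℤ)
    (hK : ∀ x, mass (φ (Finsupp.single x 1)) ≤ K) (c : α →₀ ℤ) : mass (φ c) ≤ K * mass c := by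
  rw [lin_eq_sum φ c]
  refine (mass_sum _ _).trans ?_
  have h1 : K * mass c = ∑ x ∈ c.support, K * |c x| := by rw [mass, Finset.mul_sum]
  rw [h1]
  refine Finset.sum_le_sum fun x _ => ?_
  rw [mass_smul, mul_comm]
  exact mul_le_mul_of_nonneg_right (hK x) (abs_nonneg _)

lemma abs_sgn : ∀ {n : ℕ} (F : Flag n), |F.sgn| = 1
  | 0, _ => by simp [Flag.sgn]
  | n + 1, F => by
      rw [Flag.sgn, abs_mul, abs_sgn F.2, abs_pow, abs_neg, abs_one, one_pow, one_mul]

lemma card_Flag : ∀ n : ℕ, Fintype.card (Flag n) = (n + 1).factorial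
  | 0 => rfl
  | n + 1 => by
      have h1 : Fintype.card (Flag (n + 1)) = Fintype.card (Fin (n + 2) × Flag n) := rfl
      rw [h1, Fintype.card_prod, card_Flag n, Fintype.card_fin, Nat.factorial_succ (n + 1)]

lemma mass_Sd {E E' : Type*} (L : ∀ k, Tup E k → E') {n : ℕ} (c : Tup E n →₀ ℤ) :
    mass (Sd L c) ≤ ((n + 1).factorial : ℤ) * mass c := by
  refine mass_lin (Sd L) _ (fun x => ?_) c
  rw [Sd_single, one_smul]
  refine (mass_sum _ _).trans ?_
  have : ∀ F ∈ (Finset.univ : Finset (Flag n)),
      mass (F.sgn • Finsupp.single (lab L F x) (1 : ℤ)) = 1 := by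
    intro F _
    rw [mass_smul, mass_single, abs_sgn, abs_one, one_mul]
  rw [Finset.sum_congr rfl this, Finset.sum_const, Finset.card_univ, card_Flag]
  simp

/-- Members of the support of a subdivision. -/
lemma mem_support_Sd {E E' : Type*} (L : ∀ k, Tup E k → E') {n : ℕ} (c : Tup E n →₀ ℤ)
    {y : Tup E' n} (hy : y ∈ (Sd L c).support) :
    ∃ x ∈ c.support, ∃ F : Flag n, y = lab L F x := by
  classical
  obtain ⟨x, hx, hy'⟩ := mem_support_lin (Sd L) c hy
  refine ⟨x, hx, ?_⟩
  rw [Sd_single, one_smul] at hy'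
  have h1 := Finsupp.support_finsetSum hy'
  rw [Finset.mem_biUnion] at h1
  obtain ⟨F, -, hF⟩ := h1
  refine ⟨F, ?_⟩
  have h2 := Finsupp.support_single_subset (Finsupp.support_smul hF)
  simpa using h2

variable {E : Type} [AddCommGroup E] [Module ℝ E]

lemma bary_mem {k : ℕ} (x : Tup E k) {s : Set E} (hs : Convex ℝ s) (hx : ∀ j, x j ∈ s) :
    bary k x ∈ s := by
  unfold bary
  rw [Finset.smul_sum]
  refine hs.sum_mem (fun j _ => ?_) ?_ (fun j _ => hx j)
  · positivity
  · rw [Finset.sum_const, Finset.card_univ, Fintype.card_fin]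
    simp only [nsmul_eq_mul]
    push_cast
    rw [mul_inv_cancel₀]
    positivity

lemma lab_mem : ∀ {n : ℕ} (F : Flag n) (x : Tup E n) {s : Set E}, Convex ℝ s → (∀ j, x j ∈ s) →
    ∀ a, lab (bary (E := E)) F x a ∈ s
  | 0, _, x, s, hs, hx, a => by
      change bary 0 x ∈ s
      exact bary_mem x hs hx
  | n + 1, F, x, s, hs, hx, a => by
      refine Fin.lastCases ?_ (fun j => ?_) a
      · simp only [lab, Fin.snoc_last]
        exact bary_mem x hs hx
      · simp only [lab, Fin.snoc_castSucc]
        exact lab_mem F.2 _ hs (fun j => hx _) j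

lemma osc_bary {k : ℕ} (x : Tup E k) (w : E →ₗ[ℝ] ℝ) (D : ℝ) (hD : ∀ a b, |w (x a) - w (x b)| ≤ D)
    (i : Fin (k + 1)) : |w (x i) - w (bary k x)| ≤ (k : ℝ) / (k + 1) * D := by
  have h1 : w (x i) - w (bary k x) = ((k : ℝ) + 1)⁻¹ * ∑ j, (w (x i) - w (x j)) := by
    unfold bary
    rw [map_smul, map_sum, Finset.sum_sub_distrib, Finset.sum_const, Finset.card_univ,
      Fintype.card_fin, smul_eq_mul, nsmul_eq_mul]
    push_cast
    field_simp
  rw [h1, abs_mul, abs_of_nonneg (by positivity : (0 : ℝ) ≤ ((k : ℝ) + 1)⁻¹)]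
  have h2 : |∑ j, (w (x i) - w (x j))| ≤ k * D := by
    rw [← Finset.add_sum_erase _ _ (Finset.mem_univ i), sub_self, zero_add]
    refine (Finset.abs_sum_le_sum_abs _ _).trans ?_
    refine (Finset.sum_le_sum fun j _ => hD i j).trans ?_
    rw [Finset.sum_const, Finset.card_erase_of_mem (Finset.mem_univ i), Finset.card_univ,
      Fintype.card_fin]
    simp
  calc ((k : ℝ) + 1)⁻¹ * |∑ j, (w (x i) - w (x j))| ≤ ((k : ℝ) + 1)⁻¹ * (k * D) := by
        gcongr
    _ = (k : ℝ) / (k + 1) * D := by ring

lemma osc_lab : ∀ {n : ℕ} (F : Flag n) (x : Tup E n) (w : E →ₗ[ℝ] ℝ) (D : ℝ),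
    (∀ a b, |w (x a) - w (x b)| ≤ D) →
    ∀ a b, |w (lab (bary (E := E)) F x a) - w (lab (bary (E := E)) F x b)| ≤
      (n : ℝ) / (n + 1) * D
  | 0, _, x, w, D, hD, a, b => by
      have : a = b := Fin.ext (by omega)
      subst this
      simp
  | n + 1, F, x, w, D, hD, a, b => by
      have hD0 : 0 ≤ D := (abs_nonneg _).trans (hD 0 0)
      have hconv : ∀ v : ℝ, Convex ℝ {z : E | |w z - v| ≤ ((n + 1 : ℕ) : ℝ) / ((n + 1 : ℕ) + 1) * D} := by
        intro v
        have : {z : E | |w z - v| ≤ ((n + 1 : ℕ) : ℝ) / ((n + 1 : ℕ) + 1) * D} =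
            w ⁻¹' (Metric.closedBall v (((n + 1 : ℕ) : ℝ) / ((n + 1 : ℕ) + 1) * D)) := by
          ext z
          simp [Real.dist_eq]
        rw [this]
        exact (convex_closedBall _ _).linear_preimage w
      have hlast : ∀ j : Fin (n + 1), |w (lab (bary (E := E)) F.2 (x ∘ F.1.succAbove) j) -
          w (bary (n + 1) x)| ≤ ((n + 1 : ℕ) : ℝ) / ((n + 1 : ℕ) + 1) * D := by
        intro j
        have h1 := lab_mem F.2 (x ∘ F.1.succAbove) (hconv (w (bary (n + 1) x))) (fun i => by
          exact osc_bary x w D hD _) j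
        exact h1
      refine Fin.lastCases ?_ (fun j => ?_) a
      · refine Fin.lastCases ?_ (fun j' => ?_) b
        · rw [sub_self, abs_zero]
          positivity
        · simp only [lab, Fin.snoc_last, Fin.snoc_castSucc]
          rw [abs_sub_comm]
          exact hlast j'
      · refine Fin.lastCases ?_ (fun j' => ?_) b
        · simp only [lab, Fin.snoc_last, Fin.snoc_castSucc]
          exact hlast j
        · simp only [lab, Fin.snoc_castSucc]
          refine (osc_lab F.2 (x ∘ F.1.succAbove) w D (fun a b => hD _ _) j j').trans ?_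
          have : (n : ℝ) / (n + 1) ≤ ((n + 1 : ℕ) : ℝ) / ((n + 1 : ℕ) + 1) := by
            rw [div_le_div_iff₀ (by positivity) (by positivity)]
            push_cast
            nlinarith
          gcongr

lemma iter_support {n : ℕ} (c : Tup E n →₀ ℤ) (m : ℕ) :
    ∀ y ∈ ((⇑(Sd (bary (E := E)) (n := n)))^[m] c).support, ∃ x ∈ c.support,
      (∀ a, y a ∈ convexHull ℝ (Set.range x)) ∧
      ∀ (w : E →ₗ[ℝ] ℝ) (D : ℝ), (∀ a b, |w (x a) - w (x b)| ≤ D) →
        ∀ a b, |w (y a) - w (y b)| ≤ ((n : ℝ) / (n + 1)) ^ m * D := by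
  induction m with
  | zero =>
      intro y hy
      refine ⟨y, hy, fun a => subset_convexHull _ _ ⟨a, rfl⟩, fun w D hD a b => ?_⟩
      simpa using hD a b
  | succ m ih =>
      intro y hy
      rw [Function.iterate_succ_apply'] at hy
      obtain ⟨z, hz, F, rfl⟩ := mem_support_Sd _ _ hy
      obtain ⟨x, hx, hx1, hx2⟩ := ih z hz
      refine ⟨x, hx, fun a => lab_mem F z (convex_convexHull _ _) hx1 a, fun w D hD a b => ?_⟩
      refine (osc_lab F z w _ (hx2 w D hD) a b).trans (le_of_eq ?_)
      rw [pow_succ']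
      ring

lemma iter_mass {n : ℕ} (c : Tup E n →₀ ℤ) (m : ℕ) :
    mass ((⇑(Sd (bary (E := E)) (n := n)))^[m] c) ≤ ((n + 1).factorial : ℤ) ^ m * mass c := by
  induction m with
  | zero => simp
  | succ m ih =>
      rw [Function.iterate_succ_apply', pow_succ', mul_assoc]
      refine (mass_Sd _ _).trans ?_
      gcongr

lemma ratio_pow {n : ℕ} (hn : 1 ≤ n) : ((n : ℝ) / (n + 1)) ^ n ≤ 1 / 2 := by
  have hn0 : (0 : ℝ) < n := by exact_mod_cast hn
  have h1 : (2 : ℝ) ≤ (1 + 1 / (n : ℝ)) ^ n := by
    have := one_add_mul_le_pow (a := 1 / (n : ℝ)) (by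
      have : (0 : ℝ) ≤ 1 / (n : ℝ) := by positivity
      linarith) n
    have h2 : 1 + (n : ℝ) * (1 / (n : ℝ)) = 2 := by field_simp; norm_num
    linarith
  have h3 : (n : ℝ) / (n + 1) = (1 + 1 / (n : ℝ))⁻¹ := by
    field_simp
  rw [h3, inv_pow]
  rw [show (1 : ℝ) / 2 = 2⁻¹ by norm_num]
  exact inv_anti₀ (by norm_num) h1

end Mass

theorem specMass : SpecMass := by
  intro n hn E _ _ c j
  refine ⟨Mass.iter_mass c (n * j), ?_⟩
  intro y hy
  obtain ⟨x, hx, h1, h2⟩ := Mass.iter_support c (n * j) y hy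
  refine ⟨x, hx, h1, fun w D hD a b => (h2 w D hD a b).trans ?_⟩
  have hD0 : 0 ≤ D := (abs_nonneg _).trans (hD 0 0)
  rw [pow_mul, div_eq_inv_mul D]
  have h3 : (((n : ℝ) / (n + 1)) ^ n) ^ j ≤ (2 ^ j)⁻¹ := by
    rw [← inv_pow]
    refine pow_le_pow_left₀ (by positivity) ?_ j
    have := Mass.ratio_pow hn
    simpa using this
  exact mul_le_mul_of_nonneg_right h3 hD0

end MPb00168
end

section
set_option autoImplicit false

/-! # MP_b00168_gt : module SS (barycentric subdivision of singular chains) -/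

namespace MPb00168

open Finset

universe u v w

namespace SS

/-- The standard simplex. -/
abbrev Dl (n : ℕ) : Type := stdSimplex ℝ (Fin (n + 1))

/-- Tuple chains of a standard simplex as singular chains. -/
noncomputable def affDS {k n : ℕ} : (Tup (Dl n) k →₀ ℤ) →ₗ[ℤ] Chain (Dl n) k :=
  Finsupp.lmapDomain ℤ ℤ fun x => affD x

@[simp] lemma affDS_single {k n : ℕ} (x : Tup (Dl n) k) (a : ℤ) :
    affDS (Finsupp.single x a) = Finsupp.single (affD x) a := by
  simp [affDS, Finsupp.lmapDomain_apply, Finsupp.mapDomain_single]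

lemma affDS_bdT {k n : ℕ} (c : Tup (Dl n) (k + 1) →₀ ℤ) : affDS (bdT c) = bd (affDS c) := by
  have := linext_apply (f := affDS.comp bdT) (g := bd.comp affDS) (c := c) (by
    intro x
    simp only [LinearMap.comp_apply, bdT_single, affDS_single, bd_single, map_smul, map_sum,
      one_smul]
    refine Finset.sum_congr rfl fun i _ => ?_
    rw [show face i (affD x) = affD (x ∘ i.succAbove) from face_affD i x])
  simpa using this

lemma mapT_Sd {E : Type u} {E' : Type v} {F : Type u} {F' : Type v} (φ : E → F) (φ' : E' → F')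
    (L : ∀ k, Tup E k → E') (L' : ∀ k, Tup F k → F')
    (h : ∀ k (x : Tup E k), φ' (L k x) = L' k (φ ∘ x)) :
    ∀ {n : ℕ} (G : Flag n) (x : Tup E n), φ' ∘ lab L G x = lab L' G (φ ∘ x)
  | 0, _, x => by
      funext j
      simp only [lab, Function.comp_apply]
      exact h 0 x
  | n + 1, G, x => by
      funext j
      refine Fin.lastCases ?_ (fun j => ?_) j
      · simp only [lab, Function.comp_apply, Fin.snoc_last]
        exact h (n + 1) x
      · simp only [lab, Function.comp_apply, Fin.snoc_castSucc]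
        have := congrFun (mapT_Sd φ φ' L L' h G.2 (x ∘ G.1.succAbove)) j
        simpa [Function.comp_assoc] using this

lemma mapT_Sd_chain {E : Type u} {E' : Type v} {F : Type u} {F' : Type v} (φ : E → F)
    (φ' : E' → F') (L : ∀ k, Tup E k → E') (L' : ∀ k, Tup F k → F')
    (h : ∀ k (x : Tup E k), φ' (L k x) = L' k (φ ∘ x)) {n : ℕ} (c : Tup E n →₀ ℤ) :
    mapT φ' (Sd L c) = Sd L' (mapT φ c) := by
  have := linext_apply (f := (mapT φ').comp (Sd L)) (g := (Sd L').comp (mapT φ)) (c := c) (by
    intro x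
    simp only [LinearMap.comp_apply, Sd_single, map_smul, map_sum, mapT_single, one_smul]
    refine Finset.sum_congr rfl fun G _ => ?_
    rw [mapT_Sd φ φ' L L' h])
  simpa using this

lemma mapT_snocT {E' : Type v} {F' : Type w} (φ' : E' → F') (b : E') {n : ℕ}
    (c : Tup E' n →₀ ℤ) : mapT φ' (snocT b c) = snocT (φ' b) (mapT φ' c) := by
  have := linext_apply (f := (mapT φ').comp (snocT b)) (g := (snocT (φ' b)).comp (mapT φ'))
    (c := c) (by
    intro x
    simp only [LinearMap.comp_apply, snocT_single, mapT_single]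
    congr 1
    funext j
    refine Fin.lastCases ?_ (fun j => ?_) j
    · simp
    · simp)
  simpa using this

lemma mapT_hT {E : Type u} {E' : Type v} {F : Type u} {F' : Type v} (φ : E → F)
    (φ' : E' → F') (L : ∀ k, Tup E k → E') (L' : ∀ k, Tup F k → F')
    (h : ∀ k (x : Tup E k), φ' (L k x) = L' k (φ ∘ x)) (ψ : E → E') (ψ' : F → F')
    (hψ : ∀ e, φ' (ψ e) = ψ' (φ e)) :
    ∀ (n : ℕ) (x : Tup E n), mapT φ' (hT L ψ n x) = hT L' ψ' n (φ ∘ x)
  | 0, x => by
      have h1 : mapT φ' (Sd L (Finsupp.single x 1)) = Sd L' (Finsupp.single (φ ∘ x) 1) := by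
        rw [mapT_Sd_chain φ φ' L L' h, mapT_single]
      have h2 : mapT φ' (mapT ψ (Finsupp.single x (1 : ℤ))) =
          mapT ψ' (Finsupp.single (φ ∘ x) (1 : ℤ)) := by
        rw [mapT_single, mapT_single, mapT_single]
        congr 1
        funext j
        exact hψ _
      simp only [hT]
      rw [map_neg, mapT_snocT, map_sub, h1, h2, h]
  | n + 1, x => by
      have h1 : mapT φ' (Sd L (Finsupp.single x 1)) = Sd L' (Finsupp.single (φ ∘ x) 1) := by
        rw [mapT_Sd_chain φ φ' L L' h, mapT_single]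
      have h2 : mapT φ' (mapT ψ (Finsupp.single x (1 : ℤ))) =
          mapT ψ' (Finsupp.single (φ ∘ x) (1 : ℤ)) := by
        rw [mapT_single, mapT_single, mapT_single]
        congr 1
        funext j
        exact hψ _
      have h3 : mapT φ' (Finsupp.linearCombination ℤ (hT L ψ n) (bdT (Finsupp.single x 1))) =
          Finsupp.linearCombination ℤ (hT L' ψ' n) (bdT (Finsupp.single (φ ∘ x) 1)) := by
        simp only [bdT_single, one_smul, map_sum, map_smul, Finsupp.linearCombination_single]
        refine Finset.sum_congr rfl fun i _ => ?_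
        rw [mapT_hT φ φ' L L' h ψ ψ' hψ n]
        rfl
      simp only [hT]
      rw [map_smul, mapT_snocT, map_sub (mapT φ') (Sd L (Finsupp.single x 1) -
        mapT ψ (Finsupp.single x 1)), map_sub (mapT φ') (Sd L (Finsupp.single x 1)),
        h1, h2, h3, h]

/-- An affine self-map commutes with affine simplices. -/
lemma faceMap_affD {k n : ℕ} (i : Fin (n + 2)) (x : Tup (Dl n) k) :
    (faceMap n i).comp (affD x) = affD (faceMap n i ∘ x) := by
  ext t m
  simp only [ContinuousMap.comp_apply]
  change (faceMap n i (affD x t) : Fin (n + 2) → ℝ) m =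
    (∑ j, (t : Fin (k + 1) → ℝ) j • ((faceMap n i ∘ x) j : Fin (n + 2) → ℝ)) m
  rw [Finset.sum_apply]
  rcases Fin.eq_self_or_eq_succAbove i m with rfl | ⟨l, rfl⟩
  · rw [faceMap_apply_self]
    symm
    refine Finset.sum_eq_zero fun j _ => ?_
    simp only [Pi.smul_apply, Function.comp_apply]
    rw [faceMap_apply_self, smul_zero]
  · rw [faceMap_apply]
    change (∑ j, (t : Fin (k + 1) → ℝ) j • (x j : Fin (n + 1) → ℝ)) l = _
    rw [Finset.sum_apply]
    refine Finset.sum_congr rfl fun j _ => ?_
    simp only [Pi.smul_apply, Function.comp_apply]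
    rw [faceMap_apply]

lemma faceMap_baryD {n : ℕ} (i : Fin (n + 2)) (k : ℕ) (x : Tup (Dl n) k) :
    faceMap n i (baryD k x) = baryD k (faceMap n i ∘ x) := by
  ext m
  change (faceMap n i (baryD k x) : Fin (n + 2) → ℝ) m =
    (bary k fun j => ((faceMap n i ∘ x) j : Fin (n + 2) → ℝ)) m
  unfold bary
  simp only [Pi.smul_apply, Finset.sum_apply]
  rcases Fin.eq_self_or_eq_succAbove i m with rfl | ⟨l, rfl⟩
  · rw [faceMap_apply_self]
    symm
    rw [Finset.sum_eq_zero, smul_zero]
    intro j _
    exact faceMap_apply_self _ _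
  · rw [faceMap_apply]
    change (bary k fun j => (x j : Fin (n + 1) → ℝ)) l = _
    unfold bary
    simp only [Pi.smul_apply, Finset.sum_apply]
    congr 1
    refine Finset.sum_congr rfl fun j _ => ?_
    exact (faceMap_apply i (x j) l).symm

lemma faceMap_vertsD (n : ℕ) (i : Fin (n + 2)) :
    faceMap n i ∘ vertsD n = vertsD (n + 1) ∘ i.succAbove := by
  funext j
  ext m
  simp only [Function.comp_apply]
  change (faceMap n i (vertsD n j) : Fin (n + 2) → ℝ) m =
    (Pi.single (i.succAbove j) 1 : Fin (n + 2) → ℝ) m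
  rcases Fin.eq_self_or_eq_succAbove i m with rfl | ⟨l, rfl⟩
  · rw [faceMap_apply_self, Pi.single_eq_of_ne]
    exact (Fin.succAbove_ne _ _).symm
  · rw [faceMap_apply]
    change (Pi.single j 1 : Fin (n + 1) → ℝ) l = _
    by_cases h : l = j
    · subst h; simp
    · rw [Pi.single_eq_of_ne h, Pi.single_eq_of_ne]
      exact fun h' => h (Fin.succAbove_right_injective h')

lemma push_faceMap_affDS {k n : ℕ} (i : Fin (n + 2)) (c : Tup (Dl n) k →₀ ℤ) :
    push (faceMap n i) (affDS c) = affDS (mapT (faceMap n i) c) := by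
  have := linext_apply (f := (push (faceMap n i)).comp affDS)
    (g := affDS.comp (mapT (faceMap n i))) (c := c) (by
    intro x
    simp only [LinearMap.comp_apply, affDS_single, push_single, mapT_single, faceMap_affD])
  simpa using this

variable {X : Type u} [TopologicalSpace X]

lemma SdS_single_one {n : ℕ} (σ : Sing X n) :
    SdS (Finsupp.single σ (1 : ℤ)) =
      push σ (affDS (Sd baryD (Finsupp.single (vertsD n) (1 : ℤ)))) := by
  simp only [SdS_single, Sd_single, one_smul, map_sum, map_smul, affDS_single, push_single]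

lemma push_face {k m : ℕ} (σ : Sing X (k + 1)) (i : Fin (k + 2)) (c : Chain (Dl k) m) :
    push (face i σ) c = push σ (push (faceMap k i) c) := by
  rw [← push_comp]; rfl

lemma SdS_bd (hM : SpecSdMap) {n : ℕ} (c : Chain X (n + 1)) : bd (SdS c) = SdS (bd c) := by
  have := linext_apply (f := bd.comp SdS) (g := SdS.comp bd) (c := c) (by
    intro σ
    simp only [LinearMap.comp_apply]
    rw [SdS_single_one, ← push_bd, ← affDS_bdT, hM]
    simp only [bd_single, bdT_single, one_smul, map_sum, map_smul]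
    refine Finset.sum_congr rfl fun i _ => ?_
    rw [SdS_single_one, push_face, push_faceMap_affDS,
      mapT_Sd_chain (faceMap n i) (faceMap n i) baryD baryD (faceMap_baryD i), mapT_single,
      faceMap_vertsD])
  simpa using this

lemma range_push {k m : ℕ} (σ : Sing X k) (c : Chain (Dl k) m) :
    ∀ τ ∈ (push σ c).support, Set.range τ ⊆ Set.range σ := by
  classical
  intro τ hτ
  obtain ⟨ρ, _, hρ⟩ := mem_support_lin (push σ) c hτ
  rw [push_single] at hρ
  have : τ = σ.comp ρ := by simpa using Finsupp.support_single_subset hρ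
  subst this
  rintro _ ⟨t, rfl⟩
  exact ⟨ρ t, rfl⟩

/-- The chain homotopy. -/
noncomputable def TT (X : Type u) [TopologicalSpace X] (k : ℕ) : Chain X k →ₗ[ℤ] Chain X (k + 1) :=
  Finsupp.linearCombination ℤ fun σ => push σ (affDS (hT baryD id k (vertsD k)))

lemma TT_single {k : ℕ} (σ : Sing X k) :
    TT X k (Finsupp.single σ 1) = push σ (affDS (hT baryD id k (vertsD k))) := by
  simp [TT]

lemma lin_hT_single {n k : ℕ} (x : Tup (Dl n) k) :
    Finsupp.linearCombination ℤ (hT (baryD (n := n)) id k) (Finsupp.single x 1) =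
      hT baryD id k x := by
  simp

lemma TT_succ (hH : SpecSdHomot) (k : ℕ) (c : Chain X (k + 1)) :
    bd (TT X (k + 1) c) = SdS c - c - TT X k (bd c) := by
  have := linext_apply (f := bd.comp (TT X (k + 1)))
    (g := SdS - LinearMap.id - (TT X k).comp bd) (c := c) (by
    intro σ
    simp only [LinearMap.comp_apply, LinearMap.sub_apply, LinearMap.id_apply]
    rw [TT_single, ← push_bd, ← affDS_bdT, ← lin_hT_single, (hH _ _ _ _).1, map_sub, map_sub,
      map_sub, map_sub, ← SdS_single_one]
    congr 1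
    · congr 1
      rw [show (mapT id (Finsupp.single (vertsD (k + 1)) (1 : ℤ)) :
        Tup (Dl (k + 1)) (k + 1) →₀ ℤ) = Finsupp.single (vertsD (k + 1)) 1 from mapT_id _,
        affDS_single, push_single, affD_vertsD, ContinuousMap.comp_id]
    · simp only [bd_single, bdT_single, one_smul, map_sum, map_smul,
        Finsupp.linearCombination_single]
      refine Finset.sum_congr rfl fun i _ => ?_
      rw [TT_single, push_face, push_faceMap_affDS,
        mapT_hT (faceMap k i) (faceMap k i) baryD baryD (faceMap_baryD i) id id (fun _ => rfl),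
        faceMap_vertsD])
  simpa using this

lemma TT_zero (hH : SpecSdHomot) (c : Chain X 0) : bd (TT X 0 c) = SdS c - c := by
  have := linext_apply (f := bd.comp (TT X 0)) (g := SdS - LinearMap.id) (c := c) (by
    intro σ
    simp only [LinearMap.comp_apply, LinearMap.sub_apply, LinearMap.id_apply]
    rw [TT_single, ← push_bd, ← affDS_bdT, ← lin_hT_single, (hH _ _ _ _).2, map_sub,
      map_sub, ← SdS_single_one]
    congr 1
    rw [show (mapT id (Finsupp.single (vertsD 0) (1 : ℤ)) :
        Tup (Dl 0) 0 →₀ ℤ) = Finsupp.single (vertsD 0) 1 from mapT_id _,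
        affDS_single, push_single, affD_vertsD, ContinuousMap.comp_id])
  simpa using this

end SS

theorem specSS (hM : SpecSdMap) (hH : SpecSdHomot) : SpecSS.{u} := by
  intro X _
  refine ⟨fun n c => SS.SdS_bd hM c, fun k σ τ hτ => ?_, SS.TT X, SS.TT_succ hH, SS.TT_zero hH,
    fun k σ τ hτ => ?_⟩
  · rw [SS.SdS_single_one] at hτ
    exact SS.range_push _ _ τ hτ
  · rw [SS.TT_single] at hτ
    exact SS.range_push _ _ τ hτ

end MPb00168
end

section
set_option autoImplicit false

/-! # MP_b00168_gt : module SMALL (iterated subdivisions are small) -/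

namespace MPb00168

open Finset

universe u v w

namespace Small

open SS

lemma affD_coe {k n : ℕ} (y : Tup (Dl n) k) (t : Dl k) (m : Fin (n + 1)) :
    (affD y t : Fin (n + 1) → ℝ) m =
      ∑ j, (t : Fin (k + 1) → ℝ) j * (y j : Fin (n + 1) → ℝ) m := by
  change (∑ j, (t : Fin (k + 1) → ℝ) j • (y j : Fin (n + 1) → ℝ)) m = _
  rw [Finset.sum_apply]
  rfl

lemma affD_affD {k m n : ℕ} (y : Tup (Dl n) k) (x : Tup (Dl k) m) :
    (affD y).comp (affD x) = affD (affD y ∘ x) := by
  ext t l
  simp only [ContinuousMap.comp_apply]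
  rw [affD_coe, affD_coe]
  simp only [affD_coe, Function.comp_apply, Finset.sum_mul, Finset.mul_sum]
  rw [Finset.sum_comm]
  exact Finset.sum_congr rfl fun i _ => Finset.sum_congr rfl fun j _ => by ring

lemma affD_baryD {k n : ℕ} (y : Tup (Dl n) k) (m : ℕ) (x : Tup (Dl k) m) :
    affD y (baryD m x) = baryD m (affD y ∘ x) := by
  ext l
  change (affD y (baryD m x) : Fin (n + 1) → ℝ) l =
    (bary m fun j => ((affD y ∘ x) j : Fin (n + 1) → ℝ)) l
  rw [affD_coe]
  unfold bary
  simp only [Pi.smul_apply, Finset.sum_apply, Function.comp_apply, affD_coe, smul_eq_mul]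
  have h1 : ∀ j, (baryD m x : Fin (k + 1) → ℝ) j =
      ((m : ℝ) + 1)⁻¹ * ∑ i, (x i : Fin (k + 1) → ℝ) j := by
    intro j
    change (bary m fun i => (x i : Fin (k + 1) → ℝ)) j = _
    unfold bary
    simp only [Pi.smul_apply, Finset.sum_apply, smul_eq_mul]
  simp only [h1, Finset.mul_sum, Finset.sum_mul]
  rw [Finset.sum_comm]
  exact Finset.sum_congr rfl fun i _ => Finset.sum_congr rfl fun j _ => by ring

lemma affD_vert {k n : ℕ} (y : Tup (Dl n) k) : affD y ∘ vertsD k = y := by
  funext j
  ext l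
  simp only [Function.comp_apply]
  change (affD y (vertsD k j) : Fin (n + 1) → ℝ) l = (y j : Fin (n + 1) → ℝ) l
  rw [affD_coe, Finset.sum_eq_single j]
  · change (Pi.single j 1 : Fin (k + 1) → ℝ) j * _ = _
    simp
  · intro i _ hi
    change (Pi.single j 1 : Fin (k + 1) → ℝ) i * _ = _
    rw [Pi.single_eq_of_ne hi, zero_mul]
  · intro h; exact absurd (Finset.mem_univ j) h

lemma SdS_affDS {k n : ℕ} (c : Tup (Dl n) k →₀ ℤ) : SdS (affDS c) = affDS (Sd baryD c) := by
  have := linext_apply (f := SdS.comp affDS) (g := affDS.comp (Sd baryD)) (c := c) (by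
    intro y
    simp only [LinearMap.comp_apply, affDS_single, SdS_single, Sd_single, one_smul, map_sum,
      map_smul]
    refine Finset.sum_congr rfl fun F _ => ?_
    rw [affD_affD, SS.mapT_Sd (affD y) (affD y) baryD baryD (affD_baryD y), affD_vert])
  simpa using this

variable {X : Type u} [TopologicalSpace X]

lemma iter_SdS {k : ℕ} (σ : Sing X k) (r : ℕ) :
    (⇑(SdS (X := X) (n := k)))^[r] (Finsupp.single σ 1) =
      push σ (affDS ((⇑(Sd (baryD (n := k)) (n := k)))^[r] (Finsupp.single (vertsD k) 1))) := by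
  induction r with
  | zero =>
      simp only [Function.iterate_zero, id_eq, affDS_single, push_single, affD_vertsD,
        ContinuousMap.comp_id]
  | succ r ih =>
      rw [Function.iterate_succ_apply', Function.iterate_succ_apply', ih, ← push_SdS, SdS_affDS]

lemma osc_iter {k : ℕ} (m : ℕ) :
    ∀ y ∈ ((⇑(Sd (baryD (n := k)) (n := k)))^[m] (Finsupp.single (vertsD k) 1)).support,
      ∀ (w : (Fin (k + 1) → ℝ) →ₗ[ℝ] ℝ) (D : ℝ),
        (∀ a b, |w (vertsD k a : Fin (k + 1) → ℝ) - w (vertsD k b : Fin (k + 1) → ℝ)| ≤ D) →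
        ∀ a b, |w (y a : Fin (k + 1) → ℝ) - w (y b : Fin (k + 1) → ℝ)| ≤
          ((k : ℝ) / (k + 1)) ^ m * D := by
  classical
  induction m with
  | zero =>
      intro y hy w D hD a b
      have : y = vertsD k := by
        have := Finsupp.support_single_subset hy
        simpa using this
      subst this
      simpa using hD a b
  | succ m ih =>
      intro y hy w D hD a b
      rw [Function.iterate_succ_apply'] at hy
      obtain ⟨z, hz, F, rfl⟩ := Mass.mem_support_Sd _ _ hy
      have h1 := ih z hz w D hD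
      have h2 := SS.mapT_Sd (fun t : Dl k => (t : Fin (k + 1) → ℝ))
        (fun t : Dl k => (t : Fin (k + 1) → ℝ)) baryD bary (fun k x => rfl) F z
      have h3 := Mass.osc_lab F ((fun t : Dl k => (t : Fin (k + 1) → ℝ)) ∘ z) w _ h1 a b
      rw [← h2] at h3
      refine h3.trans (le_of_eq ?_)
      rw [pow_succ']
      ring

/-- The range of a small affine simplex. -/
lemma dist_affD {k n : ℕ} (y : Tup (Dl n) k) (δ : ℝ)
    (h : ∀ (m : Fin (n + 1)) a b, |(y a : Fin (n + 1) → ℝ) m - (y b : Fin (n + 1) → ℝ) m| ≤ δ)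
    (t : Dl k) : dist (affD y t) (y 0) ≤ δ := by
  have hδ : 0 ≤ δ := (abs_nonneg _).trans (h 0 0 0)
  have ht : ∑ i, (t : Fin (k + 1) → ℝ) i = 1 := t.2.2
  have ht0 : ∀ i, 0 ≤ (t : Fin (k + 1) → ℝ) i := t.2.1
  change dist ((affD y t : Dl n) : Fin (n + 1) → ℝ) ((y 0 : Dl n) : Fin (n + 1) → ℝ) ≤ δ
  rw [dist_pi_le_iff hδ]
  intro m
  rw [affD_coe, Real.dist_eq]
  have h1 : ∑ j, (t : Fin (k + 1) → ℝ) j * (y j : Fin (n + 1) → ℝ) m - (y 0 : Fin (n + 1) → ℝ) m
      = ∑ j, (t : Fin (k + 1) → ℝ) j *
        ((y j : Fin (n + 1) → ℝ) m - (y 0 : Fin (n + 1) → ℝ) m) := by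
    simp only [mul_sub, Finset.sum_sub_distrib, ← Finset.sum_mul]
    rw [ht, one_mul]
  rw [h1]
  calc |∑ j, (t : Fin (k + 1) → ℝ) j *
        ((y j : Fin (n + 1) → ℝ) m - (y 0 : Fin (n + 1) → ℝ) m)|
      ≤ ∑ j, (t : Fin (k + 1) → ℝ) j * δ := by
        refine (Finset.abs_sum_le_sum_abs _ _).trans (Finset.sum_le_sum fun j _ => ?_)
        rw [abs_mul, abs_of_nonneg (ht0 j)]
        exact mul_le_mul_of_nonneg_left (h m j 0) (ht0 j)
    _ = δ := by rw [← Finset.sum_mul, ht, one_mul]

lemma small_single (V : Set (Set X)) (hV : ∀ U ∈ V, IsOpen U) (hc : ∀ x, ∃ U ∈ V, x ∈ U)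
    {k : ℕ} (σ : Sing X k) :
    ∃ r : ℕ, ∀ r' ≥ r, ∀ τ ∈ ((⇑(SdS (X := X) (n := k)))^[r'] (Finsupp.single σ 1)).support,
      ∃ U ∈ V, Set.range τ ⊆ U := by
  classical
  obtain ⟨δ, hδ, hL⟩ := lebesgue_number_lemma_of_metric_sUnion
    (s := (Set.univ : Set (Dl k))) (c := (fun U => σ ⁻¹' U) '' V) isCompact_univ
    (by
      rintro _ ⟨U, hU, rfl⟩
      exact (hV U hU).preimage σ.continuous)
    (by
      intro t _
      obtain ⟨U, hU, ht⟩ := hc (σ t)
      exact ⟨_, ⟨U, hU, rfl⟩, ht⟩)
  have hlt : (k : ℝ) / (k + 1) < 1 := by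
    rw [div_lt_one (by positivity)]
    linarith
  have htend := tendsto_pow_atTop_nhds_zero_of_lt_one (r := (k : ℝ) / (k + 1)) (by positivity) hlt
  have hev := htend.eventually (gt_mem_nhds hδ)
  obtain ⟨r, hr⟩ := Filter.eventually_atTop.mp hev
  refine ⟨r, fun r' hr' τ hτ => ?_⟩
  rw [iter_SdS] at hτ
  obtain ⟨ρ, hρ, hρ'⟩ := mem_support_lin (push σ) _ hτ
  rw [push_single] at hρ'
  have h1 : τ = σ.comp ρ := by simpa using Finsupp.support_single_subset hρ'
  obtain ⟨y, hy, hy'⟩ := mem_support_lin affDS _ hρ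
  rw [affDS_single] at hy'
  have h2 : ρ = affD y := by simpa using Finsupp.support_single_subset hy'
  subst h1
  subst h2
  have h3 : ∀ (m : Fin (k + 1)) a b,
      |(y a : Fin (k + 1) → ℝ) m - (y b : Fin (k + 1) → ℝ) m| ≤ ((k : ℝ) / (k + 1)) ^ r' := by
    intro m a b
    have := osc_iter r' y hy (LinearMap.proj m) 1 (by
      intro a b
      simp only [LinearMap.proj_apply]
      change |(Pi.single a 1 : Fin (k + 1) → ℝ) m - (Pi.single b 1 : Fin (k + 1) → ℝ) m| ≤ 1
      by_cases ha : m = a <;> by_cases hb : m = b <;>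
        simp [Pi.single_apply, ha, hb] <;> split_ifs <;> simp) a b
    simpa using this
  obtain ⟨_, ⟨U, hU, rfl⟩, hball⟩ := hL (y 0) (Set.mem_univ _)
  refine ⟨U, hU, ?_⟩
  rintro _ ⟨t, rfl⟩
  have h4 : affD y t ∈ Metric.ball (y 0) δ := by
    rw [Metric.mem_ball]
    exact lt_of_le_of_lt (dist_affD y _ h3 t) (hr r' hr')
  exact hball h4

end Small

theorem specSmall : SpecSmall.{u} := by
  classical
  intro X _ V hV hc k c
  have hch := fun σ : Sing X k => Small.small_single V hV hc σ
  choose r hr using hch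
  refine ⟨c.support.sup r, fun r' hr' τ hτ => ?_⟩
  have h1 : ((⇑(SdS (X := X) (n := k)))^[r'] c) = ((SdS (X := X) (n := k)) ^ r') c := by
    rw [Module.End.coe_pow]
  rw [h1] at hτ
  obtain ⟨σ, hσ, hτ'⟩ := mem_support_lin ((SdS (X := X) (n := k)) ^ r') c hτ
  rw [Module.End.coe_pow] at hτ'
  exact hr σ r' (le_trans (Finset.le_sup hσ) hr') τ hτ'

end MPb00168
end

section
set_option autoImplicit false

/-! # MP_b00168_gt : module FAMILY (homotopy of the simplices of a cycle) -/

namespace MPb00168

universe u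

namespace Family

open Finset SS

/-- Affine maps to the unit interval. -/
noncomputable def affI {k : ℕ} (y : Tup unitInterval k) : C(Dl k, unitInterval) :=
  ⟨fun t => ⟨∑ j, (t : Fin (k + 1) → ℝ) j * (y j : ℝ), by
    constructor
    · exact Finset.sum_nonneg fun j _ => mul_nonneg (t.2.1 j) (y j).2.1
    · have h1 : ∑ j, (t : Fin (k + 1) → ℝ) j = 1 := t.2.2
      calc ∑ j, (t : Fin (k + 1) → ℝ) j * (y j : ℝ) ≤ ∑ j, (t : Fin (k + 1) → ℝ) j := by
            refine Finset.sum_le_sum fun j _ => ?_
            exact mul_le_of_le_one_right (t.2.1 j) (y j).2.2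
        _ = 1 := h1⟩, by
    refine Continuous.subtype_mk ?_ _
    refine continuous_finsetSum _ fun j _ => ?_
    exact ((continuous_apply j).comp continuous_subtype_val).mul continuous_const⟩

lemma affI_face {k : ℕ} (i : Fin (k + 2)) (y : Tup unitInterval (k + 1)) :
    (affI y).comp (faceMap k i) = affI (y ∘ i.succAbove) := by
  ext t
  change ∑ j, (faceMap k i t : Fin (k + 2) → ℝ) j * (y j : ℝ) =
    ∑ j, (t : Fin (k + 1) → ℝ) j * ((y ∘ i.succAbove) j : ℝ)
  rw [Fin.sum_univ_succAbove _ i, faceMap_apply_self, zero_mul, zero_add]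
  exact Finset.sum_congr rfl fun j _ => by rw [faceMap_apply]; rfl

lemma affI_const {k : ℕ} (a : unitInterval) : affI (fun _ : Fin (k + 1) => a) =
    ContinuousMap.const (Dl k) a := by
  ext t
  change ∑ j, (t : Fin (k + 1) → ℝ) j * (a : ℝ) = (a : ℝ)
  have h1 : ∑ j, (t : Fin (k + 1) → ℝ) j = 1 := t.2.2
  rw [← Finset.sum_mul, h1, one_mul]

/-- Affine simplices of the cylinder over a standard simplex. -/
noncomputable def affDI {k N : ℕ} (x : Tup (Dl N × unitInterval) k) :
    Sing (Dl N × unitInterval) k :=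
  (affD fun j => (x j).1).prodMk (affI fun j => (x j).2)

lemma face_affDI {k N : ℕ} (i : Fin (k + 2)) (x : Tup (Dl N × unitInterval) (k + 1)) :
    face i (affDI x) = affDI (x ∘ i.succAbove) := by
  have h1 := face_affD i (fun j => (x j).1)
  have h2 := affI_face i (fun j => (x j).2)
  ext t : 1
  refine Prod.ext ?_ ?_
  · exact congrArg (fun g : C(Dl k, Dl N) => g t) h1
  · exact congrArg (fun g : C(Dl k, unitInterval) => g t) h2

/-- Tuple chains of the cylinder as singular chains. -/
noncomputable def AS {k N : ℕ} :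
    (Tup (Dl N × unitInterval) k →₀ ℤ) →ₗ[ℤ] Chain (Dl N × unitInterval) k :=
  Finsupp.lmapDomain ℤ ℤ fun x => affDI x

@[simp] lemma AS_single {k N : ℕ} (x : Tup (Dl N × unitInterval) k) (a : ℤ) :
    AS (Finsupp.single x a) = Finsupp.single (affDI x) a := by
  simp [AS, Finsupp.lmapDomain_apply, Finsupp.mapDomain_single]

lemma AS_bdT {k N : ℕ} (c : Tup (Dl N × unitInterval) (k + 1) →₀ ℤ) :
    AS (bdT c) = bd (AS c) := by
  have := linext_apply (f := AS.comp bdT) (g := bd.comp AS) (c := c) (by
    intro x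
    simp only [LinearMap.comp_apply, bdT_single, AS_single, bd_single, map_smul, map_sum,
      one_smul, face_affDI])
  simpa using this

/-- The map `faceMap × id`. -/
noncomputable def faceId (n : ℕ) (i : Fin (n + 2)) :
    C(Dl n × unitInterval, Dl (n + 1) × unitInterval) :=
  (faceMap n i).prodMap (ContinuousMap.id unitInterval)

lemma faceId_affDI {k n : ℕ} (i : Fin (n + 2)) (x : Tup (Dl n × unitInterval) k) :
    (faceId n i).comp (affDI x) = affDI (faceId n i ∘ x) := by
  have h1 := faceMap_affD i (fun j => (x j).1)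
  ext t : 1
  refine Prod.ext ?_ ?_
  · exact congrArg (fun g : C(Dl k, Dl (n + 1)) => g t) h1
  · rfl

lemma push_faceId_AS {k n : ℕ} (i : Fin (n + 2)) (c : Tup (Dl n × unitInterval) k →₀ ℤ) :
    push (faceId n i) (AS c) = AS (mapT (faceId n i) c) := by
  have := linext_apply (f := (push (faceId n i)).comp AS)
    (g := AS.comp (mapT (faceId n i))) (c := c) (by
    intro x
    simp only [LinearMap.comp_apply, AS_single, push_single, mapT_single, faceId_affDI])
  simpa using this

/-- The labels. -/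
noncomputable def LL (N : ℕ) (m : ℕ) (x : Tup (Dl N) m) : Dl N × unitInterval := (baryD m x, 0)

/-- The inclusions at height `a`. -/
def psi (N : ℕ) (a : unitInterval) (x : Dl N) : Dl N × unitInterval := (x, a)

/-- The prism chain (on tuples). -/
noncomputable def Pr (N k : ℕ) (x : Tup (Dl N) k) : Tup (Dl N × unitInterval) (k + 1) →₀ ℤ :=
  hT (LL N) (psi N 0) k x - hT (LL N) (psi N 1) k x

lemma mapT_Pr {n k : ℕ} (i : Fin (n + 2)) (x : Tup (Dl n) k) :
    mapT (faceId n i) (Pr n k x) = Pr (n + 1) k (faceMap n i ∘ x) := by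
  have hL : ∀ m (x : Tup (Dl n) m), faceId n i (LL n m x) = LL (n + 1) m (faceMap n i ∘ x) := by
    intro m x
    refine Prod.ext ?_ rfl
    exact faceMap_baryD i m x
  unfold Pr
  rw [map_sub, mapT_hT (faceMap n i) (faceId n i) (LL n) (LL (n + 1)) hL (psi n 0) (psi (n + 1) 0)
    (fun _ => rfl), mapT_hT (faceMap n i) (faceId n i) (LL n) (LL (n + 1)) hL (psi n 1)
    (psi (n + 1) 1) (fun _ => rfl)]

lemma bdT_Pr (hH : SpecSdHomot) (N n : ℕ) (x : Tup (Dl N) (n + 1)) :
    bdT (Pr N (n + 1) x) = Finsupp.single (psi N 1 ∘ x) 1 - Finsupp.single (psi N 0 ∘ x) 1 -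
      ∑ i : Fin (n + 2), (-1 : ℤ) ^ (i : ℕ) • Pr N n (x ∘ i.succAbove) := by
  have h0 := (hH _ _ (LL N) (psi N 0)).1 n (Finsupp.single x 1)
  have h1 := (hH _ _ (LL N) (psi N 1)).1 n (Finsupp.single x 1)
  rw [Finsupp.linearCombination_single, one_smul] at h0 h1
  unfold Pr
  rw [map_sub, h0, h1, mapT_single, mapT_single]
  have h2 : ∀ a : unitInterval, Finsupp.linearCombination ℤ (hT (LL N) (psi N a) n)
      (bdT (Finsupp.single x 1)) = ∑ i : Fin (n + 2), (-1 : ℤ) ^ (i : ℕ) •
        hT (LL N) (psi N a) n (x ∘ i.succAbove) := by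
    intro a
    rw [bdT_single, one_smul, map_sum]
    refine Finset.sum_congr rfl fun i _ => ?_
    rw [map_smul, Finsupp.linearCombination_single, one_smul]
  rw [h2, h2]
  simp only [smul_sub, Finset.sum_sub_distrib]
  abel

/-- The prism chain of the cylinder over the standard simplex. -/
noncomputable def W (N : ℕ) : Chain (Dl N × unitInterval) (N + 1) := AS (Pr N N (vertsD N))

lemma bd_W (hH : SpecSdHomot) (n : ℕ) :
    bd (W (n + 1)) = Finsupp.single (affDI (psi (n + 1) 1 ∘ vertsD (n + 1))) 1 -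
      Finsupp.single (affDI (psi (n + 1) 0 ∘ vertsD (n + 1))) 1 -
      ∑ i : Fin (n + 2), (-1 : ℤ) ^ (i : ℕ) • push (faceId n i) (W n) := by
  unfold W
  rw [← AS_bdT, bdT_Pr hH, map_sub, map_sub, AS_single, AS_single, map_sum]
  congr 1
  refine Finset.sum_congr rfl fun i _ => ?_
  rw [map_smul, push_faceId_AS, mapT_Pr, faceMap_vertsD]

lemma affDI_psi (N : ℕ) (a : unitInterval) (t : Dl N) :
    affDI (psi N a ∘ vertsD N) t = (t, a) := by
  refine Prod.ext ?_ ?_
  · exact congrArg (fun g : C(Dl N, Dl N) => g t) (affD_vertsD N)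
  · exact congrArg (fun g : C(Dl N, unitInterval) => g t) (affI_const a)

end Family

open Family in
/-- FAMILY from the homotopy formula for tuples. -/
theorem specFamily_of (hH : SpecSdHomot) : SpecFamily.{u} := by
  intro X _ n c hc H1 H0 hs hface
  refine ⟨Finsupp.linearCombination ℤ (fun σ => push (H1 σ) (W (n + 1))) c, ?_⟩
  set Q : Chain X n →ₗ[ℤ] Chain X (n + 1) :=
    Finsupp.linearCombination ℤ (fun τ => push (H0 τ) (W n)) with hQ
  set G : Sing X (n + 1) → Sing X (n + 1) :=
    fun σ => ⟨fun t => H1 σ (t, 1), by fun_prop⟩ with hG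
  have key : (bd.comp (Finsupp.linearCombination ℤ (fun σ => push (H1 σ) (W (n + 1))))) c =
      (Finsupp.lmapDomain ℤ ℤ G - LinearMap.id - Q.comp bd :
        Chain X (n + 1) →ₗ[ℤ] Chain X (n + 1)) c := by
    refine lin_congr c ?_
    intro σ hσ
    simp only [LinearMap.comp_apply, LinearMap.sub_apply, LinearMap.id_apply]
    rw [Finsupp.linearCombination_single, one_smul, ← push_bd, bd_W hH, map_sub, map_sub, map_sum,
      push_single, push_single, Finsupp.lmapDomain_apply, Finsupp.mapDomain_single, bd_single,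
      one_smul, map_sum]
    congr 1
    · congr 1
      · congr 1
        ext t
        change H1 σ (affDI (psi (n + 1) 1 ∘ vertsD (n + 1)) t) = H1 σ (t, 1)
        rw [affDI_psi]
      · congr 1
        ext t
        change H1 σ (affDI (psi (n + 1) 0 ∘ vertsD (n + 1)) t) = σ t
        rw [affDI_psi, hs σ hσ]
    · refine Finset.sum_congr rfl fun i _ => ?_
      have he : (H1 σ).comp (faceId n i) = H0 (face i σ) := by
        ext ts
        exact hface σ hσ i ts.1 ts.2
      rw [map_smul, map_smul, hQ, Finsupp.linearCombination_single, one_smul, ← push_comp, he]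
  rw [LinearMap.comp_apply] at key
  rw [key]
  simp only [LinearMap.sub_apply, LinearMap.comp_apply, LinearMap.id_apply, hc, map_zero, sub_zero]
  rfl

theorem specFamily : SpecFamily.{u} := specFamily_of specSdHomot

end MPb00168
end

section
set_option autoImplicit false

/-! # MP_b00168_gt : module POINT -/

namespace MPb00168

open Finset

universe u v w

namespace Point

variable {X : Type u} {Y : Type v} [TopologicalSpace X] [TopologicalSpace Y]

/-- The constant simplex. -/
def pt (y : Y) (k : ℕ) : Sing Y k := ContinuousMap.const _ y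

/-- The sum of the coefficients. -/
noncomputable def aug {k : ℕ} : Chain X k →ₗ[ℤ] ℤ := Finsupp.linearCombination ℤ fun _ => (1 : ℤ)

lemma push_const (y : Y) {k : ℕ} (c : Chain X k) :
    push (ContinuousMap.const X y) c = Finsupp.single (pt y k) (aug c) := by
  have := linext_apply (f := push (ContinuousMap.const X y))
    (g := (Finsupp.lsingle (pt y k)).comp aug) (c := c) (by
    intro σ
    simp only [push_single, LinearMap.comp_apply, aug, Finsupp.linearCombination_single,
      Finsupp.lsingle_apply, smul_eq_mul, mul_one]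
    rfl)
  simpa using this

lemma face_pt (y : Y) (k : ℕ) (i : Fin (k + 2)) : face i (pt y (k + 1)) = pt y k := rfl

lemma bd_pt (y : Y) (k : ℕ) (a : ℤ) :
    bd (Finsupp.single (pt y (k + 1)) a) =
      Finsupp.single (pt y k) (a * if Even (k + 2) then 0 else 1) := by
  rw [bd_single]
  simp only [face_pt, Finsupp.smul_single, smul_eq_mul, mul_one]
  rw [← Finsupp.single_finsetSum, Fin.sum_univ_eq_sum_range (fun i => (-1 : ℤ) ^ i) (k + 2),
    neg_one_geom_sum, Finsupp.smul_single, smul_eq_mul]

end Point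

theorem specPoint : SpecPoint.{u, v} := by
  intro X Y _ _ y n c hc
  rw [Point.push_const]
  rcases Nat.even_or_odd (n + 1) with h | h
  · have h1 : bd (push (ContinuousMap.const X y) c) = 0 := by rw [← push_bd, hc, map_zero]
    rw [Point.push_const, Point.bd_pt] at h1
    have h2 : ¬ Even (n + 2) := by
      intro h3
      rw [Nat.even_iff] at h h3
      omega
    rw [if_neg h2, mul_one] at h1
    have h3 := Finsupp.single_eq_zero.mp h1
    rw [h3, Finsupp.single_zero]
    exact Homologous.refl _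
  · refine ⟨Finsupp.single (Point.pt y (n + 2)) (Point.aug c), ?_⟩
    have h2 : ¬ Even (n + 1 + 2) := by
      intro h3
      rw [Nat.odd_iff] at h
      rw [Nat.even_iff] at h3
      omega
    rw [Point.bd_pt, if_neg h2, mul_one, sub_zero]

end MPb00168
end

section
set_option autoImplicit false

/-! # MP_b00168_gt : restriction of chains to a subset; points of `RP P` -/

namespace MPb00168

open Finset

universe u v

section

variable {E : Type u} [TopologicalSpace E] {Y : Set E}

/-- A singular simplex of `E` contained in `Y` as a singular simplex of `Y`. -/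
def intoY {k : ℕ} (σ : Sing E k) (h : ∀ t, σ t ∈ Y) : Sing Y k :=
  ⟨fun t => ⟨σ t, h t⟩, by fun_prop⟩

lemma restr_single_of_mem {k : ℕ} (σ : Sing E k) (h : ∀ t, σ t ∈ Y) (a : ℤ) :
    restr Y (Finsupp.single σ a) = Finsupp.single (intoY σ h) a := by
  simp [restr, h, intoY]

lemma restr_single_of_not_mem {k : ℕ} (σ : Sing E k) (h : ¬ ∀ t, σ t ∈ Y) (a : ℤ) :
    restr Y (Finsupp.single σ a) = 0 := by
  simp only [restr, Finsupp.linearCombination_single, dif_neg h, smul_zero]

lemma face_intoY {k : ℕ} (i : Fin (k + 2)) (σ : Sing E (k + 1)) (h : ∀ t, σ t ∈ Y) :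
    face i (intoY σ h) = intoY (face i σ) (fun _ => h _) := rfl

lemma restr_bd {k : ℕ} (c : Chain E (k + 1)) (hc : SuppIn Y c) :
    restr Y (bd c) = bd (restr Y c) := by
  have := lin_congr (f := (restr Y).comp bd) (g := bd.comp (restr Y)) c (by
    intro σ hσ
    have h : ∀ t, σ t ∈ Y := fun t => hc σ hσ ⟨t, rfl⟩
    rw [LinearMap.comp_apply, LinearMap.comp_apply, restr_single_of_mem σ h, bd_single, bd_single,
      one_smul, one_smul, map_sum]
    refine Finset.sum_congr rfl fun i _ => ?_
    have h' : ∀ t, (face i σ) t ∈ Y := fun t => h (faceMap k i t)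
    rw [map_smul, restr_single_of_mem (face i σ) h' 1]
    rfl)
  simpa using this

/-- The inclusion of a subset. -/
def inclY (Y : Set E) : C(Y, E) := ⟨Subtype.val, continuous_subtype_val⟩

lemma restr_push_incl {k : ℕ} (c : Chain Y k) : restr Y (push (inclY Y) c) = c := by
  have := linext_apply (f := (restr Y).comp (push (inclY Y))) (g := LinearMap.id) (c := c) (by
    intro σ
    rw [LinearMap.comp_apply, push_single, restr_single_of_mem _ (fun t => (σ t).2)]
    rfl)
  simpa using this

lemma suppIn_push_incl {k : ℕ} (c : Chain Y k) : SuppIn Y (push (inclY Y) c) := by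
  intro σ hσ
  obtain ⟨τ, -, hτ⟩ := mem_support_lin (push (inclY Y)) c hσ
  rw [push_single] at hτ
  have := Finsupp.support_single_subset hτ
  rw [Finset.mem_singleton] at this
  subst this
  rintro _ ⟨t, rfl⟩
  exact (τ t).2

lemma push_incl_restr {k : ℕ} (c : Chain E k) (hc : SuppIn Y c) :
    push (inclY Y) (restr Y c) = c := by
  have := lin_congr (f := (push (inclY Y)).comp (restr Y)) (g := LinearMap.id) c (by
    intro σ hσ
    have h : ∀ t, σ t ∈ Y := fun t => hc σ hσ ⟨t, rfl⟩
    rw [LinearMap.comp_apply, restr_single_of_mem σ h, push_single]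
    rfl)
  simpa using this

/-- Homologies inside the ambient space with support in `Y` give homologies in `Y`. -/
lemma Homologous.of_restr {k : ℕ} {c c' : Chain E k} (b : Chain E (k + 1)) (hb : SuppIn Y b)
    (h : bd b = c - c') : Homologous (restr Y c) (restr Y c') :=
  ⟨restr Y b, by rw [← restr_bd b hb, h, map_sub]⟩

lemma SuppIn.add {k : ℕ} {c d : Chain E k} (hc : SuppIn Y c) (hd : SuppIn Y d) :
    SuppIn Y (c + d) := by
  classical
  intro σ hσ
  rcases Finset.mem_union.mp (Finsupp.support_add hσ) with h | h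
  · exact hc σ h
  · exact hd σ h

lemma SuppIn.neg {k : ℕ} {c : Chain E k} (hc : SuppIn Y c) : SuppIn Y (-c) := by
  intro σ hσ
  rw [Finsupp.support_neg] at hσ
  exact hc σ hσ

lemma SuppIn.sub {k : ℕ} {c d : Chain E k} (hc : SuppIn Y c) (hd : SuppIn Y d) :
    SuppIn Y (c - d) := by
  rw [sub_eq_add_neg]; exact hc.add hd.neg

lemma SuppIn.zero {k : ℕ} : SuppIn Y (0 : Chain E k) := by intro σ hσ; simp at hσ

lemma SuppIn.smul {k : ℕ} {c : Chain E k} (a : ℤ) (hc : SuppIn Y c) : SuppIn Y (a • c) :=
  fun σ hσ => hc σ (Finsupp.support_smul hσ)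

end

section RP

variable {P : Type} [Fintype P] [PartialOrder P]

/-- A convex combination of points of `RP P` with supports in a common chain. -/
lemma sum_mem_RP {ι : Type*} (s : Finset ι) (w : ι → ℝ) (hw : ∀ i ∈ s, 0 ≤ w i)
    (hw1 : ∑ i ∈ s, w i = 1) (x : ι → P → ℝ) (t : Set P) (ht : IsChain (· ≤ ·) t)
    (hx : ∀ i ∈ s, x i ∈ RP P) (hxt : ∀ i ∈ s, ∀ p, x i p ≠ 0 → p ∈ t) :
    (∑ i ∈ s, w i • x i) ∈ RP P := by
  refine ⟨fun p => ?_, ?_, ?_⟩
  · rw [Finset.sum_apply]
    exact Finset.sum_nonneg fun i hi => mul_nonneg (hw i hi) ((hx i hi).1 p)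
  · calc ∑ p, (∑ i ∈ s, w i • x i) p = ∑ p, ∑ i ∈ s, w i * x i p := by
          refine Finset.sum_congr rfl fun p _ => ?_
          rw [Finset.sum_apply]; rfl
      _ = ∑ i ∈ s, ∑ p, w i * x i p := Finset.sum_comm
      _ = ∑ i ∈ s, w i := by
          refine Finset.sum_congr rfl fun i hi => ?_
          rw [← Finset.mul_sum, (hx i hi).2.1, mul_one]
      _ = 1 := hw1
  · refine ht.mono ?_
    intro p hp
    rw [Set.mem_ofPred_eq, Finset.sum_apply] at hp
    obtain ⟨i, hi, hne⟩ := Finset.exists_ne_zero_of_sum_ne_zero hp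
    exact hxt i hi p (right_ne_zero_of_mul hne)

/-- An affine simplex with vertices in `RP P` with supports in a common chain. -/
lemma aff_mem_RP {k : ℕ} (x : Tup (P → ℝ) k) (t : Set P) (ht : IsChain (· ≤ ·) t)
    (hx : ∀ i, x i ∈ RP P) (hxt : ∀ i, ∀ p, x i p ≠ 0 → p ∈ t)
    (a : stdSimplex ℝ (Fin (k + 1))) : aff x a ∈ RP P := by
  have := sum_mem_RP Finset.univ (fun j => (a : Fin (k + 1) → ℝ) j) (fun i _ => a.2.1 i) a.2.2 x t
    ht (fun i _ => hx i) (fun i _ => hxt i)
  exact this

lemma vert_mem_RP (p : P) : vert p ∈ RP P := by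
  classical
  refine ⟨fun q => ?_, ?_, ?_⟩
  · unfold vert
    by_cases h : q = p
    · subst h; simp
    · simp [h]
  · unfold vert
    rw [Finset.sum_eq_single p]
    · simp
    · intro q _ hq; simp [hq]
    · intro h; exact absurd (Finset.mem_univ p) h
  · intro q hq r hr hqr
    unfold vert at hq hr
    have h1 : q = p := by
      by_contra h
      exact hq (by simp [h])
    have h2 : r = p := by
      by_contra h
      exact hr (by simp [h])
    exact absurd (h1.trans h2.symm) hqr

omit [Fintype P] [PartialOrder P] in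
lemma vert_ne_zero {p q : P} (h : vert p q ≠ 0) : q = p := by
  classical
  by_contra hne
  exact h (by simp [vert, hne])

/-- An affine simplex with vertices the vertices of a chain. -/
lemma aff_vert_mem_RP {k : ℕ} (x : Tup P k) (hx : IsChain (· ≤ ·) (Set.range x))
    (a : stdSimplex ℝ (Fin (k + 1))) : aff (vert ∘ x) a ∈ RP P :=
  aff_mem_RP _ _ hx (fun i => vert_mem_RP _) (fun i _ hp => ⟨i, (vert_ne_zero hp).symm⟩) a

lemma suppIn_affS_vert {k : ℕ} (c : Tup P k →₀ ℤ) (hc : ChainSupp c) :
    SuppIn (RP P) (affS (mapT vert c)) := by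
  intro σ hσ
  obtain ⟨x, hx, hσ'⟩ := mem_support_lin ((affS (E := P → ℝ)).comp (mapT vert)) c
    (by simpa using hσ)
  rw [LinearMap.comp_apply, mapT_single, affS_single] at hσ'
  have := Finsupp.support_single_subset hσ'
  rw [Finset.mem_singleton] at this
  subst this
  rintro _ ⟨t, rfl⟩
  exact aff_vert_mem_RP x (hc x hx) t

lemma realT_single {k : ℕ} (x : Tup P k) (hx : IsChain (· ≤ ·) (Set.range x)) (a : ℤ) :
    realT P (Finsupp.single x a) =
      Finsupp.single (intoY (aff (vert ∘ x)) (aff_vert_mem_RP x hx)) a := by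
  simp only [realT, LinearMap.comp_apply, mapT_single, affS_single]
  rw [restr_single_of_mem]

lemma bd_realT {k : ℕ} (c : Tup P (k + 1) →₀ ℤ) (hc : ChainSupp c) :
    bd (realT P c) = realT P (bdT c) := by
  simp only [realT, LinearMap.comp_apply]
  rw [← restr_bd _ (suppIn_affS_vert c hc), ← affS_bdT, ← mapT_bdT]

end RP

end MPb00168
end

section
set_option autoImplicit false

/-! # MP_b00168_gt : module PATH -/

namespace MPb00168

namespace PathM

variable {P : Type} [Fintype P] [PartialOrder P]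

/-- Two points of `RP P` whose supports lie in a common chain are joined by a segment. -/
lemma joinedIn_of_chain {y y' : P → ℝ} (hy : y ∈ RP P) (hy' : y' ∈ RP P) (t : Set P)
    (ht : IsChain (· ≤ ·) t) (h : ∀ p, y p ≠ 0 → p ∈ t) (h' : ∀ p, y' p ≠ 0 → p ∈ t) :
    JoinedIn (RP P) y y' := by
  apply JoinedIn.of_segment_subset
  rintro z ⟨a, b, ha, hb, hab, rfl⟩
  have := sum_mem_RP (Finset.univ : Finset (Fin 2)) ![a, b]
    (by intro i _; fin_cases i; exacts [ha, hb])
    (by simpa [Fin.sum_univ_two] using hab) ![y, y'] t ht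
    (by intro i _; fin_cases i; exacts [hy, hy'])
    (by intro i _; fin_cases i; exacts [h, h'])
  simpa [Fin.sum_univ_two] using this

lemma joinedIn_vert_of_le {p q : P} (h : p ≤ q) : JoinedIn (RP P) (vert p) (vert q) := by
  refine joinedIn_of_chain (vert_mem_RP p) (vert_mem_RP q) {p, q} ?_ ?_ ?_
  · intro a ha b hb _
    rcases ha with rfl | rfl <;> rcases hb with rfl | rfl
    · exact Or.inl le_rfl
    · exact Or.inl h
    · exact Or.inr h
    · exact Or.inl le_rfl
  · intro r hr
    exact Or.inl (vert_ne_zero hr)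
  · intro r hr
    exact Or.inr (vert_ne_zero hr)

lemma exists_ne_zero {y : P → ℝ} (hy : y ∈ RP P) : ∃ p, y p ≠ 0 := by
  by_contra hcon
  push Not at hcon
  have := hy.2.1
  rw [Finset.sum_eq_zero fun p _ => hcon p] at this
  exact zero_ne_one this

lemma joinedIn_vert {y : P → ℝ} (hy : y ∈ RP P) {p : P} (hp : y p ≠ 0) :
    JoinedIn (RP P) y (vert p) := by
  refine joinedIn_of_chain hy (vert_mem_RP p) {q | y q ≠ 0} hy.2.2 (fun q hq => hq) ?_
  intro r hr
  rw [vert_ne_zero hr]
  exact hp

/-- A criterion for path-connectedness of `RP P`. -/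
lemma pathConnected_of {p₀ : P} (h : ∀ p : P, JoinedIn (RP P) (vert p) (vert p₀)) :
    PathConnectedSpace (RP P) := by
  rw [← isPathConnected_iff_pathConnectedSpace]
  refine ⟨vert p₀, vert_mem_RP p₀, fun {y} hy => ?_⟩
  obtain ⟨p, hp⟩ := exists_ne_zero hy
  exact ((joinedIn_vert hy hp).trans (h p)).symm

end PathM

open PathM in
theorem specPath : SpecPath := by
  intro n S _ _ C hC
  obtain ⟨s₀⟩ := ‹Nonempty S›
  have huniv : (Finset.univ : Finset (Fin (n + 2))).Nonempty := ⟨0, Finset.mem_univ 0⟩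
  have hstep : ∀ (i : Fin (n + 2)) (s : S),
      JoinedIn (RP C.Cells) (vert (C.cellOf _ huniv (C.a i s))) (vert (C.cellOf _ huniv s)) := by
    intro i s
    have hne : (Finset.univ \ {i} : Finset (Fin (n + 2))).Nonempty := by
      rcases eq_or_ne i 0 with h | h
      · refine ⟨1, ?_⟩
        simp [h]
      · refine ⟨0, ?_⟩
        simp [h.symm]
    have h1 : C.cellOf _ hne (C.a i s) = C.cellOf _ hne s := by
      apply Subtype.ext
      have := C.cell_a (J := Finset.univ \ {i}) (i := i) (by simp) s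
      change ((Finset.univ \ {i} : Finset (Fin (n + 2))),
        OrderDual.toDual (C.cell (Finset.univ \ {i}) (C.a i s))) =
        ((Finset.univ \ {i} : Finset (Fin (n + 2))),
        OrderDual.toDual (C.cell (Finset.univ \ {i}) s))
      rw [this]
    have h2 := joinedIn_vert_of_le (C.cellOf_le hne huniv (Finset.subset_univ _) (C.a i s))
    have h3 := joinedIn_vert_of_le (C.cellOf_le hne huniv (Finset.subset_univ _) s)
    rw [h1] at h2
    exact h2.symm.trans h3
  have hact : ∀ (w : List (Fin (n + 2))) (s : S),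
      JoinedIn (RP C.Cells) (vert (C.cellOf _ huniv (C.act w s))) (vert (C.cellOf _ huniv s)) := by
    intro w
    induction w with
    | nil => intro s; exact JoinedIn.refl (vert_mem_RP _)
    | cons i w ih => intro s; exact (hstep i _).trans (ih s)
  refine pathConnected_of (p₀ := C.cellOf _ huniv s₀) fun q => ?_
  obtain ⟨s, hs⟩ := q.2.2
  have hq : q = C.cellOf q.1.1 q.2.1 s := Subtype.ext (Prod.ext rfl hs)
  obtain ⟨w, hw⟩ := hC s₀ s
  have h1 := joinedIn_vert_of_le (C.cellOf_le q.2.1 huniv (Finset.subset_univ _) s)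
  rw [← hq] at h1
  have h2 := hact w s₀
  rw [hw] at h2
  exact h1.trans h2

end MPb00168
end

section
set_option autoImplicit false

/-! # MP_b00168_gt : module COLX -/

namespace MPb00168

universe u v w

namespace ColX

open Finset

/-! ### Swapping a position of a flag -/

/-- The flag which differs from `F` only at the position `k`. -/
def swp : ∀ {n : ℕ}, Fin (n + 1) → Flag (n + 1) → Flag (n + 1)
  | 0, _, F => (Fin.rev F.1, F.2)
  | n + 1, k, F =>
      if h : k = Fin.last (n + 1) then (F.1.succAbove F.2.1, (F.2.1.predAbove F.1, F.2.2))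
      else (F.1, swp (k.castPred h) F.2)

lemma swp_zero (k : Fin 1) (F : Flag 1) : swp k F = (Fin.rev F.1, F.2) := rfl

lemma swp_last {n : ℕ} (F : Flag (n + 2)) :
    swp (Fin.last (n + 1)) F = (F.1.succAbove F.2.1, (F.2.1.predAbove F.1, F.2.2)) := by
  rw [swp, dif_pos rfl]
  rfl

lemma swp_castSucc {n : ℕ} (k : Fin (n + 1)) (F : Flag (n + 2)) :
    swp k.castSucc F = (F.1, swp k F.2) := by
  have h : k.castSucc ≠ Fin.last (n + 1) := (Fin.castSucc_lt_last k).ne
  rw [swp, dif_neg h, Fin.castPred_castSucc]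

lemma swp_swp : ∀ {n : ℕ} (k : Fin (n + 1)) (F : Flag (n + 1)), swp k (swp k F) = F
  | 0, k, F => by
      rw [swp_zero, swp_zero]
      exact Prod.ext (Fin.rev_rev _) rfl
  | n + 1, k, F => by
      refine Fin.lastCases ?_ (fun k => ?_) k
      · rw [swp_last, swp_last]
        refine Prod.ext ?_ (Prod.ext ?_ rfl)
        · exact Fin.succAbove_succAbove_predAbove _ _
        · exact Fin.predAbove_predAbove_succAbove _ _
      · rw [swp_castSucc, swp_castSucc]
        exact Prod.ext rfl (swp_swp k F.2)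

lemma sgn_succ {n : ℕ} (F : Flag (n + 1)) :
    F.sgn = (-1) ^ (n + 1 + (F.1 : ℕ)) * Flag.sgn F.2 := rfl

lemma sgn_swp : ∀ {n : ℕ} (k : Fin (n + 1)) (F : Flag (n + 1)), (swp k F).sgn = -F.sgn
  | 0, k, F => by
      rw [swp_zero, sgn_succ, sgn_succ]
      have h : ∀ p : Fin 2, (-1 : ℤ) ^ (0 + 1 + (Fin.rev p : ℕ)) = -(-1) ^ (0 + 1 + (p : ℕ)) := by
        decide
      have h1 := h F.1
      change (-1 : ℤ) ^ (0 + 1 + (Fin.rev F.1 : ℕ)) * Flag.sgn F.2 = _
      rw [h1]
      ring
  | n + 1, k, F => by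
      refine Fin.lastCases ?_ (fun k => ?_) k
      · rw [swp_last, sgn_succ, sgn_succ (F := F), sgn_succ (F := F.2)]
        change (-1 : ℤ) ^ (n + 1 + 1 + (F.1.succAbove F.2.1 : ℕ)) *
          ((-1) ^ (n + 1 + (F.2.1.predAbove F.1 : ℕ)) * Flag.sgn F.2.2) = _
        have h := Fin.neg_one_pow_succAbove_add_predAbove (R := ℤ) F.1 F.2.1
        rw [pow_add (-1 : ℤ) (n + 1 + 1) (F.1.succAbove F.2.1 : ℕ),
          pow_add (-1 : ℤ) (n + 1) (F.2.1.predAbove F.1 : ℕ), pow_add (-1 : ℤ) (n + 1 + 1) (F.1 : ℕ),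
          pow_add (-1 : ℤ) (n + 1) (F.2.1 : ℕ)]
        rw [pow_add, pow_add] at h
        linear_combination ((-1 : ℤ) ^ (n + 1 + 1) * (-1) ^ (n + 1) * Flag.sgn F.2.2) * h
      · rw [swp_castSucc, sgn_succ, sgn_succ (F := F)]
        change (-1 : ℤ) ^ (n + 1 + 1 + (F.1 : ℕ)) * Flag.sgn (swp k F.2) = _
        rw [sgn_swp k F.2]
        ring

lemma lab_succ {E : Type u} {E' : Type v} (L : ∀ k, Tup E k → E') {n : ℕ} (F : Flag (n + 1))
    (x : Tup E (n + 1)) : lab L F x =
      Fin.snoc (α := fun _ => E') (lab L F.2 (x ∘ F.1.succAbove)) (L (n + 1) x) := rfl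

lemma lab_last {E : Type u} {E' : Type v} (L : ∀ k, Tup E k → E') {n : ℕ} (F : Flag (n + 1))
    (x : Tup E (n + 1)) : lab L F x (Fin.last (n + 1)) = L (n + 1) x := by
  rw [lab_succ, Fin.snoc_last]

lemma lab_castSucc {E : Type u} {E' : Type v} (L : ∀ k, Tup E k → E') {n : ℕ} (F : Flag (n + 1))
    (x : Tup E (n + 1)) (j : Fin (n + 1)) :
    lab L F x j.castSucc = lab L F.2 (x ∘ F.1.succAbove) j := by
  rw [lab_succ]
  exact Fin.snoc_castSucc (α := fun _ => E') _ _ _

lemma lab_swp {E : Type u} {E' : Type v} (L : ∀ k, Tup E k → E') :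
    ∀ {n : ℕ} (k : Fin (n + 1)) (F : Flag (n + 1)) (x : Tup E (n + 1)) (j : Fin (n + 2)),
      j ≠ k.castSucc → lab L (swp k F) x j = lab L F x j
  | 0, k, F, x, j, hj => by
      have hj' : j = Fin.last 1 := by
        have : (j : ℕ) ≠ (k : ℕ) := fun h => hj (Fin.ext h)
        apply Fin.ext
        simp only [Fin.val_last]
        omega
      subst hj'
      rw [lab_last, lab_last]
  | n + 1, k, F, x, j, hj => by
      revert hj
      refine Fin.lastCases ?_ (fun j => ?_) j
      · intro _
        rw [lab_last, lab_last]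
      intro hj
      rw [lab_castSucc, lab_castSucc]
      revert hj
      refine Fin.lastCases ?_ (fun k => ?_) k
      · intro hj
        rw [swp_last]
        change @lab E E' L (n + 1) (F.2.1.predAbove F.1, F.2.2)
          (x ∘ (F.1.succAbove F.2.1).succAbove) j = _
        revert hj
        refine Fin.lastCases ?_ (fun j => ?_) j
        · intro hj
          exact absurd rfl hj
        intro _
        rw [lab_castSucc, lab_castSucc]
        congr 1
        funext m
        simp only [Function.comp_apply]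
        rw [Fin.succAbove_succAbove_succAbove_predAbove]
      · intro hj
        rw [swp_castSucc]
        exact lab_swp L k F.2 (x ∘ F.1.succAbove) j (fun h => hj (by rw [h]))

lemma sgn_unit : ∀ {n : ℕ} (F : Flag n), F.sgn = 1 ∨ F.sgn = -1
  | 0, _ => Or.inl rfl
  | n + 1, F => by
      rw [sgn_succ]
      rcases neg_one_pow_eq_or ℤ (n + 1 + (F.1 : ℕ)) with h | h <;>
        rcases sgn_unit F.2 with h' | h' <;> rw [h, h'] <;> simp

/-! ### Naturality -/

lemma lab_natural {E E' D D' : Type*} (L : ∀ k, Tup E k → D) (L' : ∀ k, Tup E' k → D')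
    (f : E' → E) (g : D' → D) (h : ∀ k (y : Tup E' k), L k (f ∘ y) = g (L' k y)) :
    ∀ {n : ℕ} (F : Flag n) (y : Tup E' n), lab L F (f ∘ y) = g ∘ lab L' F y
  | 0, _, y => by
      funext j
      exact h 0 y
  | n + 1, F, y => by
      funext j
      refine Fin.lastCases ?_ (fun j => ?_) j
      · rw [Function.comp_apply, lab_last, lab_last, h]
      · rw [Function.comp_apply, lab_castSucc, lab_castSucc, Function.comp_assoc,
          lab_natural L L' f g h F.2, Function.comp_apply]

lemma ext_succAbove {n : ℕ} (p : Fin (n + 2)) {x y : stdSimplex ℝ (Fin (n + 2))}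
    (h0 : (x : Fin (n + 2) → ℝ) p = (y : Fin (n + 2) → ℝ) p)
    (h1 : ∀ j, (x : Fin (n + 2) → ℝ) (p.succAbove j) = (y : Fin (n + 2) → ℝ) (p.succAbove j)) :
    x = y := by
  apply Subtype.ext
  funext m
  rcases Fin.eq_self_or_eq_succAbove p m with h | ⟨j, h⟩
  · subst h; exact h0
  · subst h; exact h1 j

lemma affD_apply {k n : ℕ} (x : Tup (stdSimplex ℝ (Fin (n + 1))) k)
    (t : stdSimplex ℝ (Fin (k + 1))) (m : Fin (n + 1)) :
    (affD x t : Fin (n + 1) → ℝ) m = ∑ j, (t : Fin (k + 1) → ℝ) j * (x j : Fin (n + 1) → ℝ) m := by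
  have : (affD x t : Fin (n + 1) → ℝ) = ∑ j, (t : Fin (k + 1) → ℝ) j • (x j : Fin (n + 1) → ℝ) :=
    rfl
  rw [this, Finset.sum_apply]
  rfl

lemma baryD_apply {k n : ℕ} (x : Tup (stdSimplex ℝ (Fin (n + 1))) k) (m : Fin (n + 1)) :
    (baryD k x : Fin (n + 1) → ℝ) m = ((k : ℝ) + 1)⁻¹ * ∑ j, (x j : Fin (n + 1) → ℝ) m := by
  have : (baryD k x : Fin (n + 1) → ℝ) = ((k : ℝ) + 1)⁻¹ • ∑ j, (x j : Fin (n + 1) → ℝ) := rfl
  rw [this, Pi.smul_apply, Finset.sum_apply]
  rfl

lemma affD_faceMap {k n : ℕ} (p : Fin (n + 2)) (y : Tup (stdSimplex ℝ (Fin (n + 1))) k) :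
    affD (faceMap n p ∘ y) = (faceMap n p).comp (affD y) := by
  ext1 t
  apply ext_succAbove p
  · rw [affD_apply, ContinuousMap.comp_apply, faceMap_apply_self]
    refine Finset.sum_eq_zero fun j _ => ?_
    rw [Function.comp_apply, faceMap_apply_self, mul_zero]
  · intro m
    rw [affD_apply, ContinuousMap.comp_apply, faceMap_apply, affD_apply]
    refine Finset.sum_congr rfl fun j _ => ?_
    rw [Function.comp_apply, faceMap_apply]

lemma baryD_faceMap {n : ℕ} (p : Fin (n + 2)) (k : ℕ)
    (y : Tup (stdSimplex ℝ (Fin (n + 1))) k) :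
    baryD k (faceMap n p ∘ y) = faceMap n p (baryD k y) := by
  apply ext_succAbove p
  · rw [baryD_apply, faceMap_apply_self]
    have : ∑ j, ((faceMap n p ∘ y) j : Fin (n + 2) → ℝ) p = 0 := by
      refine Finset.sum_eq_zero fun j _ => ?_
      rw [Function.comp_apply, faceMap_apply_self]
    rw [this, mul_zero]
  · intro m
    rw [baryD_apply, faceMap_apply, baryD_apply]
    congr 1
    refine Finset.sum_congr rfl fun j _ => ?_
    rw [Function.comp_apply, faceMap_apply]

lemma vertsD_succAbove {n : ℕ} (p : Fin (n + 2)) :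
    vertsD (n + 1) ∘ p.succAbove = faceMap n p ∘ vertsD n := by
  funext i
  apply ext_succAbove p
  · rw [Function.comp_apply, Function.comp_apply, faceMap_apply_self]
    change (Pi.single (p.succAbove i) 1 : Fin (n + 2) → ℝ) p = 0
    rw [Pi.single_apply, if_neg (Fin.succAbove_ne p i).symm]
  · intro m
    rw [Function.comp_apply, Function.comp_apply, faceMap_apply]
    change (Pi.single (p.succAbove i) 1 : Fin (n + 2) → ℝ) (p.succAbove m) =
      (Pi.single i 1 : Fin (n + 1) → ℝ) m
    rw [Pi.single_apply, Pi.single_apply]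
    simp only [Fin.succAbove_right_injective.eq_iff]

lemma affD_lab_succAbove {n : ℕ} (p : Fin (n + 2)) (F : Flag n) :
    affD (lab baryD F (vertsD (n + 1) ∘ p.succAbove)) =
      (faceMap n p).comp (affD (lab baryD F (vertsD n))) := by
  rw [vertsD_succAbove, lab_natural baryD baryD (faceMap n p) (faceMap n p)
    (fun k y => baryD_faceMap p k y), affD_faceMap]

/-! ### Items and matchings -/

lemma exists_items {α : Type u} (z : α →₀ ℤ) : ∃ (N : ℕ) (x : Fin N → α) (η : Fin N → ℤ),
    (∀ j, η j = 1 ∨ η j = -1) ∧ ∑ j, Finsupp.single (x j) (η j) = z := by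
  induction z using Finsupp.induction_linear with
  | zero => exact ⟨0, Fin.elim0, Fin.elim0, fun j => j.elim0, by simp⟩
  | add f g hf hg =>
      obtain ⟨N, x, η, h1, h2⟩ := hf
      obtain ⟨N', x', η', h1', h2'⟩ := hg
      refine ⟨N + N', Fin.append x x', Fin.append η η', ?_, ?_⟩
      · intro j
        refine Fin.addCases (fun j => ?_) (fun j => ?_) j
        · rw [Fin.append_left]; exact h1 j
        · rw [Fin.append_right]; exact h1' j
      · rw [Fin.sum_univ_add]
        simp only [Fin.append_left, Fin.append_right]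
        rw [h2, h2']
  | single a n =>
      refine ⟨n.natAbs, fun _ => a, fun _ => if 0 ≤ n then 1 else -1, ?_, ?_⟩
      · intro j
        dsimp only
        split_ifs <;> simp
      · rw [Finset.sum_const, Finset.card_univ, Fintype.card_fin, Finsupp.smul_single]
        congr 1
        rw [nsmul_eq_mul]
        split_ifs with h
        · rw [mul_one]; omega
        · rw [mul_neg, mul_one]; omega

lemma exists_matching {A : Type*} {K : Type*} [Fintype A] [DecidableEq K] (key : A → K) (s : A → ℤ)
    (hs : ∀ a, s a = 1 ∨ s a = -1) (h : ∀ κ, ∑ a with key a = κ, s a = 0) :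
    ∃ τ : A → A, (∀ a, τ (τ a) = a) ∧ (∀ a, key (τ a) = key a) ∧ ∀ a, s (τ a) = -s a := by
  classical
  let P := {a : A // s a = 1}
  let M := {a : A // s a = -1}
  have hcard : ∀ κ, Nonempty ({p : P // key p.1 = κ} ≃ {m : M // key m.1 = κ}) := by
    intro κ
    rw [← Fintype.card_eq]
    have hp : Fintype.card {p : P // key p.1 = κ} =
        (Finset.univ.filter fun a : A => key a = κ ∧ s a = 1).card := by
      rw [← Fintype.card_subtype]
      refine Fintype.card_congr ⟨fun p => ⟨p.1.1, p.2, p.1.2⟩, fun p => ⟨⟨p.1, p.2.2⟩, p.2.1⟩, ?_, ?_⟩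
      · intro p; rfl
      · intro p; rfl
    have hm : Fintype.card {m : M // key m.1 = κ} =
        (Finset.univ.filter fun a : A => key a = κ ∧ s a = -1).card := by
      rw [← Fintype.card_subtype]
      refine Fintype.card_congr ⟨fun p => ⟨p.1.1, p.2, p.1.2⟩, fun p => ⟨⟨p.1, p.2.2⟩, p.2.1⟩, ?_, ?_⟩
      · intro p; rfl
      · intro p; rfl
    have hsum := h κ
    have hsplit : ∑ a with key a = κ, s a =
        (((Finset.univ.filter fun a : A => key a = κ ∧ s a = 1).card : ℤ)) -
          ((Finset.univ.filter fun a : A => key a = κ ∧ s a = -1).card : ℤ) := by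
      have h1 : ∀ a, s a = (if s a = 1 then 1 else 0) - (if s a = -1 then 1 else 0) := by
        intro a
        rcases hs a with h | h <;> rw [h] <;> norm_num
      rw [Finset.sum_congr rfl fun a _ => h1 a, Finset.sum_sub_distrib, Finset.sum_boole,
        Finset.sum_boole, Finset.filter_filter, Finset.filter_filter]
    rw [hsplit] at hsum
    rw [hp, hm]
    omega
  let e : P ≃ M := Equiv.ofFiberEquiv (f := fun p : P => key p.1) (g := fun m : M => key m.1)
    (fun κ => (hcard κ).some)
  have he : ∀ p : P, key (e p).1 = key p.1 := fun p =>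
    Equiv.ofFiberEquiv_map (f := fun p : P => key p.1) (g := fun m : M => key m.1)
      (fun κ => (hcard κ).some) p
  have he' : ∀ m : M, key (e.symm m).1 = key m.1 := by
    intro m
    have := he (e.symm m)
    rw [Equiv.apply_symm_apply] at this
    exact this.symm
  have hneg : ∀ a, ¬ s a = 1 → s a = -1 := fun a ha => (hs a).resolve_left ha
  let τ : A → A := fun a => if ha : s a = 1 then (e ⟨a, ha⟩).1 else (e.symm ⟨a, hneg a ha⟩).1
  have hτ1 : ∀ a (ha : s a = 1), τ a = (e ⟨a, ha⟩).1 := fun a ha => dif_pos ha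
  have hτ2 : ∀ a (ha : s a = -1), τ a = (e.symm ⟨a, ha⟩).1 := by
    intro a ha
    have : ¬ s a = 1 := by rw [ha]; norm_num
    exact dif_neg this
  refine ⟨τ, ?_, ?_, ?_⟩
  · intro a
    rcases hs a with ha | ha
    · rw [hτ1 a ha, hτ2 _ (e ⟨a, ha⟩).2]
      have : (⟨(e ⟨a, ha⟩).1, (e ⟨a, ha⟩).2⟩ : M) = e ⟨a, ha⟩ := rfl
      rw [this, Equiv.symm_apply_apply]
    · rw [hτ2 a ha, hτ1 _ (e.symm ⟨a, ha⟩).2]
      have : (⟨(e.symm ⟨a, ha⟩).1, (e.symm ⟨a, ha⟩).2⟩ : P) = e.symm ⟨a, ha⟩ := rfl
      rw [this, Equiv.apply_symm_apply]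
  · intro a
    rcases hs a with ha | ha
    · rw [hτ1 a ha]; exact he _
    · rw [hτ2 a ha]; exact he' _
  · intro a
    rcases hs a with ha | ha
    · rw [hτ1 a ha, (e ⟨a, ha⟩).2, ha]
    · rw [hτ2 a ha, (e.symm ⟨a, ha⟩).2, ha]; norm_num

end ColX

open ColX Finset in
theorem specColX : SpecColX.{u} := by
  classical
  intro X _ n z hz
  obtain ⟨N, x, η, hη, hzs⟩ := exists_items z
  -- the matching of the facets
  have hbal : ∀ κ : Sing X n, ∑ q : Fin N × Fin (n + 2) with face q.2 (x q.1) = κ,
      η q.1 * (-1) ^ (q.2 : ℕ) = 0 := by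
    intro κ
    have h1 : (bd z) κ = 0 := by rw [hz]; rfl
    rw [← h1, ← hzs, map_sum, Finsupp.finsetSum_apply, Finset.sum_filter, Fintype.sum_prod_type]
    refine Finset.sum_congr rfl fun j _ => ?_
    rw [bd_single, Finsupp.smul_apply, Finsupp.finsetSum_apply, smul_eq_mul, Finset.mul_sum]
    refine Finset.sum_congr rfl fun i _ => ?_
    rw [Finsupp.smul_apply, Finsupp.single_apply, smul_eq_mul]
    split_ifs <;> simp
  have hunit : ∀ q : Fin N × Fin (n + 2), η q.1 * (-1) ^ (q.2 : ℕ) = 1 ∨
      η q.1 * (-1) ^ (q.2 : ℕ) = -1 := by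
    intro q
    rcases neg_one_pow_eq_or ℤ (q.2 : ℕ) with h | h <;>
      rcases hη q.1 with h' | h' <;> rw [h, h'] <;> simp
  obtain ⟨τ, hτ1, hτ2, hτ3⟩ := exists_matching (fun q : Fin N × Fin (n + 2) => face q.2 (x q.1))
    (fun q => η q.1 * (-1) ^ (q.2 : ℕ)) hunit hbal
  -- the adjacency
  let A : Fin (n + 2) → Fin N × Flag (n + 1) → Fin N × Flag (n + 1) := fun i s =>
    if h : i = Fin.last (n + 1) then ((τ (s.1, s.2.1)).1, ((τ (s.1, s.2.1)).2, s.2.2))
    else (s.1, swp (i.castPred h) s.2)
  have hA1 : ∀ s, A (Fin.last (n + 1)) s =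
      ((τ (s.1, s.2.1)).1, ((τ (s.1, s.2.1)).2, s.2.2)) := fun s => dif_pos rfl
  have hA2 : ∀ (k : Fin (n + 1)) s, A k.castSucc s = (s.1, swp k s.2) := by
    intro k s
    have h : k.castSucc ≠ Fin.last (n + 1) := (Fin.castSucc_lt_last k).ne
    have : A k.castSucc s = (s.1, swp (k.castSucc.castPred h) s.2) := dif_neg h
    rw [this, Fin.castPred_castSucc]
  let C : Colored n (Fin N × Flag (n + 1)) :=
    { a := A
      inv := by
        intro i s
        refine Fin.lastCases ?_ (fun k => ?_) i
        · rw [hA1, hA1]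
          have h := hτ1 (s.1, s.2.1)
          have h2 : ((τ (s.1, s.2.1)).1, (τ (s.1, s.2.1)).2) = τ (s.1, s.2.1) := rfl
          change ((τ ((τ (s.1, s.2.1)).1, (τ (s.1, s.2.1)).2)).1,
            ((τ ((τ (s.1, s.2.1)).1, (τ (s.1, s.2.1)).2)).2, s.2.2)) = s
          rw [h2, h]
          rfl
        · rw [hA2, hA2, swp_swp]
      ε := fun s => η s.1 * s.2.sgn
      unit := by
        intro s
        rcases hη s.1 with h | h <;> rcases sgn_unit s.2 with h' | h' <;> rw [h, h'] <;> simp
      flip := by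
        intro i s
        refine Fin.lastCases ?_ (fun k => ?_) i
        · rw [hA1]
          have h := hτ3 (s.1, s.2.1)
          dsimp only at h
          rw [sgn_succ (F := s.2)]
          change η (τ (s.1, s.2.1)).1 * ((-1) ^ (n + 1 + ((τ (s.1, s.2.1)).2 : ℕ)) *
            Flag.sgn s.2.2) = _
          rw [pow_add, pow_add]
          linear_combination ((-1 : ℤ) ^ (n + 1) * Flag.sgn s.2.2) * h
        · rw [hA2]
          dsimp only
          rw [sgn_swp]
          ring }
  refine ⟨Fin N × Flag (n + 1), inferInstance, C,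
    fun s => (x s.1).comp (affD (lab baryD s.2 (vertsD (n + 1)))), ?_, ?_⟩
  · intro i s
    change ((x (A i s).1).comp (affD (lab baryD (A i s).2 (vertsD (n + 1))))).comp (faceMap n i) =
      ((x s.1).comp (affD (lab baryD s.2 (vertsD (n + 1))))).comp (faceMap n i)
    rw [ContinuousMap.comp_assoc, ContinuousMap.comp_assoc, face_affD, face_affD]
    revert i
    refine Fin.lastCases ?_ (fun k => ?_)
    · rw [hA1]
      have hl : ∀ F : Flag (n + 1), (lab baryD F (vertsD (n + 1))) ∘ (Fin.last (n + 1)).succAbove =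
          lab baryD F.2 (vertsD (n + 1) ∘ F.1.succAbove) := by
        intro F
        funext j
        rw [Function.comp_apply, Fin.succAbove_last, lab_castSucc]
      rw [hl, hl]
      change (x (τ (s.1, s.2.1)).1).comp (affD (lab baryD s.2.2
        (vertsD (n + 1) ∘ (τ (s.1, s.2.1)).2.succAbove))) = _
      rw [affD_lab_succAbove, affD_lab_succAbove, ← ContinuousMap.comp_assoc,
        ← ContinuousMap.comp_assoc]
      have h := hτ2 (s.1, s.2.1)
      dsimp only at h
      exact congrArg (fun f : Sing X n => f.comp (affD (lab baryD s.2.2 (vertsD n)))) h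
    · rw [hA2]
      dsimp only
      congr 2
      funext j
      exact lab_swp baryD k s.2 _ _ (Fin.succAbove_ne _ _)
  · rw [← hzs, map_sum, Fintype.sum_prod_type]
    refine Finset.sum_congr rfl fun j _ => ?_
    rw [SdS_single, Finset.smul_sum]
    refine Finset.sum_congr rfl fun F _ => ?_
    rw [Finsupp.smul_single, Finsupp.smul_single, smul_eq_mul, smul_eq_mul, mul_one]

end MPb00168
end

section
set_option autoImplicit false

/-!
# MP_b00168_gt : modules PULL, COMPOSE, LC
-/

namespace MPb00168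

open Set Topology Filter

namespace PullComposeLC

open Classical in
/-- The open partial homeomorphism of the pull-back over a local inverse of `q`. -/
noncomputable def pullHomeo {N Y Y' : Type} [TopologicalSpace N] [TopologicalSpace Y]
    [TopologicalSpace Y'] (f : C(N, Y)) (q : C(Y', Y)) (e : OpenPartialHomeomorph Y' Y)
    (he : (q : Y' → Y) = e) (z₀ : {z : N × Y' // f z.1 = q z.2}) :
    OpenPartialHomeomorph {z : N × Y' // f z.1 = q z.2} N where
  toFun := fun z => z.1.1
  invFun := fun n => if h : f n ∈ e.target then ⟨(n, e.symm (f n)), by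
        rw [he]; exact (e.right_inv h).symm⟩ else z₀
  source := {z | z.1.2 ∈ e.source}
  target := {n | f n ∈ e.target}
  map_source' := by
    intro z hz
    have h1 := z.2
    have h2 : f z.1.1 = e z.1.2 := h1.trans (congrFun he z.1.2)
    change f z.1.1 ∈ e.target
    rw [h2]
    exact e.map_source hz
  map_target' := by
    intro n hn
    have hn' : f n ∈ e.target := hn
    simp only [hn', dite_true, mem_ofPred_eq]
    exact e.map_target hn'
  left_inv' := by
    intro z hz
    have h1 := z.2
    have h2 : f z.1.1 = e z.1.2 := h1.trans (congrFun he z.1.2)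
    have h3 : f z.1.1 ∈ e.target := by rw [h2]; exact e.map_source hz
    simp only [h3, dite_true]
    apply Subtype.ext
    apply Prod.ext
    · rfl
    · change e.symm (f z.1.1) = z.1.2
      rw [h2]
      exact e.left_inv hz
  right_inv' := by
    intro n hn
    have hn' : f n ∈ e.target := hn
    simp only [hn', dite_true]
  open_source := e.open_source.preimage (continuous_snd.comp continuous_subtype_val)
  open_target := e.open_target.preimage f.continuous
  continuousOn_toFun := (continuous_fst.comp continuous_subtype_val).continuousOn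
  continuousOn_invFun := by
    have hind : Topology.IsInducing (Subtype.val : {z : N × Y' // f z.1 = q z.2} → N × Y') :=
      ⟨rfl⟩
    rw [hind.continuousOn_iff]
    have h1 : ContinuousOn (fun n : N => (n, e.symm (f n))) {n | f n ∈ e.target} := by
      refine continuousOn_id.prodMk ?_
      exact e.continuousOn_symm.comp f.continuous.continuousOn (fun n hn => hn)
    refine h1.congr ?_
    intro n hn
    have hn' : f n ∈ e.target := hn
    simp only [Function.comp, hn', dite_true]

end PullComposeLC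

/-- Module PULL. -/
theorem specPull : SpecPull := by
  intro N Y Y' _ _ _ _ _ _ _ _ f q hq
  have hclosed : IsClosed {z : N × Y' | f z.1 = q z.2} :=
    isClosed_eq (f.continuous.comp continuous_fst) (q.continuous.comp continuous_snd)
  have hcs : CompactSpace {z : N × Y' // f z.1 = q z.2} :=
    isCompact_iff_compactSpace.mp hclosed.isCompact
  refine ⟨inferInstance, inferInstance, ?_⟩
  rw [← isLocalHomeomorph_iff_isCoveringMap]
  intro z
  obtain ⟨e, hez, he⟩ := hq.isLocalHomeomorph z.1.2
  exact ⟨PullComposeLC.pullHomeo f q e he z, hez, rfl⟩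

/-- Module COMPOSE. -/
theorem specCompose : SpecCompose := by
  classical
  intro A B C _ _ _ _ _ _ _ _ p q hp hq d e hpd hqe
  constructor
  · exact isLocalHomeomorph_iff_isCoveringMap.mp (hq.isLocalHomeomorph.comp hp.isLocalHomeomorph)
  · intro x
    have hset : (q.comp p) ⁻¹' {x} = ⋃ y ∈ q ⁻¹' {x}, p ⁻¹' {y} := by
      ext a
      simp
    have hfin : ((q.comp p) ⁻¹' {x}).Finite := by
      rw [hset]
      exact (hqe x).1.biUnion fun y _ => (hpd y).1
    refine ⟨hfin, ?_⟩
    have hmaps : ∀ a ∈ hfin.toFinset, p a ∈ (hqe x).1.toFinset := by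
      intro a ha
      rw [Set.Finite.mem_toFinset] at ha ⊢
      exact ha
    rw [Set.ncard_eq_toFinset_card _ hfin, Finset.card_eq_sum_card_fiberwise hmaps]
    have hfib : ∀ y ∈ (hqe x).1.toFinset, (hfin.toFinset.filter fun a => p a = y).card = d := by
      intro y hy
      rw [Set.Finite.mem_toFinset] at hy
      rw [← (hpd y).2, Set.ncard_eq_toFinset_card _ (hpd y).1]
      congr 1
      ext a
      simp only [Finset.mem_filter, Set.Finite.mem_toFinset, Set.mem_preimage,
        Set.mem_singleton_iff, ContinuousMap.comp_apply]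
      constructor
      · exact fun h => h.2
      · intro h
        refine ⟨?_, h⟩
        rw [h]
        exact hy
    rw [Finset.sum_congr rfl hfib, Finset.sum_const, ← Set.ncard_eq_toFinset_card _ (hqe x).1,
      (hqe x).2, smul_eq_mul, mul_comm]

/-- Module LC. -/
theorem specLC : SpecLC := by
  intro A B _ _ _ p hp
  rw [locallyConnectedSpace_iff_connected_subsets]
  intro x U hU
  obtain ⟨e, hxe, he⟩ := hp x
  have hxt : e x ∈ e.target := e.map_source hxe
  have hW : e.target ∩ e.symm ⁻¹' U ∈ 𝓝 (e x) := by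
    refine Filter.inter_mem (e.open_target.mem_nhds hxt) ?_
    refine (e.continuousAt_symm hxt).preimage_mem_nhds ?_
    rw [e.left_inv hxe]
    exact hU
  obtain ⟨V, hV, hVc, hVW⟩ :=
    locallyConnectedSpace_iff_connected_subsets.mp (inferInstanceAs (LocallyConnectedSpace B))
      (e x) _ hW
  refine ⟨e.symm '' V, ?_, ?_, ?_⟩
  · have h1 : e.source ∩ e ⁻¹' V ∈ 𝓝 x :=
      Filter.inter_mem (e.open_source.mem_nhds hxe) ((e.continuousAt hxe).preimage_mem_nhds hV)
    refine Filter.mem_of_superset h1 ?_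
    rintro a ⟨ha, haV⟩
    exact ⟨e a, haV, e.left_inv ha⟩
  · exact hVc.image _ (e.continuousOn_symm.mono fun b hb => (hVW hb).1)
  · rintro _ ⟨b, hb, rfl⟩
    exact (hVW hb).2

end MPb00168
end

section
set_option autoImplicit false

/-!
# MP_b00168_gt : module COMP
-/

namespace MPb00168

open Set Topology Filter

namespace Comp

universe u v

/-- The number of points of the fibres of a covering is locally constant. -/
theorem isLocallyConstant_ncard {E : Type u} {X : Type v} [TopologicalSpace E] [TopologicalSpace X]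
    {f : E → X} (hf : IsCoveringMap f) : IsLocallyConstant fun x => (f ⁻¹' {x}).ncard := by
  rw [IsLocallyConstant.iff_eventually_eq]
  intro x
  obtain ⟨hd, U, hxU, hU, hfU, H, hH⟩ := hf x
  filter_upwards [hU.mem_nhds hxU] with y hy
  have h1 : IsEvenlyCovered f y (f ⁻¹' {x}) := ⟨hd, U, hy, hU, hfU, H, hH⟩
  exact (Nat.card_congr h1.fiberHomeomorph.toEquiv).symm

theorem ncard_const {E : Type u} {X : Type v} [TopologicalSpace E] [TopologicalSpace X]
    [ConnectedSpace X] {f : E → X} (hf : IsCoveringMap f) (x y : X) :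
    (f ⁻¹' {x}).ncard = (f ⁻¹' {y}).ncard :=
  (isLocallyConstant_ncard hf).apply_eq_of_isPreconnected isPreconnected_univ (mem_univ x)
    (mem_univ y)

end Comp

/-- Module COMP. -/
theorem specComp : SpecComp := by
  intro N N' _ _ _ _ _ _ _ _ p hp d hd x'
  have hLC : LocallyConnectedSpace N' := specLC N' N p hp.isLocalHomeomorph
  have hclopen : IsClopen (connectedComponent x') := isClopen_connectedComponent
  have hcs : CompactSpace (connectedComponent x') :=
    isCompact_iff_compactSpace.mp hclopen.1.isCompact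
  have hconn : ConnectedSpace (connectedComponent x') :=
    Subtype.connectedSpace isConnected_connectedComponent
  have hlc : LocallyConnectedSpace (connectedComponent x') := hclopen.2.locallyConnectedSpace
  have hcov : IsCoveringMap (fun z : connectedComponent x' => p z.1) := by
    rw [← isLocalHomeomorph_iff_isCoveringMap]
    exact hp.isLocalHomeomorph.comp hclopen.2.isOpenEmbedding_subtypeVal.isLocalHomeomorph
  have himg : ∀ x, Subtype.val '' ((fun z : connectedComponent x' => p z.1) ⁻¹' {x}) ⊆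
      p ⁻¹' {x} := by
    rintro x _ ⟨z, hz, rfl⟩
    exact hz
  have hfin : ∀ x, ((fun z : connectedComponent x' => p z.1) ⁻¹' {x}).Finite := by
    intro x
    exact Set.Finite.of_finite_image ((hd x).1.subset (himg x)) Subtype.val_injective.injOn
  refine ⟨hcs, hconn, hlc, hcov,
    ((fun z : connectedComponent x' => p z.1) ⁻¹' {p x'}).ncard, ?_, ?_, ?_⟩
  · rw [Set.ncard_pos (hfin _)]
    exact ⟨⟨x', mem_connectedComponent⟩, rfl⟩
  · rw [← (hd (p x')).2, ← Set.ncard_image_of_injective _ Subtype.val_injective]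
    exact Set.ncard_le_ncard (himg _) (hd _).1
  · intro x
    exact ⟨hfin x, Comp.ncard_const hcov x (p x')⟩

end MPb00168
end

section
set_option autoImplicit false

/-!
# MP_b00168_gt, module FLOOR

A lattice cycle of small mass is homologous to one with bounded coefficients.
-/

namespace MPb00168.FLOOR

open Finset

variable {N : ℕ}

/-- Tuples allowed in the bounding chains. -/
def Good {n : ℕ} (c : Tup (Fin N → ℤ) (n + 1) →₀ ℤ) (Λ : ℕ) (w : Tup (Fin N → ℤ) (n + 2)) : Prop :=
  (∀ a a' i, |w a i - w a' i| ≤ 2) ∧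
    ∃ x ∈ c.support, ∀ a, ∃ a', ∀ i, 0 ≤ w a i - x a' i ∧ w a i - x a' i ≤ Λ

/-- Translation of points. -/
def tr (t : Fin N → ℕ) : (Fin N → ℤ) → (Fin N → ℤ) := fun v i => v i + (t i : ℤ)

lemma tr_injective (t : Fin N → ℕ) : Function.Injective (tr t) := by
  intro v w h
  funext i
  have := congrFun h i
  simp only [tr] at this
  linarith

lemma exists_bt (hPrism : SpecPrism) {n : ℕ} (Λ : ℕ) (c : Tup (Fin N → ℤ) (n + 1) →₀ ℤ)
    (hc : bdT c = 0) (hd : ∀ x ∈ c.support, ∀ a b i, |x a i - x b i| ≤ 1) :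
    ∀ (s : ℕ) (t : Fin N → ℕ), (∀ i, t i ≤ Λ) → ∑ i, t i = s →
      ∃ b : Tup (Fin N → ℤ) (n + 2) →₀ ℤ,
        bdT b = mapT (tr t) c - c ∧ ∀ w ∈ b.support, Good c Λ w := by
  classical
  intro s
  induction s with
  | zero =>
      intro t _ hs
      have ht : t = 0 := by
        funext i
        have h1 := Finset.single_le_sum (f := t) (fun _ _ => Nat.zero_le _) (Finset.mem_univ i)
        have : t i ≤ 0 := by rw [← hs]; exact h1
        simpa using this
      refine ⟨0, ?_, by simp⟩
      have h2 : tr t = id := by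
        funext v i
        simp [tr, ht]
      have h3 : mapT (tr t) c = c := by
        rw [h2]
        unfold mapT
        rw [Finsupp.lmapDomain_apply]
        exact Finsupp.mapDomain_id
      rw [h3, map_zero, sub_self]
  | succ s ih =>
      intro t htΛ hs
      have hex : ∃ i₀, 0 < t i₀ := by
        by_contra hcon
        push Not at hcon
        have : ∑ i, t i = 0 := Finset.sum_eq_zero fun i _ => Nat.le_zero.mp (hcon i)
        omega
      obtain ⟨i₀, hi₀⟩ := hex
      set t' : Fin N → ℕ := Function.update t i₀ (t i₀ - 1) with ht'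
      have ht'le : ∀ i, t' i ≤ t i := by
        intro i
        by_cases h : i = i₀
        · subst h; simp [t']
        · simp [t', Function.update_of_ne h]
      have ht'ge : ∀ i, t i ≤ t' i + 1 := by
        intro i
        by_cases h : i = i₀
        · subst h; simp only [t', Function.update_self]; omega
        · simp [t', Function.update_of_ne h]
      have hsum : ∑ i, t' i = s := by
        have h1 := Finset.add_sum_erase Finset.univ t (Finset.mem_univ i₀)
        have h2 := Finset.add_sum_erase Finset.univ t' (Finset.mem_univ i₀)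
        have h3 : ∑ x ∈ Finset.univ.erase i₀, t' x = ∑ x ∈ Finset.univ.erase i₀, t x := by
          refine Finset.sum_congr rfl fun x hx => ?_
          simp only [t', Function.update_of_ne (Finset.ne_of_mem_erase hx)]
        have h4 : t' i₀ = t i₀ - 1 := by simp [t']
        rw [← h2, h3, h4]
        omega
      obtain ⟨b, hb, hbs⟩ := ih t' (fun i => (ht'le i).trans (htΛ i)) hsum
      obtain ⟨p, hp, hps⟩ := hPrism _ _ (tr t') (tr t) n c hc
      refine ⟨b + p, ?_, ?_⟩
      · rw [map_add, hb, hp]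
        abel
      · intro w hw
        rcases Finset.mem_union.mp (Finsupp.support_add hw) with hw | hw
        · exact hbs w hw
        · obtain ⟨x, hx, hxw⟩ := hps w hw
          have h1 : ∀ j, ∃ a', ∀ i, x a' i + (t' i : ℤ) ≤ w j i ∧ w j i ≤ x a' i + (t i : ℤ) := by
            intro j
            rcases hxw j with ⟨a', ha'⟩ | ⟨a', ha'⟩
            · refine ⟨a', fun i => ?_⟩
              have h2 : w j i = x a' i + (t' i : ℤ) := by rw [ha']; rfl
              have h3 : (t' i : ℤ) ≤ t i := by exact_mod_cast ht'le i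
              constructor <;> linarith
            · refine ⟨a', fun i => ?_⟩
              have h2 : w j i = x a' i + (t i : ℤ) := by rw [ha']; rfl
              have h3 : (t' i : ℤ) ≤ t i := by exact_mod_cast ht'le i
              constructor <;> linarith
          refine ⟨?_, x, hx, ?_⟩
          · intro a a' i
            obtain ⟨u, hu⟩ := h1 a
            obtain ⟨u', hu'⟩ := h1 a'
            have h2 := hu i
            have h3 := hu' i
            have h4 := abs_le.mp (hd x hx u u' i)
            have h5 : (t i : ℤ) ≤ t' i + 1 := by exact_mod_cast ht'ge i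
            rw [abs_le]
            constructor <;> linarith [h2.1, h2.2, h3.1, h3.2, h4.1, h4.2]
          · intro a
            obtain ⟨u, hu⟩ := h1 a
            refine ⟨u, fun i => ?_⟩
            have h2 := hu i
            have h3 : (t i : ℤ) ≤ Λ := by exact_mod_cast htΛ i
            have h4 : (0 : ℤ) ≤ t' i := by positivity
            constructor <;> linarith [h2.1, h2.2]

/-- The coefficients of the translated chain. -/
lemma mapT_tr_apply {n : ℕ} (t : Fin N → ℕ) (c : Tup (Fin N → ℤ) n →₀ ℤ)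
    (x : Tup (Fin N → ℤ) n) :
    mapT (tr t) c x = c (fun a i => x a i - (t i : ℤ)) := by
  unfold mapT
  rw [Finsupp.lmapDomain_apply]
  have hinj : Function.Injective fun y : Tup (Fin N → ℤ) n => tr t ∘ y := by
    intro y y' h
    funext a
    exact tr_injective t (congrFun h a)
  have hx : x = (fun y : Tup (Fin N → ℤ) n => tr t ∘ y) (fun a i => x a i - (t i : ℤ)) := by
    funext a i
    simp [tr]
  conv_lhs => rw [hx]
  exact Finsupp.mapDomain_apply hinj _ _

lemma sum_tr_le {n : ℕ} (Λ : ℕ) (c : Tup (Fin N → ℤ) n →₀ ℤ) (x : Tup (Fin N → ℤ) n) :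
    ∑ t : Fin N → Fin Λ, |mapT (tr fun i => (t i : ℕ)) c x| ≤ ∑ y ∈ c.support, |c y| := by
  classical
  let φ : (Fin N → Fin Λ) → Tup (Fin N → ℤ) n := fun t a i => x a i - ((t i : ℕ) : ℤ)
  have hφ : Function.Injective φ := by
    intro t t' h
    funext i
    have h1 := congrFun (congrFun h 0) i
    simp only [φ] at h1
    apply Fin.ext
    have : (((t i : ℕ) : ℤ)) = ((t' i : ℕ) : ℤ) := by linarith
    exact_mod_cast this
  have h1 : ∑ t : Fin N → Fin Λ, |mapT (tr fun i => (t i : ℕ)) c x| =
      ∑ y ∈ Finset.univ.image φ, |c y| := by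
    rw [Finset.sum_image fun a _ b _ h => hφ h]
    refine Finset.sum_congr rfl fun t _ => ?_
    rw [mapT_tr_apply]
  rw [h1, ← Finset.sum_filter_add_sum_filter_not (Finset.univ.image φ) (fun y => c y ≠ 0)]
  have h2 : ∑ y ∈ (Finset.univ.image φ).filter (fun y => ¬c y ≠ 0), |c y| = 0 := by
    refine Finset.sum_eq_zero fun y hy => ?_
    rw [Finset.mem_filter] at hy
    have := not_not.mp hy.2
    rw [this, abs_zero]
  rw [h2, add_zero]
  refine Finset.sum_le_sum_of_subset_of_nonneg ?_ fun _ _ _ => abs_nonneg _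
  intro y hy
  rw [Finset.mem_filter] at hy
  exact Finsupp.mem_support_iff.mpr hy.2

/-- The number of tuples of diameter at most two with given face. -/
lemma card_faces {n : ℕ} (S : Finset (Tup (Fin N → ℤ) (n + 2)))
    (hS : ∀ w ∈ S, ∀ a a' i, |w a i - w a' i| ≤ 2) (x : Tup (Fin N → ℤ) (n + 1))
    (j : Fin (n + 3)) : (S.filter fun w => w ∘ j.succAbove = x).card ≤ 5 ^ N := by
  classical
  have h1 : (Fintype.piFinset fun _ : Fin N => Finset.Icc (-2 : ℤ) 2).card = 5 ^ N := by
    rw [Fintype.card_piFinset]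
    simp
  rw [← h1]
  refine Finset.card_le_card_of_injOn (fun w i => w j i - x 0 i) ?_ ?_
  · intro w hw
    simp only [Finset.coe_filter, Set.mem_setOf_eq] at hw
    simp only [Finset.mem_coe, Fintype.mem_piFinset, Finset.mem_Icc]
    intro i
    have h2 : x 0 = w (j.succAbove 0) := by rw [← hw.2]; rfl
    have h3 := abs_le.mp (hS w hw.1 j (j.succAbove 0) i)
    rw [h2]
    exact h3
  · intro w hw w' hw' h
    simp only [Finset.coe_filter, Set.mem_setOf_eq] at hw hw'
    have h2 : w j = w' j := by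
      funext i
      have := congrFun h i
      simp only at this
      linarith
    funext a
    rcases Fin.eq_self_or_eq_succAbove j a with rfl | ⟨b, rfl⟩
    · exact h2
    · have h3 := congrFun (hw.2.trans hw'.2.symm) b
      exact h3

lemma abs_bdT_le {n : ℕ} (r : Tup (Fin N → ℤ) (n + 2) →₀ ℤ)
    (hr : ∀ w ∈ r.support, ∀ a a' i, |w a i - w a' i| ≤ 2) (m : ℤ) (hm : ∀ w, |r w| ≤ m)
    (x : Tup (Fin N → ℤ) (n + 1)) : |bdT r x| ≤ m * ((n + 3) * 5 ^ N) := by
  classical
  have hm0 : 0 ≤ m := (abs_nonneg _).trans (hm fun _ => 0)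
  have h1 : bdT r x = ∑ w ∈ r.support, ∑ j : Fin (n + 3),
      r w * ((-1 : ℤ) ^ (j : ℕ) * if w ∘ j.succAbove = x then 1 else 0) := by
    unfold bdT
    rw [Finsupp.linearCombination_apply, Finsupp.sum, Finsupp.finset_sum_apply]
    refine Finset.sum_congr rfl fun w _ => ?_
    rw [Finsupp.smul_apply, Finsupp.finset_sum_apply, smul_eq_mul, Finset.mul_sum]
    refine Finset.sum_congr rfl fun j _ => ?_
    rw [Finsupp.smul_apply, smul_eq_mul, Finsupp.single_apply]
  have h2 : |bdT r x| ≤ ∑ w ∈ r.support, ∑ j : Fin (n + 3),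
      if w ∘ j.succAbove = x then m else 0 := by
    rw [h1]
    refine (Finset.abs_sum_le_sum_abs _ _).trans (Finset.sum_le_sum fun w _ => ?_)
    refine (Finset.abs_sum_le_sum_abs _ _).trans (Finset.sum_le_sum fun j _ => ?_)
    rw [abs_mul, abs_mul, abs_pow, abs_neg, abs_one, one_pow, one_mul]
    by_cases h : w ∘ j.succAbove = x
    · rw [if_pos h, if_pos h, abs_one, mul_one]
      exact hm w
    · rw [if_neg h, if_neg h, abs_zero, mul_zero]
  refine h2.trans ?_
  rw [Finset.sum_comm]
  have h3 : ∀ j : Fin (n + 3), ∑ w ∈ r.support, (if w ∘ j.succAbove = x then m else 0) ≤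
      m * 5 ^ N := by
    intro j
    rw [← Finset.sum_filter, Finset.sum_const, nsmul_eq_mul, mul_comm]
    refine mul_le_mul_of_nonneg_left ?_ hm0
    have := card_faces r.support hr x j
    exact_mod_cast this
  refine (Finset.sum_le_sum fun j _ => h3 j).trans ?_
  rw [Finset.sum_const, Finset.card_univ, Fintype.card_fin, nsmul_eq_mul]
  push_cast
  apply le_of_eq
  ring

end MPb00168.FLOOR

namespace MPb00168

open Finset FLOOR

theorem specFloor (hPrism : SpecPrism) : SpecFloor := by
  classical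
  intro N n Λ hΛ c hc hd hmass
  have hbt : ∀ t : Fin N → Fin Λ, ∃ b : Tup (Fin N → ℤ) (n + 2) →₀ ℤ,
      bdT b = mapT (tr fun i => (t i : ℕ)) c - c ∧ ∀ w ∈ b.support, Good c Λ w :=
    fun t => exists_bt hPrism Λ c hc hd _ (fun i => (t i : ℕ)) (fun i => (t i).2.le) rfl
  choose bt hbt1 hbt2 using hbt
  set m : ℤ := (Λ : ℤ) ^ N with hm
  have hm0 : 0 < m := by
    have : (0 : ℤ) < Λ := by exact_mod_cast hΛ
    positivity
  set β : Tup (Fin N → ℤ) (n + 2) →₀ ℤ := -∑ t, bt t with hβ
  set fl : Tup (Fin N → ℤ) (n + 2) →₀ ℤ := β.mapRange (fun z => z / m) (Int.zero_ediv _) with hfl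
  set re : Tup (Fin N → ℤ) (n + 2) →₀ ℤ := β.mapRange (fun z => z % m) (Int.zero_emod _) with hre
  have hβ1 : β = m • fl + re := by
    ext w
    rw [Finsupp.add_apply, Finsupp.smul_apply, smul_eq_mul, hfl, hre, Finsupp.mapRange_apply,
      Finsupp.mapRange_apply]
    exact (Int.mul_ediv_add_emod _ _).symm
  have hβgood : ∀ w, β w ≠ 0 → Good c Λ w := by
    intro w hw
    have h1 : ∃ t, bt t w ≠ 0 := by
      by_contra hcon
      push Not at hcon
      apply hw
      rw [hβ, Finsupp.neg_apply, Finsupp.finset_sum_apply, Finset.sum_eq_zero fun t _ => hcon t,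
        neg_zero]
    obtain ⟨t, ht⟩ := h1
    exact hbt2 t w (Finsupp.mem_support_iff.mpr ht)
  have hflgood : ∀ w ∈ fl.support, Good c Λ w := by
    intro w hw
    apply hβgood
    intro h
    rw [Finsupp.mem_support_iff, hfl, Finsupp.mapRange_apply, h] at hw
    exact hw (Int.zero_ediv _)
  have hregood : ∀ w ∈ re.support, Good c Λ w := by
    intro w hw
    apply hβgood
    intro h
    rw [Finsupp.mem_support_iff, hre, Finsupp.mapRange_apply, h] at hw
    exact hw (Int.zero_emod _)
  have hre_le : ∀ w, |re w| ≤ m := by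
    intro w
    rw [hre, Finsupp.mapRange_apply, abs_of_nonneg (Int.emod_nonneg _ hm0.ne')]
    exact (Int.emod_lt_of_pos _ hm0).le
  have hcard : (Fintype.card (Fin N → Fin Λ) : ℤ) = m := by
    rw [Fintype.card_fun, Fintype.card_fin, Fintype.card_fin, hm]
    push_cast
    rfl
  have hkey : m • (c - bdT fl) = ∑ t : Fin N → Fin Λ, mapT (tr fun i => (t i : ℕ)) c + bdT re := by
    have h1 : m • bdT fl = bdT β - bdT re := by
      rw [hβ1, map_add, map_smul]
      abel
    have h2 : bdT β = -∑ t : Fin N → Fin Λ, mapT (tr fun i => (t i : ℕ)) c + m • c := by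
      rw [hβ, map_neg, map_sum, Finset.sum_congr rfl fun t _ => hbt1 t, Finset.sum_sub_distrib,
        Finset.sum_const, Finset.card_univ, ← hcard]
      rw [Nat.cast_smul_eq_nsmul]
      abel
    rw [smul_sub, h1, h2]
    abel
  refine ⟨fl, ?_, hflgood⟩
  intro x
  have h1 : m * (c - bdT fl) x =
      ∑ t : Fin N → Fin Λ, mapT (tr fun i => (t i : ℕ)) c x + bdT re x := by
    have := DFunLike.congr_fun hkey x
    rw [Finsupp.smul_apply, smul_eq_mul, Finsupp.add_apply, Finsupp.finset_sum_apply] at this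
    exact this
  have h2 : |∑ t : Fin N → Fin Λ, mapT (tr fun i => (t i : ℕ)) c x| ≤ m :=
    (Finset.abs_sum_le_sum_abs _ _).trans ((sum_tr_le Λ c x).trans hmass)
  have h3 : |bdT re x| ≤ m * ((n + 3) * 5 ^ N) :=
    abs_bdT_le re (fun w hw => (hregood w hw).1) m hre_le x
  have h4 : m * |(c - bdT fl) x| ≤ m * (1 + (n + 3) * 5 ^ N) := by
    calc m * |(c - bdT fl) x| = |m * (c - bdT fl) x| := by rw [abs_mul, abs_of_pos hm0]
      _ = |∑ t : Fin N → Fin Λ, mapT (tr fun i => (t i : ℕ)) c x + bdT re x| := by rw [h1]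
      _ ≤ |∑ t : Fin N → Fin Λ, mapT (tr fun i => (t i : ℕ)) c x| + |bdT re x| := abs_add_le _ _
      _ ≤ m + m * ((n + 3) * 5 ^ N) := add_le_add h2 h3
      _ = m * (1 + (n + 3) * 5 ^ N) := by ring
  exact le_of_mul_le_mul_left h4 hm0

end MPb00168
end

section
set_option autoImplicit false

/-! # MP_b00168_gt : module GROUP -/

namespace MPb00168

namespace Group

open Equiv

/-- the families of involutions -/
abbrev RR (n B : ℕ) : Type := {r : Fin (n + 2) → Perm (Fin (B + 2)) // ∀ i, r i * r i = 1}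

abbrev Big (n B : ℕ) : Type := RR n B → Perm (Fin (B + 2))

def gen (n B : ℕ) (i : Fin (n + 2)) : Big n B := fun r => r.1 i

lemma gen_mul_gen (n B : ℕ) (i : Fin (n + 2)) : gen n B i * gen n B i = 1 := by
  funext r
  exact r.2 i

def GG (n B : ℕ) : Subgroup (Big n B) := Subgroup.closure (Set.range (gen n B))

lemma gen_mem (n B : ℕ) (i : Fin (n + 2)) : gen n B i ∈ GG n B :=
  Subgroup.subset_closure ⟨i, rfl⟩

def g (n B : ℕ) (i : Fin (n + 2)) : GG n B := ⟨gen n B i, gen_mem n B i⟩

lemma g_mul_g (n B : ℕ) (i : Fin (n + 2)) : g n B i * g n B i = 1 :=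
  Subtype.ext (gen_mul_gen n B i)

/-- the constant family of the transposition -/
def r0 (n B : ℕ) : RR n B := ⟨fun _ => swap 0 1, fun _ => swap_mul_self 0 1⟩

def CG (n B : ℕ) : Colored n (GG n B) where
  a i x := g n B i * x
  inv i x := by rw [← mul_assoc, g_mul_g, one_mul]
  ε x := (Perm.sign (x.1 (r0 n B)) : ℤ)
  unit x := by
    rcases Int.units_eq_one_or (Perm.sign (x.1 (r0 n B))) with h | h <;> simp [h]
  flip i x := by
    have h1 : (g n B i * x).1 (r0 n B) = swap 0 1 * x.1 (r0 n B) := rfl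
    rw [h1, Perm.sign_mul, Perm.sign_swap (by simp)]
    simp

lemma act_eq (n B : ℕ) (w : List (Fin (n + 2))) (x : GG n B) :
    (CG n B).act w x = (w.map (g n B)).prod * x := by
  induction w with
  | nil => simp
  | cons i w ih =>
      rw [Colored.act_cons, ih, List.map_cons, List.prod_cons, mul_assoc]
      rfl

lemma conn (n B : ℕ) : (CG n B).Conn := by
  have key : ∀ x : Big n B, x ∈ GG n B →
      ∃ w : List (Fin (n + 2)), (w.map (gen n B)).prod = x := by
    intro x hx
    induction hx using Subgroup.closure_induction with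
    | mem x hx =>
        obtain ⟨i, rfl⟩ := hx
        exact ⟨[i], by simp⟩
    | one => exact ⟨[], by simp⟩
    | mul x y _ _ hx hy =>
        obtain ⟨w, hw⟩ := hx
        obtain ⟨w', hw'⟩ := hy
        exact ⟨w ++ w', by rw [List.map_append, List.prod_append, hw, hw']⟩
    | inv x _ hx =>
        obtain ⟨w, hw⟩ := hx
        refine ⟨w.reverse, ?_⟩
        rw [← hw]
        clear hw
        induction w with
        | nil => simp
        | cons i w ih =>
            have h5 : (gen n B i)⁻¹ = gen n B i :=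
              (eq_inv_of_mul_eq_one_left (gen_mul_gen n B i)).symm
            simp only [List.reverse_cons, List.map_append, List.prod_append, ih, List.map_cons,
              List.prod_cons, mul_inv_rev, List.map_nil, List.prod_nil, mul_one, h5]
  intro s s'
  obtain ⟨w, hw⟩ := key _ (s' * s⁻¹).2
  refine ⟨w, ?_⟩
  rw [act_eq]
  have h2 : (w.map (g n B)).prod = s' * s⁻¹ := by
    apply Subtype.ext
    rw [← hw]
    clear hw
    induction w with
    | nil => rfl
    | cons i w ih =>
        rw [List.map_cons, List.prod_cons, List.map_cons, List.prod_cons, ← ih]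
        rfl
  rw [h2, inv_mul_cancel_right]

end Group

theorem specGroup : SpecGroup := by
  classical
  intro n B
  refine ⟨Group.GG n B, Fintype.ofFinite _, ⟨1⟩, Group.CG n B, Group.conn n B, ?_⟩
  intro U _ CU hB i w hiw x u hx
  -- the word has trivial product
  have hprod : (w.map (Group.g n B)).prod = 1 := by
    rw [Group.act_eq] at hx
    exact mul_eq_right.mp hx
  -- the orbit
  let Ω : Type := CU.cell {i} u
  have hcard : Fintype.card Ω ≤ Fintype.card (Fin (B + 2)) := by
    rw [Fintype.card_fin]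
    have h1 := hB i u
    have h2 : Fintype.card Ω = (CU.cell {i} u).ncard := by
      rw [Set.ncard_eq_toFinset_card', Set.toFinset_card]
    omega
  obtain ⟨e⟩ := Function.Embedding.nonempty_of_card_le hcard
  -- the involutions
  have hmem : ∀ j, j ≠ i → ∀ ω : Ω, CU.a j ω.1 ∈ CU.cell {i} u := by
    intro j hj ω
    obtain ⟨w', hw', h⟩ := ω.2
    refine ⟨j :: w', ?_, by rw [Colored.act_cons, h]⟩
    intro l hl
    rcases List.mem_cons.mp hl with h1 | h1
    · subst h1; simpa using hj
    · exact hw' l h1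
  let F : Fin (n + 2) → Fin (B + 2) → Fin (B + 2) := fun j b =>
    if hj : j ≠ i then
      if hb : ∃ ω, e ω = b then e ⟨CU.a j hb.choose.1, hmem j hj _⟩ else b
    else b
  have hF1 : ∀ j (hj : j ≠ i) (ω : Ω), F j (e ω) = e ⟨CU.a j ω.1, hmem j hj ω⟩ := by
    intro j hj ω
    have hb : ∃ ω', e ω' = e ω := ⟨ω, rfl⟩
    have hc : hb.choose = ω := e.injective hb.choose_spec
    simp only [F, dif_pos hj, dif_pos hb, hc]
  have hF2 : ∀ j b, F j (F j b) = b := by
    intro j b
    by_cases hj : j ≠ i
    · by_cases hb : ∃ ω, e ω = b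
      · obtain ⟨ω, rfl⟩ := hb
        rw [hF1 j hj, hF1 j hj]
        congr 1
        apply Subtype.ext
        exact CU.inv j ω.1
      · have : F j b = b := by simp only [F, dif_pos hj, dif_neg hb]
        rw [this, this]
    · have : ∀ b, F j b = b := by intro b; simp only [F, dif_neg hj]
      rw [this, this]
  let r : Group.RR n B := ⟨fun j => Function.Involutive.toPerm (F j) (hF2 j), fun j => by
    ext b
    exact congrArg _ (hF2 j b)⟩
  have hcomp : ∀ v : List (Fin (n + 2)), i ∉ v → ∀ ω : Ω,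
      ∃ h : CU.act v ω.1 ∈ CU.cell {i} u,
      ((v.map (Group.g n B)).prod).1 r (e ω) = e ⟨CU.act v ω.1, h⟩ := by
    intro v
    induction v with
    | nil => intro _ ω; exact ⟨ω.2, rfl⟩
    | cons j v ih =>
        intro hv ω
        have hj : j ≠ i := fun h => hv (by simp [h])
        obtain ⟨h, h'⟩ := ih (fun h => hv (List.mem_cons_of_mem _ h)) ω
        refine ⟨hmem j hj ⟨_, h⟩, ?_⟩
        rw [List.map_cons, List.prod_cons]
        have h3 : (Group.g n B j * (v.map (Group.g n B)).prod).1 r (e ω) =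
            F j (((v.map (Group.g n B)).prod).1 r (e ω)) := rfl
        rw [h3, h', hF1 j hj]
        rfl
  obtain ⟨h, h'⟩ := hcomp w hiw ⟨u, CU.self_mem_cell {i} u⟩
  rw [hprod] at h'
  have h4 : (1 : Group.GG n B).1 r (e ⟨u, CU.self_mem_cell {i} u⟩) =
      e ⟨u, CU.self_mem_cell {i} u⟩ := rfl
  rw [h4] at h'
  exact (congrArg Subtype.val (e.injective h')).symm

end MPb00168
end

section
set_option autoImplicit false

/-! # MP_b00168_gt : modules ZC, REALT, CHAINS -/

namespace MPb00168

namespace ZC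

open Finset

/-- The labels (images) of a flag of faces of `x` are contained in the image of `x`. -/
lemma lab_subset {E : Type} [DecidableEq E] : ∀ {n : ℕ} (F : Flag n) (x : Tup E n) (k : Fin (n + 1)),
    (lab (fun _ x => Finset.univ.image x) F x k : Finset E) ⊆ Finset.univ.image x
  | 0, _, x, k => by
      have hk : k = 0 := Subsingleton.elim (α := Fin 1) _ _
      subst hk
      exact Finset.Subset.refl _
  | n + 1, F, x, k => by
      refine Fin.lastCases ?_ (fun j => ?_) k
      · simp only [lab, Fin.snoc_last]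
        exact Finset.Subset.refl _
      · simp only [lab, Fin.snoc_castSucc]
        refine (lab_subset F.2 (x ∘ F.1.succAbove) j).trans ?_
        intro e he
        rw [Finset.mem_image] at he ⊢
        obtain ⟨m, -, hm⟩ := he
        exact ⟨F.1.succAbove m, Finset.mem_univ _, hm⟩

/-- The labels (images) of a flag increase. -/
lemma lab_mono {E : Type} [DecidableEq E] : ∀ {n : ℕ} (F : Flag n) (x : Tup E n)
    (k l : Fin (n + 1)), k ≤ l →
    (lab (fun _ x => Finset.univ.image x) F x k : Finset E) ⊆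
      (lab (fun _ x => Finset.univ.image x) F x l : Finset E)
  | 0, _, x, k, l => fun _ => by
      have hk : k = l := Subsingleton.elim (α := Fin 1) _ _
      subst hk
      exact Finset.Subset.refl _
  | n + 1, F, x, k, l => by
      refine Fin.lastCases ?_ (fun j => ?_) l
      · intro _
        have h := lab_subset F x k
        simp only [lab, Fin.snoc_last]
        exact h
      · refine Fin.lastCases ?_ (fun i => ?_) k
        · intro h
          exact absurd (lt_of_le_of_lt h (Fin.castSucc_lt_last j)) (lt_irrefl _)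
        · intro h
          simp only [lab, Fin.snoc_castSucc]
          exact lab_mono F.2 _ i j (Fin.castSucc_le_castSucc_iff.mp h)

lemma flagSet_mono {n : ℕ} (F : Flag n) (k l : Fin (n + 1)) (h : k ≤ l) :
    flagSet F k ⊆ flagSet F l := lab_mono F _ k l h

lemma flagSet_nonempty {n : ℕ} (F : Flag n) (k : Fin (n + 1)) : (flagSet F k).Nonempty :=
  lab_nonempty F _ k

variable {n : ℕ} {S : Type} (C : Colored n S)

/-- The tuple of cells of `(s, F)`. -/
def cellTup (s : S) (F : Flag (n + 1)) : Tup C.Cells (n + 1) :=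
  fun k => C.cellOf (flagSet F k) (lab_nonempty F _ k) s

lemma cellTup_chain (s : S) (F : Flag (n + 1)) :
    IsChain (· ≤ ·) (Set.range (cellTup C s F)) := by
  rintro _ ⟨k, rfl⟩ _ ⟨l, rfl⟩ -
  rcases le_total k l with h | h
  · exact Or.inl (C.cellOf_le _ _ (flagSet_mono F k l h) s)
  · exact Or.inr (C.cellOf_le _ _ (flagSet_mono F l k h) s)

lemma zT_eq [Fintype S] : zT C = ∑ s : S, ∑ F : Flag (n + 1), (C.ε s * F.sgn) •
    Finsupp.single (cellTup C s F) (1 : ℤ) := rfl

lemma zT_support [Fintype S] {x : Tup C.Cells (n + 1)} (hx : x ∈ (zT C).support) :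
    ∃ s F, x = cellTup C s F := by
  classical
  by_contra hcon
  push Not at hcon
  rw [Finsupp.mem_support_iff] at hx
  apply hx
  rw [zT_eq, Finsupp.finsetSum_apply]
  refine Finset.sum_eq_zero fun s _ => ?_
  rw [Finsupp.finsetSum_apply]
  refine Finset.sum_eq_zero fun F _ => ?_
  rw [Finsupp.smul_apply, Finsupp.single_apply, if_neg (fun h => hcon s F h.symm), smul_zero]

lemma zT_chainSupp [Fintype S] : ChainSupp (zT C) := by
  intro x hx
  obtain ⟨s, F, rfl⟩ := zT_support C hx
  exact cellTup_chain C s F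

open Classical in
/-- The cell of `s` with colour set `J` (with a junk value for the empty set). -/
noncomputable def cellJ (s : S) (J : Finset (Fin (n + 2))) : C.Cells :=
  if h : J.Nonempty then C.cellOf J h s else C.cellOf Finset.univ Finset.univ_nonempty s

lemma cellJ_of (s : S) {J : Finset (Fin (n + 2))} (h : J.Nonempty) :
    cellJ C s J = C.cellOf J h s := by
  simp [cellJ, h]

lemma cellJ_a (s : S) {J : Finset (Fin (n + 2))} (h : J.Nonempty) {p : Fin (n + 2)} (hp : p ∉ J) :
    cellJ C (C.a p s) J = cellJ C s J := by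
  rw [cellJ_of C _ h, cellJ_of C _ h]
  unfold Colored.cellOf
  apply Subtype.ext
  change (J, OrderDual.toDual (C.cell J (C.a p s))) = (J, OrderDual.toDual (C.cell J s))
  rw [C.cell_a hp]

/-- The image label function. -/
def img (k : ℕ) (x : Tup (Fin (n + 2)) k) : Finset (Fin (n + 2)) := Finset.univ.image x

lemma zT_eq_mapT [Fintype S] : zT C = ∑ s : S, C.ε s •
    mapT (cellJ C s) (Sd (img (n := n)) (Finsupp.single (id : Tup (Fin (n + 2)) (n + 1)) 1)) := by
  rw [zT_eq]
  refine Finset.sum_congr rfl fun s _ => ?_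
  rw [Sd_single, one_smul, map_sum, Finset.smul_sum]
  refine Finset.sum_congr rfl fun F _ => ?_
  rw [map_smul, mapT_single, smul_smul]
  congr 2
  funext k
  change C.cellOf (flagSet F k) (lab_nonempty F _ k) s = cellJ C s (flagSet F k)
  rw [cellJ_of C s (flagSet_nonempty F k)]

lemma bdT_zT [Fintype S] : bdT (zT C) = 0 := by
  classical
  rw [zT_eq_mapT, map_sum]
  have h1 : ∀ s : S, bdT (C.ε s • mapT (cellJ C s)
      (Sd (img (n := n)) (Finsupp.single (id : Tup (Fin (n + 2)) (n + 1)) 1))) =
      ∑ p : Fin (n + 2), (-1 : ℤ) ^ (p : ℕ) • (C.ε s • mapT (cellJ C s)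
        (Sd (img (n := n)) (Finsupp.single (p.succAbove : Tup (Fin (n + 2)) n) 1))) := by
    intro s
    rw [map_smul, ← mapT_bdT, specSdMap _ _ (img (n := n)) n, bdT_single, one_smul, map_sum,
      map_sum, Finset.smul_sum]
    refine Finset.sum_congr rfl fun p _ => ?_
    rw [map_smul, map_smul, smul_comm]
    rfl
  rw [Finset.sum_congr rfl fun s _ => h1 s, Finset.sum_comm]
  refine Finset.sum_eq_zero fun p _ => ?_
  rw [← Finset.smul_sum]
  have h2 : ∀ s : S, mapT (cellJ C (C.a p s))
      (Sd (img (n := n)) (Finsupp.single (p.succAbove : Tup (Fin (n + 2)) n) 1)) =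
      mapT (cellJ C s)
      (Sd (img (n := n)) (Finsupp.single (p.succAbove : Tup (Fin (n + 2)) n) 1)) := by
    intro s
    rw [Sd_single, one_smul, map_sum, map_sum]
    refine Finset.sum_congr rfl fun F _ => ?_
    rw [map_smul, map_smul, mapT_single, mapT_single]
    congr 2
    funext k
    change cellJ C (C.a p s) (lab img F p.succAbove k) = cellJ C s (lab img F p.succAbove k)
    refine cellJ_a C s (lab_nonempty F _ k) ?_
    intro hmem
    have h3 := lab_subset F (p.succAbove : Tup (Fin (n + 2)) n) k hmem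
    rw [Finset.mem_image] at h3
    obtain ⟨m, -, hm⟩ := h3
    exact Fin.succAbove_ne p m hm
  have h4 : ∑ s : S, C.ε s • mapT (cellJ C s)
      (Sd (img (n := n)) (Finsupp.single (p.succAbove : Tup (Fin (n + 2)) n) 1)) = 0 := by
    refine Finset.sum_involution (fun s _ => C.a p s) ?_ ?_ ?_ ?_
    · intro s _
      rw [h2 s, C.flip, neg_smul, add_neg_cancel]
    · intro s _ _
      exact C.a_ne p s
    · intro s _; exact Finset.mem_univ _
    · intro s _; exact C.inv p s
  rw [h4, smul_zero]

end ZC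

theorem specRealT : SpecRealT := fun _ _ _ _ c hc => bd_realT c hc

theorem specZC : SpecZC := by
  intro n S _ C
  refine ⟨ZC.zT_chainSupp C, ZC.bdT_zT C, ?_⟩
  unfold zR
  rw [bd_realT _ (ZC.zT_chainSupp C), ZC.bdT_zT C, map_zero]

theorem specChains : SpecChains := by
  intro n S C t ht
  have h1 : ∀ q ∈ t, ∀ q' ∈ t, q ≤ q' → q.1.1.card = q'.1.1.card → q = q' := by
    intro q _ q' _ hle hcard
    have hJ : q.1.1 ⊆ q'.1.1 := hle.1
    have hJ' : q.1.1 = q'.1.1 := Finset.eq_of_subset_of_card_le hJ hcard.ge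
    have hO : OrderDual.ofDual q'.1.2 ⊆ OrderDual.ofDual q.1.2 := hle.2
    obtain ⟨-, s, hs⟩ := q.2
    obtain ⟨-, s', hs'⟩ := q'.2
    have hq2 : OrderDual.ofDual q.1.2 = C.cell q.1.1 s := congrArg OrderDual.ofDual hs
    have hq2' : OrderDual.ofDual q'.1.2 = C.cell q'.1.1 s' := congrArg OrderDual.ofDual hs'
    have hm : s' ∈ C.cell q.1.1 s := by
      rw [← hq2]
      apply hO
      rw [hq2']
      exact C.self_mem_cell _ _
    have he := C.cell_eq_of_mem hm
    apply Subtype.ext
    apply Prod.ext hJ'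
    rw [hs, hs', ← hJ', he]
  have h2 : Set.InjOn (fun q : C.Cells => q.1.1.card) (t : Set C.Cells) := by
    intro q hq q' hq' he
    by_contra hne
    rcases ht hq hq' hne with h | h
    · exact hne (h1 q hq q' hq' h he)
    · exact hne (h1 q' hq' q hq h he.symm).symm
  have h3 : ∀ q ∈ t, q.1.1.card ∈ Finset.Icc 1 (n + 2) := by
    intro q _
    rw [Finset.mem_Icc]
    refine ⟨Finset.card_pos.mpr q.2.1, ?_⟩
    have := Finset.card_le_univ q.1.1
    simpa using this
  have := Finset.card_le_card_of_injOn (fun q : C.Cells => q.1.1.card) h3 h2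
  simpa using this

end MPb00168
end
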