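import Pool.Agent.Lib.MP_b00168_gt.Statement

set_option autoImplicit false

/-!
# MP_b00168_gt : definitions

Tuple complexes, flags, barycentric subdivision; realisation of finite posets; coloured sets;
transfer.
-/

namespace MPb00168

open Finset

universe u v

/-! ## Tuples -/

/-- `(k+1)`-tuples, seen as ordered `k`-simplices. -/
abbrev Tup (E : Type u) (k : ℕ) : Type u := Fin (k + 1) → E

/-- The boundary of tuple chains. -/
noncomputable def bdT {E : Type u} {k : ℕ} : (Tup E (k + 1) →₀ ℤ) →ₗ[ℤ] (Tup E k →₀ ℤ) :=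
  Finsupp.linearCombination ℤ fun x =>
    ∑ i : Fin (k + 2), (-1 : ℤ) ^ (i : ℕ) • Finsupp.single (x ∘ i.succAbove) (1 : ℤ)

/-- Push-forward of tuple chains. -/
noncomputable def mapT {E : Type u} {E' : Type v} (f : E → E') {k : ℕ} :
    (Tup E k →₀ ℤ) →ₗ[ℤ] (Tup E' k →₀ ℤ) :=
  Finsupp.lmapDomain ℤ ℤ fun x => f ∘ x

/-- The affine singular simplex with given vertices in a real topological vector space. -/
noncomputable def aff {E : Type u} [AddCommGroup E] [Module ℝ E] [TopologicalSpace E]
    [ContinuousAdd E] [ContinuousSMul ℝ E] {k : ℕ} (x : Tup E k) : Sing E k :=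
  ⟨fun t => ∑ j, (t : Fin (k + 1) → ℝ) j • x j, by
    refine continuous_finsetSum _ fun j _ => ?_
    exact ((continuous_apply j).comp continuous_subtype_val).smul continuous_const⟩

/-- Affine realisation of tuple chains. -/
noncomputable def affS {E : Type u} [AddCommGroup E] [Module ℝ E] [TopologicalSpace E]
    [ContinuousAdd E] [ContinuousSMul ℝ E] {k : ℕ} : (Tup E k →₀ ℤ) →ₗ[ℤ] Chain E k :=
  Finsupp.lmapDomain ℤ ℤ aff

/-- Singular simplices of a subset. -/
def SuppIn {E : Type u} [TopologicalSpace E] (Y : Set E) {k : ℕ} (c : Chain E k) : Prop :=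
  ∀ σ ∈ c.support, Set.range σ ⊆ Y

open Classical in
/-- Restriction of chains of `E` to chains of the subset `Y` (the simplices not contained in `Y`
are dropped). -/
noncomputable def restr {E : Type u} [TopologicalSpace E] (Y : Set E) {k : ℕ} :
    Chain E k →ₗ[ℤ] Chain Y k :=
  Finsupp.linearCombination ℤ fun σ =>
    if h : ∀ t, σ t ∈ Y then Finsupp.single (⟨fun t => ⟨σ t, h t⟩, by fun_prop⟩ : Sing Y k) (1 : ℤ)
    else 0

/-! ## Flags and barycentric subdivision -/

/-- Full flags of faces of an `n`-simplex: `(p, F)` is the facet opposite to `p` together with a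
full flag `F` of this facet. -/
def Flag : ℕ → Type
  | 0 => Unit
  | n + 1 => Fin (n + 2) × Flag n

instance Flag.instFintype : ∀ n, Fintype (Flag n)
  | 0 => inferInstanceAs (Fintype Unit)
  | n + 1 => by
      haveI := Flag.instFintype n
      exact inferInstanceAs (Fintype (Fin (n + 2) × Flag n))

instance Flag.instDecidableEq : ∀ n, DecidableEq (Flag n)
  | 0 => inferInstanceAs (DecidableEq Unit)
  | n + 1 => by
      haveI := Flag.instDecidableEq n
      exact inferInstanceAs (DecidableEq (Fin (n + 2) × Flag n))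

/-- The sign of a flag. -/
def Flag.sgn : ∀ {n : ℕ}, Flag n → ℤ
  | 0, _ => 1
  | n + 1, F => (-1) ^ (n + 1 + (F.1 : ℕ)) * Flag.sgn F.2

/-- The labels of a flag of faces of the tuple `x`: the `k`-th entry is the value of `L` at the
`k`-dimensional face (a sub-tuple of `x`) of the flag. -/
def lab {E : Type u} {E' : Type v} (L : ∀ k, Tup E k → E') :
    ∀ {n : ℕ}, Flag n → Tup E n → Tup E' n
  | 0, _, x => fun _ => L 0 x
  | n + 1, F, x => Fin.snoc (α := fun _ => E') (lab L F.2 (x ∘ F.1.succAbove)) (L (n + 1) x)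

/-- The subdivision operator associated with a function `L` on tuples. -/
noncomputable def Sd {E : Type u} {E' : Type v} (L : ∀ k, Tup E k → E') {n : ℕ} :
    (Tup E n →₀ ℤ) →ₗ[ℤ] (Tup E' n →₀ ℤ) :=
  Finsupp.linearCombination ℤ fun x =>
    ∑ F : Flag n, F.sgn • Finsupp.single (lab L F x) (1 : ℤ)

/-- Appending a last vertex `b`. -/
noncomputable def snocT {E : Type u} (b : E) {n : ℕ} : (Tup E n →₀ ℤ) →ₗ[ℤ] (Tup E (n + 1) →₀ ℤ) :=
  Finsupp.lmapDomain ℤ ℤ fun y => (Fin.snoc (α := fun _ => E) y b : Tup E (n + 1))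

/-- The chain homotopy between `mapT ψ` and `Sd L` (on tuples). -/
noncomputable def hT {E : Type u} {E' : Type v} (L : ∀ k, Tup E k → E') (ψ : E → E') :
    ∀ n : ℕ, Tup E n → (Tup E' (n + 1) →₀ ℤ)
  | 0, x => -snocT (L 0 x) (Sd L (Finsupp.single x 1) - mapT ψ (Finsupp.single x 1))
  | n + 1, x => (-1 : ℤ) ^ (n + 2) • snocT (L (n + 1) x)
      (Sd L (Finsupp.single x 1) - mapT ψ (Finsupp.single x 1) -
        Finsupp.linearCombination ℤ (hT L ψ n) (bdT (Finsupp.single x 1)))

/-- The barycenter of a tuple in a real vector space. -/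
noncomputable def bary {E : Type u} [AddCommGroup E] [Module ℝ E] (k : ℕ) (x : Tup E k) : E :=
  ((k : ℝ) + 1)⁻¹ • ∑ j, x j

/-- The affine simplex with given vertices in a standard simplex. -/
noncomputable def affD {k n : ℕ} (x : Tup (stdSimplex ℝ (Fin (n + 1))) k) :
    C(stdSimplex ℝ (Fin (k + 1)), stdSimplex ℝ (Fin (n + 1))) :=
  ⟨fun t => ⟨∑ j, (t : Fin (k + 1) → ℝ) j • (x j : Fin (n + 1) → ℝ),
      (convex_stdSimplex ℝ (Fin (n + 1))).sum_mem (fun j _ => t.2.1 j) t.2.2
        (fun j _ => (x j).2)⟩, by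
    refine Continuous.subtype_mk ?_ _
    refine continuous_finsetSum _ fun j _ => ?_
    exact ((continuous_apply j).comp continuous_subtype_val).smul continuous_const⟩

/-- The barycenter of a tuple of points of a standard simplex. -/
noncomputable def baryD {n : ℕ} (k : ℕ) (x : Tup (stdSimplex ℝ (Fin (n + 1))) k) :
    stdSimplex ℝ (Fin (n + 1)) :=
  ⟨bary k fun j => (x j : Fin (n + 1) → ℝ), by
    unfold bary
    rw [Finset.smul_sum]
    refine (convex_stdSimplex ℝ (Fin (n + 1))).sum_mem (fun j _ => ?_) ?_ (fun j _ => (x j).2)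
    · positivity
    · rw [Finset.sum_const, Finset.card_univ, Fintype.card_fin]
      simp only [nsmul_eq_mul]
      push_cast
      rw [mul_inv_cancel₀]
      positivity⟩

/-- The tuple of vertices of the standard simplex. -/
noncomputable def vertsD (n : ℕ) : Tup (stdSimplex ℝ (Fin (n + 1))) n :=
  fun i => ⟨Pi.single i 1, single_mem_stdSimplex ℝ i⟩

/-- Barycentric subdivision of singular chains. -/
noncomputable def SdS {X : Type u} [TopologicalSpace X] {n : ℕ} : Chain X n →ₗ[ℤ] Chain X n :=
  Finsupp.linearCombination ℤ fun σ =>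
    ∑ F : Flag n, F.sgn • Finsupp.single (σ.comp (affD (lab baryD F (vertsD n)))) (1 : ℤ)

/-! ## Realisation of finite posets -/

/-- The realisation of the order complex of a finite poset, in barycentric coordinates. -/
def RP (P : Type) [Fintype P] [PartialOrder P] : Set (P → ℝ) :=
  {x | (∀ p, 0 ≤ x p) ∧ ∑ p, x p = 1 ∧ IsChain (· ≤ ·) {p | x p ≠ 0}}

open Classical in
/-- The vertex of `P → ℝ` corresponding to `p`. -/
noncomputable def vert {P : Type} (p : P) : P → ℝ := Pi.single p 1

/-- Realisation of tuple chains of a finite poset as singular chains of its realisation. -/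
noncomputable def realT (P : Type) [Fintype P] [PartialOrder P] {k : ℕ} :
    (Tup P k →₀ ℤ) →ₗ[ℤ] Chain (RP P) k :=
  (restr (RP P)).comp (affS.comp (mapT vert))

/-- A tuple chain of a poset all of whose tuples are chains of the poset. -/
def ChainSupp {P : Type} [PartialOrder P] {k : ℕ} (c : Tup P k →₀ ℤ) : Prop :=
  ∀ x ∈ c.support, IsChain (· ≤ ·) (Set.range x)

/-! ## Coloured sets -/

/-- A coloured set of dimension `n+1`: a set of (oriented) `(n+1)`-simplices with vertices
coloured by `0, …, n+1`, with the involutions `a i` (adjacency along the facet opposite to the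
vertex of colour `i`) and an orientation `ε` reversed by all `a i`. -/
structure Colored (n : ℕ) (S : Type) where
  /-- adjacency involutions -/
  a : Fin (n + 2) → S → S
  inv : ∀ i s, a i (a i s) = s
  /-- orientation -/
  ε : S → ℤ
  unit : ∀ s, ε s = 1 ∨ ε s = -1
  flip : ∀ i s, ε (a i s) = -ε s

namespace Colored

variable {n : ℕ} {S : Type} (C : Colored n S)

/-- The action of a word. -/
def act (w : List (Fin (n + 2))) (s : S) : S := w.foldr C.a s

/-- Connectedness. -/
def Conn : Prop := ∀ s s', ∃ w, C.act w s = s'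

/-- The elements having the same face with colour set `J` as `s`. -/
def cell (J : Finset (Fin (n + 2))) (s : S) : Set S :=
  {s' | ∃ w : List (Fin (n + 2)), (∀ i ∈ w, i ∉ J) ∧ C.act w s = s'}

/-- The cells (faces): pairs of a nonempty colour set `J` and a class of elements of `S` having the
same face with colour set `J`. -/
def Cells : Type :=
  {q : Finset (Fin (n + 2)) × (Set S)ᵒᵈ //
    q.1.Nonempty ∧ ∃ s, q.2 = OrderDual.toDual (C.cell q.1 s)}

instance : PartialOrder C.Cells := inferInstanceAs (PartialOrder {_q : _ × (Set S)ᵒᵈ // _})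

noncomputable instance [Fintype S] : Fintype C.Cells := by
  classical
  haveI : Fintype ((Set S)ᵒᵈ) := inferInstanceAs (Fintype (Set S))
  exact Subtype.fintype _

/-- The face of `s` with colour set `J`. -/
def cellOf (J : Finset (Fin (n + 2))) (hJ : J.Nonempty) (s : S) : C.Cells :=
  ⟨(J, OrderDual.toDual (C.cell J s)), hJ, s, rfl⟩

end Colored

/-- The colour sets of a flag: `flagSet F k` has `k+1` elements. -/
def flagSet {n : ℕ} (F : Flag n) : Tup (Finset (Fin (n + 1))) n :=
  lab (fun _ x => Finset.univ.image x) F (id : Fin (n + 1) → Fin (n + 1))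

lemma lab_nonempty {E : Type} [DecidableEq E] : ∀ {n : ℕ} (F : Flag n) (x : Tup E n) (k : Fin (n + 1)),
    (lab (fun _ x => Finset.univ.image x) F x k : Finset E).Nonempty
  | 0, _, x, _ => ⟨x 0, Finset.mem_image_of_mem _ (Finset.mem_univ _)⟩
  | n + 1, F, x, k => by
      refine Fin.lastCases ?_ (fun j => ?_) k
      · simp only [lab, Fin.snoc_last]
        exact ⟨x 0, Finset.mem_image_of_mem _ (Finset.mem_univ _)⟩
      · simp only [lab, Fin.snoc_castSucc]
        exact lab_nonempty F.2 _ j

/-- The fundamental tuple cycle of (the barycentric subdivision of) a coloured set. -/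
noncomputable def zT {n : ℕ} {S : Type} [Fintype S] (C : Colored n S) :
    Tup C.Cells (n + 1) →₀ ℤ :=
  ∑ s : S, ∑ F : Flag (n + 1), (C.ε s * F.sgn) •
    Finsupp.single (fun k => C.cellOf (flagSet F k) (lab_nonempty F _ k) s) (1 : ℤ)

/-- The fundamental singular cycle of the realisation of a coloured set. -/
noncomputable def zR {n : ℕ} {S : Type} [Fintype S] (C : Colored n S) :
    Chain (RP C.Cells) (n + 1) :=
  realT C.Cells (zT C)

/-- A morphism of coloured sets which is injective on all stars of vertices (a covering). -/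
structure IsStarMap {n : ℕ} {S S' : Type} (C : Colored n S) (C' : Colored n S') (φ : S → S') :
    Prop where
  equiv : ∀ i s, φ (C.a i s) = C'.a i (φ s)
  sign : ∀ s, C'.ε (φ s) = C.ε s
  star : ∀ (i : Fin (n + 2)) (w : List (Fin (n + 2))), i ∉ w → ∀ s,
    C'.act w (φ s) = φ s → C.act w s = s

/-- The map of cells induced by an equivariant map. -/
def IsStarMap.cellMap {n : ℕ} {S S' : Type} {C : Colored n S} {C' : Colored n S'} {φ : S → S'}
    (h : IsStarMap C C' φ) (q : C.Cells) : C'.Cells :=
  ⟨(q.1.1, OrderDual.toDual (φ '' (OrderDual.ofDual q.1.2))), q.2.1, by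
    obtain ⟨s, hs⟩ := q.2.2
    refine ⟨φ s, ?_⟩
    have hact : ∀ w : List (Fin (n + 2)), ∀ s, φ (C.act w s) = C'.act w (φ s) := by
      intro w
      induction w with
      | nil => intro s; rfl
      | cons i w ih => intro s; exact (h.equiv i _).trans (congrArg (C'.a i) (ih s))
    simp only [hs]
    congr 1
    ext t
    simp only [OrderDual.ofDual_toDual, Set.mem_image, Colored.cell, Set.mem_ofPred_eq]
    constructor
    · rintro ⟨_, ⟨w, hw, rfl⟩, rfl⟩
      exact ⟨w, hw, (hact w s).symm⟩
    · rintro ⟨w, hw, rfl⟩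
      exact ⟨_, ⟨w, hw, rfl⟩, hact w s⟩⟩

/-! ## Transfer -/

/-- The lifts of a singular simplex. -/
def liftsOf {T : Type u} {M : Type v} [TopologicalSpace T] [TopologicalSpace M] (p : C(T, M))
    {k : ℕ} (σ : Sing M k) : Set (Sing T k) :=
  {τ | p.comp τ = σ}

open Classical in
/-- The transfer: a singular simplex is sent to the sum of its lifts. -/
noncomputable def transfer {T : Type u} {M : Type v} [TopologicalSpace T] [TopologicalSpace M]
    (p : C(T, M)) {k : ℕ} : Chain M k →ₗ[ℤ] Chain T k :=
  Finsupp.linearCombination ℤ fun σ =>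
    if h : (liftsOf p σ).Finite then ∑ τ ∈ h.toFinset, Finsupp.single τ (1 : ℤ) else 0

end MPb00168
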