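import Pool.Agent.Lib.MP_b00168_gt.Spec

set_option autoImplicit false

/-!
# MP_b00168_gt : module LOCAL

The transfer of a fundamental cycle is a fundamental cycle.
-/

namespace MPb00168

namespace Local

open Finset

universe u v

section lin

variable {α : Type u} {N : Type v} [AddCommGroup N] [Module ℤ N]

theorem lin_mem (F : (α →₀ ℤ) →ₗ[ℤ] N) (A : Set α) (B : Submodule ℤ N)
    (h : ∀ a ∈ A, F (Finsupp.single a 1) ∈ B) {c : α →₀ ℤ} (hc : ∀ a ∈ c.support, a ∈ A) :
    F c ∈ B := by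
  have h1 : Finsupp.supported ℤ ℤ A ≤ B.comap F := by
    rw [Finsupp.supported_eq_span_single, Submodule.span_le]
    rintro _ ⟨a, ha, rfl⟩
    exact h a ha
  exact h1 ((Finsupp.mem_supported ℤ c).mpr fun a ha => hc a ha)

theorem lin_eq (F G : (α →₀ ℤ) →ₗ[ℤ] N) (A : Set α)
    (h : ∀ a ∈ A, F (Finsupp.single a 1) = G (Finsupp.single a 1)) {c : α →₀ ℤ}
    (hc : ∀ a ∈ c.support, a ∈ A) : F c = G c := by
  have := lin_mem (F - G) A ⊥ (fun a ha => by
    rw [Submodule.mem_bot, LinearMap.sub_apply, h a ha, sub_self]) hc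
  rw [Submodule.mem_bot, LinearMap.sub_apply, sub_eq_zero] at this
  exact this

end lin

/-- chains supported in a set of simplices. -/
def S {X : Type u} [TopologicalSpace X] (Y : Set X) (k : ℕ) : Submodule ℤ (Chain X k) where
  carrier := {c | SuppIn Y c}
  add_mem' := by
    classical
    intro a b ha hb σ hσ
    rcases Finset.mem_union.mp (Finsupp.support_add hσ) with h | h
    · exact ha σ h
    · exact hb σ h
  zero_mem' := by
    intro σ hσ
    simp at hσ
  smul_mem' := by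
    intro r a ha σ hσ
    exact ha σ (Finsupp.support_smul hσ)

variable {X : Type u} [TopologicalSpace X]

theorem mem_S {Y : Set X} {k : ℕ} {c : Chain X k} : c ∈ S Y k ↔ SuppIn Y c := Iff.rfl

theorem avoids_iff {x : X} {k : ℕ} {c : Chain X k} : Avoids x c ↔ c ∈ S ({x}ᶜ : Set X) k := by
  rw [mem_S]
  constructor
  · intro h σ hσ y hy hyx
    rw [Set.mem_singleton_iff] at hyx
    exact h σ hσ (hyx ▸ hy)
  · intro h σ hσ hx
    exact h σ hσ hx rfl

theorem single_mem {Y : Set X} {k : ℕ} {σ : Sing X k} (h : Set.range σ ⊆ Y) (a : ℤ) :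
    (Finsupp.single σ a : Chain X k) ∈ S Y k := by
  classical
  intro τ hτ
  have := Finsupp.support_single_subset hτ
  rw [Finset.mem_singleton] at this
  rw [this]
  exact h

theorem S_mono {Y Y' : Set X} (h : Y ⊆ Y') (k : ℕ) : S Y k ≤ S Y' k :=
  fun _ hc σ hσ => (hc σ hσ).trans h

theorem S_inter {Y Y' : Set X} {k : ℕ} {c : Chain X k} (h : c ∈ S Y k) (h' : c ∈ S Y' k) :
    c ∈ S (Y ∩ Y') k := fun σ hσ => Set.subset_inter (h σ hσ) (h' σ hσ)

theorem bd_single {k : ℕ} (σ : Sing X (k + 1)) :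
    bd (Finsupp.single σ (1 : ℤ)) =
      ∑ i : Fin (k + 2), (-1 : ℤ) ^ (i : ℕ) • Finsupp.single (face i σ) (1 : ℤ) := by
  rw [bd, Finsupp.linearCombination_single, one_smul]

theorem range_face {k : ℕ} (i : Fin (k + 2)) (σ : Sing X (k + 1)) :
    Set.range (face i σ) ⊆ Set.range σ := by
  rintro _ ⟨t, rfl⟩
  exact ⟨faceMap k i t, rfl⟩

theorem bd_mem {Y : Set X} {k : ℕ} {c : Chain X (k + 1)} (hc : c ∈ S Y (k + 1)) :
    bd c ∈ S Y k := by
  refine lin_mem bd {σ | Set.range σ ⊆ Y} (S Y k) (fun σ hσ => ?_) hc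
  rw [bd_single]
  refine (S Y k).sum_mem fun i _ => (S Y k).smul_mem _ ?_
  exact single_mem ((range_face i σ).trans hσ) 1

theorem push_single {Z : Type v} [TopologicalSpace Z] (f : C(X, Z)) {k : ℕ} (σ : Sing X k)
    (a : ℤ) : push f (Finsupp.single σ a) = Finsupp.single (f.comp σ) a := by
  rw [push, Finsupp.lmapDomain_apply, Finsupp.mapDomain_single]

theorem push_mem {Z : Type v} [TopologicalSpace Z] (f : C(X, Z)) {Y : Set X} {Y' : Set Z}
    (h : ∀ y ∈ Y, f y ∈ Y') {k : ℕ} {c : Chain X k} (hc : c ∈ S Y k) : push f c ∈ S Y' k := by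
  refine lin_mem (push f) {σ | Set.range σ ⊆ Y} (S Y' k) (fun σ hσ => ?_) hc
  rw [push_single]
  refine single_mem ?_ 1
  rintro _ ⟨t, rfl⟩
  exact h _ (hσ ⟨t, rfl⟩)

theorem push_bd {Z : Type v} [TopologicalSpace Z] (f : C(X, Z)) {k : ℕ} (c : Chain X (k + 1)) :
    push f (bd c) = bd (push f c) := by
  refine lin_eq ((push f).comp bd) (bd.comp (push f)) Set.univ (fun σ _ => ?_)
    (fun _ _ => Set.mem_univ _)
  rw [LinearMap.comp_apply, LinearMap.comp_apply, bd_single, push_single, bd_single, map_sum]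
  refine Finset.sum_congr rfl fun i _ => ?_
  rw [map_smul, push_single]
  rfl

theorem SdS_single {k : ℕ} (σ : Sing X k) :
    SdS (Finsupp.single σ (1 : ℤ)) =
      ∑ F : Flag k, F.sgn • Finsupp.single (σ.comp (affD (lab baryD F (vertsD k)))) (1 : ℤ) := by
  rw [SdS, Finsupp.linearCombination_single, one_smul]

theorem SdS_mem {Y : Set X} {k : ℕ} {c : Chain X k} (hc : c ∈ S Y k) : SdS c ∈ S Y k := by
  refine lin_mem SdS {σ | Set.range σ ⊆ Y} (S Y k) (fun σ hσ => ?_) hc
  rw [SdS_single]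
  refine (S Y k).sum_mem fun F _ => (S Y k).smul_mem _ (single_mem ?_ 1)
  rintro _ ⟨t, rfl⟩
  exact hσ ⟨_, rfl⟩

theorem push_SdS {Z : Type v} [TopologicalSpace Z] (f : C(X, Z)) {k : ℕ} (c : Chain X k) :
    push f (SdS c) = SdS (push f c) := by
  refine lin_eq ((push f).comp SdS) (SdS.comp (push f)) Set.univ (fun σ _ => ?_)
    (fun _ _ => Set.mem_univ _)
  rw [LinearMap.comp_apply, LinearMap.comp_apply, SdS_single, push_single, SdS_single, map_sum]
  refine Finset.sum_congr rfl fun F _ => ?_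
  rw [map_smul, push_single]
  rfl

/-- iterated subdivision as a linear map. -/
noncomputable def SdI {X : Type u} [TopologicalSpace X] {k : ℕ} (r : ℕ) :
    Chain X k →ₗ[ℤ] Chain X k := SdS ^ r

theorem SdI_coe {k : ℕ} (r : ℕ) (c : Chain X k) : (⇑(SdS (X := X) (n := k)))^[r] c = SdI r c := by
  rw [SdI, Module.End.pow_apply]

theorem SdI_succ {k : ℕ} (r : ℕ) (c : Chain X k) : SdI (r + 1) c = SdS (SdI r c) := by
  rw [SdI, pow_succ', Module.End.mul_apply, SdI]

theorem SdI_zero {k : ℕ} (c : Chain X k) : SdI 0 c = c := by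
  rw [SdI, pow_zero, Module.End.one_apply]

theorem SdI_mem {Y : Set X} {k : ℕ} {c : Chain X k} (hc : c ∈ S Y k) (r : ℕ) :
    SdI r c ∈ S Y k := by
  induction r with
  | zero => rwa [SdI_zero]
  | succ r ih => rw [SdI_succ]; exact SdS_mem ih

theorem push_SdI {Z : Type v} [TopologicalSpace Z] (f : C(X, Z)) {k : ℕ} (c : Chain X k) (r : ℕ) :
    push f (SdI r c) = SdI r (push f c) := by
  induction r with
  | zero => rw [SdI_zero, SdI_zero]
  | succ r ih => rw [SdI_succ, SdI_succ, push_SdS, ih]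

theorem bd_SdI (hSS : SpecSS.{u}) {k : ℕ} (c : Chain X (k + 1)) (r : ℕ) :
    bd (SdI r c) = SdI r (bd c) := by
  induction r with
  | zero => rw [SdI_zero, SdI_zero]
  | succ r ih => rw [SdI_succ, SdI_succ, (hSS X).1, ih]

/-- chains which are null modulo boundaries and chains avoiding the point. -/
def Nul {X : Type u} [TopologicalSpace X] (x : X) (k : ℕ) : Submodule ℤ (Chain X k) where
  carrier := {a | ∃ (b : Chain X (k + 1)) (e : Chain X k), e ∈ S ({x}ᶜ : Set X) k ∧ a = bd b + e}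
  add_mem' := by
    rintro _ _ ⟨b, e, he, rfl⟩ ⟨b', e', he', rfl⟩
    exact ⟨b + b', e + e', Submodule.add_mem _ he he', by rw [map_add]; abel⟩
  zero_mem' := ⟨0, 0, Submodule.zero_mem _, by simp⟩
  smul_mem' := by
    rintro r _ ⟨b, e, he, rfl⟩
    exact ⟨r • b, r • e, Submodule.smul_mem _ _ he, by rw [map_smul, smul_add]⟩

theorem nul_of_avoids {x : X} {k : ℕ} {a : Chain X k} (h : a ∈ S ({x}ᶜ : Set X) k) :
    a ∈ Nul x k := ⟨0, a, h, by simp⟩

theorem nul_bd {x : X} {k : ℕ} (b : Chain X (k + 1)) : bd b ∈ Nul x k :=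
  ⟨b, 0, Submodule.zero_mem _, by simp⟩

theorem SdI_sub (hSS : SpecSS.{u}) {x : X} {k : ℕ} {a : Chain X (k + 1)}
    (ha : bd a ∈ S ({x}ᶜ : Set X) k) (r : ℕ) : SdI r a - a ∈ Nul x (k + 1) := by
  obtain ⟨T, hT, -, hTs⟩ := (hSS X).2.2
  have hTm : ∀ (c : Chain X k), c ∈ S ({x}ᶜ : Set X) k → T k c ∈ S ({x}ᶜ : Set X) (k + 1) := by
    intro c hc
    refine lin_mem (T k) {σ | Set.range σ ⊆ ({x}ᶜ : Set X)} _ (fun σ hσ => ?_) hc
    intro τ hτ
    exact (hTs k σ τ hτ).trans hσ
  induction r with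
  | zero => rw [SdI_zero, sub_self]; exact Submodule.zero_mem _
  | succ r ih =>
      have h1 : SdI (r + 1) a - a = (SdS (SdI r a) - SdI r a) + (SdI r a - a) := by
        rw [SdI_succ]; abel
      rw [h1]
      refine Submodule.add_mem _ ?_ ih
      have h2 := hT k (SdI r a)
      refine ⟨T (k + 1) (SdI r a), T k (bd (SdI r a)), hTm _ ?_, ?_⟩
      · rw [bd_SdI hSS]
        exact SdI_mem ha r
      · rw [h2]; abel

/-- splitting a small chain. -/
theorem split {k : ℕ} (U V : Set X) (c : Chain X k)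
    (h : ∀ σ ∈ c.support, Set.range σ ⊆ U ∨ Set.range σ ⊆ V) :
    ∃ cU cV : Chain X k, cU ∈ S U k ∧ cV ∈ S V k ∧ c = cU + cV := by
  classical
  refine ⟨c.filter fun σ => Set.range σ ⊆ U, c.filter fun σ => ¬ Set.range σ ⊆ U, ?_, ?_, ?_⟩
  · intro σ hσ
    rw [Finsupp.support_filter, Finset.mem_filter] at hσ
    exact hσ.2
  · intro σ hσ
    rw [Finsupp.support_filter, Finset.mem_filter] at hσ
    exact (h σ hσ.1).resolve_left hσ.2
  · exact (Finsupp.filter_add_filter_not c _).symm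

theorem small2 (hSmall : SpecSmall.{u}) {U V : Set X} (hU : IsOpen U) (hV : IsOpen V)
    (hUV : ∀ x, x ∈ U ∨ x ∈ V) {k : ℕ} (c : Chain X k) :
    ∃ r : ℕ, ∀ r' ≥ r, ∃ cU cV : Chain X k, cU ∈ S U k ∧ cV ∈ S V k ∧ SdI r' c = cU + cV := by
  obtain ⟨r, hr⟩ := hSmall X {U, V}
    (by rintro W (rfl | rfl); exacts [hU, hV])
    (by
      intro x
      rcases hUV x with h | h
      · exact ⟨U, Or.inl rfl, h⟩
      · exact ⟨V, Or.inr rfl, h⟩) k c
  refine ⟨r, fun r' hr' => split U V _ fun σ hσ => ?_⟩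
  rw [← SdI_coe] at hσ
  obtain ⟨W, hW, hσW⟩ := hr r' hr' σ hσ
  rcases hW with rfl | rfl
  · exact Or.inl hσW
  · exact Or.inr hσW

/-- lifting through a local section. -/
noncomputable def lft {T M : Type} [TopologicalSpace T] [TopologicalSpace M] {W : Set M}
    (s : C(W, T)) {k : ℕ} : Chain M k →ₗ[ℤ] Chain T k := by
  classical
  exact Finsupp.linearCombination ℤ fun σ =>
    if h : ∀ t, σ t ∈ W then Finsupp.single (⟨fun t => s ⟨σ t, h t⟩, by fun_prop⟩ : Sing T k) (1 : ℤ)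
    else 0

section lift

variable {T M : Type} [TopologicalSpace T] [TopologicalSpace M] {W : Set M} (s : C(W, T))

/-- the lifted simplex. -/
def ls {k : ℕ} (σ : Sing M k) (h : ∀ t, σ t ∈ W) : Sing T k :=
  ⟨fun t => s ⟨σ t, h t⟩, by fun_prop⟩

theorem lft_single {k : ℕ} (σ : Sing M k) (h : ∀ t, σ t ∈ W) :
    lft s (Finsupp.single σ (1 : ℤ)) = Finsupp.single (ls s σ h) (1 : ℤ) := by
  rw [lft, Finsupp.linearCombination_single, one_smul, dif_pos h]
  rfl

theorem lft_bd {k : ℕ} {c : Chain M (k + 1)} (hc : c ∈ S W (k + 1)) :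
    lft s (bd c) = bd (lft s c) := by
  refine lin_eq ((lft s).comp bd) (bd.comp (lft s)) {σ | Set.range σ ⊆ W} (fun σ hσ => ?_) hc
  have h : ∀ t, σ t ∈ W := fun t => hσ ⟨t, rfl⟩
  rw [LinearMap.comp_apply, LinearMap.comp_apply, bd_single, lft_single s σ h, bd_single, map_sum]
  refine Finset.sum_congr rfl fun i _ => ?_
  rw [map_smul, lft_single s (face i σ) (fun t => h _)]
  rfl

theorem lft_mem {A : Set T} {B : Set M} (hAB : ∀ w : W, (w : M) ∈ B → s w ∈ A) {k : ℕ}
    {c : Chain M k} (hc : c ∈ S W k) (hc' : c ∈ S B k) : lft s c ∈ S A k := by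
  refine lin_mem (lft s) {σ | Set.range σ ⊆ W ∩ B} (S A k) (fun σ hσ => ?_) (S_inter hc hc')
  have h : ∀ t, σ t ∈ W := fun t => (hσ ⟨t, rfl⟩).1
  rw [lft_single s σ h]
  refine single_mem ?_ 1
  rintro _ ⟨t, rfl⟩
  exact hAB _ (hσ ⟨t, rfl⟩).2

theorem lft_push (p : C(T, M)) (U : Set T) (hU : ∀ y ∈ U, ∃ h : p y ∈ W, s ⟨p y, h⟩ = y)
    {k : ℕ} {c : Chain T k} (hc : c ∈ S U k) : lft s (push p c) = c := by
  refine lin_eq ((lft s).comp (push p)) LinearMap.id {σ | Set.range σ ⊆ U} (fun σ hσ => ?_) hc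
  have h : ∀ t, p (σ t) ∈ W := fun t => (hU _ (hσ ⟨t, rfl⟩)).1
  rw [LinearMap.comp_apply, push_single, LinearMap.id_apply, lft_single s (p.comp σ) h]
  congr 1
  ext t
  exact (hU _ (hσ ⟨t, rfl⟩)).2

end lift

theorem transfer_single {T M : Type} [TopologicalSpace T] [TopologicalSpace M] (p : C(T, M))
    {k : ℕ} (σ : Sing M k) (h : (liftsOf p σ).Finite) :
    transfer p (Finsupp.single σ (1 : ℤ)) = ∑ τ ∈ h.toFinset, Finsupp.single τ (1 : ℤ) := by
  rw [transfer, Finsupp.linearCombination_single, one_smul, dif_pos h]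

end Local

open Local in
theorem specLocal (hSS : SpecSS.{0}) (hSmall : SpecSmall.{0}) (hTr : SpecTransfer) : SpecLocal := by
  classical
  intro T M _ _ _ _ p hp hfin n c hc
  obtain ⟨hlf, hbd, hSd, -⟩ := hTr T M p hp hfin
  have hSdI : ∀ (r k : ℕ) (c : Chain M k), SdI r (transfer p c) = transfer p (SdI r c) := by
    intro r k c
    induction r with
    | zero => rw [SdI_zero, SdI_zero]
    | succ r ih => rw [SdI_succ, SdI_succ, ih, hSd]
  have hcyc : bd (transfer p c) = 0 := by rw [hbd, hc.1, map_zero]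
  refine ⟨hcyc, fun x' d' hd' => ?_⟩
  rw [avoids_iff] at hd'
  set x : M := p x' with hx
  -- the local section
  obtain ⟨e, hxe, hpe⟩ := hp.isLocalHomeomorph x'
  set U : Set T := e.source with hU
  set W : Set M := e.target with hW
  have hUo : IsOpen U := e.open_source
  have hWo : IsOpen W := e.open_target
  have hpe' : ∀ y, p y = e y := fun y => congrFun hpe y
  let s : C(W, T) := ⟨fun w => e.symm w, e.continuousOn_symm.domRestrict⟩
  have hsU : ∀ y ∈ U, ∃ h : p y ∈ W, s ⟨p y, h⟩ = y := by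
    intro y hy
    have h1 : p y ∈ W := by rw [hpe']; exact e.map_source hy
    refine ⟨h1, ?_⟩
    change e.symm (p y) = y
    rw [hpe', e.left_inv hy]
  have hps : ∀ w : W, p (s w) = w := by
    intro w
    rw [hpe']
    exact e.right_inv w.2
  -- step 1 : subdivide d'
  obtain ⟨r, hr⟩ := small2 hSmall hUo (isOpen_compl_singleton (x := x'))
    (fun y => by
      by_cases h : y = x'
      · exact Or.inl (h ▸ hxe)
      · exact Or.inr h) d'
  obtain ⟨dU, dV, hdU, hdV, hd⟩ := hr r le_rfl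
  have h1 : SdI r d' - d' ∈ Nul x' (n + 1) := SdI_sub hSS hd' r
  have h2 : dU - d' ∈ Nul x' (n + 1) := by
    have : dU - d' = (SdI r d' - d') - dV := by rw [hd]; abel
    rw [this]
    exact Submodule.sub_mem _ h1 (nul_of_avoids hdV)
  have hbdU : bd dU ∈ S ({x'}ᶜ : Set T) n := by
    have : bd dU = SdI r (bd d') - bd dV := by
      rw [← bd_SdI hSS, hd, map_add]; abel
    rw [this]
    exact Submodule.sub_mem _ (SdI_mem hd' r) (bd_mem hdV)
  -- step 2 : push down
  have hpU : ∀ y ∈ U, p y ∈ W := fun y hy => (hsU y hy).1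
  have hdW : push p dU ∈ S W (n + 1) := push_mem p hpU hdU
  have hbdW : Avoids x (bd (push p dU)) := by
    rw [avoids_iff, ← push_bd]
    refine push_mem p (Y := U ∩ {x'}ᶜ) ?_ (S_inter (bd_mem hdU) hbdU)
    rintro y ⟨hy, hy'⟩ hyx
    apply hy'
    obtain ⟨ha, hb⟩ := hsU y hy
    obtain ⟨hc, hd⟩ := hsU x' hxe
    rw [Set.mem_singleton_iff] at hyx ⊢
    rw [← hb, ← hd]
    congr 1
    exact Subtype.ext hyx
  obtain ⟨m, b, e', he', hdd⟩ := hc.2 x (push p dU) hbdW
  rw [avoids_iff] at he'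
  -- step 3 : subdivide c and b
  have hcov : ∀ y : M, y ∈ W ∨ y ∈ ({x}ᶜ : Set M) := by
    intro y
    by_cases h : y = x
    · exact Or.inl (h ▸ hpU x' hxe)
    · exact Or.inr h
  obtain ⟨r1, hr1⟩ := small2 hSmall hWo (isOpen_compl_singleton (x := x)) hcov c
  obtain ⟨r2, hr2⟩ := small2 hSmall hWo (isOpen_compl_singleton (x := x)) hcov b
  set r' := max r1 r2 with hr'
  obtain ⟨cU, cV, hcU, hcV, hcc⟩ := hr1 r' (le_max_left _ _)
  obtain ⟨bU, bV, hbU, hbV, hbb⟩ := hr2 r' (le_max_right _ _)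
  set w : Chain M (n + 1) := SdI r' (push p dU) - m • cU - bd bU with hw
  have hwW : w ∈ S W (n + 1) :=
    Submodule.sub_mem _ (Submodule.sub_mem _ (SdI_mem hdW r') (Submodule.smul_mem _ _ hcU))
      (bd_mem hbU)
  have hwx : w ∈ S ({x}ᶜ : Set M) (n + 1) := by
    have : w = m • cV + bd bV + SdI r' e' := by
      rw [hw]
      conv_lhs => rw [hdd]
      rw [map_add, map_add, map_smul, hcc, ← bd_SdI hSS, hbb, smul_add, map_add]
      abel
    rw [this]
    exact Submodule.add_mem _ (Submodule.add_mem _ (Submodule.smul_mem _ _ hcV) (bd_mem hbV))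
      (SdI_mem he' r')
  have hlw : lft s w ∈ S ({x'}ᶜ : Set T) (n + 1) := by
    refine lft_mem s ?_ hwW hwx
    intro y hy hyx
    apply hy
    rw [Set.mem_singleton_iff] at hyx ⊢
    rw [← hps y, hyx]
  have hl1 : SdI r' dU = m • lft s cU + bd (lft s bU) + lft s w := by
    have h3 : lft s (SdI r' (push p dU)) = SdI r' dU := by
      rw [← push_SdI]
      exact lft_push s p U hsU (SdI_mem hdU r')
    rw [← h3, hw, map_sub, map_sub, map_smul, lft_bd s hbU]
    abel
  -- step 4 : compare with the transfer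
  have hl2 : transfer p cU - lft s cU ∈ S ({x'}ᶜ : Set T) (n + 1) := by
    refine lin_mem (α := Sing M (n + 1))
      ((transfer p : Chain M (n + 1) →ₗ[ℤ] Chain T (n + 1)) - lft s)
      {σ | Set.range σ ⊆ W} _ (fun σ hσ => ?_) hcU
    have h : ∀ t, σ t ∈ W := fun t => hσ ⟨t, rfl⟩
    rw [LinearMap.sub_apply, transfer_single p σ (hlf _ σ), lft_single s σ h]
    have hmem : ls s σ h ∈ (hlf _ σ).toFinset := by
      rw [Set.Finite.mem_toFinset]
      change p.comp (ls s σ h) = σ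
      ext t
      exact hps _
    rw [← Finset.add_sum_erase _ _ hmem, add_sub_cancel_left]
    refine Submodule.sum_mem _ fun τ hτ => single_mem ?_ 1
    rw [Finset.mem_erase, Set.Finite.mem_toFinset] at hτ
    rintro y ⟨t, rfl⟩ hy
    rw [Set.mem_singleton_iff] at hy
    apply hτ.1
    have hτ2 : p.comp τ = σ := hτ.2
    have hσt : σ t = x := by rw [← hτ2]; change p (τ t) = x; rw [hy]
    apply ContinuousMap.coe_injective
    have : PreconnectedSpace (stdSimplex ℝ (Fin (n + 1 + 1))) :=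
      Subtype.preconnectedSpace (convex_stdSimplex ℝ _).isPreconnected
    refine hp.eq_of_comp_eq τ.continuous (ls s σ h).continuous ?_ t ?_
    · funext t'
      change p (τ t') = p (s ⟨σ t', h t'⟩)
      rw [hps]
      exact congrArg (fun f : Sing M (n + 1) => f t') hτ2
    · rw [hy]
      change x' = s ⟨σ t, h t⟩
      obtain ⟨ha, hb⟩ := hsU x' hxe
      rw [← hb]
      congr 1
      exact Subtype.ext hσt.symm
  have hl3 : transfer p cV ∈ S ({x'}ᶜ : Set T) (n + 1) := by
    refine lin_mem (transfer p) {σ | Set.range σ ⊆ ({x}ᶜ : Set M)} _ (fun σ hσ => ?_) hcV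
    rw [transfer_single p σ (hlf _ σ)]
    refine Submodule.sum_mem _ fun τ hτ => single_mem ?_ 1
    rw [Set.Finite.mem_toFinset] at hτ
    rintro y ⟨t, rfl⟩ hy
    rw [Set.mem_singleton_iff] at hy
    have hτ2 : p.comp τ = σ := hτ
    apply hσ ⟨t, rfl⟩
    rw [Set.mem_singleton_iff, ← hτ2]
    change p (τ t) = x
    rw [hy]
  -- conclusion
  have hfin1 : SdI r' dU - dU ∈ Nul x' (n + 1) := SdI_sub hSS hbdU r'
  have hfin2 : SdI r' (transfer p c) - transfer p c ∈ Nul x' (n + 1) :=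
    SdI_sub hSS (by rw [hcyc]; exact Submodule.zero_mem _) r'
  have hfin3 : d' - m • transfer p c ∈ Nul x' (n + 1) := by
    have h4 : SdI r' (transfer p c) = transfer p cU + transfer p cV := by
      rw [hSdI, hcc, map_add]
    have h5 : d' - m • transfer p c =
        -(dU - d') - (SdI r' dU - dU) + (bd (lft s bU) + lft s w)
          - m • (transfer p cU - lft s cU) - m • transfer p cV
          + m • (SdI r' (transfer p c) - transfer p c) := by
      rw [h4, hl1]
      simp only [smul_sub, smul_add]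
      abel
    rw [h5]
    refine Submodule.add_mem _ (Submodule.sub_mem _ (Submodule.sub_mem _ (Submodule.add_mem _
      (Submodule.sub_mem _ (Submodule.neg_mem _ h2) hfin1)
      (Submodule.add_mem _ (nul_bd _) (nul_of_avoids hlw)))
      (Submodule.smul_mem _ _ (nul_of_avoids hl2))) (Submodule.smul_mem _ _ (nul_of_avoids hl3)))
      (Submodule.smul_mem _ _ hfin2)
  obtain ⟨b', e'', he'', hb'⟩ := hfin3
  refine ⟨m, b', e'', avoids_iff.mpr he'', ?_⟩
  rw [add_assoc, ← hb']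
  abel

end MPb00168
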