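import Pool.Agent.Lib.MP_b00168_gt.Spec
import Pool.Agent.Lib.MP_b00168_gt.Transfer
import Pool.Agent.Lib.MP_b00168_gt.ZC

set_option autoImplicit false

/-! # MP_b00168_gt : module ARC -/

namespace MPb00168

universe u

/-- The enlarged poset: a new point and, for every maximal `t` of `P`, an edge from `t` to the
new point. -/
def ArcP (P : Type) [PartialOrder P] : Type := P ⊕ Option {t : P // IsMax t}

namespace ArcP

variable {P : Type} [PartialOrder P]

noncomputable instance [Fintype P] : Fintype (ArcP P) := by
  classical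
  haveI : Fintype {t : P // IsMax t} := Fintype.ofFinite _
  exact inferInstanceAs (Fintype (P ⊕ Option {t : P // IsMax t}))

def old (p : P) : ArcP P := Sum.inl p

def st : ArcP P := Sum.inr none

def e (t : {t : P // IsMax t}) : ArcP P := Sum.inr (some t)

lemma cases (q : ArcP P) : (∃ p, q = old p) ∨ q = st ∨ ∃ t, q = e t := by
  rcases q with p | _ | t
  · exact Or.inl ⟨p, rfl⟩
  · exact Or.inr (Or.inl rfl)
  · exact Or.inr (Or.inr ⟨t, rfl⟩)

lemma old_inj {p p' : P} : (old p : ArcP P) = old p' ↔ p = p' := Sum.inl.inj_iff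

lemma e_inj {t t' : {t : P // IsMax t}} : (e t : ArcP P) = e t' ↔ t = t' := by
  constructor
  · intro h
    exact Option.some.inj (Sum.inr.inj h)
  · rintro rfl; rfl

lemma old_ne_star (p : P) : (old p : ArcP P) ≠ st := Sum.inl_ne_inr

lemma old_ne_e (p : P) (t : {t : P // IsMax t}) : (old p : ArcP P) ≠ e t := Sum.inl_ne_inr

lemma e_ne_star (t : {t : P // IsMax t}) : (e t : ArcP P) ≠ st := by
  intro h
  have := Sum.inr.inj h
  simp at this

/-- the order -/
inductive Le : ArcP P → ArcP P → Prop
  | old {p p' : P} (h : p ≤ p') : Le (old p) (old p')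
  | st : Le st st
  | e (t : {t : P // IsMax t}) : Le (e t) (e t)
  | et (t : {t : P // IsMax t}) : Le (ArcP.e t) (ArcP.old t.1)
  | es (t : {t : P // IsMax t}) : Le (ArcP.e t) ArcP.st

lemma Le.old_left {p : P} {q : ArcP P} (h : Le (ArcP.old p) q) : ∃ p', q = ArcP.old p' ∧ p ≤ p' := by
  generalize hr : ArcP.old p = r at h
  cases h with
  | old h => exact ⟨_, rfl, by rw [old_inj.mp hr]; exact h⟩
  | st => exact absurd hr (old_ne_star p)
  | e t => exact absurd hr (old_ne_e p t)
  | et t => exact absurd hr (old_ne_e p t)
  | es t => exact absurd hr (old_ne_e p t)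

lemma Le.star_left {q : ArcP P} (h : Le ArcP.st q) : q = ArcP.st := by
  generalize hr : (ArcP.st : ArcP P) = r at h
  cases h with
  | old h => exact absurd hr.symm (old_ne_star _)
  | st => rfl
  | e t => exact absurd hr.symm (e_ne_star t)
  | et t => exact absurd hr.symm (e_ne_star t)
  | es t => exact absurd hr.symm (e_ne_star t)

lemma Le.e_left {t : {t : P // IsMax t}} {q : ArcP P} (h : Le (ArcP.e t) q) :
    q = ArcP.e t ∨ q = ArcP.old t.1 ∨ q = ArcP.st := by
  generalize hr : (ArcP.e t : ArcP P) = r at h
  cases h with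
  | old h => exact absurd hr.symm (old_ne_e _ t)
  | st => exact absurd hr (e_ne_star t)
  | e t' => exact Or.inl rfl
  | et t' => rw [e_inj.mp hr]; exact Or.inr (Or.inl rfl)
  | es t' => exact Or.inr (Or.inr rfl)

lemma Le.star_right {q : ArcP P} (h : Le q ArcP.st) : q = ArcP.st ∨ ∃ t, q = ArcP.e t := by
  rcases cases q with ⟨p, rfl⟩ | rfl | ⟨t, rfl⟩
  · obtain ⟨p', h', -⟩ := h.old_left
    exact absurd h'.symm (old_ne_star p')
  · exact Or.inl rfl
  · exact Or.inr ⟨t, rfl⟩

lemma Le.e_right {t : {t : P // IsMax t}} {q : ArcP P} (h : Le q (ArcP.e t)) : q = ArcP.e t := by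
  rcases cases q with ⟨p, rfl⟩ | rfl | ⟨t', rfl⟩
  · obtain ⟨p', h', -⟩ := h.old_left
    exact absurd h'.symm (old_ne_e p' t)
  · exact absurd h.star_left (e_ne_star t)
  · rcases h.e_left with h | h | h
    · exact h.symm
    · exact absurd h.symm (old_ne_e _ _)
    · exact absurd h (e_ne_star _)

instance : PartialOrder (ArcP P) where
  le := Le
  le_refl q := by
    rcases cases q with ⟨p, rfl⟩ | rfl | ⟨t, rfl⟩
    · exact Le.old le_rfl
    · exact Le.st
    · exact Le.e t
  le_trans a b c hab hbc := by
    rcases cases a with ⟨p, rfl⟩ | rfl | ⟨t, rfl⟩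
    · obtain ⟨p', rfl, h⟩ := Le.old_left hab
      obtain ⟨p'', rfl, h'⟩ := Le.old_left hbc
      exact Le.old (h.trans h')
    · obtain rfl := Le.star_left hab
      exact hbc
    · rcases Le.e_left hab with rfl | rfl | rfl
      · exact hbc
      · obtain ⟨p'', rfl, h'⟩ := Le.old_left hbc
        have : p'' = t.1 := le_antisymm (t.2 h') h'
        rw [this]
        exact Le.et t
      · obtain rfl := Le.star_left hbc
        exact Le.es t
  le_antisymm a b hab hba := by
    rcases cases a with ⟨p, rfl⟩ | rfl | ⟨t, rfl⟩
    · obtain ⟨p', rfl, h⟩ := Le.old_left hab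
      obtain ⟨p'', h1, h'⟩ := Le.old_left hba
      rw [old_inj] at h1
      subst h1
      rw [le_antisymm h h']
    · exact (Le.star_left hab).symm
    · exact (Le.e_right hba).symm

lemma old_le_old {p p' : P} : (old p : ArcP P) ≤ old p' ↔ p ≤ p' := by
  constructor
  · intro h
    obtain ⟨p'', h1, h'⟩ := Le.old_left h
    rw [old_inj.mp h1]
    exact h'
  · intro h; exact Le.old h

lemma comp_e {t : {t : P // IsMax t}} {q : ArcP P} (h : e t ≤ q ∨ q ≤ e t) :
    q = e t ∨ q = old t.1 ∨ q = st := by
  rcases h with h | h
  · exact Le.e_left h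
  · exact Or.inl (Le.e_right h)

lemma comp_star {q : ArcP P} (h : st ≤ q ∨ q ≤ st) : q = st ∨ ∃ t, q = e t := by
  rcases h with h | h
  · exact Or.inl (Le.star_left h)
  · exact Le.star_right h

/-- chains of the enlarged poset -/
lemma chain_cases (s : Set (ArcP P)) (hs : IsChain (· ≤ ·) s) :
    (∀ q ∈ s, ∃ p, q = old p) ∨ (∀ q ∈ s, q = st) ∨
      ∃ t, (∀ q ∈ s, q = e t ∨ q = old t.1) ∨ (∀ q ∈ s, q = e t ∨ q = st) := by
  by_cases h1 : ∃ t, e t ∈ s
  · obtain ⟨t, ht⟩ := h1
    have h2 : ∀ q ∈ s, q = e t ∨ q = old t.1 ∨ q = st := fun q hq =>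
      comp_e (hs.total ht hq)
    refine Or.inr (Or.inr ⟨t, ?_⟩)
    by_cases h3 : st ∈ s
    · right
      intro q hq
      rcases comp_star (hs.total h3 hq) with h | ⟨t', h⟩
      · exact Or.inr h
      · left
        rcases h2 q hq with h4 | h4 | h4
        · exact h4
        · rw [h] at h4; exact absurd h4.symm (old_ne_e _ _)
        · rw [h] at h4; exact absurd h4 (e_ne_star _)
    · left
      intro q hq
      rcases h2 q hq with h4 | h4 | h4
      · exact Or.inl h4
      · exact Or.inr h4
      · rw [h4] at hq; exact absurd hq h3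
  · by_cases h3 : st ∈ s
    · right; left
      intro q hq
      rcases comp_star (hs.total h3 hq) with h | ⟨t', h⟩
      · exact h
      · exact absurd ⟨t', by rw [← h]; exact hq⟩ h1
    · left
      intro q hq
      rcases cases q with h | h | ⟨t, h⟩
      · exact h
      · rw [h] at hq; exact absurd hq h3
      · exact absurd ⟨t, by rw [← h]; exact hq⟩ h1

end ArcP

open PathM ArcP in
theorem specArc : SpecArc.{u} := by
  classical
  intro X _ _ n P _ _ hP h ζ hζ hζc
  have hx0 : Nonempty X := inferInstance
  obtain ⟨x₀⟩ := hx0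
  refine ⟨ArcP P, inferInstance, inferInstance, ?_, ?_, ?_⟩
  · -- chains
    intro t ht
    rcases chain_cases _ ht with h1 | h1 | ⟨a, h1 | h1⟩
    · let s : Finset P := Finset.univ.filter fun p => old p ∈ t
      have hs : IsChain (· ≤ ·) (s : Set P) := by
        intro p hp q hq hpq
        have hp' : old p ∈ t := by simpa [s] using hp
        have hq' : old q ∈ t := by simpa [s] using hq
        rcases ht.total hp' hq' with h2 | h2
        · exact Or.inl (old_le_old.mp h2)
        · exact Or.inr (old_le_old.mp h2)
      have hts : t = s.image old := by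
        ext q
        constructor
        · intro hq
          obtain ⟨p, rfl⟩ := h1 q hq
          exact Finset.mem_image_of_mem _ (by simpa [s] using hq)
        · intro hq
          obtain ⟨p, hp, rfl⟩ := Finset.mem_image.mp hq
          simpa [s] using hp
      rw [hts]
      exact Finset.card_image_le.trans (hP s hs)
    · have : t ⊆ {st} := by
        intro q hq
        rw [Finset.mem_singleton]
        exact h1 q hq
      have := Finset.card_le_card this
      rw [Finset.card_singleton] at this
      omega
    · have : t ⊆ {e a, old a.1} := by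
        intro q hq
        rw [Finset.mem_insert, Finset.mem_singleton]
        exact h1 q hq
      have := (Finset.card_le_card this).trans Finset.card_le_two
      omega
    · have : t ⊆ {e a, st} := by
        intro q hq
        rw [Finset.mem_insert, Finset.mem_singleton]
        exact h1 q hq
      have := (Finset.card_le_card this).trans Finset.card_le_two
      omega
  · -- path-connectedness
    refine pathConnected_of (p₀ := (st : ArcP P)) fun q => ?_
    have he : ∀ t : {t : P // IsMax t}, JoinedIn (RP (ArcP P)) (vert (e t)) (vert st) :=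
      fun t => joinedIn_vert_of_le (Le.es t)
    have hm : ∀ t : {t : P // IsMax t}, JoinedIn (RP (ArcP P)) (vert (old t.1)) (vert st) :=
      fun t => (joinedIn_vert_of_le (Le.et t)).symm.trans (he t)
    rcases ArcP.cases q with ⟨p, rfl⟩ | rfl | ⟨t, rfl⟩
    · obtain ⟨m, hpm, hmax⟩ := (Set.toFinite (Set.univ : Set P)).exists_le_maximal (Set.mem_univ p)
      have hmax' : IsMax m := fun b hb => hmax.2 (Set.mem_univ b) hb
      exact (joinedIn_vert_of_le (Le.old hpm)).trans (hm ⟨m, hmax'⟩)
    · exact JoinedIn.refl (vert_mem_RP _)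
    · exact he t
  · -- the map
    have hsupp : ∀ y : RP (ArcP P), IsChain (· ≤ ·) {q | (y : ArcP P → ℝ) q ≠ 0} := fun y => y.2.2.2
    -- restriction to the old part
    have hres : ∀ y : RP (ArcP P), (∀ o, (y : ArcP P → ℝ) (Sum.inr o) = 0) →
        (fun p => (y : ArcP P → ℝ) (old p)) ∈ RP P := by
      intro y hy
      refine ⟨fun p => y.2.1 _, ?_, ?_⟩
      · have h1 : ∑ q : ArcP P, (y : ArcP P → ℝ) q = 1 := y.2.2.1
        rw [← h1]
        refine Fintype.sum_of_injective (old : P → ArcP P) (fun p q hpq => old_inj.mp hpq) _ _ ?_ ?_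
        · intro q hq
          rcases q with p | o
          · exact absurd ⟨p, rfl⟩ hq
          · exact hy o
        · intro p; rfl
      · intro p hp q hq hpq
        rcases (hsupp y).total hp hq with h2 | h2
        · exact Or.inl (old_le_old.mp h2)
        · exact Or.inr (old_le_old.mp h2)
    let γ : ∀ t : {t : P // IsMax t}, Path (h ⟨vert t.1, vert_mem_RP t.1⟩) x₀ :=
      fun t => PathConnectedSpace.somePath _ _
    let g : RP (ArcP P) → X := fun y =>
      if hy : ∀ o, (y : ArcP P → ℝ) (Sum.inr o) = 0 then h ⟨_, hres y hy⟩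
      else if ht : ∃ t, (y : ArcP P → ℝ) (e t) ≠ 0 then (γ ht.choose).extend ((y : ArcP P → ℝ) st)
      else x₀
    have hg1 : ∀ (y : RP (ArcP P)) (hy : ∀ o, (y : ArcP P → ℝ) (Sum.inr o) = 0),
        g y = h ⟨_, hres y hy⟩ := fun y hy => dif_pos hy
    have hg2 : ∀ (y : RP (ArcP P)) (t : {t : P // IsMax t}), (y : ArcP P → ℝ) (e t) ≠ 0 →
        g y = (γ t).extend ((y : ArcP P → ℝ) st) := by
      intro y t ht
      have h1 : ¬ ∀ o, (y : ArcP P → ℝ) (Sum.inr o) = 0 := fun hall => ht (hall (some t))
      have h2 : ∃ t, (y : ArcP P → ℝ) (e t) ≠ 0 := ⟨t, ht⟩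
      have h3 : g y = (γ h2.choose).extend ((y : ArcP P → ℝ) st) := by
        simp only [g, dif_neg h1, dif_pos h2]
      have h4 : h2.choose = t := by
        have h5 := h2.choose_spec
        rcases comp_e ((hsupp y).total ht h5) with h6 | h6 | h6
        · exact e_inj.mp h6
        · exact absurd h6.symm (old_ne_e _ _)
        · exact absurd h6 (e_ne_star _)
      rw [h3, h4]
    have hg3 : ∀ (y : RP (ArcP P)), (y : ArcP P → ℝ) st ≠ 0 →
        (∀ t : {t : P // IsMax t}, (y : ArcP P → ℝ) (e t) = 0) → g y = x₀ := by
      intro y hy ht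
      have h1 : ¬ ∀ o, (y : ArcP P → ℝ) (Sum.inr o) = 0 := fun hall => hy (hall none)
      have h2 : ¬ ∃ t, (y : ArcP P → ℝ) (e t) ≠ 0 := by
        rintro ⟨t, h⟩
        exact h (ht t)
      simp only [g, dif_neg h1, dif_neg h2]
    -- the closed cover
    let T : Type := {t : P // IsMax t}
    let A : Option (Option (T ⊕ T)) → ArcP P → Prop := fun i q =>
      match i with
      | none => ∃ o, q = Sum.inr o
      | some none => q ≠ st
      | some (some (Sum.inl t)) => q ≠ e t ∧ q ≠ old t.1
      | some (some (Sum.inr t)) => q ≠ e t ∧ q ≠ st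
    let F : Option (Option (T ⊕ T)) → Set (RP (ArcP P)) := fun i =>
      {y | ∀ q, A i q → (y : ArcP P → ℝ) q = 0}
    have hclosed : ∀ i, IsClosed (F i) := by
      intro i
      have : F i = ⋂ q, ⋂ (_ : A i q), {y : RP (ArcP P) | (y : ArcP P → ℝ) q = 0} := by
        ext y
        simp only [F, Set.mem_ofPred_eq, Set.mem_iInter]
      rw [this]
      refine isClosed_iInter fun q => isClosed_iInter fun _ => ?_
      exact isClosed_eq ((continuous_apply q).comp continuous_subtype_val) continuous_const
    have hcov : ⋃ i, F i = Set.univ := by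
      rw [Set.eq_univ_iff_forall]
      intro y
      rw [Set.mem_iUnion]
      rcases chain_cases _ (hsupp y) with h1 | h1 | ⟨a, h1 | h1⟩
      · refine ⟨none, ?_⟩
        rintro q ⟨o, rfl⟩
        by_contra hne
        obtain ⟨p, hp⟩ := h1 _ hne
        exact absurd hp.symm Sum.inl_ne_inr
      · refine ⟨some none, ?_⟩
        intro q hq
        by_contra hne
        exact hq (h1 q hne)
      · refine ⟨some (some (Sum.inl a)), ?_⟩
        intro q hq
        by_contra hne
        rcases h1 q hne with h2 | h2
        · exact hq.1 h2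
        · exact hq.2 h2
      · refine ⟨some (some (Sum.inr a)), ?_⟩
        intro q hq
        by_contra hne
        rcases h1 q hne with h2 | h2
        · exact hq.1 h2
        · exact hq.2 h2
    -- sums over two points
    have hsum1 : ∀ (y : RP (ArcP P)) (q : ArcP P), (∀ r, r ≠ q → (y : ArcP P → ℝ) r = 0) →
        (y : ArcP P → ℝ) q = 1 := by
      intro y q hq
      have h1 : ∑ q : ArcP P, (y : ArcP P → ℝ) q = 1 := y.2.2.1
      rw [← h1]
      exact (Finset.sum_eq_single q (fun r _ hr => hq r hr) (fun hq' => absurd (Finset.mem_univ q) hq')).symm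
    have hcont : ∀ i, ContinuousOn g (F i) := by
      intro i
      rcases i with _ | _ | t | t
      · rw [continuousOn_iff_continuous_domRestrict]
        have h0 : ∀ z : F none, ∀ o, (z.1 : ArcP P → ℝ) (Sum.inr o) = 0 :=
          fun z o => z.2 _ ⟨o, rfl⟩
        have h1 : (F none).domRestrict g = fun z => h ⟨fun p => (z.1 : ArcP P → ℝ) (old p),
            hres z.1 (h0 z)⟩ := by
          funext z
          exact hg1 z.1 (h0 z)
        rw [h1]
        refine h.continuous.comp (Continuous.subtype_mk ?_ _)
        refine continuous_pi fun p => ?_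
        exact (continuous_apply (old p)).comp (continuous_subtype_val.comp continuous_subtype_val)
      · refine (continuousOn_const (c := x₀)).congr ?_
        intro y hy
        have h1 := hsum1 y st (fun r hr => hy r hr)
        refine hg3 y (by rw [h1]; exact one_ne_zero) fun t => hy _ (e_ne_star t)
      · refine (continuousOn_const (c := h ⟨vert t.1, vert_mem_RP t.1⟩)).congr ?_
        intro y hy
        by_cases ht : (y : ArcP P → ℝ) (e t) = 0
        · have h1 : ∀ r, r ≠ old t.1 → (y : ArcP P → ℝ) r = 0 := by
            intro r hr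
            by_cases hre : r = e t
            · rw [hre]; exact ht
            · exact hy r ⟨hre, hr⟩
          have h2 : ∀ o, (y : ArcP P → ℝ) (Sum.inr o) = 0 := fun o => h1 _ Sum.inr_ne_inl
          change g y = _
          rw [hg1 y h2]
          congr 1
          apply Subtype.ext
          funext p
          change (y : ArcP P → ℝ) (old p) = vert t.1 p
          by_cases hp : p = t.1
          · subst hp
            rw [hsum1 y _ h1]
            simp [vert]
          · rw [h1 _ (fun h => hp (old_inj.mp h))]
            simp [vert, hp]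
        · change g y = _
          rw [hg2 y t ht, hy st ⟨(e_ne_star t).symm, (old_ne_star t.1).symm⟩]
          exact Path.extend_zero _
      · have hc : Continuous fun y : RP (ArcP P) => (γ t).extend ((y : ArcP P → ℝ) st) :=
          (γ t).continuous_extend.comp ((continuous_apply st).comp continuous_subtype_val)
        refine hc.continuousOn.congr ?_
        intro y hy
        by_cases ht : (y : ArcP P → ℝ) (e t) = 0
        · have h1 : ∀ r, r ≠ st → (y : ArcP P → ℝ) r = 0 := by
            intro r hr
            by_cases hre : r = e t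
            · rw [hre]; exact ht
            · exact hy r ⟨hre, hr⟩
          have h2 := hsum1 y _ h1
          change g y = (γ t).extend ((y : ArcP P → ℝ) st)
          rw [hg3 y (by rw [h2]; exact one_ne_zero) (fun t' => h1 _ (e_ne_star t')), h2]
          exact (Path.extend_one _).symm
        · exact hg2 y t ht
    have hgc : Continuous g := (locallyFinite_of_finite F).continuous hcov hclosed hcont
    refine ⟨⟨g, hgc⟩, mapT old ζ, ?_, ?_, ?_⟩
    · rw [← mapT_bdT, hζ, map_zero]
    · intro x hx
      obtain ⟨x', hx', hxx⟩ := mem_support_lin (mapT old) ζ hx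
      rw [mapT_single] at hxx
      have := Finsupp.support_single_subset hxx
      rw [Finset.mem_singleton] at this
      subst this
      rintro _ ⟨i, rfl⟩ _ ⟨j, rfl⟩ hne
      rcases (hζc x' hx').total (Set.mem_range_self i) (Set.mem_range_self j) with h2 | h2
      · exact Or.inl (old_le_old.mpr h2)
      · exact Or.inr (old_le_old.mpr h2)
    · have := lin_congr (f := ((push ⟨g, hgc⟩).comp (realT (ArcP P))).comp (mapT old))
        (g := (push h).comp (realT P)) ζ (by
        intro x hx
        have hxc := hζc x hx
        have hxc' : IsChain (· ≤ ·) (Set.range (old ∘ x : Tup (ArcP P) (n + 1))) := by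
          rintro _ ⟨i, rfl⟩ _ ⟨j, rfl⟩ hne
          rcases hxc.total (Set.mem_range_self i) (Set.mem_range_self j) with h2 | h2
          · exact Or.inl (old_le_old.mpr h2)
          · exact Or.inr (old_le_old.mpr h2)
        simp only [LinearMap.comp_apply]
        rw [mapT_single, realT_single _ hxc', realT_single _ hxc, push_single, push_single]
        congr 1
        ext t
        change g ⟨aff (vert ∘ (old ∘ x)) t, _⟩ = h ⟨aff (vert ∘ x) t, _⟩
        have hz : ∀ o, (aff (vert ∘ (old ∘ x)) t : ArcP P → ℝ) (Sum.inr o) = 0 := by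
          intro o
          change (∑ j, (t : Fin (n + 1 + 1) → ℝ) j • (vert (old (x j)) : ArcP P → ℝ)) (Sum.inr o) = 0
          rw [Finset.sum_apply]
          refine Finset.sum_eq_zero fun j _ => ?_
          rw [Pi.smul_apply]
          have : (vert (old (x j)) : ArcP P → ℝ) (Sum.inr o) = 0 := by
            by_contra hne
            exact absurd (vert_ne_zero hne) Sum.inr_ne_inl
          rw [this, smul_zero]
        rw [hg1 ⟨aff (vert ∘ (old ∘ x)) t, aff_vert_mem_RP _ hxc' t⟩ hz]
        congr 1
        apply Subtype.ext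
        funext p
        change (∑ j, (t : Fin (n + 1 + 1) → ℝ) j • (vert (old (x j)) : ArcP P → ℝ)) (old p) =
          (∑ j, (t : Fin (n + 1 + 1) → ℝ) j • (vert (x j) : P → ℝ)) p
        rw [Finset.sum_apply, Finset.sum_apply]
        refine Finset.sum_congr rfl fun j _ => ?_
        rw [Pi.smul_apply, Pi.smul_apply]
        congr 1
        unfold vert
        by_cases hp : p = x j
        · subst hp; simp
        · have : (old p : ArcP P) ≠ old (x j) := fun h => hp (old_inj.mp h)
          simp [hp, this])
      simpa using this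

end MPb00168
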