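import Pool.Agent.Lib.MP_b00168_gt.Spec
import Pool.Agent.Lib.MP_b00168_gt.Transfer
import Pool.Agent.Lib.MP_b00168_gt.ZC

set_option autoImplicit false

/-!
# MP_b00168_gt : module COVER

Star maps of coloured sets give coverings of the realisations.
-/

namespace MPb00168

namespace Cover

open Finset

section compact

variable {P : Type} [Fintype P] [PartialOrder P]

omit [Fintype P] in
theorem isChain_iff (x : P → ℝ) : IsChain (· ≤ ·) {p | x p ≠ 0} ↔
    ∀ p q : P, ¬ (p ≤ q ∨ q ≤ p) → x p = 0 ∨ x q = 0 := by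
  constructor
  · intro h p q hpq
    by_contra hcon
    push Not at hcon
    exact hpq (h.total hcon.1 hcon.2)
  · intro h p hp q hq _
    by_contra hcon
    rcases h p q hcon with h1 | h1
    · exact hp h1
    · exact hq h1

theorem isCompact_RP (P : Type) [Fintype P] [PartialOrder P] : IsCompact (RP P) := by
  have h1 : RP P = stdSimplex ℝ P ∩
      {x | ∀ p q : P, ¬ (p ≤ q ∨ q ≤ p) → x p = 0 ∨ x q = 0} := by
    ext x
    constructor
    · intro h
      exact ⟨⟨h.1, h.2.1⟩, (isChain_iff x).mp h.2.2⟩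
    · intro h
      exact ⟨h.1.1, h.1.2, (isChain_iff x).mpr h.2⟩
  rw [h1]
  refine (isCompact_stdSimplex ℝ P).inter_right ?_
  simp only [Set.ofPred_forall]
  refine isClosed_iInter fun p => isClosed_iInter fun q => isClosed_iInter fun _ => ?_
  exact (isClosed_eq (continuous_apply p) continuous_const).union
    (isClosed_eq (continuous_apply q) continuous_const)

instance : CompactSpace (RP P) := isCompact_iff_compactSpace.mp (isCompact_RP P)

end compact

section cells

variable {n : ℕ} {S S' : Type} {C : Colored n S} {C' : Colored n S'} {φ : S → S'}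

/-- the set of a cell. -/
def O (q : C.Cells) : Set S := OrderDual.ofDual q.1.2

/-- the colours of a cell. -/
def J (q : C.Cells) : Finset (Fin (n + 2)) := q.1.1

theorem le_iff {q r : C.Cells} : q ≤ r ↔ J q ⊆ J r ∧ O r ⊆ O q := Iff.rfl

theorem ext_cells {q r : C.Cells} (hJ : J q = J r) (hO : O q = O r) : q = r := by
  apply Subtype.ext
  exact Prod.ext hJ hO

theorem eq_cell {q : C.Cells} {s : S} (hs : s ∈ O q) : O q = C.cell (J q) s := by
  obtain ⟨t, ht⟩ := q.2.2
  have h1 : O q = C.cell (J q) t := congrArg OrderDual.ofDual ht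
  rw [h1] at hs ⊢
  exact (C.cell_eq_of_mem hs).symm

theorem exists_mem (q : C.Cells) : ∃ s, s ∈ O q := by
  obtain ⟨t, ht⟩ := q.2.2
  have h1 : O q = C.cell (J q) t := congrArg OrderDual.ofDual ht
  exact ⟨t, by rw [h1]; exact C.self_mem_cell _ _⟩

theorem J_nonempty (q : C.Cells) : (J q).Nonempty := q.2.1

theorem eq_of_mem_mem {q r : C.Cells} (hJ : J q = J r) {s : S} (hq : s ∈ O q) (hr : s ∈ O r) :
    q = r :=
  ext_cells hJ (by rw [eq_cell hq, eq_cell hr, hJ])

theorem eq_of_le {q r : C.Cells} (h : q ≤ r) (hJ : J q = J r) : q = r := by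
  obtain ⟨s, hs⟩ := exists_mem r
  exact eq_of_mem_mem hJ ((le_iff.mp h).2 hs) hs

/-- comparable cells. -/
def Cp (q r : C.Cells) : Prop := q ≤ r ∨ r ≤ q

theorem eq_of_cp {q r : C.Cells} (h : Cp q r) (hJ : J q = J r) : q = r := by
  rcases h with h | h
  · exact eq_of_le h hJ
  · exact (eq_of_le h hJ.symm).symm

variable (h : IsStarMap C C' φ)

include h

theorem act_map (w : List (Fin (n + 2))) (s : S) : φ (C.act w s) = C'.act w (φ s) := by
  induction w with
  | nil => rfl
  | cons i w ih => exact (h.equiv i _).trans (congrArg (C'.a i) ih)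

theorem image_cell (K : Finset (Fin (n + 2))) (s : S) : φ '' C.cell K s = C'.cell K (φ s) := by
  ext t
  constructor
  · rintro ⟨_, ⟨w, hw, rfl⟩, rfl⟩
    exact ⟨w, hw, (act_map h w s).symm⟩
  · rintro ⟨w, hw, rfl⟩
    exact ⟨_, ⟨w, hw, rfl⟩, act_map h w s⟩

theorem inj_cell {q : C.Cells} {s t : S} (hs : s ∈ O q) (ht : t ∈ O q) (hst : φ s = φ t) :
    s = t := by
  obtain ⟨i, hi⟩ := J_nonempty q
  rw [eq_cell hs] at ht
  obtain ⟨w, hw, rfl⟩ := ht
  have h1 : C'.act w (φ s) = φ s := by rw [← act_map h]; exact hst.symm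
  exact (h.star i w (fun hiw => hw i hiw hi) s h1).symm

theorem J_map (q : C.Cells) : J (h.cellMap q) = J q := rfl

theorem O_map (q : C.Cells) : O (h.cellMap q) = φ '' O q := rfl

theorem mono {q r : C.Cells} (hqr : q ≤ r) : h.cellMap q ≤ h.cellMap r :=
  le_iff.mpr ⟨(le_iff.mp hqr).1, Set.image_mono (le_iff.mp hqr).2⟩

theorem map_cellOf (K : Finset (Fin (n + 2))) (hK : K.Nonempty) (s : S) :
    h.cellMap (C.cellOf K hK s) = C'.cellOf K hK (φ s) :=
  ext_cells rfl (image_cell h K s)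

theorem star_inj {q r1 r2 : C.Cells} (h1 : Cp r1 q) (h2 : Cp r2 q)
    (h12 : h.cellMap r1 = h.cellMap r2) : r1 = r2 := by
  have hJ : J r1 = J r2 := congrArg (J (C := C')) h12
  have hO : φ '' O r1 = φ '' O r2 := congrArg (O (C := C')) h12
  rcases h1 with h1 | h1 <;> rcases h2 with h2 | h2
  · obtain ⟨s, hs⟩ := exists_mem q
    exact eq_of_mem_mem hJ ((le_iff.mp h1).2 hs) ((le_iff.mp h2).2 hs)
  · exact eq_of_le (h1.trans h2) hJ
  · exact (eq_of_le (h2.trans h1) hJ.symm).symm
  · refine ext_cells hJ ?_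
    apply Set.Subset.antisymm
    · intro s hs
      have h3 : φ s ∈ φ '' O r2 := by rw [← hO]; exact ⟨s, hs, rfl⟩
      obtain ⟨t, ht, hts⟩ := h3
      have : t = s := inj_cell h (q := q) ((le_iff.mp h2).2 ht) ((le_iff.mp h1).2 hs) hts
      exact this ▸ ht
    · intro s hs
      have h3 : φ s ∈ φ '' O r1 := by rw [hO]; exact ⟨s, hs, rfl⟩
      obtain ⟨t, ht, hts⟩ := h3
      have : t = s := inj_cell h (q := q) ((le_iff.mp h1).2 ht) ((le_iff.mp h2).2 hs) hts
      exact this ▸ ht

theorem star_surj {q : C.Cells} {r' : C'.Cells} (h1 : Cp r' (h.cellMap q)) :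
    ∃ r : C.Cells, Cp r q ∧ h.cellMap r = r' := by
  rcases h1 with h1 | h1
  · obtain ⟨s, hs⟩ := exists_mem q
    refine ⟨C.cellOf (J r') (J_nonempty r') s, Or.inl ?_, ?_⟩
    · refine le_iff.mpr ⟨(le_iff.mp h1).1, ?_⟩
      rw [eq_cell hs]
      exact C.cell_anti (le_iff.mp h1).1 s
    · rw [map_cellOf]
      refine eq_of_mem_mem rfl (C'.self_mem_cell _ _) ((le_iff.mp h1).2 ?_)
      exact ⟨s, hs, rfl⟩
  · obtain ⟨s', hs'⟩ := exists_mem r'
    obtain ⟨t, ht, rfl⟩ := (le_iff.mp h1).2 hs'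
    refine ⟨C.cellOf (J r') (J_nonempty r') t, Or.inr ?_, ?_⟩
    · refine le_iff.mpr ⟨(le_iff.mp h1).1, ?_⟩
      rw [eq_cell ht]
      exact C.cell_anti (le_iff.mp h1).1 t
    · rw [map_cellOf]
      exact eq_of_mem_mem rfl (C'.self_mem_cell _ _) hs'

theorem star_le {q r1 r2 : C.Cells} (h1 : Cp r1 q) (h2 : Cp r2 q)
    (h12 : h.cellMap r1 ≤ h.cellMap r2) : r1 ≤ r2 := by
  have hJ : J r1 ⊆ J r2 := (le_iff.mp h12).1
  have hO : φ '' O r2 ⊆ φ '' O r1 := (le_iff.mp h12).2
  rcases h1 with h1 | h1 <;> rcases h2 with h2 | h2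
  · obtain ⟨s, hs⟩ := exists_mem q
    refine le_iff.mpr ⟨hJ, ?_⟩
    rw [eq_cell ((le_iff.mp h1).2 hs), eq_cell ((le_iff.mp h2).2 hs)]
    exact C.cell_anti hJ s
  · exact h1.trans h2
  · have h3 : J r1 = J r2 := hJ.antisymm (((le_iff.mp h2).1).trans (le_iff.mp h1).1)
    exact (eq_of_le (h2.trans h1) h3.symm).symm.le
  · refine le_iff.mpr ⟨hJ, ?_⟩
    intro s hs
    obtain ⟨t, ht, hts⟩ := hO ⟨s, hs, rfl⟩
    have : t = s := inj_cell h (q := q) ((le_iff.mp h1).2 ht) ((le_iff.mp h2).2 hs) hts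
    exact this ▸ ht

theorem cp_map {q r : C.Cells} (hqr : Cp q r) : Cp (h.cellMap q) (h.cellMap r) := by
  rcases hqr with h1 | h1
  · exact Or.inl (mono h h1)
  · exact Or.inr (mono h h1)

end cells

section maps

open Classical in
/-- the linear map. -/
noncomputable def pm {n : ℕ} {S S' : Type} [Fintype S] {C : Colored n S} {C' : Colored n S'}
    {φ : S → S'} (h : IsStarMap C C' φ) (x : C.Cells → ℝ) (q' : C'.Cells) : ℝ :=
  ∑ q : C.Cells, if h.cellMap q = q' then x q else 0

open Classical in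
/-- the local inverse. -/
noncomputable def iv {n : ℕ} {S S' : Type} {C : Colored n S} {C' : Colored n S'}
    {φ : S → S'} (h : IsStarMap C C' φ) (q : C.Cells) (y : C'.Cells → ℝ) (r : C.Cells) : ℝ :=
  if Cp r q then y (h.cellMap r) else 0

variable {n : ℕ} {S S' : Type} [Fintype S] [Fintype S'] {C : Colored n S} {C' : Colored n S'}
  {φ : S → S'} (h : IsStarMap C C' φ)

omit [Fintype S'] in
theorem continuous_pm : Continuous (pm h) := by
  refine continuous_pi fun q' => ?_
  unfold pm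
  refine continuous_finsetSum _ fun q _ => ?_
  split_ifs
  · exact continuous_apply q
  · exact continuous_const

omit [Fintype S] [Fintype S'] in
theorem continuous_iv (q : C.Cells) : Continuous (iv h q) := by
  refine continuous_pi fun r => ?_
  unfold iv
  split_ifs
  · exact continuous_apply _
  · exact continuous_const

theorem sum_pm (x : C.Cells → ℝ) : ∑ q', pm h x q' = ∑ q, x q := by
  classical
  unfold pm
  rw [Finset.sum_comm]
  refine Finset.sum_congr rfl fun q _ => ?_
  rw [Finset.sum_ite_eq]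
  simp

omit [Fintype S'] in
theorem exists_of_pm {x : C.Cells → ℝ} {q' : C'.Cells} (hq : pm h x q' ≠ 0) :
    ∃ q, h.cellMap q = q' ∧ x q ≠ 0 := by
  classical
  obtain ⟨q, -, hq⟩ := Finset.exists_ne_zero_of_sum_ne_zero hq
  by_cases h1 : h.cellMap q = q'
  · rw [if_pos h1] at hq
    exact ⟨q, h1, hq⟩
  · rw [if_neg h1] at hq
    exact absurd rfl hq

theorem pm_mem {x : C.Cells → ℝ} (hx : x ∈ RP C.Cells) : pm h x ∈ RP C'.Cells := by
  classical
  refine ⟨fun q' => ?_, ?_, ?_⟩
  · refine Finset.sum_nonneg fun q _ => ?_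
    split_ifs
    · exact hx.1 q
    · exact le_rfl
  · rw [sum_pm]; exact hx.2.1
  · have h1 : IsChain (· ≤ ·) (h.cellMap '' {p | x p ≠ 0}) := by
      rintro _ ⟨a, ha, rfl⟩ _ ⟨b, hb, rfl⟩ _
      rcases hx.2.2.total ha hb with h2 | h2
      · exact Or.inl (mono h h2)
      · exact Or.inr (mono h h2)
    refine h1.mono ?_
    intro q' hq'
    obtain ⟨q, hq, hxq⟩ := exists_of_pm h hq'
    exact ⟨q, hxq, hq⟩

/-- the projection. -/
noncomputable def pr : C(RP C.Cells, RP C'.Cells) :=
  ⟨fun x => ⟨pm h x.1, pm_mem h x.2⟩,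
    ((continuous_pm h).comp continuous_subtype_val).subtype_mk _⟩

omit [Fintype S'] in
theorem pm_eq_of_star {q : C.Cells} {x : C.Cells → ℝ} (hx : ∀ r, x r ≠ 0 → Cp r q) {r : C.Cells}
    (hr : Cp r q) : pm h x (h.cellMap r) = x r := by
  classical
  unfold pm
  rw [Finset.sum_eq_single r]
  · rw [if_pos rfl]
  · intro r2 _ hne
    split_ifs with h1
    · by_contra hcon
      exact hne (star_inj h (hx r2 hcon) hr h1)
    · rfl
  · intro hr'
    exact absurd (Finset.mem_univ r) hr'

omit [Fintype S'] in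
theorem iv_pm {q : C.Cells} {x : C.Cells → ℝ} (hx : ∀ r, x r ≠ 0 → Cp r q) :
    iv h q (pm h x) = x := by
  classical
  funext r
  unfold iv
  split_ifs with h1
  · exact pm_eq_of_star h hx h1
  · by_contra hcon
    exact h1 (hx r fun h2 => hcon h2.symm)

omit [Fintype S'] in
theorem pm_iv {q : C.Cells} {y : C'.Cells → ℝ} (hy : ∀ r, y r ≠ 0 → Cp r (h.cellMap q)) :
    pm h (iv h q y) = y := by
  classical
  funext r'
  by_cases h1 : y r' = 0
  · rw [h1]
    refine Finset.sum_eq_zero fun r _ => ?_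
    split_ifs with h2
    · unfold iv
      split_ifs
      · rw [h2, h1]
      · rfl
    · rfl
  · obtain ⟨r, hr, hrr⟩ := star_surj h (hy r' h1)
    have h2 : ∀ r2, iv h q y r2 ≠ 0 → Cp r2 q := by
      intro r2 h3
      by_contra h4
      unfold iv at h3
      rw [if_neg h4] at h3
      exact h3 rfl
    rw [← hrr, pm_eq_of_star h h2 hr]
    unfold iv
    rw [if_pos hr]

theorem star_of_mem {P : Type} [Fintype P] [PartialOrder P] {x : P → ℝ} (hx : x ∈ RP P) {q : P}
    (hq : x q ≠ 0) (r : P) (hr : x r ≠ 0) : r ≤ q ∨ q ≤ r :=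
  hx.2.2.total hr hq

theorem iv_mem {q : C.Cells} {y : C'.Cells → ℝ} (hy : y ∈ RP C'.Cells)
    (hq : y (h.cellMap q) ≠ 0) : iv h q y ∈ RP C.Cells := by
  classical
  have hst := star_of_mem hy hq
  refine ⟨fun r => ?_, ?_, ?_⟩
  · unfold iv
    split_ifs
    · exact hy.1 _
    · exact le_rfl
  · rw [← sum_pm h, pm_iv h hst]
    exact hy.2.1
  · intro r1 h1 r2 h2 _
    have h3 : ∀ r, iv h q y r ≠ 0 → Cp r q ∧ y (h.cellMap r) ≠ 0 := by
      intro r hr
      unfold iv at hr
      split_ifs at hr with h4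
      · exact ⟨h4, hr⟩
      · exact absurd rfl hr
    obtain ⟨h4, h5⟩ := h3 r1 h1
    obtain ⟨h6, h7⟩ := h3 r2 h2
    rcases hy.2.2.total h5 h7 with h8 | h8
    · exact Or.inl (star_le h h4 h6 h8)
    · exact Or.inr (star_le h h6 h4 h8)

omit [Fintype S] [Fintype S'] in
theorem iv_self {q : C.Cells} {y : C'.Cells → ℝ} : iv h q y q = y (h.cellMap q) := by
  unfold iv
  rw [if_pos (show Cp q q from Or.inl le_rfl)]

theorem star_to {q : C.Cells} {x : RP C.Cells} (hx : x.1 q ≠ 0) :
    (pr h x).1 (h.cellMap q) ≠ 0 := by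
  change pm h x.1 (h.cellMap q) ≠ 0
  rw [pm_eq_of_star h (star_of_mem x.2 hx) (Or.inl le_rfl)]
  exact hx

omit [Fintype S] [Fintype S'] in
theorem iv_self_ne {q : C.Cells} {y : C'.Cells → ℝ} (hy : y (h.cellMap q) ≠ 0) :
    iv h q y q ≠ 0 := by
  rw [iv_self]
  exact hy

/-- the open star. -/
def St {P : Type} [Fintype P] [PartialOrder P] (q : P) : Set (RP P) := {x | x.1 q ≠ 0}

/-- the homeomorphism of open stars. -/
noncomputable def starHomeo (q : C.Cells) : St q ≃ₜ St (h.cellMap q) where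
  toFun x := ⟨pr h x.1, star_to h x.2⟩
  invFun y := ⟨⟨iv h q y.1.1, iv_mem h y.1.2 y.2⟩, iv_self_ne h y.2⟩
  left_inv x := Subtype.ext (Subtype.ext (iv_pm h (star_of_mem x.1.2 x.2)))
  right_inv y := Subtype.ext (Subtype.ext (pm_iv h (star_of_mem y.1.2 y.2)))
  continuous_toFun := ((pr h).continuous.comp continuous_subtype_val).subtype_mk _
  continuous_invFun := (((continuous_iv h q).comp
    (continuous_subtype_val.comp continuous_subtype_val)).subtype_mk _).subtype_mk _

theorem exists_pos {P : Type} [Fintype P] [PartialOrder P] {x : P → ℝ} (hx : x ∈ RP P) :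
    ∃ q, x q ≠ 0 := by
  by_contra hcon
  push Not at hcon
  have := hx.2.1
  rw [Finset.sum_eq_zero fun q _ => hcon q] at this
  exact zero_ne_one this

theorem isLocalHomeomorph_pr : IsLocalHomeomorph (pr h) := by
  rw [isLocalHomeomorph_iff_isOpenEmbedding_restrict]
  intro x
  obtain ⟨q, hq⟩ := exists_pos x.2
  have hopen : ∀ {P : Type} [Fintype P] [PartialOrder P] (q : P),
      IsOpen (St q) := by
    intro P _ _ q
    exact isOpen_ne_fun ((continuous_apply q).comp continuous_subtype_val) continuous_const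
  refine ⟨St q, (hopen q).mem_nhds hq, ?_⟩
  exact (hopen (h.cellMap q)).isOpenEmbedding_subtypeVal.comp (starHomeo h q).isOpenEmbedding

theorem isCoveringMap_pr : IsCoveringMap (pr h) :=
  isLocalHomeomorph_iff_isCoveringMap.mp (isLocalHomeomorph_pr h)

/-! ### fibres -/

theorem fibre_point {x : RP C.Cells} {y : RP C'.Cells} (hxy : pr h x = y) {q' : C'.Cells}
    (hq' : y.1 q' ≠ 0) : ∃ q, h.cellMap q = q' ∧ x.1 q ≠ 0 ∧ x.1 = iv h q y.1 := by
  have h1 : pm h x.1 = y.1 := congrArg Subtype.val hxy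
  obtain ⟨q, hq, hxq⟩ := exists_of_pm h (x := x.1) (q' := q') (by rw [h1]; exact hq')
  refine ⟨q, hq, hxq, ?_⟩
  rw [← h1, iv_pm h (star_of_mem x.2 hxq)]

/-- the point over `y` in the star of the cell of `s`. -/
noncomputable def fp {y : RP C'.Cells} {q' : C'.Cells} (hq' : y.1 q' ≠ 0) {s' : S'}
    (hs' : s' ∈ O q') (s : S) (hs : φ s = s') : RP C.Cells :=
  ⟨iv h (C.cellOf (J q') (J_nonempty q') s) y.1, iv_mem h y.2 (by
    rw [map_cellOf, hs]
    have : C'.cellOf (J q') (J_nonempty q') s' = q' :=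
      eq_of_mem_mem rfl (C'.self_mem_cell _ _) hs'
    rw [this]
    exact hq')⟩

omit [Fintype S] [Fintype S'] in
theorem map_cellOf_eq {q' : C'.Cells} {s' : S'}
    (hs' : s' ∈ O q') (s : S) (hs : φ s = s') :
    h.cellMap (C.cellOf (J q') (J_nonempty q') s) = q' := by
  rw [map_cellOf, hs]
  exact eq_of_mem_mem rfl (C'.self_mem_cell _ _) hs'

theorem pr_fp {y : RP C'.Cells} {q' : C'.Cells} (hq' : y.1 q' ≠ 0) {s' : S'}
    (hs' : s' ∈ O q') (s : S) (hs : φ s = s') : pr h (fp h hq' hs' s hs) = y := by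
  apply Subtype.ext
  change pm h (iv h _ y.1) = y.1
  apply pm_iv
  rw [map_cellOf_eq h hs' s hs]
  exact star_of_mem y.2 hq'

theorem fp_inj {y : RP C'.Cells} {q' : C'.Cells} (hq' : y.1 q' ≠ 0) {s' : S'}
    (hs' : s' ∈ O q') (s t : S) (hs : φ s = s') (ht : φ t = s')
    (hst : fp h hq' hs' s hs = fp h hq' hs' t ht) : s = t := by
  set q1 := C.cellOf (J q') (J_nonempty q') s with hq1
  set q2 := C.cellOf (J q') (J_nonempty q') t with hq2
  have h1 : (fp h hq' hs' s hs).1 q1 ≠ 0 := by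
    change iv h q1 y.1 q1 ≠ 0
    rw [iv_self, hq1, map_cellOf_eq h hs' s hs]
    exact hq'
  have h2 : (fp h hq' hs' s hs).1 q2 ≠ 0 := by
    rw [hst]
    change iv h q2 y.1 q2 ≠ 0
    rw [iv_self, hq2, map_cellOf_eq h hs' t ht]
    exact hq'
  have h3 : q1 = q2 := eq_of_cp ((fp h hq' hs' s hs).2.2.2.total h1 h2) rfl
  have h4 : s ∈ O q1 := C.self_mem_cell _ _
  have h5 : t ∈ O q1 := by rw [h3]; exact C.self_mem_cell _ _
  exact inj_cell h h4 h5 (by rw [hs, ht])

theorem fp_surj {y : RP C'.Cells} {q' : C'.Cells} (hq' : y.1 q' ≠ 0) {s' : S'}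
    (hs' : s' ∈ O q') {x : RP C.Cells} (hx : pr h x = y) :
    ∃ (s : S) (hs : φ s = s'), fp h hq' hs' s hs = x := by
  obtain ⟨q, hq, hxq, hxi⟩ := fibre_point h hx hq'
  have h1 : s' ∈ φ '' O q := by
    have : O q' = φ '' O q := by rw [← hq]; rfl
    rw [← this]; exact hs'
  obtain ⟨s, hs, hss⟩ := h1
  refine ⟨s, hss, ?_⟩
  apply Subtype.ext
  change iv h _ y.1 = x.1
  rw [hxi]
  congr 1
  refine eq_of_mem_mem ?_ (C.self_mem_cell _ _) hs
  change J q' = J q
  rw [← hq]
  rfl

theorem fibre_card (d : ℕ) (hd : ∀ s', (φ ⁻¹' {s'}).ncard = d) (y : RP C'.Cells) :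
    ((pr h) ⁻¹' {y}).Finite ∧ ((pr h) ⁻¹' {y}).ncard = d := by
  obtain ⟨q', hq'⟩ := exists_pos y.2
  obtain ⟨s', hs'⟩ := exists_mem q'
  have h1 : (pr h) ⁻¹' {y} = Set.range fun s : φ ⁻¹' {s'} => fp h hq' hs' s.1 s.2 := by
    ext x
    constructor
    · intro hx
      obtain ⟨s, hs, hsx⟩ := fp_surj h hq' hs' hx
      exact ⟨⟨s, hs⟩, hsx⟩
    · rintro ⟨s, rfl⟩
      exact pr_fp h hq' hs' s.1 s.2
  have hinj : Function.Injective fun s : φ ⁻¹' {s'} => fp h hq' hs' s.1 s.2 := by
    intro s t hst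
    exact Subtype.ext (fp_inj h hq' hs' s.1 t.1 s.2 t.2 hst)
  rw [h1]
  refine ⟨Set.finite_range _, ?_⟩
  rw [← hd s', Set.ncard_def, Set.ncard_def, ← Set.image_univ, hinj.injOn.encard_image,
    Set.encard_univ]
  rfl

/-! ### transfer -/

end maps

section transfer

theorem lab_sub {E : Type} [DecidableEq E] : ∀ {n : ℕ} (F : Flag n) (x : Tup E n)
    (k : Fin (n + 1)), (lab (fun _ x => Finset.univ.image x) F x k : Finset E) ⊆
      Finset.univ.image x
  | 0, _, _, _ => le_rfl
  | n + 1, F, x, k => by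
      refine Fin.lastCases ?_ (fun j => ?_) k
      · simp only [lab, Fin.snoc_last]
        exact le_rfl
      · simp only [lab, Fin.snoc_castSucc]
        refine (lab_sub F.2 _ j).trans ?_
        intro a ha
        obtain ⟨b, -, hb⟩ := Finset.mem_image.mp ha
        exact Finset.mem_image.mpr ⟨_, Finset.mem_univ _, hb⟩

theorem lab_mono {E : Type} [DecidableEq E] : ∀ {n : ℕ} (F : Flag n) (x : Tup E n)
    (k l : Fin (n + 1)), k ≤ l → (lab (fun _ x => Finset.univ.image x) F x k : Finset E) ⊆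
      lab (fun _ x => Finset.univ.image x) F x l
  | 0, _, _, k, l, _ => by
      rw [Subsingleton.elim (α := Fin 1) k l]
  | n + 1, F, x, k, l, hkl => by
      revert hkl
      refine Fin.lastCases ?_ (fun j => ?_) l
      · intro _
        have h1 := lab_sub F x k
        have h2 : (lab (fun _ x => Finset.univ.image x) F x (Fin.last (n + 1)) : Finset E) =
            Finset.univ.image x := by
          simp only [lab, Fin.snoc_last]
        rw [h2]
        exact h1
      · refine Fin.lastCases ?_ (fun i => ?_) k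
        · intro hkl
          exact absurd (lt_of_le_of_lt hkl (Fin.castSucc_lt_last j)) (lt_irrefl _)
        · intro hkl
          simp only [lab, Fin.snoc_castSucc]
          exact lab_mono F.2 _ i j (Fin.castSucc_le_castSucc_iff.mp hkl)

/-- the tuple of cells of a flag at `s`. -/
def tp {n : ℕ} {S : Type} (C : Colored n S) (s : S) (F : Flag (n + 1)) : Tup C.Cells (n + 1) :=
  fun k => C.cellOf (flagSet F k) (lab_nonempty F _ k) s

theorem tp_chain {n : ℕ} {S : Type} (C : Colored n S) (s : S) (F : Flag (n + 1)) :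
    IsChain (· ≤ ·) (Set.range (tp C s F)) := by
  rintro _ ⟨k, rfl⟩ _ ⟨l, rfl⟩ _
  rcases le_total k l with h | h
  · exact Or.inl (C.cellOf_le _ _ (lab_mono F _ k l h) s)
  · exact Or.inr (C.cellOf_le _ _ (lab_mono F _ l k h) s)

/-- the simplex of a flag at `s`. -/
noncomputable def sx {n : ℕ} {S : Type} [Fintype S] (C : Colored n S) (s : S)
    (F : Flag (n + 1)) : Sing (RP C.Cells) (n + 1) :=
  intoY (aff (vert ∘ tp C s F)) (aff_vert_mem_RP _ (tp_chain C s F))

theorem zR_eq {n : ℕ} {S : Type} [Fintype S] (C : Colored n S) :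
    zR C = ∑ s : S, ∑ F : Flag (n + 1), (C.ε s * F.sgn) • Finsupp.single (sx C s F) (1 : ℤ) := by
  rw [zR, zT, map_sum]
  refine Finset.sum_congr rfl fun s _ => ?_
  rw [map_sum]
  refine Finset.sum_congr rfl fun F _ => ?_
  rw [map_smul]
  congr 1
  exact realT_single (tp C s F) (tp_chain C s F) 1

theorem sx_last {n : ℕ} {S : Type} [Fintype S] (C : Colored n S) (s : S)
    (F : Flag (n + 1)) (j : Fin (n + 2)) :
    (sx C s F (vertsD (n + 1) j)).1 = vert (tp C s F j) := by
  classical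
  change ∑ i, (Pi.single j 1 : Fin (n + 2) → ℝ) i • (vert ∘ tp C s F) i = _
  rw [Finset.sum_eq_single j]
  · rw [Pi.single_eq_same, one_smul]; rfl
  · intro i _ hij
    rw [Pi.single_eq_of_ne hij, zero_smul]
  · intro hj
    exact absurd (Finset.mem_univ j) hj

variable {n : ℕ} {S S' : Type} [Fintype S] [Fintype S'] {C : Colored n S} {C' : Colored n S'}
  {φ : S → S'} (h : IsStarMap C C' φ)

omit [Fintype S'] in
theorem pm_sum {ι : Type*} (t : Finset ι) (a : ι → ℝ) (x : ι → C.Cells → ℝ) :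
    pm h (∑ i ∈ t, a i • x i) = ∑ i ∈ t, a i • pm h (x i) := by
  classical
  funext q'
  rw [Finset.sum_apply]
  unfold pm
  simp only [Finset.sum_apply, Pi.smul_apply, smul_eq_mul, Finset.mul_sum]
  rw [Finset.sum_comm]
  refine Finset.sum_congr rfl fun q _ => ?_
  split_ifs
  · rfl
  · simp

omit [Fintype S'] in
theorem pm_vert (q : C.Cells) : pm h (vert q) = vert (h.cellMap q) := by
  classical
  funext q'
  unfold pm
  rw [Finset.sum_eq_single q]
  · by_cases h1 : h.cellMap q = q'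
    · rw [if_pos h1, ← h1]
      simp [vert]
    · rw [if_neg h1]
      simp [vert, Ne.symm h1]
  · intro r _ hr
    split_ifs
    · simp [vert, hr]
    · rfl
  · intro hj
    exact absurd (Finset.mem_univ q) hj

theorem pr_sx (s : S) (F : Flag (n + 1)) : (pr h).comp (sx C s F) = sx C' (φ s) F := by
  apply ContinuousMap.ext
  intro t
  apply Subtype.ext
  change pm h (∑ j, (t : Fin (n + 2) → ℝ) j • (vert ∘ tp C s F) j) =
    ∑ j, (t : Fin (n + 2) → ℝ) j • (vert ∘ tp C' (φ s) F) j
  rw [pm_sum]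
  refine Finset.sum_congr rfl fun j _ => ?_
  congr 1
  change pm h (vert (tp C s F j)) = vert (tp C' (φ s) F j)
  rw [pm_vert]
  congr 1
  exact map_cellOf h _ _ s

theorem lifts_sx (s' : S') (F : Flag (n + 1)) :
    liftsOf (pr h) (sx C' s' F) = {τ | ∃ s, φ s = s' ∧ sx C s F = τ} := by
  ext τ
  constructor
  · intro hτ
    have hτ2 : (pr h).comp τ = sx C' s' F := hτ
    set e := vertsD (n + 1) (Fin.last (n + 1)) with he
    set q' := tp C' s' F (Fin.last (n + 1)) with hq'
    have hy : (sx C' s' F e).1 q' ≠ 0 := by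
      rw [he, sx_last]
      simp [vert, hq']
    have hs' : s' ∈ O q' := C'.self_mem_cell _ _
    have hx : pr h (τ e) = sx C' s' F e := by
      rw [← hτ2]; rfl
    obtain ⟨s, hs, hsx⟩ := fp_surj h hy hs' hx
    refine ⟨s, hs, ?_⟩
    have hx2 : pr h (sx C s F e) = sx C' s' F e := by
      have := pr_sx h s F
      rw [hs] at this
      rw [← this]; rfl
    obtain ⟨q2, hq2, hne, hiv⟩ := fibre_point h hx2 hy
    have hq2' : q2 = tp C s F (Fin.last (n + 1)) := by
      rw [he, sx_last] at hne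
      exact vert_ne_zero hne
    have hval : τ e = sx C s F e := by
      rw [← hsx]
      apply Subtype.ext
      rw [hiv, hq2']
      rfl
    apply ContinuousMap.coe_injective
    have : PreconnectedSpace (stdSimplex ℝ (Fin (n + 1 + 1))) :=
      Subtype.preconnectedSpace (convex_stdSimplex ℝ _).isPreconnected
    refine (isCoveringMap_pr h).eq_of_comp_eq (sx C s F).continuous τ.continuous ?_ e hval.symm
    funext t
    have h3 := pr_sx h s F
    rw [hs, ← hτ2] at h3
    exact congrArg (fun f : Sing (RP C'.Cells) (n + 1) => f t) h3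
  · rintro ⟨s, hs, rfl⟩
    change (pr h).comp (sx C s F) = sx C' s' F
    rw [pr_sx, hs]

omit [Fintype S'] in
include h in
theorem sx_inj {s t : S} (F : Flag (n + 1)) (hst : φ s = φ t) (h1 : sx C s F = sx C t F) :
    s = t := by
  have h2 : vert (tp C s F (Fin.last (n + 1))) = vert (tp C t F (Fin.last (n + 1))) := by
    rw [← sx_last, ← sx_last, h1]
  have h3 : tp C s F (Fin.last (n + 1)) = tp C t F (Fin.last (n + 1)) := by
    apply vert_ne_zero
    rw [← h2]
    simp [vert]
  have h4 : s ∈ O (tp C s F (Fin.last (n + 1))) := C.self_mem_cell _ _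
  have h5 : t ∈ O (tp C s F (Fin.last (n + 1))) := by rw [h3]; exact C.self_mem_cell _ _
  exact inj_cell h h4 h5 hst

theorem transfer_sx [DecidableEq S'] (s' : S') (F : Flag (n + 1)) :
    transfer (pr h) (Finsupp.single (sx C' s' F) (1 : ℤ)) =
      ∑ s with φ s = s', Finsupp.single (sx C s F) (1 : ℤ) := by
  classical
  have hfin : (liftsOf (pr h) (sx C' s' F)).Finite := by
    rw [lifts_sx]
    have : {τ | ∃ s, φ s = s' ∧ sx C s F = τ} = (fun s => sx C s F) '' {s | φ s = s'} := rfl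
    rw [this]
    exact (Set.toFinite _).image _
  rw [transfer, Finsupp.linearCombination_single, one_smul, dif_pos hfin]
  have h1 : hfin.toFinset = (univ.filter fun s => φ s = s').image fun s => sx C s F := by
    ext τ
    rw [Set.Finite.mem_toFinset, lifts_sx, Finset.mem_image]
    constructor
    · rintro ⟨s, hs, hsx⟩
      exact ⟨s, Finset.mem_filter.mpr ⟨Finset.mem_univ _, hs⟩, hsx⟩
    · rintro ⟨s, hs, hsx⟩
      exact ⟨s, (Finset.mem_filter.mp hs).2, hsx⟩
  rw [h1, Finset.sum_image]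
  intro s hs t ht hst
  have hs1 := (Finset.mem_filter.mp (Finset.mem_coe.mp hs)).2
  have ht1 := (Finset.mem_filter.mp (Finset.mem_coe.mp ht)).2
  exact sx_inj h F (hs1.trans ht1.symm) hst

theorem transfer_zR : transfer (pr h) (zR C') = zR C := by
  classical
  rw [zR_eq, zR_eq, map_sum]
  have h1 : ∀ s' : S', transfer (pr h)
      (∑ F : Flag (n + 1), (C'.ε s' * F.sgn) • Finsupp.single (sx C' s' F) (1 : ℤ)) =
      ∑ s with φ s = s', ∑ F : Flag (n + 1),
        (C.ε s * F.sgn) • Finsupp.single (sx C s F) (1 : ℤ) := by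
    intro s'
    rw [map_sum, Finset.sum_comm]
    refine Finset.sum_congr rfl fun F _ => ?_
    rw [map_smul, transfer_sx, Finset.smul_sum]
    refine Finset.sum_congr rfl fun s hs => ?_
    rw [← (Finset.mem_filter.mp hs).2, h.sign]
  rw [Finset.sum_congr rfl fun s' _ => h1 s']
  exact Finset.sum_fiberwise _ _ _

end transfer

end Cover

theorem specCover : SpecCover := by
  intro n S S' _ _ C C' φ h
  exact ⟨Cover.pr h, Cover.isCoveringMap_pr h, fun d hd y => Cover.fibre_card h d hd y,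
    Cover.transfer_zR h⟩

end MPb00168
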