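import Pool.Agent.Lib.MP_b00168_gt.ZC

set_option autoImplicit false

/-! # MP_b00168_gt : topology of `RP P` -/

namespace MPb00168

open Finset

variable {P : Type} [Fintype P] [PartialOrder P]

lemma isCompact_RP : IsCompact (RP P) := by
  have h1 : IsClosed (RP P) := by
    have : RP P = (⋂ p, {x : P → ℝ | 0 ≤ x p}) ∩ {x | ∑ p, x p = 1} ∩
        ⋂ p, ⋂ q, ⋂ (_ : ¬ (p ≤ q ∨ q ≤ p)), {x : P → ℝ | x p * x q = 0} := by
      ext x
      simp only [RP, Set.mem_ofPred_eq, Set.mem_inter_iff, Set.mem_iInter, and_assoc]
      refine and_congr_right fun _ => and_congr_right fun _ => ?_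
      constructor
      · intro h p q hpq
        by_contra hne
        have hp : x p ≠ 0 := left_ne_zero_of_mul hne
        have hq : x q ≠ 0 := right_ne_zero_of_mul hne
        by_cases hpq' : p = q
        · exact hpq (Or.inl hpq'.le)
        · exact hpq (h hp hq hpq')
      · intro h p hp q hq _
        by_contra hne
        exact mul_ne_zero hp hq (h p q hne)
    rw [this]
    refine IsClosed.inter (IsClosed.inter ?_ ?_) ?_
    · exact isClosed_iInter fun p => isClosed_le continuous_const (continuous_apply p)
    · exact isClosed_eq (continuous_finsetSum _ fun p _ => continuous_apply p) continuous_const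
    · exact isClosed_iInter fun p => isClosed_iInter fun q => isClosed_iInter fun _ =>
        isClosed_eq ((continuous_apply p).mul (continuous_apply q)) continuous_const
  refine (isCompact_stdSimplex ℝ P).of_isClosed_subset h1 ?_
  intro x hx
  exact ⟨hx.1, hx.2.1⟩

instance instCompactSpaceRP : CompactSpace (RP P) := isCompact_iff_compactSpace.mp isCompact_RP

lemma RP_nonneg {x : P → ℝ} (hx : x ∈ RP P) (p : P) : 0 ≤ x p := hx.1 p

lemma RP_le_one {x : P → ℝ} (hx : x ∈ RP P) (p : P) : x p ≤ 1 := by
  rw [← hx.2.1]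
  exact Finset.single_le_sum (fun q _ => hx.1 q) (Finset.mem_univ p)

/-- A point of `RP P` has a coordinate `≥ 1/m` if chains have at most `m` elements. -/
lemma exists_large_coord {m : ℕ} (hm : ∀ t : Finset P, IsChain (· ≤ ·) (t : Set P) → t.card ≤ m)
    {x : P → ℝ} (hx : x ∈ RP P) : ∃ p, 1 / (m : ℝ) ≤ x p := by
  classical
  by_contra hcon
  push Not at hcon
  let t : Finset P := Finset.univ.filter fun p => x p ≠ 0
  have ht : IsChain (· ≤ ·) (t : Set P) := by
    have : (t : Set P) = {p | x p ≠ 0} := by ext p; simp [t]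
    rw [this]; exact hx.2.2
  have hsum : ∑ p ∈ t, x p = 1 := by
    rw [← hx.2.1]
    refine Finset.sum_subset (Finset.subset_univ _) fun p _ hp => ?_
    by_contra hne
    exact hp (by simp [t, hne])
  have htne : t.Nonempty := by
    by_contra hne
    rw [Finset.not_nonempty_iff_eq_empty] at hne
    rw [hne, Finset.sum_empty] at hsum
    exact zero_ne_one hsum
  have hlt : ∑ p ∈ t, x p < ∑ _p ∈ t, 1 / (m : ℝ) :=
    Finset.sum_lt_sum_of_nonempty htne fun p _ => hcon p
  rw [hsum, Finset.sum_const, nsmul_eq_mul] at hlt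
  have hcard : (t.card : ℝ) ≤ m := by exact_mod_cast hm t ht
  have hm0 : (0 : ℝ) < m := by
    have : 0 < t.card := Finset.card_pos.mpr htne
    have : (0 : ℝ) < t.card := by exact_mod_cast this
    linarith
  have : (t.card : ℝ) * (1 / (m : ℝ)) ≤ 1 := by
    rw [mul_one_div, div_le_one hm0]; exact hcard
  linarith

end MPb00168
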