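import Pool.Agent.Lib.MP_b00168_gt.FinalA
import Pool.Agent.Lib.MP_b00168_gt.RPTop

section
set_option autoImplicit false

/-! # MP_b00168_gt : final assembly, part B -/

namespace MPb00168

namespace Final

open Finset

universe u v

lemma sdS_homologous {X : Type u} [TopologicalSpace X] (hSS : SpecSS.{u}) {n : ℕ}
    (c : Chain X (n + 1)) (hc : bd c = 0) : Homologous (SdS c) c := by
  obtain ⟨-, -, T, hT, -, -⟩ := hSS X
  exact ⟨T (n + 1) c, by rw [hT, hc, map_zero, sub_zero]⟩

/-- The condition on `B` in `SpecLattice`. -/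
def LatticeB (n B : ℕ) : Prop :=
  ∀ (P : Type) [Fintype P] [PartialOrder P],
    (∀ t : Finset P, IsChain (· ≤ ·) (t : Set P) → t.card ≤ n + 2) →
    PathConnectedSpace (RP P) → ∀ ζ : Tup P (n + 1) →₀ ℤ, bdT ζ = 0 → ChainSupp ζ →
    ∀ F₀ : ℕ, 1 ≤ F₀ → ∃ (U : Type) (_ : Fintype U) (_ : Nonempty U) (C : Colored n U)
      (β : U → Tup (P → ℝ) (n + 1)), C.Conn ∧
      (∀ i u, (C.cell {i} u).ncard ≤ B) ∧
      (∀ i u k, k ≠ i → β (C.a i u) k = β u k) ∧
      (∀ u, ∃ t : Set P, IsChain (· ≤ ·) t ∧ ∀ k, β u k ∈ RP P ∧ ∀ p, β u k p ≠ 0 → p ∈ t) ∧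
      Nat.Coprime {u | C.ε u = 1}.ncard F₀ ∧
      ∃ b : Chain (P → ℝ) (n + 2), SuppIn (RP P) b ∧
        bd b = (∑ u, Finsupp.single (aff (β u)) (C.ε u)) - affS (mapT vert ζ)

/-- Every cycle of a path-connected space is represented by a connected coloured set with bounded
stars. -/
theorem exists_bounded (hSS : SpecSS.{u}) (hColX : SpecColX.{u}) (hPush : SpecPush.{u})
    (hCh : SpecChains) (hZC : SpecZC) (hArc : SpecArc.{u}) (n B : ℕ) (hB : LatticeB n B)
    (X : Type u) [TopologicalSpace X] [PathConnectedSpace X] (z : Chain X (n + 1))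
    (hz : bd z = 0) (F₀ : ℕ) (hF : 1 ≤ F₀) :
    ∃ (U : Type) (_ : Fintype U) (_ : Nonempty U) (CU : Colored n U) (σ : U → Sing X (n + 1)),
      CU.Conn ∧ (∀ i u, (CU.cell {i} u).ncard ≤ B) ∧
      (∀ i u, face i (σ (CU.a i u)) = face i (σ u)) ∧ Nat.Coprime (N CU) F₀ ∧
      Homologous (∑ u, Finsupp.single (σ u) (CU.ε u)) z := by
  obtain ⟨S, hS, C, σ₀, hface, hsum⟩ := hColX X n z hz
  obtain ⟨g₀, hg₀⟩ := hPush X n S C σ₀ hface
  rw [hsum] at hg₀
  obtain ⟨hcs, hbd, -⟩ := hZC n S C
  obtain ⟨P, hP1, hP2, hchain, hpath, h', ζ, hζ, hζc, hpush⟩ :=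
    hArc X n C.Cells (hCh n S C) g₀ (zT C) hbd hcs
  have hpz : Homologous (push h' (realT P ζ)) z := by
    rw [hpush]
    have : push g₀ (realT C.Cells (zT C)) = SdS (SdS z) := hg₀
    rw [this]
    have h1 := sdS_homologous hSS z hz
    have h2 : bd (SdS z) = 0 := by rw [h1.bd_eq, hz]
    exact (sdS_homologous hSS _ h2).trans h1
  obtain ⟨U, hU1, hU2, CU, β, hconn, hbound, hβ, hβP, hco, b, hb, hbb⟩ :=
    hB P hchain hpath ζ hζ hζc F₀ hF
  have hmem : ∀ u, ∀ t, aff (β u) t ∈ RP P := by
    intro u t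
    obtain ⟨tt, htt, hk⟩ := hβP u
    exact aff_mem_RP (β u) tt htt (fun i => (hk i).1) (fun i p hp => (hk i).2 p hp) t
  refine ⟨U, hU1, hU2, CU, fun u => h'.comp (intoY (aff (β u)) (hmem u)), hconn, hbound, ?_, hco,
    ?_⟩
  · intro i u
    have h1 : face i (aff (β (CU.a i u))) = face i (aff (β u)) := by
      rw [face_aff, face_aff]
      congr 1
      funext k
      simp only [Function.comp_apply]
      exact hβ i u _ (Fin.succAbove_ne i k)
    rw [face_comp, face_comp]
    congr 1
    rw [face_intoY, face_intoY]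
    ext t : 2
    show (face i (aff (β (CU.a i u)))) t = (face i (aff (β u))) t
    rw [h1]
  · have h1 : Homologous (restr (RP P) (∑ u, Finsupp.single (aff (β u)) (CU.ε u)))
        (restr (RP P) (affS (mapT vert ζ))) := Homologous.of_restr b hb hbb
    have h2 : restr (RP P) (∑ u, Finsupp.single (aff (β u)) (CU.ε u)) =
        ∑ u, Finsupp.single (intoY (aff (β u)) (hmem u)) (CU.ε u) := by
      rw [map_sum]
      exact Finset.sum_congr rfl fun u _ => restr_single_of_mem _ (hmem u) _
    rw [h2] at h1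
    have h3 := (h1.push h').trans hpz
    rw [map_sum] at h3
    simpa using h3

/-- Fibres of an equivariant map onto a connected coloured set have constant size. -/
lemma fiber_const {n : ℕ} {S G : Type} [Finite S] (CS : Colored n S) (CG : Colored n G)
    (φ : S → G) (hφ : ∀ i s, φ (CS.a i s) = CG.a i (φ s)) (hG : CG.Conn) (g g' : G) :
    (φ ⁻¹' {g}).ncard = (φ ⁻¹' {g'}).ncard := by
  have hact : ∀ (w : List (Fin (n + 2))) (s : S), φ (CS.act w s) = CG.act w (φ s) := by
    intro w
    induction w with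
    | nil => intro s; rfl
    | cons i w ih =>
        intro s
        rw [Colored.act_cons, Colored.act_cons, hφ, ih]
  have key : ∀ g g' : G, (φ ⁻¹' {g}).ncard ≤ (φ ⁻¹' {g'}).ncard := by
    intro g g'
    obtain ⟨w, hw⟩ := hG g g'
    refine Set.ncard_le_ncard_of_injOn (fun s => CS.act w s) ?_ ?_ (Set.toFinite _)
    · intro s hs
      have hs' : φ s = g := hs
      show φ (CS.act w s) = g'
      rw [hact, hs', hw]
    · intro s _ t _ h
      exact CS.act_injective w h
  exact le_antisymm (key g g') (key g' g)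

/-- The trivial covering. -/
noncomputable def trivialCover {n : ℕ} {M : Type} [TopologicalSpace M] [T2Space M]
    [CompactSpace M] [ConnectedSpace M] (μ : Chain M (n + 1)) (hμ : IsFund μ) : OCover μ where
  T := M
  p := ContinuousMap.id M
  cov := by
    have : IsLocalHomeomorph (ContinuousMap.id M : M → M) := (Homeomorph.refl M).isLocalHomeomorph
    exact isLocalHomeomorph_iff_isCoveringMap.mp this
  d := 1
  d_pos := one_pos
  sheets x := by
    have : (ContinuousMap.id M : M → M) ⁻¹' {x} = {x} := rfl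
    rw [this]
    exact ⟨Set.finite_singleton x, Set.ncard_singleton x⟩
  c := μ
  fund := hμ
  orient := by simpa using Homologous.refl μ

lemma realised_of_null {n : ℕ} {M : Type} [TopologicalSpace M] [T2Space M]
    [CompactSpace M] [ConnectedSpace M] (hPoint : SpecPoint.{0, u}) (μ : Chain M (n + 1))
    (hμ : IsFund μ) {X : Type u} [TopologicalSpace X] [Nonempty X] (z : Chain X (n + 1))
    (hz : Homologous z 0) : Realised μ z := by
  obtain ⟨x⟩ := ‹Nonempty X›
  refine ⟨trivialCover μ hμ, ContinuousMap.const M x, ?_⟩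
  exact (hPoint M X x n μ hμ.1).trans hz.symm

end Final

end MPb00168
end

section
set_option autoImplicit false

/-! # MP_b00168_gt : final assembly -/

namespace MPb00168

namespace Final

open Finset

universe u v

/-- `k` is the degree of a map from a connected covering of `M` to the realisation of a connected
coloured set `S` which is a covering of `G`. -/
def IsDeg {n : ℕ} {M : Type} [TopologicalSpace M] (μ : Chain M (n + 1)) {G : Type}
    (CG : Colored n G) (m : ℕ) : Prop :=
  ∃ (S : Type) (_ : Fintype S) (_ : Nonempty S) (CS : Colored n S) (φ : S → G), CS.Conn ∧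
    IsStarMap CS CG φ ∧ ∃ (O : OCover μ) (f : C(O.T, RP CS.Cells)) (k : ℤ), k ≠ 0 ∧
      k.natAbs = m ∧ Homologous (push f O.c) (k • zR CS)

/-- Push-forward of the fundamental cycle under a star map onto a connected coloured set. -/
lemma push_cover (hCover : SpecCover) (hTr : SpecTransfer) {n : ℕ} {S S' : Type} [Fintype S]
    [Fintype S'] [Nonempty S] [Nonempty S'] (CS : Colored n S) (CS' : Colored n S') (φ : S → S')
    (hφ : IsStarMap CS CS' φ) (d : ℕ) (hd : ∀ s', (φ ⁻¹' {s'}).ncard = d) :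
    ∃ p : C(RP CS.Cells, RP CS'.Cells), IsCoveringMap p ∧
      (∀ y, (p ⁻¹' {y}).Finite ∧ (p ⁻¹' {y}).ncard = d) ∧ transfer p (zR CS') = zR CS ∧
      push p (zR CS) = (d : ℤ) • zR CS' ∧ 0 < d := by
  obtain ⟨p, hp, hfib, htr⟩ := hCover n S S' CS CS' φ hφ
  have hf := hfib d hd
  refine ⟨p, hp, hf, htr, ?_, ?_⟩
  · obtain ⟨-, -, -, h4⟩ := hTr _ _ p hp (fun x => (hf x).1)
    rw [← htr]
    exact h4 d (fun x => (hf x).2) _ _
  · obtain ⟨s⟩ := ‹Nonempty S›
    rw [← hd (φ s)]
    exact (Set.ncard_pos (Set.toFinite _)).mpr ⟨s, rfl⟩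

/-- Sum of the compatible simplices over the product. -/
lemma push_prod (hSS : SpecSS.{u}) (hPush : SpecPush.{u}) {n : ℕ} {U S : Type} [Fintype U]
    [Fintype S] (CU : Colored n U) (CS : Colored n S) {X : Type u} [TopologicalSpace X]
    (σ : U → Sing X (n + 1)) (hface : ∀ i u, face i (σ (CU.a i u)) = face i (σ u))
    (z : Chain X (n + 1)) (hz : bd z = 0)
    (hσ : Homologous (∑ u, Finsupp.single (σ u) (CU.ε u)) z) :
    ∃ g : C(RP (prod CU CS).Cells, X),
      Homologous (push g (zR (prod CU CS))) ((N CS : ℤ) • z) := by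
  obtain ⟨g, hg⟩ := hPush X n (PT CU CS) (prod CU CS) (fun p => σ p.1.1)
    (fun i s => hface i s.1.1)
  refine ⟨g, ?_⟩
  rw [hg]
  have h1 : ∑ s : PT CU CS, Finsupp.single (σ s.1.1) ((prod CU CS).ε s) =
      (N CS : ℤ) • ∑ u, Finsupp.single (σ u) (CU.ε u) :=
    sum_fst CU CS (fun u => Finsupp.single (σ u) (CU.ε u))
  rw [h1, map_smul]
  refine Homologous.smul _ ?_
  have h2 : bd (∑ u, Finsupp.single (σ u) (CU.ε u)) = 0 := by rw [hσ.bd_eq, hz]
  exact (sdS_homologous hSS _ h2).trans hσ

lemma smul_homologous_eq {X : Type u} [TopologicalSpace X] {k : ℕ} {c : Chain X k}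
    (hc : ∀ l : ℤ, l ≠ 0 → ¬ Homologous (l • c) 0) {a b : ℤ}
    (h : Homologous (a • c) (b • c)) : a = b := by
  by_contra hne
  apply hc (a - b) (sub_ne_zero.mpr hne)
  obtain ⟨e, he⟩ := h
  exact ⟨e, by rw [he, sub_smul, sub_zero]⟩

theorem main (hSS : SpecSS.{u}) (hColX : SpecColX.{u}) (hPush : SpecPush.{u})
    (hCh : SpecChains) (hZC : SpecZC) (hArc : SpecArc.{u}) (hPoint : SpecPoint.{0, u})
    (hPath : SpecPath) (hCover : SpecCover) (hTop : SpecTop) (hGroup : SpecGroup)
    (hTr : SpecTransfer) (hLocal : SpecLocal) (hPull : SpecPull) (hComp : SpecComp)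
    (hCompose : SpecCompose) (hLC : SpecLC) (hLat : SpecLattice)
    (n : ℕ) (M : Type) [TopologicalSpace M] [T2Space M] [CompactSpace M] [ConnectedSpace M]
    [LocallyConnectedSpace M] (μ : Chain M (n + 1)) (hμ : IsFund μ) (hURC : IsURC μ) :
    ∃ q : ℕ, 0 < q ∧ ∀ (X : Type u) [TopologicalSpace X] [PathConnectedSpace X]
      (z : Chain X (n + 1)), bd z = 0 → Realised μ ((q : ℤ) • z) := by
  obtain ⟨B, hB⟩ := hLat n
  obtain ⟨G, hG1, hG2, CG, hGconn, hGstar⟩ := hGroup n B
  have hXpc : PathConnectedSpace (RP CG.Cells) := hPath n G CG hGconn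
  have hz0 : bd (zR CG) = 0 := (hZC n G CG).2.2
  by_cases htors : ∃ l : ℤ, l ≠ 0 ∧ Homologous (l • zR CG) 0
  · -- torsion case
    obtain ⟨l, hl, hlz⟩ := htors
    refine ⟨l.natAbs * N CG, Nat.mul_pos (Int.natAbs_pos.mpr hl) (N_pos CG), ?_⟩
    intro X _ _ z hz
    have hX : Nonempty X := (inferInstance : PathConnectedSpace X).nonempty
    obtain ⟨U, hU1, hU2, CU, σ, hconn, hbound, hface, -, hσ⟩ :=
      exists_bounded hSS hColX hPush hCh hZC hArc n B (fun P => hB P) X z hz 1 le_rfl
    have hstar := hGstar U CU hbound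
    have hid : IsStarMap CG CG id := ⟨fun _ _ => rfl, fun _ => rfl, fun i w _ s h => h⟩
    have hsm := isStarMap_snd CU CG CG id hid hstar
    obtain ⟨p, hp, hfib, htr⟩ := hCover n (PT CU CG) G (prod CU CG) CG _ hsm
    have hf := hfib (N CU) (fun g => fiber_snd CU CG g)
    obtain ⟨-, hbd, -, -⟩ := hTr _ _ p hp (fun x => (hf x).1)
    obtain ⟨g, hg⟩ := push_prod hSS hPush CU CG σ hface z hz hσ
    have h1 : Homologous (l • zR (prod CU CG)) 0 := by
      obtain ⟨b, hb⟩ := hlz
      refine ⟨transfer p b, ?_⟩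
      rw [hbd, hb, map_sub, map_smul, htr, map_zero]
    have h2 : Homologous (l • ((N CG : ℤ) • z)) 0 := by
      have := (h1.push g)
      rw [map_smul, map_zero] at this
      exact (Homologous.smul l hg).symm.trans this
    apply realised_of_null hPoint μ hμ
    rcases Int.natAbs_eq l with h | h
    · rw [Nat.cast_mul, ← h, mul_smul]
      exact h2
    · have h3 := Homologous.smul (-1) h2
      rw [smul_zero, smul_smul, smul_smul] at h3
      have h4 : (((l.natAbs * N CG : ℕ) : ℤ)) = -1 * (l * (N CG : ℤ)) := by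
        have : (l.natAbs : ℤ) = -l := by omega
        rw [Nat.cast_mul, this]; ring
      rw [h4, ← mul_assoc]
      exact h3
  · -- main case
    push Not at htors
    have hnt : ∀ l : ℤ, l ≠ 0 → ¬ Homologous (l • zR CG) 0 := fun l hl h => htors l hl h
    -- there is a degree
    have hex : ∃ m, IsDeg μ CG m := by
      obtain ⟨k, hk, r, C, f, hsum⟩ := hURC (RP CG.Cells) (zR CG) hz0
      have hcls : ∀ l, ∃ a : ℤ, Homologous (push (f l) (C l).c) (a • zR CG) := by
        intro l
        apply hTop n G CG hGconn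
        rw [← push_bd, (C l).fund.1, map_zero]
      choose a ha using hcls
      have h1 : Homologous ((∑ l, a l) • zR CG) (k • zR CG) := by
        rw [Finset.sum_smul]
        exact (Homologous.sum _ _ _ (fun l _ => (ha l).symm)).trans hsum
      have h2 : ∑ l, a l = k := smul_homologous_eq hnt h1
      obtain ⟨l, -, hl⟩ : ∃ l ∈ (Finset.univ : Finset (Fin r)), a l ≠ 0 := by
        apply Finset.exists_ne_zero_of_sum_ne_zero
        rw [h2]; exact hk
      exact ⟨(a l).natAbs, G, hG1, hG2, CG, id, hGconn,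
        ⟨fun _ _ => rfl, fun _ => rfl, fun i w _ s h => h⟩, C l, f l, a l, hl, rfl, ha l⟩
    classical
    obtain ⟨m, hm, hmin⟩ : ∃ m, IsDeg μ CG m ∧ ∀ m', m' < m → ¬ IsDeg μ CG m' :=
      ⟨Nat.find hex, Nat.find_spec hex, fun m' h => Nat.find_min hex h⟩
    obtain ⟨S, hS1, hS2, CS, φ, hSconn, hφ, O, f, k, hk, hkm, hfk⟩ := hm
    -- `zR CS` is not torsion
    have hntS : ∀ l : ℤ, l ≠ 0 → ¬ Homologous (l • zR CS) 0 := by
      intro l hl hlz
      obtain ⟨g0⟩ := id hG2
      have hd : ∀ g, (φ ⁻¹' {g}).ncard = (φ ⁻¹' {g0}).ncard :=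
        fun g => fiber_const CS CG φ hφ.equiv hGconn g g0
      obtain ⟨p, -, -, -, hpush, hdpos⟩ := push_cover hCover hTr CS CG φ hφ _ hd
      have := hlz.push p
      rw [map_smul, hpush, map_zero, smul_smul] at this
      exact hnt _ (mul_ne_zero hl (by exact_mod_cast hdpos.ne')) this
    refine ⟨k.natAbs * N CS, Nat.mul_pos (Int.natAbs_pos.mpr hk) (N_pos CS), ?_⟩
    intro X _ _ z hz
    -- the sign of `k`
    obtain ⟨s, hs1, hs2⟩ : ∃ s : ℤ, k * s = k.natAbs ∧ (s = 1 ∨ s = -1) := by
      rcases Int.natAbs_eq k with h | h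
      · exact ⟨1, by omega, Or.inl rfl⟩
      · exact ⟨-1, by omega, Or.inr rfl⟩
    have hz' : bd (s • z) = 0 := by rw [map_smul, hz, smul_zero]
    obtain ⟨U, hU1, hU2, CU, σ, hUconn, hbound, hface, hco, hσ⟩ :=
      exists_bounded hSS hColX hPush hCh hZC hArc n B (fun P => hB P) X (s • z) hz' (N CS)
        (N_pos CS)
    have hstar := hGstar U CU hbound
    have hsm := isStarMap_snd CU CS CG φ hφ hstar
    have hconn : (prod CU CS).Conn := prod_conn CU CS hUconn hSconn hco
    obtain ⟨u0⟩ := id hU2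
    obtain ⟨s0⟩ := id hS2
    have hne : Nonempty (PT CU CS) := by
      rcases CU.unit u0 with h | h <;> rcases CS.unit s0 with h' | h'
      · exact ⟨⟨(u0, s0), by rw [h, h']⟩⟩
      · exact ⟨⟨(u0, CS.a 0 s0), by rw [h, CS.flip, h']; norm_num⟩⟩
      · exact ⟨⟨(u0, CS.a 0 s0), by rw [h, CS.flip, h']⟩⟩
      · exact ⟨⟨(u0, s0), by rw [h, h']⟩⟩
    obtain ⟨p, hp, hpf, htr, hpush, hdpos⟩ := push_cover hCover hTr (prod CU CS) CS _ hsm
      (N CU) (fun t => fiber_snd CU CS t)
    obtain ⟨g, hg⟩ := push_prod hSS hPush CU CS σ hface (s • z) hz' hσ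
    -- pull back to the covering
    obtain ⟨hW1, hW2, hW3⟩ := hPull O.T (RP CS.Cells) (RP (prod CU CS).Cells) f p hp
    have hOLC : LocallyConnectedSpace O.T := hLC O.T M O.p O.cov.isLocalHomeomorph
    let pW : C({z : O.T × RP (prod CU CS).Cells // f z.1 = p z.2}, O.T) :=
      ⟨fun z => z.1.1, by fun_prop⟩
    have hpWfib : ∀ x, (pW ⁻¹' {x}).Finite ∧ (pW ⁻¹' {x}).ncard = N CU := by
      intro x
      have hbij : Set.BijOn (fun z : {z : O.T × RP (prod CU CS).Cells // f z.1 = p z.2} => z.1.2)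
          (pW ⁻¹' {x}) (p ⁻¹' {f x}) := by
        refine ⟨?_, ?_, ?_⟩
        · intro z hz1
          have hz2 : z.1.1 = x := hz1
          show p z.1.2 = f x
          rw [← z.2, hz2]
        · intro z hz1 z' hz1' h
          have hz2 : z.1.1 = x := hz1
          have hz2' : z'.1.1 = x := hz1'
          exact Subtype.ext (Prod.ext (hz2.trans hz2'.symm) h)
        · intro y hy
          have hy' : p y = f x := hy
          exact ⟨⟨(x, y), hy'.symm⟩, rfl, rfl⟩
      refine ⟨?_, ?_⟩
      · exact (Set.BijOn.finite_iff_finite hbij).mpr (hpf (f x)).1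
      · rw [← (hpf (f x)).2]
        exact Set.ncard_congr (fun z _ => z.1.2) (fun z hz => hbij.1 hz)
          (fun z z' hz hz' h => hbij.2.1 hz hz' h) (fun y hy => by
            obtain ⟨z, hz, rfl⟩ := hbij.2.2 hy
            exact ⟨z, hz, rfl⟩)
    have hOT : Nonempty O.T := (inferInstance : ConnectedSpace O.T).toNonempty
    obtain ⟨t0⟩ := id hOT
    obtain ⟨x', -⟩ : (pW ⁻¹' {t0}).Nonempty := by
      rw [← Set.ncard_pos (hpWfib t0).1, (hpWfib t0).2]
      exact hdpos
    obtain ⟨hc1, hc2, hc3, hc4, d', hd'pos, hd'le, hd'fib⟩ :=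
      hComp O.T {z : O.T × RP (prod CU CS).Cells // f z.1 = p z.2} pW hW3 (N CU) hpWfib x'
    let pC : C(connectedComponent x', O.T) := ⟨fun z => pW z.1, by fun_prop⟩
    have hpC : IsCoveringMap pC := hc4
    have hpCfib : ∀ x, (pC ⁻¹' {x}).Finite ∧ (pC ⁻¹' {x}).ncard = d' := hd'fib
    obtain ⟨hq1, hq2⟩ := hCompose (connectedComponent x') O.T M pC O.p hpC O.cov d' O.d hpCfib
      O.sheets
    obtain ⟨-, -, -, htr4⟩ := hTr _ _ pC hpC (fun x => (hpCfib x).1)
    have hpushC : push pC (transfer pC O.c) = (d' : ℤ) • O.c :=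
      htr4 d' (fun x => (hpCfib x).2) _ _
    have hfund : IsFund (transfer pC O.c) :=
      hLocal _ _ pC hpC (fun x => (hpCfib x).1) n O.c O.fund
    let OC : OCover μ :=
      { T := connectedComponent x'
        p := O.p.comp pC
        cov := hq1
        d := d' * O.d
        d_pos := Nat.mul_pos hd'pos O.d_pos
        sheets := hq2
        c := transfer pC O.c
        fund := hfund
        orient := by
          rw [push_comp, hpushC, map_smul, Nat.cast_mul, mul_smul]
          exact Homologous.smul _ O.orient }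
    let fC : C(connectedComponent x', RP (prod CU CS).Cells) := ⟨fun z => z.1.1.2, by fun_prop⟩
    obtain ⟨a, ha⟩ : ∃ a : ℤ, Homologous (push fC (transfer pC O.c)) (a • zR (prod CU CS)) := by
      apply hTop n (PT CU CS) (prod CU CS) hconn
      rw [← push_bd, hfund.1, map_zero]
    have hcomm : p.comp fC = f.comp pC := by
      ext z : 1
      exact (z.1.2).symm
    have hrel : a * (N CU : ℤ) = (d' : ℤ) * k := by
      apply smul_homologous_eq hntS
      have h1 := ha.push p
      rw [← push_comp, hcomm, push_comp, hpushC, map_smul, map_smul, hpush] at h1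
      have h2 := Homologous.smul (d' : ℤ) hfk
      rw [smul_smul] at h1 h2
      exact h1.symm.trans h2
    have ha0 : a ≠ 0 := by
      rintro rfl
      rw [zero_mul] at hrel
      have : (d' : ℤ) ≠ 0 := by exact_mod_cast hd'pos.ne'
      exact (mul_ne_zero this hk) hrel.symm
    have hmin' : ¬ a.natAbs < m := fun hlt => hmin _ hlt
      ⟨PT CU CS, inferInstance, hne, prod CU CS, _, hconn, isStarMap_comp CS hφ hsm, OC, fC, a,
        ha0, rfl, ha⟩
    have habs : a.natAbs * N CU = d' * k.natAbs := by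
      have := congrArg Int.natAbs hrel
      rwa [Int.natAbs_mul, Int.natAbs_mul, Int.natAbs_natCast, Int.natAbs_natCast] at this
    have hkpos : 0 < k.natAbs := Int.natAbs_pos.mpr hk
    have hale : a.natAbs ≤ k.natAbs := by
      have : a.natAbs * N CU ≤ k.natAbs * N CU := by
        rw [habs, mul_comm k.natAbs]
        exact Nat.mul_le_mul_right _ hd'le
      exact Nat.le_of_mul_le_mul_right this hdpos
    have haeq : a.natAbs = k.natAbs := by omega
    have hd'eq : d' = N CU := by
      rw [haeq, mul_comm] at habs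
      exact (Nat.eq_of_mul_eq_mul_right hkpos habs).symm
    have hak : a = k := by
      rw [hd'eq, mul_comm (N CU : ℤ) k] at hrel
      have : (N CU : ℤ) ≠ 0 := by exact_mod_cast hdpos.ne'
      exact mul_right_cancel₀ this hrel
    refine ⟨OC, g.comp fC, ?_⟩
    show Homologous (push (g.comp fC) (transfer pC O.c)) _
    rw [push_comp]
    refine (ha.push g).trans ?_
    rw [map_smul, hak]
    refine (Homologous.smul k hg).trans ?_
    apply Homologous.of_eq
    rw [smul_smul, smul_smul, Nat.cast_mul, ← hs1]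
    congr 1
    ring

end Final

universe u

theorem specResult (hSS : SpecSS.{u}) (hColX : SpecColX.{u}) (hPush : SpecPush.{u})
    (hCh : SpecChains) (hZC : SpecZC) (hArc : SpecArc.{u}) (hPoint : SpecPoint.{0, u})
    (hPath : SpecPath) (hCover : SpecCover) (hTop : SpecTop) (hGroup : SpecGroup)
    (hTr : SpecTransfer) (hLocal : SpecLocal) (hPull : SpecPull) (hComp : SpecComp)
    (hCompose : SpecCompose) (hLC : SpecLC) (hLat : SpecLattice) (hGen : SpecGen.{u}) :
    SpecResult.{u} := by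
  intro n M _ _ _ _ _ μ hμ hURC
  obtain ⟨q, hq, h⟩ := Final.main hSS hColX hPush hCh hZC hArc hPoint hPath hCover hTop hGroup hTr
    hLocal hPull hComp hCompose hLC hLat n M μ hμ hURC
  exact ⟨q, hq, h, hGen n M μ hμ q h⟩

end MPb00168
end
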