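import Pool.Agent.Lib.MP_b00168_gt.Spec
import Pool.Agent.Lib.MP_b00168_gt.Transfer
import Pool.Agent.Lib.MP_b00168_gt.ZC

set_option autoImplicit false

/-! # MP_b00168_gt : module GEN (from path-connected spaces to all nonempty spaces) -/

namespace MPb00168

universe u

namespace Gen

open Finset

variable {X : Type u} [TopologicalSpace X]

/-- The path component of a point, as an element of the set of path components. -/
def K (x : X) : ZerothHomotopy X := Quotient.mk (pathSetoid X) x

lemma K_eq_iff (x y : X) : K x = K y ↔ Joined x y := Quotient.eq (r := pathSetoid X)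

/-- The points of a path component. -/
def Y (l : ZerothHomotopy X) : Set X := {x | K x = l}

lemma Y_pathConnected (l : ZerothHomotopy X) : PathConnectedSpace (Y l) := by
  obtain ⟨x, hx⟩ := Quotient.exists_rep l
  have h : Y l = pathComponent x := by
    ext y
    rw [mem_pathComponent_iff, ← K_eq_iff]
    constructor
    · intro h
      exact hx.trans (show K y = l from h).symm
    · intro h
      exact h.symm.trans hx
  rw [h]
  exact isPathConnected_iff_pathConnectedSpace.mp isPathConnected_pathComponent

/-- The path component of a singular simplex. -/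
noncomputable def κ {k : ℕ} (σ : Sing X k) : ZerothHomotopy X := K (σ (vertsD k 0))

lemma κ_eq {k : ℕ} (σ : Sing X k) (t : stdSimplex ℝ (Fin (k + 1))) : K (σ t) = κ σ := by
  unfold κ
  rw [K_eq_iff]
  exact (PathConnectedSpace.joined t (vertsD k 0)).map σ.continuous

lemma κ_face {k : ℕ} (i : Fin (k + 2)) (σ : Sing X (k + 1)) : κ (face i σ) = κ σ :=
  κ_eq σ (faceMap k i (vertsD k 0))

open Classical in
/-- The part of a chain in a path component. -/
noncomputable def prt (l : ZerothHomotopy X) {k : ℕ} : Chain X k →ₗ[ℤ] Chain X k :=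
  Finsupp.linearCombination ℤ fun σ => if κ σ = l then Finsupp.single σ (1 : ℤ) else 0

open Classical in
lemma prt_single (l : ZerothHomotopy X) {k : ℕ} (σ : Sing X k) :
    prt l (Finsupp.single σ (1 : ℤ)) = if κ σ = l then Finsupp.single σ (1 : ℤ) else 0 := by
  simp [prt]

lemma bd_prt (l : ZerothHomotopy X) {k : ℕ} (c : Chain X (k + 1)) :
    bd (prt l c) = prt l (bd c) := by
  classical
  have := linext_apply (f := bd.comp (prt l)) (g := (prt l).comp bd) (c := c) (by
    intro σ
    rw [LinearMap.comp_apply, LinearMap.comp_apply, prt_single, bd_single, one_smul, map_sum]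
    have h : ∀ i : Fin (k + 2), prt l ((-1 : ℤ) ^ (i : ℕ) • Finsupp.single (face i σ) (1 : ℤ)) =
        (-1 : ℤ) ^ (i : ℕ) • (if κ σ = l then Finsupp.single (face i σ) (1 : ℤ) else 0) := by
      intro i
      rw [map_smul, prt_single, κ_face]
    rw [Finset.sum_congr rfl fun i _ => h i]
    by_cases hl : κ σ = l
    · simp only [if_pos hl, bd_single, one_smul]
    · simp only [if_neg hl, map_zero, smul_zero, Finset.sum_const_zero])
  simpa using this

lemma suppIn_prt (l : ZerothHomotopy X) {k : ℕ} (c : Chain X k) : SuppIn (Y l) (prt l c) := by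
  classical
  intro τ hτ
  obtain ⟨σ, -, h⟩ := mem_support_lin (prt l) c hτ
  rw [prt_single] at h
  split_ifs at h with hl
  · have h2 := Finsupp.support_single_subset h
    rw [Finset.mem_singleton] at h2
    subst h2
    rintro _ ⟨t, rfl⟩
    exact (κ_eq τ t).trans hl
  · simp at h

open Classical in
lemma sum_prt {k : ℕ} (c : Chain X k) (A : Finset (ZerothHomotopy X))
    (hA : ∀ σ ∈ c.support, κ σ ∈ A) : ∑ l ∈ A, prt l c = c := by
  have := lin_congr (f := ∑ l ∈ A, prt l) (g := LinearMap.id) c (by
    intro σ hσ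
    rw [LinearMap.sum_apply, LinearMap.id_apply]
    simp only [prt_single]
    rw [Finset.sum_ite_eq, if_pos (hA σ hσ)])
  simpa using this

end Gen

open Gen in
theorem specGen : SpecGen.{u} := by
  classical
  intro n M _ _ _ _ μ _ q hq X _ hX z hz
  have h1 : ∀ l : ZerothHomotopy X, Realised μ ((q : ℤ) • restr (Y l) (prt l z)) := by
    intro l
    have := Y_pathConnected l
    refine hq (Y l) _ ?_
    rw [← restr_bd _ (suppIn_prt l z), bd_prt, hz, map_zero, map_zero]
  choose C f hf using h1
  obtain ⟨x₀⟩ := hX
  set A : Finset (ZerothHomotopy X) := insert (K x₀) (z.support.image κ) with hA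
  have hAκ : ∀ σ ∈ z.support, κ σ ∈ A := fun σ hσ =>
    Finset.mem_insert_of_mem (Finset.mem_image_of_mem _ hσ)
  set e : Fin A.card ≃ A := A.equivFin.symm with he
  refine ⟨A.card, Finset.card_pos.mpr ⟨K x₀, Finset.mem_insert_self _ _⟩,
    fun i => C (e i).1, fun i => (inclY (Y (e i).1)).comp (f (e i).1), ?_⟩
  have h2 : ∑ i : Fin A.card, push ((inclY (Y (e i).1)).comp (f (e i).1)) (C (e i).1).c =
      ∑ l ∈ A, push ((inclY (Y l)).comp (f l)) (C l).c := by
    rw [← Finset.sum_coe_sort A (fun l => push ((inclY (Y l)).comp (f l)) (C l).c)]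
    exact Equiv.sum_comp e (fun l : A => push ((inclY (Y l.1)).comp (f l.1)) (C l.1).c)
  have h3 : (q : ℤ) • z = ∑ l ∈ A, (q : ℤ) • prt l z := by
    rw [← Finset.smul_sum, sum_prt z A hAκ]
  rw [h2, h3]
  refine Homologous.sum A _ _ fun l _ => ?_
  have h4 := (hf l).push (inclY (Y l))
  rw [map_smul, push_incl_restr _ (suppIn_prt l z), ← push_comp] at h4
  exact h4

end MPb00168
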