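import Pool.Agent.Lib.MP_b00168_gt.Spec
import Pool.Agent.Lib.MP_b00168_gt.Transfer
import Pool.Agent.Lib.MP_b00168_gt.ZC

section
set_option autoImplicit false

/-!
# MP_b00168_gt, module MATCH

Matchings making a coloured set connected.
-/

namespace MPb00168.MATCH

open Finset

/-- A system of sign-reversing involutions preserving the keys. -/
structure Sys (n : ℕ) (U : Type) (ε : U → ℤ) (Key : Fin (n + 2) → Type)
    (κ : ∀ i, U → Key i) where
  a : Fin (n + 2) → U → U
  inv : ∀ i u, a i (a i u) = u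
  flip : ∀ i u, ε (a i u) = -ε u
  key : ∀ i u, κ i (a i u) = κ i u

section

variable {n : ℕ} {U : Type} {ε : U → ℤ} {Key : Fin (n + 2) → Type} {κ : ∀ i, U → Key i}

/-- Reachability. -/
def Reach (a : Fin (n + 2) → U → U) : U → U → Prop :=
  Relation.ReflTransGen fun x y => ∃ j, y = a j x

lemma Reach.symm' {a : Fin (n + 2) → U → U} (h : ∀ i u, a i (a i u) = u) {x y : U}
    (hxy : Reach a x y) : Reach a y x := by
  unfold Reach at *
  induction hxy with
  | refl => exact Relation.ReflTransGen.refl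
  | tail _ hstep ih =>
      obtain ⟨j, rfl⟩ := hstep
      exact Relation.ReflTransGen.head ⟨j, (h j _).symm⟩ ih

lemma Reach.step (a : Fin (n + 2) → U → U) (j : Fin (n + 2)) (x : U) : Reach a x (a j x) :=
  Relation.ReflTransGen.single ⟨j, rfl⟩

lemma Reach.trans' {a : Fin (n + 2) → U → U} {x y z : U} (h : Reach a x y) (h' : Reach a y z) :
    Reach a x z :=
  Relation.ReflTransGen.trans h h'

/-- A finite set closed under a sign-reversing involution has zero total sign. -/
lemma sum_eq_zero_of_closed [DecidableEq U] (D : Finset U) (f : U → U) (hf : ∀ u, f (f u) = u)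
    (hε : ∀ u, ε (f u) = -ε u) (hD : ∀ x ∈ D, f x ∈ D) : ∑ x ∈ D, ε x = 0 := by
  have h1 : ∑ x ∈ D, ε x = ∑ x ∈ D, ε (f x) := by
    refine Finset.sum_bij' (fun x _ => f x) (fun x _ => f x) hD hD (fun x _ => hf x)
      (fun x _ => hf x) (fun x _ => ?_)
    rw [hf]
  have h2 : ∑ x ∈ D, ε (f x) = -∑ x ∈ D, ε x := by
    rw [← Finset.sum_neg_distrib]
    exact Finset.sum_congr rfl fun x _ => hε x
  linarith

/-- Removing the edge from `u` to `a i u` does not disconnect the orbit of `u`. -/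
lemma reach_cut [Fintype U] (S : Sys n U ε Key κ) (hu1 : ∀ u, ε u = 1 ∨ ε u = -1)
    (i : Fin (n + 2)) (u : U) {x : U} (hx : Reach S.a u x) :
    Relation.ReflTransGen (fun x y => ∃ j, y = S.a j x ∧ ¬(j = i ∧ (x = u ∨ x = S.a i u))) u x := by
  classical
  set R : U → U → Prop := fun x y => ∃ j, y = S.a j x ∧ ¬(j = i ∧ (x = u ∨ x = S.a i u)) with hR
  set D : Finset U := Finset.univ.filter fun x => Relation.ReflTransGen R u x with hD
  have huD : u ∈ D := by simp [hD, Relation.ReflTransGen.refl]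
  have hj : ∃ j : Fin (n + 2), j ≠ i := exists_ne i
  obtain ⟨j, hji⟩ := hj
  have hDj : ∀ x ∈ D, S.a j x ∈ D := by
    intro x hx
    simp only [hD, Finset.mem_filter, Finset.mem_univ, true_and] at hx ⊢
    exact hx.tail ⟨j, rfl, fun h => hji h.1⟩
  have hsum : ∑ x ∈ D, ε x = 0 := sum_eq_zero_of_closed D (S.a j) (S.inv j) (S.flip j) hDj
  have hau : S.a i u ∈ D := by
    by_contra hcon
    have hDi : ∀ x ∈ D.erase u, S.a i x ∈ D.erase u := by
      intro x hx
      rw [Finset.mem_erase] at hx ⊢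
      obtain ⟨hxu, hxD⟩ := hx
      refine ⟨fun h => ?_, ?_⟩
      · apply hcon
        rw [← h, S.inv]
        exact hxD
      · have hxD' := hxD
        simp only [hD, Finset.mem_filter, Finset.mem_univ, true_and] at hxD' ⊢
        refine hxD'.tail ⟨i, rfl, ?_⟩
        rintro ⟨-, h | h⟩
        · exact hxu h
        · exact hcon (h ▸ hxD)
    have h2 : ∑ x ∈ D.erase u, ε x = 0 :=
      sum_eq_zero_of_closed (D.erase u) (S.a i) (S.inv i) (S.flip i) hDi
    have h3 := Finset.sum_erase_add D ε huD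
    rw [hsum, h2] at h3
    rcases hu1 u with h | h <;> rw [h] at h3 <;> norm_num at h3
  have hall : ∀ y, Reach S.a u y → y ∈ D := by
    intro y hy
    unfold Reach at hy
    induction hy with
    | refl => exact huD
    | tail _ hstep ih =>
        rename_i b c _
        obtain ⟨k, rfl⟩ := hstep
        by_cases hc : k = i ∧ (b = u ∨ b = S.a i u)
        · obtain ⟨rfl, rfl | rfl⟩ := hc
          · exact hau
          · rw [S.inv]; exact huD
        · have := ih
          simp only [hD, Finset.mem_filter, Finset.mem_univ, true_and] at this ⊢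
          exact this.tail ⟨k, rfl, hc⟩
  have := hall x hx
  simpa [hD] using this

/-- Rewiring two orbits. -/
lemma merge [Fintype U] (S : Sys n U ε Key κ) (hu1 : ∀ u, ε u = 1 ∨ ε u = -1)
    (i : Fin (n + 2)) (u u' : U) (hk : κ i u = κ i u') (hne : ¬Reach S.a u u')
    (hsame : ε u = ε u') :
    ∃ S' : Sys n U ε Key κ, ∀ x, (Reach S.a u x ∨ Reach S.a u' x) → Reach S'.a u x := by
  classical
  have hεne : ∀ x y, ε x = ε y → x ≠ S.a i y := by
    intro x y hxy h
    have h1 := S.flip i y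
    rw [← h] at h1
    rcases hu1 x with h2 | h2 <;> rw [h2] at h1 hxy <;> rw [← hxy] at h1 <;> norm_num at h1
  set v := S.a i u with hv
  set v' := S.a i u' with hv'
  have huu' : u ≠ u' := fun h => hne (h ▸ Relation.ReflTransGen.refl)
  have huv : u ≠ v := hεne u u rfl
  have huv' : u ≠ v' := hεne u u' hsame
  have hu'v : u' ≠ v := hεne u' u hsame.symm
  have hu'v' : u' ≠ v' := hεne u' u' rfl
  have hvv' : v ≠ v' := by
    intro h
    apply huu'
    rw [← S.inv i u, ← S.inv i u']
    exact congrArg (S.a i) h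
  have hav : S.a i v = u := S.inv i u
  have hav' : S.a i v' = u' := S.inv i u'
  -- the new involution
  let b : U → U := fun x =>
    if x = u then v' else if x = v' then u else if x = u' then v else if x = v then u'
    else S.a i x
  have hbu : b u = v' := by simp [b]
  have hbv' : b v' = u := by simp only [b, if_neg huv'.symm, if_true]
  have hbu' : b u' = v := by simp only [b, if_neg huu'.symm, if_neg hu'v', if_true]
  have hbv : b v = u' := by simp only [b, if_neg huv.symm, if_neg hvv', if_neg hu'v.symm, if_true]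
  have hbx : ∀ x, x ≠ u → x ≠ v → x ≠ u' → x ≠ v' → b x = S.a i x := by
    intro x h1 h2 h3 h4
    simp only [b, if_neg h1, if_neg h2, if_neg h3, if_neg h4]
  have hinj : ∀ x y, S.a i x = y → x = S.a i y := fun x y h => by rw [← h, S.inv]
  have hcases : ∀ x, x = u ∨ x = v ∨ x = u' ∨ x = v' ∨ (x ≠ u ∧ x ≠ v ∧ x ≠ u' ∧ x ≠ v') := by
    intro x; tauto
  have hbinv : ∀ x, b (b x) = x := by
    intro x
    rcases hcases x with rfl | rfl | rfl | rfl | ⟨h1, h2, h3, h4⟩
    · rw [hbu, hbv']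
    · rw [hbv, hbu']
    · rw [hbu', hbv]
    · rw [hbv', hbu]
    · rw [hbx x h1 h2 h3 h4, hbx _ ?_ ?_ ?_ ?_, S.inv]
      · intro h; exact h2 (hinj _ _ h)
      · intro h; exact h1 ((hinj _ _ h).trans hav)
      · intro h; exact h4 (hinj _ _ h)
      · intro h; exact h3 ((hinj _ _ h).trans hav')
  have hbε : ∀ x, ε (b x) = -ε x := by
    intro x
    rcases hcases x with rfl | rfl | rfl | rfl | ⟨h1, h2, h3, h4⟩
    · rw [hbu, hv', S.flip, hsame]
    · rw [hbv, hv, S.flip, ← hsame, neg_neg]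
    · rw [hbu', hv, S.flip, hsame]
    · rw [hbv', hv', S.flip, ← hsame, neg_neg]
    · rw [hbx x h1 h2 h3 h4, S.flip]
  have hbκ : ∀ x, κ i (b x) = κ i x := by
    intro x
    rcases hcases x with rfl | rfl | rfl | rfl | ⟨h1, h2, h3, h4⟩
    · rw [hbu, hv', S.key, hk]
    · rw [hbv, hv, S.key, hk]
    · rw [hbu', hv, S.key, hk]
    · rw [hbv', hv', S.key, hk]
    · rw [hbx x h1 h2 h3 h4, S.key]
  let S' : Sys n U ε Key κ :=
    { a := fun j => if j = i then b else S.a j
      inv := by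
        intro j x
        by_cases h : j = i
        · simp only [h, if_true]; exact hbinv x
        · simp only [h, if_false]; exact S.inv j x
      flip := by
        intro j x
        by_cases h : j = i
        · simp only [h, if_true]; exact hbε x
        · simp only [h, if_false]; exact S.flip j x
      key := by
        intro j x
        by_cases h : j = i
        · subst h; simp only [if_true]; exact hbκ x
        · simp only [h, if_false]; exact S.key j x }
  have hS'i : S'.a i = b := by simp [S']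
  have hS'j : ∀ j, j ≠ i → S'.a j = S.a j := by intro j hj; simp [S', hj]
  have key1 : ∀ x, Reach S.a u x → Reach S'.a u x := by
    intro x hx
    have h1 := reach_cut S hu1 i u hx
    have h2 : Reach S'.a u x ∧ Reach S.a u x := by
      clear hx
      induction h1 with
      | refl => exact ⟨Relation.ReflTransGen.refl, Relation.ReflTransGen.refl⟩
      | tail _ hstep ih =>
          rename_i y z _
          obtain ⟨j, rfl, hj⟩ := hstep
          refine ⟨ih.1.trans' ?_, ih.2.trans' (Reach.step _ _ _)⟩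
          by_cases hji : j = i
          · subst hji
            have hy1 : y ≠ u := fun h => hj ⟨rfl, Or.inl h⟩
            have hy2 : y ≠ v := fun h => hj ⟨rfl, Or.inr h⟩
            have hy3 : y ≠ u' := fun h => hne (h ▸ ih.2)
            have hy4 : y ≠ v' := by
              intro h
              apply hne
              have h5 : Reach S.a u v' := h ▸ ih.2
              have h6 := Reach.step S.a j v'
              rw [hav'] at h6
              exact h5.trans' h6
            have := Reach.step S'.a j y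
            rwa [hS'i, hbx y hy1 hy2 hy3 hy4] at this
          · have := Reach.step S'.a j y
            rwa [hS'j j hji] at this
    exact h2.1
  have hne' : ¬Reach S.a u' u := fun h => hne (h.symm' S.inv)
  have key2 : ∀ x, Reach S.a u' x → Reach S'.a u' x := by
    intro x hx
    have h1 := reach_cut S hu1 i u' hx
    have h2 : Reach S'.a u' x ∧ Reach S.a u' x := by
      clear hx
      induction h1 with
      | refl => exact ⟨Relation.ReflTransGen.refl, Relation.ReflTransGen.refl⟩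
      | tail _ hstep ih =>
          rename_i y z _
          obtain ⟨j, rfl, hj⟩ := hstep
          refine ⟨ih.1.trans' ?_, ih.2.trans' (Reach.step _ _ _)⟩
          by_cases hji : j = i
          · subst hji
            have hy3 : y ≠ u' := fun h => hj ⟨rfl, Or.inl h⟩
            have hy4 : y ≠ v' := fun h => hj ⟨rfl, Or.inr h⟩
            have hy1 : y ≠ u := fun h => hne' (h ▸ ih.2)
            have hy2 : y ≠ v := by
              intro h
              apply hne'
              have h5 : Reach S.a u' v := h ▸ ih.2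
              have h6 := Reach.step S.a j v
              rw [hav] at h6
              exact h5.trans' h6
            have := Reach.step S'.a j y
            rwa [hS'i, hbx y hy1 hy2 hy3 hy4] at this
          · have := Reach.step S'.a j y
            rwa [hS'j j hji] at this
    exact h2.1
  have h3 : Reach S'.a u v' := by
    have := Reach.step S'.a i u
    rwa [hS'i, hbu] at this
  have h4 : Reach S'.a u' v' := key2 v' (Reach.step S.a i u')
  have h5 : Reach S'.a u u' := h3.trans' (h4.symm' S'.inv)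
  refine ⟨S', fun x hx => ?_⟩
  rcases hx with hx | hx
  · exact key1 x hx
  · exact h5.trans' (key2 x hx)

lemma exists_conn [Fintype U] (S : Sys n U ε Key κ) (hu1 : ∀ u, ε u = 1 ∨ ε u = -1) (u₀ : U)
    (hconn : ∀ O : Set U, u₀ ∈ O → (∀ i u u', u ∈ O → κ i u = κ i u' → u' ∈ O) → O = Set.univ) :
    ∃ S' : Sys n U ε Key κ, ∀ x, Reach S'.a u₀ x := by
  classical
  have key : ∀ m : ℕ, ∀ S : Sys n U ε Key κ, Fintype.card U - {x | Reach S.a u₀ x}.ncard ≤ m →
      ∃ S' : Sys n U ε Key κ, ∀ x, Reach S'.a u₀ x := by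
    intro m
    induction m with
    | zero =>
        intro S hS
        have h1 : {x | Reach S.a u₀ x} = Set.univ := by
          apply Set.eq_of_subset_of_ncard_le (Set.subset_univ _) _ Set.finite_univ
          rw [Set.ncard_univ, Nat.card_eq_fintype_card]
          omega
        refine ⟨S, fun x => ?_⟩
        have : x ∈ {x | Reach S.a u₀ x} := h1 ▸ Set.mem_univ x
        exact this
    | succ m ih =>
        intro S hS
        by_cases hall : ∀ x, Reach S.a u₀ x
        · exact ⟨S, hall⟩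
        · have hex : ∃ i u u', Reach S.a u₀ u ∧ κ i u = κ i u' ∧ ¬Reach S.a u₀ u' := by
            by_contra hcon
            push Not at hcon
            apply hall
            have h1 := hconn {x | Reach S.a u₀ x} Relation.ReflTransGen.refl
              (fun i u u' hu hk => hcon i u u' hu hk)
            intro x
            have : x ∈ {x | Reach S.a u₀ x} := h1 ▸ Set.mem_univ x
            exact this
          obtain ⟨i, u, u', hu, hk, hu'⟩ := hex
          -- make the signs equal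
          obtain ⟨u'', hk'', hu'', hs⟩ : ∃ u'', κ i u = κ i u'' ∧ ¬Reach S.a u₀ u'' ∧
              ε u = ε u'' := by
            by_cases hs : ε u = ε u'
            · exact ⟨u', hk, hu', hs⟩
            · refine ⟨S.a i u', ?_, ?_, ?_⟩
              · rw [S.key, hk]
              · intro h
                apply hu'
                have := h.trans' (Reach.step S.a i (S.a i u'))
                rwa [S.inv] at this
              · rw [S.flip]
                rcases hu1 u with h1 | h1 <;> rcases hu1 u' with h2 | h2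
                · exact absurd (h1.trans h2.symm) hs
                · rw [h1, h2]; norm_num
                · rw [h1, h2]
                · exact absurd (h1.trans h2.symm) hs
          have hne : ¬Reach S.a u u'' := fun h => hu'' (hu.trans' h)
          obtain ⟨S', hS'⟩ := merge S hu1 i u u'' hk'' hne hs
          have hu0 : Reach S'.a u u₀ := hS' u₀ (Or.inl (hu.symm' S.inv))
          apply ih S'
          have hsub : insert u'' {x | Reach S.a u₀ x} ⊆ {x | Reach S'.a u₀ x} := by
            intro x hx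
            rcases hx with rfl | hx
            · exact (hu0.symm' S'.inv).trans' (hS' _ (Or.inr Relation.ReflTransGen.refl))
            · exact (hu0.symm' S'.inv).trans' (hS' x (Or.inl ((hu.symm' S.inv).trans' hx)))
          have hcard : {x | Reach S.a u₀ x}.ncard + 1 ≤ {x | Reach S'.a u₀ x}.ncard := by
            rw [← Set.ncard_insert_of_notMem (s := {x | Reach S.a u₀ x}) hu'' (Set.toFinite _)]
            exact Set.ncard_le_ncard hsub (Set.toFinite _)
          omega
  exact key _ S le_rfl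

end

/-- A word reaching a reachable element. -/
lemma act_of_reach {n : ℕ} {U : Type} (C : Colored n U) {x y : U} (h : Reach C.a x y) :
    ∃ w, C.act w x = y := by
  unfold Reach at h
  induction h with
  | refl => exact ⟨[], rfl⟩
  | tail _ hstep ih =>
      obtain ⟨j, rfl⟩ := hstep
      obtain ⟨w, rfl⟩ := ih
      exact ⟨j :: w, rfl⟩

/-- A key-preserving bijection between two finite types with equinumerous fibres. -/
lemma exists_equiv {P M K : Type} [Fintype P] [Fintype M] (f : P → K) (g : M → K)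
    (h : ∀ k, Nat.card {p // f p = k} = Nat.card {m // g m = k}) :
    ∃ e : P ≃ M, ∀ p, g (e p) = f p := by
  classical
  have h1 : ∀ k, Nonempty ({p // f p = k} ≃ {m // g m = k}) := by
    intro k
    exact Finite.card_eq.mp (h k)
  choose e he using fun k => (⟨(h1 k).some, trivial⟩ :
    ∃ _e : {p // f p = k} ≃ {m // g m = k}, True)
  refine ⟨(Equiv.sigmaFiberEquiv f).symm.trans
    ((Equiv.sigmaCongrRight e).trans (Equiv.sigmaFiberEquiv g)), fun p => ?_⟩
  have := (e (f p) ⟨p, rfl⟩).2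
  simpa [Equiv.sigmaFiberEquiv] using this

end MPb00168.MATCH

namespace MPb00168

open Finset MATCH

theorem specMatch : SpecMatch := by
  classical
  intro n Typ _ _ Key κ Np Nm hpos hbal hconn
  set U : Type := Σ t, Fin (Np t) ⊕ Fin (Nm t) with hU
  let ε : U → ℤ := fun u => Sum.elim (fun _ => 1) (fun _ => -1) u.2
  have hε1 : ∀ u, ε u = 1 ∨ ε u = -1 := by
    rintro ⟨t, j | j⟩
    · left; rfl
    · right; rfl
  let κU : ∀ i, U → Key i := fun i u => κ i u.1
  -- the initial involutions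
  have hinit : ∀ i, ∃ f : U → U, (∀ u, f (f u) = u) ∧ (∀ u, ε (f u) = -ε u) ∧
      (∀ u, κU i (f u) = κU i u) := by
    intro i
    have hcardP : ∀ k, Nat.card {p : Σ t, Fin (Np t) // κ i p.1 = k} =
        ∑ t with κ i t = k, Np t := by
      intro k
      rw [Nat.card_eq_fintype_card, Fintype.card_subtype]
      rw [Finset.card_eq_sum_card_fiberwise (f := fun p : Σ t, Fin (Np t) => p.1)
        (t := Finset.univ.filter fun t => κ i t = k)]
      · refine Finset.sum_congr rfl fun t ht => ?_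
        rw [Finset.mem_filter] at ht
        have : (Finset.filter (fun p : Σ t, Fin (Np t) => p.1 = t)
            (Finset.filter (fun p : Σ t, Fin (Np t) => κ i p.1 = k) Finset.univ)) =
            Finset.univ.map ⟨fun j : Fin (Np t) => (⟨t, j⟩ : Σ t, Fin (Np t)),
              fun a b h => by simpa using h⟩ := by
          ext ⟨t', j⟩
          simp only [Finset.mem_filter, Finset.mem_univ, true_and, Finset.mem_map,
            Function.Embedding.coeFn_mk]
          constructor
          · rintro ⟨_, rfl⟩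
            exact ⟨j, rfl⟩
          · rintro ⟨a, ha⟩
            cases ha
            exact ⟨ht.2, rfl⟩
        rw [this, Finset.card_map, Finset.card_univ, Fintype.card_fin]
      · intro p hp
        simpa using hp
    have hcardM : ∀ k, Nat.card {p : Σ t, Fin (Nm t) // κ i p.1 = k} =
        ∑ t with κ i t = k, Nm t := by
      intro k
      rw [Nat.card_eq_fintype_card, Fintype.card_subtype]
      rw [Finset.card_eq_sum_card_fiberwise (f := fun p : Σ t, Fin (Nm t) => p.1)
        (t := Finset.univ.filter fun t => κ i t = k)]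
      · refine Finset.sum_congr rfl fun t ht => ?_
        rw [Finset.mem_filter] at ht
        have : (Finset.filter (fun p : Σ t, Fin (Nm t) => p.1 = t)
            (Finset.filter (fun p : Σ t, Fin (Nm t) => κ i p.1 = k) Finset.univ)) =
            Finset.univ.map ⟨fun j : Fin (Nm t) => (⟨t, j⟩ : Σ t, Fin (Nm t)),
              fun a b h => by simpa using h⟩ := by
          ext ⟨t', j⟩
          simp only [Finset.mem_filter, Finset.mem_univ, true_and, Finset.mem_map,
            Function.Embedding.coeFn_mk]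
          constructor
          · rintro ⟨_, rfl⟩
            exact ⟨j, rfl⟩
          · rintro ⟨a, ha⟩
            cases ha
            exact ⟨ht.2, rfl⟩
        rw [this, Finset.card_map, Finset.card_univ, Fintype.card_fin]
      · intro p hp
        simpa using hp
    obtain ⟨e, he⟩ := exists_equiv (fun p : Σ t, Fin (Np t) => κ i p.1)
      (fun p : Σ t, Fin (Nm t) => κ i p.1) (fun k => by
        rw [hcardP, hcardM]
        exact hbal i k)
    let f : U → U := fun u => match u with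
      | ⟨t, Sum.inl j⟩ => ⟨(e ⟨t, j⟩).1, Sum.inr (e ⟨t, j⟩).2⟩
      | ⟨t, Sum.inr j⟩ => ⟨(e.symm ⟨t, j⟩).1, Sum.inl (e.symm ⟨t, j⟩).2⟩
    have hA : ∀ x : Σ t, Fin (Np t), f ⟨x.1, Sum.inl x.2⟩ = ⟨(e x).1, Sum.inr (e x).2⟩ :=
      fun ⟨t, j⟩ => rfl
    have hB : ∀ y : Σ t, Fin (Nm t),
        f ⟨y.1, Sum.inr y.2⟩ = ⟨(e.symm y).1, Sum.inl (e.symm y).2⟩ :=
      fun ⟨t, j⟩ => rfl
    refine ⟨f, ?_, ?_, ?_⟩
    · rintro ⟨t, j | j⟩
      · have h1 := hA ⟨t, j⟩
        have h2 := hB (e ⟨t, j⟩)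
        rw [e.symm_apply_apply] at h2
        exact (congrArg f h1).trans h2
      · have h1 := hB ⟨t, j⟩
        have h2 := hA (e.symm ⟨t, j⟩)
        rw [e.apply_symm_apply] at h2
        exact (congrArg f h1).trans h2
    · rintro ⟨t, j | j⟩
      · rfl
      · change (1 : ℤ) = -(-1)
        norm_num
    · rintro ⟨t, j | j⟩
      · exact he ⟨t, j⟩
      · have := he (e.symm ⟨t, j⟩)
        rw [Equiv.apply_symm_apply] at this
        exact this.symm
  choose f hf1 hf2 hf3 using hinit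
  let S : Sys n U ε Key κU := ⟨f, hf1, hf2, hf3⟩
  obtain ⟨t₀⟩ := (inferInstance : Nonempty Typ)
  let u₀ : U := ⟨t₀, Sum.inl ⟨0, (hpos t₀).1⟩⟩
  have : Fintype U := inferInstanceAs (Fintype (Σ t, Fin (Np t) ⊕ Fin (Nm t)))
  obtain ⟨S', hS'⟩ := exists_conn S hε1 u₀ (by
    intro O hO hcl
    have h1 : ∀ t, ∀ u : U, u.1 = t → u ∈ O := by
      intro t
      induction hconn t₀ t with
      | refl =>
          intro u hu
          exact hcl 0 u₀ u hO (by simp only [κU]; rw [hu])
      | tail _ hstep ih =>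
          rename_i b c _
          obtain ⟨i, hi⟩ := hstep
          intro u hu
          exact hcl i ⟨b, Sum.inl ⟨0, (hpos b).1⟩⟩ u (ih _ rfl) (by simp only [κU]; rw [hu, hi])
    exact Set.eq_univ_of_forall fun u => h1 u.1 u rfl)
  let C : Colored n U := ⟨S'.a, S'.inv, ε, hε1, S'.flip⟩
  refine ⟨C, ?_, ?_, ?_, ?_⟩
  · intro x y
    exact act_of_reach C (((hS' x).symm' S'.inv).trans' (hS' y))
  · intro i u
    exact S'.key i u
  · intro t j
    rfl
  · intro t j
    rfl

end MPb00168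
end

section
set_option autoImplicit false

/-!
# MP_b00168_gt, module EMB: general position embedding of the realisation of a poset
-/

namespace MPb00168

namespace Emb

open Finset

/-- Distinct parameters on the moment curve. -/
noncomputable def tt {P : Type} [Fintype P] (p : P) : ℝ := ((Fintype.equivFin P p : ℕ) : ℝ)

lemma tt_inj {P : Type} [Fintype P] : Function.Injective (tt : P → ℝ) := by
  intro p q h
  unfold tt at h
  have h2 : (Fintype.equivFin P p : ℕ) = (Fintype.equivFin P q : ℕ) := by exact_mod_cast h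
  exact (Fintype.equivFin P).injective (Fin.ext h2)

/-- The moment curve embedding. -/
noncomputable def LL (P : Type) [Fintype P] (N : ℕ) : (P → ℝ) →ₗ[ℝ] (Fin N → ℝ) :=
  LinearMap.pi fun i => ∑ p, (tt p ^ (i : ℕ)) • LinearMap.proj p

lemma LL_apply {P : Type} [Fintype P] {N : ℕ} (y : P → ℝ) (i : Fin N) :
    LL P N y i = ∑ p, tt p ^ (i : ℕ) * y p := by
  simp [LL]

/-- The restriction to the functions supported in `T`. -/
noncomputable def LT {P : Type} [Fintype P] (T : Finset P) (N : ℕ) :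
    (T → ℝ) →ₗ[ℝ] (Fin N → ℝ) :=
  LinearMap.pi fun i => ∑ p : T, (tt (p : P) ^ (i : ℕ)) • LinearMap.proj p

lemma LT_apply {P : Type} [Fintype P] {T : Finset P} {N : ℕ} (y : T → ℝ) (i : Fin N) :
    LT T N y i = ∑ p : T, tt (p : P) ^ (i : ℕ) * y p := by
  simp [LT]

lemma LT_ker {P : Type} [Fintype P] (T : Finset P) {N : ℕ} (hT : T.card ≤ N) :
    LinearMap.ker (LT T N) = ⊥ := by
  rw [LinearMap.ker_eq_bot']
  intro y hy
  have h1 : (fun j : Fin (Fintype.card T) => y ((Fintype.equivFin T).symm j)) = 0 := by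
    refine Matrix.eq_zero_of_forall_pow_sum_mul_pow_eq_zero
      (f := fun j : Fin (Fintype.card T) => tt (((Fintype.equivFin T).symm j : T) : P)) ?_ ?_
    · intro a b hab
      have := tt_inj hab
      exact (Fintype.equivFin T).symm.injective (Subtype.ext this)
    · intro i
      have hi : (i : ℕ) < N := lt_of_lt_of_le i.2 (by simpa using hT)
      have h2 := congrFun hy ⟨(i : ℕ), hi⟩
      rw [LT_apply] at h2
      rw [← Equiv.sum_comp (Fintype.equivFin T).symm] at h2
      simp only [Pi.zero_apply] at h2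
      rw [← h2]
      exact Finset.sum_congr rfl fun j _ => mul_comm _ _
  funext p
  have := congrFun h1 (Fintype.equivFin T p)
  simpa using this

lemma key {P : Type} [Fintype P] (T : Finset P) {N : ℕ} (hT : T.card ≤ N) :
    ∃ K : ℝ, 0 ≤ K ∧ ∀ z : P → ℝ, (∀ p ∉ T, z p = 0) → ∀ r : ℝ, 0 ≤ r →
      (∀ i, |LL P N z i| ≤ r) → ∀ p, |z p| ≤ K * r := by
  classical
  obtain ⟨K, hK, hanti⟩ := (LT T N).exists_antilipschitzWith (LT_ker T hT)
  refine ⟨K, K.2, ?_⟩
  intro z hz r hr hi p
  by_cases hp : p ∈ T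
  · have h1 : ‖(fun q : T => z q)‖ ≤ K * ‖LT T N (fun q : T => z q)‖ := by
      have h0 := hanti.le_mul_norm (map_zero _) (fun q : T => z q)
      exact h0
    have h2 : ‖LT T N (fun q : T => z q)‖ ≤ r := by
      rw [pi_norm_le_iff_of_nonneg hr]
      intro i
      have h3 : LT T N (fun q : T => z q) i = LL P N z i := by
        rw [LT_apply, LL_apply]
        rw [Finset.sum_coe_sort T (fun q => tt q ^ (i : ℕ) * z q)]
        refine Finset.sum_subset (Finset.subset_univ _) ?_
        intro q _ hq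
        rw [hz q hq, mul_zero]
      rw [h3, Real.norm_eq_abs]
      exact hi i
    have h4 : |z p| ≤ ‖(fun q : T => z q)‖ := by
      have := norm_le_pi_norm (fun q : T => z q) ⟨p, hp⟩
      simpa using this
    calc |z p| ≤ K * ‖LT T N (fun q : T => z q)‖ := h4.trans h1
      _ ≤ K * r := by gcongr
  · rw [hz p hp, abs_zero]
    positivity

end Emb

theorem specEmb : SpecEmb := by
  classical
  intro n N hN P _ _ hP
  refine ⟨Emb.LL P N, ?_⟩
  intro ε hε
  choose! K hK0 hK using fun (T : Finset P) (hT : T.card ≤ N) => Emb.key T hT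
  set C : ℝ := ∑ T ∈ (Finset.univ : Finset (Finset P)).filter (fun T => T.card ≤ N), K T with hC
  have hC0 : 0 ≤ C := Finset.sum_nonneg fun T hT => hK0 T (Finset.mem_filter.mp hT).2
  have hC1 : ∀ T : Finset P, T.card ≤ N → K T ≤ C := by
    intro T hT
    exact Finset.single_le_sum (f := K) (fun T hT => hK0 T (Finset.mem_filter.mp hT).2)
      (Finset.mem_filter.mpr ⟨Finset.mem_univ _, hT⟩)
  refine ⟨ε / (C + 1) / 2, by positivity, ?_⟩
  intro y hy y' hy' h p
  set T : Finset P := (Finset.univ.filter fun p => y p ≠ 0) ∪ (Finset.univ.filter fun p => y' p ≠ 0)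
    with hTdef
  have hT : T.card ≤ N := by
    have h1 : (Finset.univ.filter fun p => y p ≠ 0).card ≤ n + 2 := by
      apply hP
      have := hy.2.2
      simpa using this
    have h2 : (Finset.univ.filter fun p => y' p ≠ 0).card ≤ n + 2 := by
      apply hP
      have := hy'.2.2
      simpa using this
    refine (Finset.card_union_le _ _).trans ?_
    exact (Nat.add_le_add h1 h2).trans (by omega)
  have h3 := hK T hT (y - y') (by
    intro q hq
    simp only [hTdef, Finset.mem_union, Finset.mem_filter, Finset.mem_univ, true_and,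
      not_or, not_not] at hq
    simp [hq.1, hq.2]) (ε / (C + 1) / 2) (by positivity) (by
    intro i
    rw [map_sub, Pi.sub_apply]
    exact h i) p
  rw [Pi.sub_apply] at h3
  have h4 : K T * (ε / (C + 1) / 2) ≤ C * (ε / (C + 1) / 2) := by
    have := hC1 T hT
    gcongr
  have h5 : C * (ε / (C + 1) / 2) < ε := by
    rw [div_div, mul_div_assoc', div_lt_iff₀ (by positivity)]
    nlinarith
  linarith

end MPb00168
end

section
set_option autoImplicit false

/-!
# MP_b00168_gt, module PACK: bounded lattice cycles representing a cycle of the realisation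
-/

namespace MPb00168

namespace Pack

open Finset Relation

section Simplices

variable {P : Type} [Fintype P]

/-- The closed simplex spanned by `t`. -/
def KK (t : Set P) : Set (P → ℝ) :=
  {z | (∀ p, 0 ≤ z p) ∧ ∑ p, z p = 1 ∧ ∀ p ∉ t, z p = 0}

lemma KK_convex (t : Set P) : Convex ℝ (KK t) := by
  intro x hx y hy a b ha hb hab
  refine ⟨fun p => ?_, ?_, fun p hp => ?_⟩
  · have h1 := hx.1 p
    have h2 := hy.1 p
    simp only [Pi.add_apply, Pi.smul_apply, smul_eq_mul]
    positivity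
  · simp only [Pi.add_apply, Pi.smul_apply, smul_eq_mul]
    rw [Finset.sum_add_distrib, ← Finset.mul_sum, ← Finset.mul_sum, hx.2.1, hy.2.1, mul_one, mul_one,
      hab]
  · simp [hx.2.2 p hp, hy.2.2 p hp]

lemma KK_subset [PartialOrder P] {t : Set P} (ht : IsChain (· ≤ ·) t) : KK t ⊆ RP P := by
  intro z hz
  refine ⟨hz.1, hz.2.1, ht.mono ?_⟩
  intro p hp
  by_contra hcon
  exact hp (hz.2.2 p hcon)

lemma mem_KK [PartialOrder P] {z : P → ℝ} (hz : z ∈ RP P) : z ∈ KK {p | z p ≠ 0} :=
  ⟨hz.1, hz.2.1, fun p hp => by simpa using hp⟩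

lemma vert_mem {t : Set P} {p : P} (hp : p ∈ t) : vert p ∈ KK t := by
  classical
  refine ⟨fun q => ?_, ?_, fun q hq => ?_⟩
  · unfold vert
    by_cases h : q = p
    · subst h; simp
    · simp [h]
  · unfold vert
    simp [Pi.single_apply]
  · unfold vert
    have : q ≠ p := fun h => hq (h ▸ hp)
    simp [this]

omit [Fintype P] in
lemma aff_range {k : ℕ} (x : Tup (P → ℝ) k) {s : Set (P → ℝ)} (hs : Convex ℝ s)
    (hx : ∀ a, x a ∈ s) : Set.range (aff x) ⊆ s := by
  rintro _ ⟨t, rfl⟩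
  exact hs.sum_mem (fun j _ => t.2.1 j) t.2.2 (fun j _ => hx j)

variable [PartialOrder P]

/-- Tuple chains all of whose tuples lie in closed simplices of the realisation. -/
def Good {k : ℕ} (c : Tup (P → ℝ) k →₀ ℤ) : Prop :=
  ∀ y ∈ c.support, ∃ t : Set P, IsChain (· ≤ ·) t ∧ ∀ a, y a ∈ KK t

omit [Fintype P] [PartialOrder P] in
lemma affS_support {k : ℕ} (c : Tup (P → ℝ) k →₀ ℤ) {σ : Sing (P → ℝ) k}
    (hσ : σ ∈ (affS c).support) : ∃ y ∈ c.support, aff y = σ := by
  classical
  have h1 : σ ∈ (Finsupp.mapDomain aff c).support := hσ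
  have h2 := Finsupp.mapDomain_support h1
  rw [Finset.mem_image] at h2
  exact h2

lemma mapT_support {E E' : Type} (f : E → E') {k : ℕ} (c : Tup E k →₀ ℤ) {y : Tup E' k}
    (hy : y ∈ (mapT f c).support) : ∃ x ∈ c.support, f ∘ x = y := by
  classical
  have h1 : y ∈ (Finsupp.mapDomain (fun x : Tup E k => f ∘ x) c).support := hy
  have h2 := Finsupp.mapDomain_support h1
  rw [Finset.mem_image] at h2
  exact h2

lemma Good.suppIn {k : ℕ} {c : Tup (P → ℝ) k →₀ ℤ} (h : Good c) : SuppIn (RP P) (affS c) := by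
  intro σ hσ
  obtain ⟨y, hy, rfl⟩ := affS_support c hσ
  obtain ⟨t, ht, hyt⟩ := h y hy
  exact (aff_range y (KK_convex t) hyt).trans (KK_subset ht)

lemma suppIn_add {E : Type} [TopologicalSpace E] {Y : Set E} {k : ℕ} {c d : Chain E k}
    (hc : SuppIn Y c) (hd : SuppIn Y d) : SuppIn Y (c + d) := by
  classical
  intro σ hσ
  rcases Finset.mem_union.mp (Finsupp.support_add hσ) with h | h
  · exact hc σ h
  · exact hd σ h

lemma suppIn_neg {E : Type} [TopologicalSpace E] {Y : Set E} {k : ℕ} {c : Chain E k}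
    (hc : SuppIn Y c) : SuppIn Y (-c) := by
  intro σ hσ
  rw [Finsupp.support_neg] at hσ
  exact hc σ hσ

/-- Iterated barycentric subdivision does not change the class. -/
lemma iter_homot (hMap : SpecSdMap) (hHom : SpecSdHom) {n : ℕ} (c : Tup (P → ℝ) (n + 1) →₀ ℤ)
    (hc : bdT c = 0) (hg : Good c) (m : ℕ) :
    bdT ((⇑(Sd (bary (E := P → ℝ)) (n := n + 1)))^[m] c) = 0 ∧
    Good ((⇑(Sd (bary (E := P → ℝ)) (n := n + 1)))^[m] c) ∧
    ∃ b : Chain (P → ℝ) (n + 2), SuppIn (RP P) b ∧
      bd b = affS ((⇑(Sd (bary (E := P → ℝ)) (n := n + 1)))^[m] c) - affS c := by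
  induction m with
  | zero =>
      refine ⟨hc, hg, 0, fun σ hσ => by simp at hσ, by simp⟩
  | succ m ih =>
      obtain ⟨h1, h2, b, hb1, hb2⟩ := ih
      rw [Function.iterate_succ_apply']
      set c' := (⇑(Sd (bary (E := P → ℝ)) (n := n + 1)))^[m] c with hc'
      refine ⟨by rw [hMap, h1, map_zero], ?_, ?_⟩
      · intro y hy
        obtain ⟨x, hx, F, rfl⟩ := Mass.mem_support_Sd _ _ hy
        obtain ⟨t, ht, hxt⟩ := h2 x hx
        exact ⟨t, ht, fun a => Mass.lab_mem F x (KK_convex t) hxt a⟩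
      · obtain ⟨b', hb', hsup⟩ := hHom _ _ (bary (E := P → ℝ)) id n c' h1
        refine ⟨affS b' + b, suppIn_add ?_ hb1, ?_⟩
        · refine Good.suppIn ?_
          intro y hy
          obtain ⟨x, hx, hy'⟩ := hsup y hy
          obtain ⟨t, ht, hxt⟩ := h2 x hx
          refine ⟨t, ht, fun a => ?_⟩
          rcases hy' a with ⟨i, hi⟩ | ⟨k, θ, -, hk⟩
          · rw [hi]; exact hxt i
          · rw [hk]; exact Mass.bary_mem _ (KK_convex t) (fun j => hxt _)
        · rw [map_add, ← affS_bdT, hb', mapT_id, map_sub, hb2]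
          abel

end Simplices

section Lattice

/-- Order convex subsets of the lattice are connected by unit steps. -/
lemma box_conn {N : ℕ} (B : Set (Fin N → ℤ))
    (hB : ∀ x ∈ B, ∀ y ∈ B, ∀ z : Fin N → ℤ,
      (∀ i, (x i ≤ z i ∧ z i ≤ y i) ∨ (y i ≤ z i ∧ z i ≤ x i)) → z ∈ B) :
    ∀ k : ℕ, ∀ x ∈ B, ∀ y ∈ B, (∀ i, |x i - y i| ≤ k) →
      ReflTransGen (fun a b => a ∈ B ∧ b ∈ B ∧ ∀ i, |a i - b i| ≤ 1) x y := by
  intro k
  induction k with
  | zero =>
      intro x _ y _ h
      have : x = y := by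
        funext i
        have := h i
        simp only [Nat.cast_zero, abs_nonpos_iff] at this
        omega
      rw [this]
  | succ k ih =>
      intro x hx y hy h
      set z : Fin N → ℤ := fun i => if x i < y i then x i + 1 else
        if y i < x i then x i - 1 else x i with hz
      have hzB : z ∈ B := by
        refine hB x hx y hy z fun i => ?_
        simp only [hz]
        split_ifs <;> omega
      have h1 : ∀ i, |x i - z i| ≤ 1 := by
        intro i
        simp only [hz]
        rw [abs_le]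
        split_ifs <;> omega
      have h2 : ∀ i, |z i - y i| ≤ k := by
        intro i
        have h3 := h i
        rw [abs_le] at h3 ⊢
        simp only [hz]
        push_cast at h3
        split_ifs <;> omega
      exact ReflTransGen.head ⟨hx, hzB, h1⟩ (ih z hzB y hy h2)

lemma floor_diff {u v : ℝ} (h : |u - v| ≤ 1) : |⌊u⌋ - ⌊v⌋| ≤ 1 := by
  rw [abs_le] at h ⊢
  have h1 := Int.floor_le u
  have h2 := Int.lt_floor_add_one u
  have h3 := Int.floor_le v
  have h4 := Int.lt_floor_add_one v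
  constructor
  · have : (⌊v⌋ : ℝ) < ⌊u⌋ + 2 := by linarith
    have : ⌊v⌋ < ⌊u⌋ + 2 := by exact_mod_cast this
    omega
  · have : (⌊u⌋ : ℝ) < ⌊v⌋ + 2 := by linarith
    have : ⌊u⌋ < ⌊v⌋ + 2 := by exact_mod_cast this
    omega

end Lattice

section RPfacts

variable {P : Type} [Fintype P] [PartialOrder P]

lemma exists_large {n : ℕ} (hP : ∀ t : Finset P, IsChain (· ≤ ·) (t : Set P) → t.card ≤ n + 2)
    {y : P → ℝ} (hy : y ∈ RP P) : ∃ p, 1 / ((n : ℝ) + 2) ≤ y p := by
  classical
  by_contra hcon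
  push Not at hcon
  set T : Finset P := Finset.univ.filter fun p => y p ≠ 0 with hT
  have hcard : T.card ≤ n + 2 := by
    apply hP
    have := hy.2.2
    simpa [hT] using this
  have hsum : ∑ p ∈ T, y p = 1 := by
    rw [hT, Finset.sum_filter_ne_zero]
    exact hy.2.1
  have hne : T.Nonempty := by
    rw [Finset.nonempty_iff_ne_empty]
    intro h
    rw [h] at hsum
    simp at hsum
  have h1 : ∑ p ∈ T, y p < ∑ p ∈ T, 1 / ((n : ℝ) + 2) :=
    Finset.sum_lt_sum_of_nonempty hne fun p _ => hcon p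
  rw [hsum, Finset.sum_const, nsmul_eq_mul, mul_one_div, lt_div_iff₀ (by positivity)] at h1
  have h2 : (T.card : ℝ) ≤ n + 2 := by exact_mod_cast hcard
  linarith

omit [PartialOrder P] in
lemma eq_sum_vert (y : P → ℝ) : y = ∑ p, y p • vert p := by
  classical
  funext q
  simp [vert, Finset.sum_apply, Pi.single_apply]

lemma le_one {y : P → ℝ} (hy : y ∈ RP P) (p : P) : y p ≤ 1 := by
  rw [← hy.2.1]
  exact Finset.single_le_sum (f := y) (fun q _ => hy.1 q) (Finset.mem_univ p)

lemma L_bound {N : ℕ} (L : (P → ℝ) →ₗ[ℝ] (Fin N → ℝ)) {y : P → ℝ} (hy : y ∈ RP P) (i : Fin N) :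
    |L y i| ≤ ∑ p, ∑ j, |L (vert p) j| := by
  have h1 : L y i = ∑ p, y p * L (vert p) i := by
    conv_lhs => rw [eq_sum_vert y, map_sum, Finset.sum_apply]
    exact Finset.sum_congr rfl fun p _ => by rw [map_smul, Pi.smul_apply, smul_eq_mul]
  rw [h1]
  refine (Finset.abs_sum_le_sum_abs _ _).trans (Finset.sum_le_sum fun p _ => ?_)
  rw [abs_mul, abs_of_nonneg (hy.1 p)]
  have h2 : |L (vert p) i| ≤ ∑ j, |L (vert p) j| :=
    Finset.single_le_sum (f := fun j => |L (vert p) j|) (fun q _ => abs_nonneg _)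
      (Finset.mem_univ i)
  have h3 := le_one hy p
  have h4 := hy.1 p
  have h5 := abs_nonneg (L (vert p) i)
  nlinarith

end RPfacts

/-- The mass as a natural number. -/
noncomputable def mass0 {α : Type*} (c : α →₀ ℤ) : ℕ := (Mass.mass c).toNat

lemma mass0_cast {α : Type*} (c : α →₀ ℤ) : ((mass0 c : ℕ) : ℤ) = Mass.mass c :=
  Int.toNat_of_nonneg (Mass.mass_nonneg c)

lemma mass_mapT {E E' : Type} (f : E → E') {k : ℕ} (c : Tup E k →₀ ℤ) :
    Mass.mass (mapT f c) ≤ Mass.mass c := by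
  have := Mass.mass_lin (mapT f) 1 (fun x => by rw [mapT_single, Mass.mass_single, abs_one]) c
  simpa using this

section Scale

variable {P : Type} [Fintype P] [PartialOrder P] {N : ℕ}

/-- The lattice point below `m • L y`. -/
noncomputable def lm (L : (P → ℝ) →ₗ[ℝ] (Fin N → ℝ)) (m : ℝ) (y : P → ℝ) : Fin N → ℤ :=
  fun i => ⌊m * L y i⌋

/-- The lattice points close to the dilated image of the realisation. -/
def DD (L : (P → ℝ) →ₗ[ℝ] (Fin N → ℝ)) (m Λ : ℝ) : Set (Fin N → ℤ) :=
  {x | ∃ y ∈ RP P, ∀ i, |(x i : ℝ) - m * L y i| ≤ Λ + 1}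

omit [Fintype P] [PartialOrder P] in
lemma lm_close (L : (P → ℝ) →ₗ[ℝ] (Fin N → ℝ)) (m : ℝ) (y : P → ℝ) (i : Fin N) :
    |(lm L m y i : ℝ) - m * L y i| ≤ 1 := by
  unfold lm
  have h1 := Int.floor_le (m * L y i)
  have h2 := Int.lt_floor_add_one (m * L y i)
  rw [abs_le]
  constructor <;> linarith

lemma lm_mem (L : (P → ℝ) →ₗ[ℝ] (Fin N → ℝ)) (m : ℝ) {Λ : ℝ} (hΛ : 0 ≤ Λ) {y : P → ℝ}
    (hy : y ∈ RP P) : lm L m y ∈ DD L m Λ :=
  ⟨y, hy, fun i => (lm_close L m y i).trans (by linarith)⟩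

lemma DD_finite (L : (P → ℝ) →ₗ[ℝ] (Fin N → ℝ)) {m Λ : ℝ} (hm : 0 ≤ m) : (DD L m Λ).Finite := by
  set C : ℝ := ∑ p : P, ∑ j, |L (vert p) j| with hC
  set R : ℤ := ⌈m * C + Λ + 1⌉ with hR
  refine Set.Finite.subset (Set.Finite.pi' (ι := Fin N) (t := fun _ => Set.Icc (-R) R)
    fun _ => Set.finite_Icc _ _) ?_
  rintro x ⟨y, hy, hx⟩ i
  have h1 := hx i
  have h2 := L_bound L hy i
  have h3 : |m * L y i| ≤ m * C := by
    rw [abs_mul, abs_of_nonneg hm]
    exact mul_le_mul_of_nonneg_left h2 hm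
  have h4 : |(x i : ℝ)| ≤ m * C + Λ + 1 := by
    have := abs_add_le ((x i : ℝ) - m * L y i) (m * L y i)
    rw [sub_add_cancel] at this
    linarith
  have h5 : |(x i : ℝ)| ≤ R := h4.trans (Int.le_ceil _)
  have h6 : |x i| ≤ R := by exact_mod_cast h5
  rw [abs_le] at h6
  exact ⟨h6.1, h6.2⟩

/-- The relation neighbours in `D`. -/
def Nb (D : Set (Fin N → ℤ)) (a b : Fin N → ℤ) : Prop := a ∈ D ∧ b ∈ D ∧ ∀ i, |a i - b i| ≤ 1

lemma Nb_symm (D : Set (Fin N → ℤ)) {a b : Fin N → ℤ} (h : Nb D a b) : Nb D b a := by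
  obtain ⟨h1, h2, h3⟩ := h
  exact ⟨h2, h1, fun i => by rw [abs_sub_comm]; exact h3 i⟩

lemma rt_symm (D : Set (Fin N → ℤ)) {a b : Fin N → ℤ} (h : ReflTransGen (Nb D) a b) :
    ReflTransGen (Nb D) b a := by
  induction h with
  | refl => exact ReflTransGen.refl
  | tail _ h2 ih => exact ReflTransGen.head (Nb_symm D h2) ih

lemma toFloor (L : (P → ℝ) →ₗ[ℝ] (Fin N → ℝ)) (m : ℝ) {Λ : ℝ} (hΛ : 0 ≤ Λ) {y : P → ℝ}
    (hy : y ∈ RP P) {x : Fin N → ℤ} (hx : ∀ i, |(x i : ℝ) - m * L y i| ≤ Λ + 1) :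
    ReflTransGen (Nb (DD L m Λ)) x (lm L m y) := by
  set B : Set (Fin N → ℤ) := {z | ∀ i, |(z i : ℝ) - m * L y i| ≤ Λ + 1} with hB
  have hBD : B ⊆ DD L m Λ := fun z hz => ⟨y, hy, hz⟩
  have h1 := box_conn B (by
    intro a ha b hb z hz i
    have ha' := ha i
    have hb' := hb i
    rw [abs_le] at ha' hb' ⊢
    rcases hz i with ⟨h1, h2⟩ | ⟨h1, h2⟩
    · have h1' : (a i : ℝ) ≤ z i := by exact_mod_cast h1
      have h2' : (z i : ℝ) ≤ b i := by exact_mod_cast h2
      constructor <;> linarith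
    · have h1' : (b i : ℝ) ≤ z i := by exact_mod_cast h1
      have h2' : (z i : ℝ) ≤ a i := by exact_mod_cast h2
      constructor <;> linarith) (∑ i, (x i - lm L m y i).natAbs) x hx (lm L m y)
      (fun i => (lm_close L m y i).trans (by linarith)) (by
        intro i
        have h2 : (x i - lm L m y i).natAbs ≤ ∑ i, (x i - lm L m y i).natAbs :=
          Finset.single_le_sum (f := fun i => (x i - lm L m y i).natAbs)
            (fun q _ => Nat.zero_le _) (Finset.mem_univ i)
        rw [← Int.natCast_natAbs]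
        exact_mod_cast h2)
  have hle : (fun a b : Fin N → ℤ => a ∈ B ∧ b ∈ B ∧ ∀ i, |a i - b i| ≤ 1) ≤ Nb (DD L m Λ) :=
    fun a b hab => ⟨hBD hab.1, hBD hab.2.1, hab.2.2⟩
  exact ReflTransGen.mono hle _ _ h1

lemma floors_conn [PathConnectedSpace (RP P)] (L : (P → ℝ) →ₗ[ℝ] (Fin N → ℝ)) (m : ℝ) {Λ : ℝ}
    (hΛ : 0 ≤ Λ) (y y' : RP P) :
    ReflTransGen (Nb (DD L m Λ)) (lm L m (y : P → ℝ)) (lm L m (y' : P → ℝ)) := by
  have hloc : IsLocallyConstant fun z : RP P =>
      ReflTransGen (Nb (DD L m Λ)) (lm L m (y : P → ℝ)) (lm L m (z : P → ℝ)) := by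
    rw [IsLocallyConstant.iff_eventually_eq]
    intro z
    have hcont : ∀ i, Continuous fun z : RP P => m * L (z : P → ℝ) i := by
      intro i
      have h0 : Continuous L := LinearMap.continuous_of_finiteDimensional L
      exact continuous_const.mul ((continuous_apply i).comp (h0.comp continuous_subtype_val))
    have hev : ∀ᶠ z' : RP P in nhds z, ∀ i, |m * L (z' : P → ℝ) i - m * L (z : P → ℝ) i| < 1 := by
      rw [Filter.eventually_all]
      intro i
      have := (hcont i).continuousAt.eventually (Metric.ball_mem_nhds (m * L (z : P → ℝ) i) one_pos)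
      filter_upwards [this] with z' hz'
      rwa [Real.dist_eq] at hz'
    filter_upwards [hev] with z' hz'
    have h1 : Nb (DD L m Λ) (lm L m (z' : P → ℝ)) (lm L m (z : P → ℝ)) :=
      ⟨lm_mem L m hΛ z'.2, lm_mem L m hΛ z.2, fun i => floor_diff (hz' i).le⟩
    exact propext ⟨fun h => h.tail h1, fun h => h.tail (Nb_symm _ h1)⟩
  have h2 := hloc.apply_eq_of_preconnectedSpace y y'
  rw [← h2]

lemma DD_conn [PathConnectedSpace (RP P)] (L : (P → ℝ) →ₗ[ℝ] (Fin N → ℝ)) (m : ℝ) {Λ : ℝ}
    (hΛ : 0 ≤ Λ) {x x' : Fin N → ℤ} (hx : x ∈ DD L m Λ) (hx' : x' ∈ DD L m Λ) :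
    ReflTransGen (Nb (DD L m Λ)) x x' := by
  obtain ⟨y, hy, hxy⟩ := hx
  obtain ⟨y', hy', hxy'⟩ := hx'
  have h1 := toFloor L m hΛ hy hxy
  have h2 := toFloor L m hΛ hy' hxy'
  have h3 := floors_conn L m hΛ ⟨y, hy⟩ ⟨y', hy'⟩
  exact (h1.trans h3).trans (rt_symm _ h2)

lemma DD_card (L : (P → ℝ) →ₗ[ℝ] (Fin N → ℝ)) (m : ℝ) (Λ : ℕ) (i₀ : Fin N) {y : P → ℝ}
    (hy : y ∈ RP P) (D : Finset (Fin N → ℤ)) (hD : (D : Set (Fin N → ℤ)) = DD L m Λ) :
    Λ ≤ D.card := by
  classical
  have h1 : ((Finset.range Λ).image fun k : ℕ =>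
      (fun i => lm L m y i + if i = i₀ then (k : ℤ) else 0 : Fin N → ℤ)) ⊆ D := by
    intro x hx
    rw [Finset.mem_image] at hx
    obtain ⟨k, hk, rfl⟩ := hx
    rw [Finset.mem_range] at hk
    rw [← Finset.mem_coe, hD]
    refine ⟨y, hy, fun i => ?_⟩
    have h2 := lm_close L m y i
    have h3 : (k : ℝ) ≤ Λ := by exact_mod_cast hk.le
    rw [abs_le] at h2 ⊢
    push_cast
    split_ifs
    · constructor <;> linarith [(Nat.cast_nonneg k : (0 : ℝ) ≤ k)]
    · constructor <;> linarith [(Nat.cast_nonneg Λ : (0 : ℝ) ≤ Λ)]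
  have h2 := Finset.card_le_card h1
  rwa [Finset.card_image_of_injective, Finset.card_range] at h2
  intro k k' hkk
  have := congrFun hkk i₀
  simp only [if_true] at this
  omega

end Scale

end Pack

/-- The numerical estimate for the mass. -/
lemma Pack.mass_num (α n s j1 j0 N M : ℕ) (hα : α = (n + 1) * (n + 2).factorial)
    (hN : N = α + 2 * n + 4) (hs : 2 ^ (α * (j1 + j0)) * M ≤ 2 ^ s) :
    (n + 2).factorial ^ ((n + 1) * (s + j1 + j0)) * M ≤ (2 ^ s) ^ N := by
  have h1 : (n + 2).factorial ^ ((n + 1) * (s + j1 + j0)) ≤ 2 ^ (α * (s + j1 + j0)) := by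
    calc (n + 2).factorial ^ ((n + 1) * (s + j1 + j0))
        ≤ (2 ^ (n + 2).factorial) ^ ((n + 1) * (s + j1 + j0)) :=
          Nat.pow_le_pow_left Nat.lt_two_pow_self.le _
      _ = 2 ^ (α * (s + j1 + j0)) := by rw [← pow_mul, hα]; congr 1; ring
  calc (n + 2).factorial ^ ((n + 1) * (s + j1 + j0)) * M
      ≤ 2 ^ (α * (s + j1 + j0)) * M := Nat.mul_le_mul_right _ h1
    _ = 2 ^ (α * s) * (2 ^ (α * (j1 + j0)) * M) := by
        rw [← mul_assoc, ← pow_add]; congr 2; ring
    _ ≤ 2 ^ (α * s) * 2 ^ s := Nat.mul_le_mul_left _ hs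
    _ = 2 ^ ((α + 1) * s) := by rw [← pow_add]; congr 1; ring
    _ ≤ 2 ^ (s * N) := by
        refine Nat.pow_le_pow_right (by norm_num) ?_
        rw [mul_comm s N]
        exact Nat.mul_le_mul_right _ (by omega)
    _ = (2 ^ s) ^ N := by rw [pow_mul]

theorem specPack (hFloor : SpecFloor) (hMap : SpecSdMap) (hHom : SpecSdHom)
    (hPrism : SpecPrism) : SpecPack := by
  classical
  intro n
  obtain ⟨α, hα⟩ : ∃ α : ℕ, α = (n + 1) * (n + 2).factorial := ⟨_, rfl⟩
  obtain ⟨N, hN⟩ : ∃ N : ℕ, N = α + 2 * n + 4 := ⟨_, rfl⟩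
  refine ⟨1 + (n + 3) * 5 ^ N, N, ?_⟩
  intro P _ _ hP hconn ζ hζ hζs F₀
  obtain ⟨L, hL⟩ := specEmb n N (by omega) P hP
  obtain ⟨δ, hδ, hL⟩ := hL (1 / ((n : ℝ) + 2)) (by positivity)
  obtain ⟨C, hC⟩ : ∃ C : ℝ, C = ∑ p : P, ∑ j, |L (vert p) j| := ⟨_, rfl⟩
  obtain ⟨j0, hj0⟩ := pow_unbounded_of_one_lt (2 * C) (one_lt_two (α := ℝ))
  obtain ⟨j1, hj1⟩ := pow_unbounded_of_one_lt (6 / δ) (one_lt_two (α := ℝ))
  obtain ⟨s, hs⟩ := pow_unbounded_of_one_lt
    (F₀ + 2 ^ (α * (j1 + j0)) * (Pack.mass0 ζ)) (one_lt_two (α := ℕ))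
  obtain ⟨Λ, hΛ⟩ : ∃ Λ : ℕ, Λ = 2 ^ s := ⟨_, rfl⟩
  obtain ⟨m, hm⟩ : ∃ m : ℝ, m = 2 ^ (s + j1) := ⟨_, rfl⟩
  obtain ⟨j, hj⟩ : ∃ j : ℕ, j = s + j1 + j0 := ⟨_, rfl⟩
  have hm0 : 0 < m := by rw [hm]; positivity
  have hΛ1 : 1 ≤ Λ := by rw [hΛ]; exact Nat.one_le_two_pow
  have hΛR : (1 : ℝ) ≤ Λ := by exact_mod_cast hΛ1
  have hΛ0 : (0 : ℝ) ≤ Λ := by linarith
  have hδm : 2 * (Λ : ℝ) + 4 ≤ δ * m := by
    have h1 : 6 < δ * 2 ^ j1 := by
      rw [div_lt_iff₀ hδ] at hj1
      linarith
    have h2 : δ * m = (δ * 2 ^ j1) * Λ := by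
      rw [hm, hΛ, pow_add]; push_cast; ring
    rw [h2]
    nlinarith
  -- the cycle and its subdivisions
  obtain ⟨ζ', hζ'⟩ : ∃ ζ' : Tup (P → ℝ) (n + 1) →₀ ℤ, ζ' = mapT vert ζ := ⟨_, rfl⟩
  have hζ'0 : bdT ζ' = 0 := by rw [hζ', ← mapT_bdT, hζ, map_zero]
  have hgood : Pack.Good ζ' := by
    intro y hy
    rw [hζ'] at hy
    obtain ⟨x, hx, rfl⟩ := Pack.mapT_support vert ζ hy
    exact ⟨Set.range x, hζs x hx, fun a => Pack.vert_mem ⟨a, rfl⟩⟩
  obtain ⟨hcj, hgj, b1, hb1, hb1'⟩ := Pack.iter_homot hMap hHom ζ' hζ'0 hgood ((n + 1) * j)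
  obtain ⟨hmass, hsupp⟩ := specMass (n + 1) (by omega) (P → ℝ) ζ' j
  obtain ⟨ζj, hζj⟩ : ∃ ζj, ζj = (⇑(Sd (bary (E := P → ℝ)) (n := n + 1)))^[(n + 1) * j] ζ' :=
    ⟨_, rfl⟩
  rw [← hζj] at hcj hgj hb1' hmass hsupp
  have hyRP : ∀ y ∈ ζj.support, ∀ a, y a ∈ RP P := by
    intro y hy a
    obtain ⟨t, ht, hyt⟩ := hgj y hy
    exact Pack.KK_subset ht (hyt a)
  have hosc : ∀ y ∈ ζj.support, ∀ a b i, |m * L (y a) i - m * L (y b) i| ≤ 1 := by
    intro y hy a b i
    obtain ⟨x, hx, -, h2⟩ := hsupp y hy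
    rw [hζ'] at hx
    obtain ⟨x0, hx0, rfl⟩ := Pack.mapT_support vert ζ hx
    have h3 := h2 ((LinearMap.proj i).comp L) (2 ^ j0) (by
      intro a b
      have h4 : ∀ a, |L (vert (x0 a)) i| ≤ C := by
        intro a
        rw [hC]
        refine Pack.L_bound L ?_ i
        exact Pack.KK_subset (t := {x0 a}) (Set.Subsingleton.isChain (by simp))
          (Pack.vert_mem rfl)
      have h5 := h4 a
      have h6 := h4 b
      have h7 := abs_sub (L (vert (x0 a)) i) (L (vert (x0 b)) i)
      simp only [LinearMap.comp_apply, LinearMap.proj_apply, Function.comp_apply]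
      linarith) a b
    simp only [LinearMap.comp_apply, LinearMap.proj_apply] at h3
    rw [← mul_sub, abs_mul, abs_of_pos hm0]
    have h8 : m * ((2 : ℝ) ^ j0 / 2 ^ j) = 1 := by
      rw [hm, hj, pow_add 2 (s + j1) j0]
      field_simp
    calc m * |L (y a) i - L (y b) i| ≤ m * ((2 : ℝ) ^ j0 / 2 ^ j) := by gcongr
      _ = 1 := h8
  -- the lattice cycle
  obtain ⟨cm, hcm⟩ : ∃ cm, cm = mapT (Pack.lm L m) ζj := ⟨_, rfl⟩
  have hcm0 : bdT cm = 0 := by rw [hcm, ← mapT_bdT, hcj, map_zero]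
  have hcms : ∀ x ∈ cm.support, ∃ y ∈ ζj.support, Pack.lm L m ∘ y = x := by
    intro x hx
    rw [hcm] at hx
    exact Pack.mapT_support _ _ hx
  have hcmd : ∀ x ∈ cm.support, ∀ a b i, |x a i - x b i| ≤ 1 := by
    intro x hx a b i
    obtain ⟨y, hy, rfl⟩ := hcms x hx
    exact Pack.floor_diff (hosc y hy a b i)
  have hcmm : ∑ x ∈ cm.support, |cm x| ≤ (Λ : ℤ) ^ N := by
    have h1 : Mass.mass cm ≤ Mass.mass ζj := by rw [hcm]; exact Pack.mass_mapT _ _
    have h2 : Mass.mass ζ' ≤ Mass.mass ζ := by rw [hζ']; exact Pack.mass_mapT _ _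
    have h3 := Pack.mass_num α n s j1 j0 N (Pack.mass0 ζ) hα hN (by omega)
    have h4 : (((n + 2).factorial : ℤ)) ^ ((n + 1) * j) * Mass.mass ζ ≤ (Λ : ℤ) ^ N := by
      rw [← Pack.mass0_cast, hΛ, hj]
      exact_mod_cast h3
    calc ∑ x ∈ cm.support, |cm x| = Mass.mass cm := rfl
      _ ≤ Mass.mass ζj := h1
      _ ≤ (((n + 1 + 1).factorial : ℤ)) ^ ((n + 1) * j) * Mass.mass ζ' := hmass
      _ ≤ (((n + 2).factorial : ℤ)) ^ ((n + 1) * j) * Mass.mass ζ := by gcongr
      _ ≤ (Λ : ℤ) ^ N := h4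
  obtain ⟨b, hb, hbs⟩ := hFloor N n Λ hΛ1 cm hcm0 hcmd hcmm
  -- the finite set `D` and the choices
  have hfin := Pack.DD_finite L (m := m) (Λ := Λ) hm0.le
  obtain ⟨D, hD⟩ : ∃ D : Finset (Fin N → ℤ), D = hfin.toFinset := ⟨_, rfl⟩
  have hDm : ∀ x, x ∈ D ↔ x ∈ Pack.DD L m Λ := by intro x; rw [hD, Set.Finite.mem_toFinset]
  choose! Y hY using fun (x : Fin N → ℤ) (hx : x ∈ Pack.DD L m Λ) => hx
  obtain ⟨y0⟩ : Nonempty (RP P) := hconn.nonempty
  have hex : ∀ x, ∃ p, x ∈ Pack.DD L m Λ → 1 / ((n : ℝ) + 2) ≤ Y x p := by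
    intro x
    by_cases hx : x ∈ Pack.DD L m Λ
    · obtain ⟨p, hp⟩ := Pack.exists_large hP (hY x hx).1
      exact ⟨p, fun _ => hp⟩
    · obtain ⟨p, hp⟩ := Pack.exists_large hP y0.2
      exact ⟨p, fun h => absurd h hx⟩
  choose ψ hψ using hex
  have hpos : ∀ x ∈ Pack.DD L m Λ, ∀ y ∈ RP P,
      (∀ i, |(x i : ℝ) - m * L y i| ≤ Λ + 3) → 0 < y (ψ x) := by
    intro x hx y hy h
    obtain ⟨hY1, hY2⟩ := hY x hx
    have h1 := hL (Y x) hY1 y hy (by
      intro i
      have h2 := hY2 i
      have h3 := h i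
      have h4 : |m * L (Y x) i - m * L y i| ≤ 2 * Λ + 4 := by
        rw [abs_le] at h2 h3 ⊢
        constructor <;> linarith
      rw [← mul_sub, abs_mul, abs_of_pos hm0] at h4
      by_contra hcon
      push Not at hcon
      have h5 : m * δ < m * |L (Y x) i - L y i| := mul_lt_mul_of_pos_left hcon hm0
      linarith [mul_comm m δ]) (ψ x)
    have h6 := hψ x hx
    rw [abs_lt] at h1
    linarith
  have hchain : ∀ v : Finset (Fin N → ℤ), v ⊆ D → (∀ x ∈ v, ∀ y ∈ v, ∀ i, |x i - y i| ≤ 2) →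
      IsChain (· ≤ ·) (ψ '' (v : Set (Fin N → ℤ))) := by
    intro v hv hd
    rcases v.eq_empty_or_nonempty with h0 | ⟨x0, hx0⟩
    · rw [h0]; simp
    · refine (hY x0 ((hDm x0).mp (hv hx0))).1.2.2.mono ?_
      rintro _ ⟨x, hx, rfl⟩
      have hx' : x ∈ v := hx
      have h1 := hpos x ((hDm x).mp (hv hx')) (Y x0) (hY x0 ((hDm x0).mp (hv hx0))).1 (by
        intro i
        have h2 := (hY x0 ((hDm x0).mp (hv hx0))).2 i
        have h3 := hd x hx' x0 hx0 i
        have h4 : |(x i : ℝ) - x0 i| ≤ 2 := by exact_mod_cast h3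
        rw [abs_le] at h2 h4 ⊢
        constructor <;> linarith)
      exact ne_of_gt h1
  have hbD : ∀ w ∈ b.support, ∀ a, w a ∈ Pack.DD L m Λ := by
    intro w hw a
    obtain ⟨-, x, hx, hxa⟩ := hbs w hw
    obtain ⟨y, hy, rfl⟩ := hcms x hx
    obtain ⟨a', ha'⟩ := hxa a
    refine ⟨y a', hyRP y hy a', fun i => ?_⟩
    obtain ⟨h1, h2⟩ := ha' i
    have h3 := Pack.lm_close L m (y a') i
    simp only [Function.comp_apply] at h1 h2
    have h1' : (0 : ℝ) ≤ w a i - Pack.lm L m (y a') i := by exact_mod_cast h1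
    have h2' : (w a i : ℝ) - Pack.lm L m (y a') i ≤ Λ := by exact_mod_cast h2
    rw [abs_le] at h3 ⊢
    constructor <;> linarith
  refine ⟨D, ψ, cm - bdT b, ?_, ?_, ?_, hchain, ?_, ?_, ?_, ?_⟩
  · rw [map_sub, bdT_bdT, hcm0, sub_zero]
  · intro x hx
    rcases Finset.mem_union.mp (Finsupp.support_sub hx) with h | h
    · refine ⟨fun a => ?_, fun a b i => (hcmd x h a b i).trans (by norm_num)⟩
      obtain ⟨y, hy, rfl⟩ := hcms x h
      exact (hDm _).mpr (Pack.lm_mem L m hΛ0 (hyRP y hy a))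
    · obtain ⟨w, hw, hw'⟩ := mem_support_lin bdT b h
      rw [bdT_single, one_smul] at hw'
      have h1 := Finsupp.support_finsetSum hw'
      rw [Finset.mem_biUnion] at h1
      obtain ⟨i, -, hi⟩ := h1
      have h2 := Finsupp.support_single_subset (Finsupp.support_smul hi)
      rw [Finset.mem_singleton] at h2
      subst h2
      exact ⟨fun a => (hDm _).mpr (hbD w hw _), fun a b i => (hbs w hw).1 _ _ i⟩
  · intro x
    have := hb x
    push_cast
    exact this
  · intro x hx y hy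
    have h1 := Pack.DD_conn L m hΛ0 ((hDm x).mp hx) ((hDm y).mp hy)
    have hle : Pack.Nb (Pack.DD L m Λ) ≤ (fun a b => a ∈ D ∧ b ∈ D ∧ ∀ i, |a i - b i| ≤ 1) :=
      fun a b hab => ⟨(hDm a).mpr hab.1, (hDm b).mpr hab.2.1, hab.2.2⟩
    exact Relation.ReflTransGen.mono hle _ _ h1
  · have h1 := Pack.DD_card L m Λ ⟨0, by omega⟩ y0.2 D (by
      ext x; rw [Finset.mem_coe]; exact hDm x)
    have h2 : F₀ ≤ Λ := by rw [hΛ]; omega
    exact h2.trans h1
  · exact ⟨Pack.lm L m y0, (hDm _).mpr (Pack.lm_mem L m hΛ0 y0.2)⟩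
  · obtain ⟨b2, hb2, hb2s⟩ := hPrism _ _ id (fun y => vert (ψ (Pack.lm L m y))) n ζj hcj
    have hg2 : Pack.Good b2 := by
      intro w hw
      obtain ⟨y, hy, hwy⟩ := hb2s w hw
      obtain ⟨t, ht, hyt⟩ := hgj y hy
      refine ⟨t, ht, fun a => ?_⟩
      rcases hwy a with ⟨i, hi⟩ | ⟨i, hi⟩
      · rw [hi]; exact hyt i
      · rw [hi]
        refine Pack.vert_mem ?_
        have h1 := hpos (Pack.lm L m (y i)) (Pack.lm_mem L m hΛ0 (hyRP y hy i)) (y i)
          (hyRP y hy i) (fun i' => (Pack.lm_close L m (y i) i').trans (by linarith))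
        by_contra hcon
        exact (ne_of_gt h1) ((hyt i).2.2 _ hcon)
    have hg3 : Pack.Good (mapT vert (mapT ψ b)) := by
      intro z hz
      obtain ⟨z', hz', rfl⟩ := Pack.mapT_support _ _ hz
      obtain ⟨w, hw, rfl⟩ := Pack.mapT_support _ _ hz'
      refine ⟨ψ '' ((Finset.univ.image w : Finset (Fin N → ℤ)) : Set (Fin N → ℤ)), ?_, ?_⟩
      · refine hchain _ ?_ ?_
        · intro x hx
          rw [Finset.mem_image] at hx
          obtain ⟨a, -, rfl⟩ := hx
          exact (hDm _).mpr (hbD w hw a)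
        · intro x hx y hy i
          rw [Finset.mem_image] at hx hy
          obtain ⟨a, -, rfl⟩ := hx
          obtain ⟨a', -, rfl⟩ := hy
          exact (hbs w hw).1 a a' i
      · intro a
        refine Pack.vert_mem ⟨w a, ?_, rfl⟩
        simp
    refine ⟨affS b2 + b1 + -affS (mapT vert (mapT ψ b)),
      Pack.suppIn_add (Pack.suppIn_add hg2.suppIn hb1) (Pack.suppIn_neg hg3.suppIn), ?_⟩
    have e1 : mapT (fun y => vert (ψ (Pack.lm L m y))) ζj = mapT vert (mapT ψ cm) := by
      rw [hcm, ← mapT_comp, ← mapT_comp]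
      rfl
    rw [map_add, map_add, map_neg, ← affS_bdT, ← affS_bdT, hb2, mapT_id, e1, hb1', map_sub,
      ← mapT_bdT, ← mapT_bdT, map_sub (mapT ψ), map_sub (mapT vert), map_sub affS, hζ']
    abel

end MPb00168
end
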