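import Pool.Agent.Lib.MP_b00168_gt.Spec

set_option autoImplicit false

/-!
# MP_b00168_gt, module TOP, part D: small singular cycles of the realisation of a poset
-/

namespace MPb00168
namespace Top

open Finset

/-! ### Affine simplices -/

theorem sum_map {k m : ℕ} {E : Type} [AddCommGroup E] [Module ℝ E]
    (f : Fin (k + 1) → Fin (m + 1)) (t : stdSimplex ℝ (Fin (k + 1))) (x : Fin (m + 1) → E) :
    ∑ j, (stdSimplex.map f t : stdSimplex ℝ (Fin (m + 1))) j • x j = ∑ a, t a • x (f a) := by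
  simp only [stdSimplex.map_coe, FunOnFinite.linearMap_apply_apply]
  rw [← Finset.sum_fiberwise Finset.univ f (fun a => t a • x (f a))]
  refine Finset.sum_congr rfl fun j _ => ?_
  rw [Finset.sum_smul]
  refine Finset.sum_congr rfl fun a ha => ?_
  rw [Finset.mem_filter] at ha
  rw [ha.2]

theorem aff_apply {E : Type} [AddCommGroup E] [Module ℝ E] [TopologicalSpace E]
    [ContinuousAdd E] [ContinuousSMul ℝ E] {k : ℕ} (x : Tup E k) (t : stdSimplex ℝ (Fin (k + 1))) :
    aff x t = ∑ j, t j • x j := rfl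

theorem aff_faceMap {E : Type} [AddCommGroup E] [Module ℝ E] [TopologicalSpace E]
    [ContinuousAdd E] [ContinuousSMul ℝ E] {k : ℕ} (x : Tup E (k + 1)) (i : Fin (k + 2))
    (t : stdSimplex ℝ (Fin (k + 1))) : aff x (faceMap k i t) = aff (x ∘ i.succAbove) t := by
  rw [aff_apply, aff_apply]
  exact sum_map i.succAbove t x

theorem faceMap_vertsD {k : ℕ} (i : Fin (k + 2)) (j : Fin (k + 1)) :
    faceMap k i (vertsD k j) = vertsD (k + 1) (i.succAbove j) :=
  stdSimplex.map_vertex i.succAbove j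

set_option linter.unusedSectionVars false

section poset

variable {P : Type} [Fintype P] [PartialOrder P]

theorem vert_apply_ne {p q : P} (h : p ≠ q) : vert p q = 0 := by
  classical
  unfold vert
  rw [Pi.single_apply, if_neg (Ne.symm h)]

theorem vert_nonneg (p q : P) : 0 ≤ vert p q := by
  classical
  unfold vert
  rw [Pi.single_apply]
  split_ifs <;> norm_num

theorem vert_sum (p : P) : ∑ q, vert p q = 1 := by
  classical
  unfold vert
  simp

theorem exists_big (n : ℕ) (hP : ∀ t : Finset P, IsChain (· ≤ ·) (t : Set P) → t.card ≤ n + 2)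
    (y : RP P) : ∃ p, ((n : ℝ) + 2)⁻¹ ≤ (y : P → ℝ) p := by
  classical
  by_contra hcon
  push Not at hcon
  obtain ⟨y, h0, h1, h2⟩ := y
  simp only at hcon
  set t : Finset P := Finset.univ.filter fun p => y p ≠ 0 with ht
  have hcard : t.card ≤ n + 2 := by
    refine hP t ?_
    rw [ht]
    simpa using h2
  have hsum : ∑ p ∈ t, y p = 1 := by
    rw [← h1, ht, Finset.sum_filter_ne_zero]
  have hne : t.Nonempty := by
    rw [Finset.nonempty_iff_ne_empty]
    intro h
    rw [h, Finset.sum_empty] at hsum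
    exact zero_ne_one hsum
  have hlt : ∑ p ∈ t, y p < ∑ p ∈ t, ((n : ℝ) + 2)⁻¹ :=
    Finset.sum_lt_sum_of_nonempty hne fun p _ => hcon p
  rw [hsum, Finset.sum_const, nsmul_eq_mul] at hlt
  have h3 : (t.card : ℝ) ≤ (n : ℝ) + 2 := by exact_mod_cast hcard
  have h4 : (0 : ℝ) < (n : ℝ) + 2 := by positivity
  have h5 : (t.card : ℝ) * ((n : ℝ) + 2)⁻¹ ≤ 1 := by
    rw [← div_eq_mul_inv, div_le_one h4]
    exact h3
  linarith

/-- Small singular simplices. -/
def Small (n : ℕ) {k : ℕ} (σ : Sing (RP P) k) : Prop :=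
  ∀ t t' p, |(σ t : P → ℝ) p - (σ t' : P → ℝ) p| < ((n : ℝ) + 2)⁻¹

variable (φ : RP P → P)

/-- The vertices associated with a singular simplex. -/
noncomputable def w {k : ℕ} (σ : Sing (RP P) k) : Tup P k := fun j => φ (σ (vertsD k j))

theorem w_face {k : ℕ} (σ : Sing (RP P) (k + 1)) (i : Fin (k + 2)) :
    w φ (face i σ) = w φ σ ∘ i.succAbove := by
  funext j
  change φ (σ (faceMap k i (vertsD k j))) = φ (σ (vertsD (k + 1) (i.succAbove j)))
  rw [faceMap_vertsD]

variable {φ} {n : ℕ} (hφ : ∀ y : RP P, ((n : ℝ) + 2)⁻¹ ≤ (y : P → ℝ) (φ y))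

include hφ in
theorem w_pos {k : ℕ} {σ : Sing (RP P) k} (hσ : Small n σ) (t : stdSimplex ℝ (Fin (k + 1)))
    (j : Fin (k + 1)) : 0 < (σ t : P → ℝ) (w φ σ j) := by
  have h1 := hφ (σ (vertsD k j))
  have h2 := hσ t (vertsD k j) (w φ σ j)
  rw [abs_lt] at h2
  have h3 : ((n : ℝ) + 2)⁻¹ ≤ (σ (vertsD k j) : P → ℝ) (w φ σ j) := h1
  linarith [h2.1]

include hφ in
theorem w_chain {k : ℕ} {σ : Sing (RP P) k} (hσ : Small n σ) :
    IsChain (· ≤ ·) (Set.range (w φ σ)) := by
  refine (σ (vertsD k 0)).2.2.2.mono ?_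
  rintro _ ⟨j, rfl⟩
  exact (w_pos hφ hσ (vertsD k 0) j).ne'

theorem aff_vert_apply {k : ℕ} (x : Tup P k) (t : stdSimplex ℝ (Fin (k + 1))) (p : P) :
    aff (vert ∘ x) t p = ∑ j, t j * vert (x j) p := by
  rw [aff_apply, Finset.sum_apply]
  rfl

theorem aff_vert_sum {k : ℕ} (x : Tup P k) (t : stdSimplex ℝ (Fin (k + 1))) :
    ∑ p, aff (vert ∘ x) t p = 1 := by
  simp only [aff_vert_apply]
  rw [Finset.sum_comm]
  have : ∀ j, ∑ p, t j * vert (x j) p = t j := by
    intro j
    rw [← Finset.mul_sum, vert_sum, mul_one]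
  simp only [this]
  exact t.2.2

theorem aff_vert_nonneg {k : ℕ} (x : Tup P k) (t : stdSimplex ℝ (Fin (k + 1))) (p : P) :
    0 ≤ aff (vert ∘ x) t p := by
  rw [aff_vert_apply]
  exact Finset.sum_nonneg fun j _ => mul_nonneg (t.2.1 j) (vert_nonneg _ _)

theorem aff_vert_zero {k : ℕ} (x : Tup P k) (t : stdSimplex ℝ (Fin (k + 1))) (p : P)
    (hp : ∀ j, x j ≠ p) : aff (vert ∘ x) t p = 0 := by
  rw [aff_vert_apply]
  exact Finset.sum_eq_zero fun j _ => by rw [vert_apply_ne (hp j), mul_zero]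

theorem aff_vert_mem {k : ℕ} {x : Tup P k} (hx : IsChain (· ≤ ·) (Set.range x))
    (t : stdSimplex ℝ (Fin (k + 1))) : aff (vert ∘ x) t ∈ RP P := by
  refine ⟨aff_vert_nonneg x t, aff_vert_sum x t, hx.mono ?_⟩
  intro p hp
  by_contra hcon
  exact hp (aff_vert_zero x t p fun j h => hcon ⟨j, h⟩)

include hφ in
theorem hom_mem {k : ℕ} {σ : Sing (RP P) k} (hσ : Small n σ) (t : stdSimplex ℝ (Fin (k + 1)))
    (s : unitInterval) :
    (1 - (s : ℝ)) • (σ t : P → ℝ) + (s : ℝ) • aff (vert ∘ w φ σ) t ∈ RP P := by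
  have h1 := (σ t).2
  have hs0 := s.2.1
  have hs1 := s.2.2
  refine ⟨fun p => ?_, ?_, h1.2.2.mono ?_⟩
  · simp only [Pi.add_apply, Pi.smul_apply, smul_eq_mul]
    have := h1.1 p
    have := aff_vert_nonneg (w φ σ) t p
    have h3 : 0 ≤ 1 - (s : ℝ) := by linarith
    positivity
  · simp only [Pi.add_apply, Pi.smul_apply, smul_eq_mul]
    rw [Finset.sum_add_distrib, ← Finset.mul_sum, ← Finset.mul_sum, h1.2.1, aff_vert_sum]
    ring
  · intro p hp
    simp only [Set.mem_ofPred_eq, Pi.add_apply, Pi.smul_apply, smul_eq_mul] at hp ⊢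
    intro h4
    apply hp
    rw [h4, aff_vert_zero]
    · ring
    · rintro j rfl
      exact (w_pos hφ hσ t j).ne' h4

open Classical in
/-- The straight homotopy. -/
noncomputable def hom {k : ℕ} (σ : Sing (RP P) k) :
    C(stdSimplex ℝ (Fin (k + 1)) × unitInterval, RP P) :=
  if h : Small n σ then
    ⟨fun q => ⟨(1 - (q.2 : ℝ)) • (σ q.1 : P → ℝ) + (q.2 : ℝ) • aff (vert ∘ w φ σ) q.1,
      hom_mem hφ h q.1 q.2⟩, by
      refine Continuous.subtype_mk ?_ _
      have h1 : Continuous fun q : stdSimplex ℝ (Fin (k + 1)) × unitInterval => (q.2 : ℝ) :=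
        continuous_subtype_val.comp continuous_snd
      have h2 : Continuous fun q : stdSimplex ℝ (Fin (k + 1)) × unitInterval =>
          (σ q.1 : P → ℝ) := continuous_subtype_val.comp (σ.continuous.comp continuous_fst)
      have h3 : Continuous fun q : stdSimplex ℝ (Fin (k + 1)) × unitInterval =>
          aff (vert ∘ w φ σ) q.1 := (aff (vert ∘ w φ σ)).continuous.comp continuous_fst
      exact ((continuous_const.sub h1).smul h2).add (h1.smul h3)⟩
  else ⟨fun q => σ q.1, σ.continuous.comp continuous_fst⟩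

theorem hom_val {k : ℕ} {σ : Sing (RP P) k} (hσ : Small n σ) (t : stdSimplex ℝ (Fin (k + 1)))
    (s : unitInterval) : ((hom hφ σ (t, s) : RP P) : P → ℝ) =
      (1 - (s : ℝ)) • (σ t : P → ℝ) + (s : ℝ) • aff (vert ∘ w φ σ) t := by
  unfold hom
  rw [dif_pos hσ]
  rfl

theorem hom_zero {k : ℕ} {σ : Sing (RP P) k} (hσ : Small n σ) (t : stdSimplex ℝ (Fin (k + 1))) :
    hom hφ σ (t, 0) = σ t := by
  apply Subtype.ext
  rw [hom_val hφ hσ]
  simp

theorem small_face {k : ℕ} {σ : Sing (RP P) (k + 1)} (hσ : Small n σ) (i : Fin (k + 2)) :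
    Small n (face i σ) := fun t t' p => hσ (faceMap k i t) (faceMap k i t') p

theorem hom_face {k : ℕ} {σ : Sing (RP P) (k + 1)} (hσ : Small n σ) (i : Fin (k + 2))
    (t : stdSimplex ℝ (Fin (k + 1))) (s : unitInterval) :
    hom hφ σ (faceMap k i t, s) = hom hφ (face i σ) (t, s) := by
  apply Subtype.ext
  rw [hom_val hφ hσ, hom_val hφ (small_face hσ i), aff_faceMap, w_face]
  rfl

/-- The realisation of a tuple which is a chain. -/
theorem realT_single {k : ℕ} {x : Tup P k} (hx : IsChain (· ≤ ·) (Set.range x)) (a : ℤ) :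
    realT P (Finsupp.single x a) = Finsupp.single
      (⟨fun t => ⟨aff (vert ∘ x) t, aff_vert_mem hx t⟩, by fun_prop⟩ : Sing (RP P) k) a := by
  classical
  unfold realT
  rw [LinearMap.comp_apply, LinearMap.comp_apply, mapT, Finsupp.lmapDomain_apply,
    Finsupp.mapDomain_single, affS, Finsupp.lmapDomain_apply, Finsupp.mapDomain_single]
  unfold restr
  rw [Finsupp.linearCombination_single, dif_pos (fun t => aff_vert_mem hx t), Finsupp.smul_single,
    smul_eq_mul, mul_one]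

/-- The tuple chain associated with a singular chain. -/
noncomputable def W (φ : RP P → P) {k : ℕ} : Chain (RP P) k →ₗ[ℤ] (Tup P k →₀ ℤ) :=
  Finsupp.lmapDomain ℤ ℤ (w φ)

theorem bdT_W {k : ℕ} (φ : RP P → P) (c : Chain (RP P) (k + 1)) : bdT (W φ c) = W φ (bd c) := by
  have : (bdT.comp (W φ) : Chain (RP P) (k + 1) →ₗ[ℤ] (Tup P k →₀ ℤ)) = (W φ).comp bd := by
    refine Finsupp.lhom_ext' fun σ => LinearMap.ext_ring ?_
    simp only [LinearMap.comp_apply, Finsupp.lsingle_apply, W, Finsupp.lmapDomain_apply,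
      Finsupp.mapDomain_single, bdT, bd, Finsupp.linearCombination_single, one_smul]
    rw [← Finsupp.lmapDomain_apply ℤ ℤ, map_sum]
    refine Finset.sum_congr rfl fun i _ => ?_
    rw [map_smul, Finsupp.lmapDomain_apply, Finsupp.mapDomain_single, w_face]
  exact LinearMap.congr_fun this c

theorem W_chainSupp {k : ℕ} (hφ : ∀ y : RP P, ((n : ℝ) + 2)⁻¹ ≤ (y : P → ℝ) (φ y))
    (c : Chain (RP P) k) (hc : ∀ σ ∈ c.support, Small n σ) : ChainSupp (W φ c) := by
  classical
  intro x hx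
  have h1 := Finsupp.mapDomain_support hx
  rw [Finset.mem_image] at h1
  obtain ⟨σ, hσ, rfl⟩ := h1
  exact w_chain hφ (hc σ hσ)

/-- A small cycle is homologous to the realisation of a tuple cycle. -/
theorem small_hom (hFam : SpecFamily.{0}) {m : ℕ}
    (hφ : ∀ y : RP P, ((n : ℝ) + 2)⁻¹ ≤ (y : P → ℝ) (φ y))
    (c : Chain (RP P) (m + 1)) (hc0 : bd c = 0) (hc : ∀ σ ∈ c.support, Small n σ) :
    Homologous (realT P (W φ c)) c := by
  have h1 := hFam (RP P) m c hc0 (fun σ => hom hφ σ) (fun σ => hom hφ σ)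
    (fun σ hσ t => hom_zero hφ (hc σ hσ) t) (fun σ hσ i t s => hom_face hφ (hc σ hσ) i t s)
  have h2 : (c.sum fun σ a => Finsupp.single
      (⟨fun t => hom hφ σ (t, 1), by fun_prop⟩ : Sing (RP P) (m + 1)) a) = realT P (W φ c) := by
    have h3 : W φ c = ∑ σ ∈ c.support, Finsupp.single (w φ σ) (c σ) := rfl
    rw [h3, map_sum]
    refine Finset.sum_congr rfl fun σ hσ => ?_
    rw [realT_single (w_chain hφ (hc σ hσ))]
    refine congrArg (fun τ : Sing (RP P) (m + 1) => Finsupp.single τ (c σ)) ?_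
    apply ContinuousMap.ext
    intro t
    apply Subtype.ext
    change ((hom hφ σ (t, 1) : RP P) : P → ℝ) = aff (vert ∘ w φ σ) t
    rw [hom_val hφ (hc σ hσ)]
    simp
  rw [h2] at h1
  exact h1

end poset

/-! ### Homologous chains -/

theorem hom_refl {X : Type} [TopologicalSpace X] {k : ℕ} (c : Chain X k) : Homologous c c :=
  ⟨0, by simp⟩

theorem hom_symm {X : Type} [TopologicalSpace X] {k : ℕ} {c c' : Chain X k}
    (h : Homologous c c') : Homologous c' c := by
  obtain ⟨b, hb⟩ := h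
  exact ⟨-b, by rw [map_neg, hb]; abel⟩

theorem hom_trans {X : Type} [TopologicalSpace X] {k : ℕ} {c c' c'' : Chain X k}
    (h : Homologous c c') (h' : Homologous c' c'') : Homologous c c'' := by
  obtain ⟨b, hb⟩ := h
  obtain ⟨b', hb'⟩ := h'
  exact ⟨b + b', by rw [map_add, hb, hb']; abel⟩

theorem iter_sd (hSS : SpecSS.{0}) {X : Type} [TopologicalSpace X] {n : ℕ} (c : Chain X (n + 1))
    (hc : bd c = 0) (r : ℕ) : bd ((⇑(SdS (X := X) (n := n + 1)))^[r] c) = 0 ∧
      Homologous ((⇑(SdS (X := X) (n := n + 1)))^[r] c) c := by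
  obtain ⟨h1, _, T, hT, _, _⟩ := hSS X
  induction r with
  | zero => exact ⟨hc, hom_refl c⟩
  | succ r ih =>
    rw [Function.iterate_succ_apply']
    refine ⟨?_, ?_⟩
    · rw [h1, ih.1, map_zero]
    · refine hom_trans ?_ ih.2
      refine ⟨T (n + 1) ((⇑(SdS (X := X) (n := n + 1)))^[r] c), ?_⟩
      rw [hT, ih.1, map_zero, sub_zero]

end Top
end MPb00168
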