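import Pool.Agent.Lib.MP_b00168_gt.TopB
import Pool.Agent.Lib.MP_b00168_gt.TopD

section
set_option autoImplicit false

/-!
# MP_b00168_gt, module TOP, part C: the coefficients of the fundamental tuple cycle
-/

namespace MPb00168
namespace Top

open Finset

theorem labim_comp {E E' : Type} [DecidableEq E] [DecidableEq E'] (f : E → E') :
    ∀ {n : ℕ} (F : Flag n) (x : Tup E n) (k : Fin (n + 1)),
      lab (fun _ x => Finset.univ.image x) F (f ∘ x) k =
        (lab (fun _ x => Finset.univ.image x) F x k : Finset E).image f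
  | 0, F, x, k => by
      simp only [lab]
      rw [Finset.image_image]
  | n + 1, F, x, k => by
      refine Fin.lastCases ?_ (fun j => ?_) k
      · simp only [lab, Fin.snoc_last]
        rw [Finset.image_image]
      · simp only [lab, Fin.snoc_castSucc]
        rw [← labim_comp f F.2 (x ∘ F.1.succAbove) j]
        rfl

theorem flagSet_last {n : ℕ} (F : Flag (n + 1)) : flagSet F (Fin.last (n + 1)) = univ := by
  unfold flagSet
  simp only [lab, Fin.snoc_last]
  exact Finset.image_id

theorem flagSet_castSucc {n : ℕ} (F : Flag (n + 1)) (k : Fin (n + 1)) :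
    flagSet F k.castSucc = (flagSet F.2 k).image F.1.succAbove := by
  unfold flagSet
  simp only [lab, Fin.snoc_castSucc]
  rw [← labim_comp F.1.succAbove F.2 id k]
  rfl

theorem flagSet_strictMono : ∀ {n : ℕ} (F : Flag n), StrictMono (flagSet F)
  | 0, F => by
      intro i j hij
      exact absurd (Fin.ext (by have := i.2; have := j.2; omega)) hij.ne
  | n + 1, F => by
      intro i j hij
      have ih := flagSet_strictMono F.2
      have hi : i ≠ Fin.last (n + 1) := (hij.trans_le (Fin.le_last j)).ne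
      obtain ⟨i', rfl⟩ := Fin.exists_castSucc_eq.2 hi
      rw [flagSet_castSucc]
      by_cases hj : j = Fin.last (n + 1)
      · rw [hj, flagSet_last]
        refine lt_of_le_of_ne (Finset.subset_univ _) ?_
        intro h
        have : F.1 ∈ (flagSet F.2 i').image F.1.succAbove := by rw [h]; exact Finset.mem_univ _
        rw [Finset.mem_image] at this
        obtain ⟨a, _, ha⟩ := this
        exact Fin.succAbove_ne _ _ ha
      · obtain ⟨j', rfl⟩ := Fin.exists_castSucc_eq.2 hj
        rw [flagSet_castSucc]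
        have := ih (Fin.castSucc_lt_castSucc_iff.1 hij)
        exact (Finset.image_ssubset_image (Fin.succAbove_right_injective)).2 this

/-- The standard flag. -/
def F0 : ∀ n, Flag n
  | 0 => ()
  | n + 1 => (Fin.last (n + 1), F0 n)

theorem F0_sgn : ∀ n, (F0 n).sgn = 1 ∨ (F0 n).sgn = -1
  | 0 => Or.inl rfl
  | n + 1 => by
      have h : (F0 (n + 1)).sgn = (-1) ^ (n + 1 + (n + 1)) * (F0 n).sgn := rfl
      rw [h]
      have : (-1 : ℤ) ^ (n + 1 + (n + 1)) = 1 := Even.neg_one_pow ⟨n + 1, rfl⟩
      rw [this, one_mul]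
      exact F0_sgn n

theorem image_castSucc_Iic {n : ℕ} (k : Fin (n + 1)) :
    (Finset.Iic k).image Fin.castSucc = Finset.Iic k.castSucc := by
  ext i
  rw [Finset.mem_image, Finset.mem_Iic]
  constructor
  · rintro ⟨a, ha, rfl⟩
    rw [Finset.mem_Iic] at ha
    exact Fin.castSucc_le_castSucc_iff.2 ha
  · intro h
    have hi : i ≠ Fin.last (n + 1) := (lt_of_le_of_lt h (Fin.castSucc_lt_last k)).ne
    obtain ⟨i', rfl⟩ := Fin.exists_castSucc_eq.2 hi
    exact ⟨i', Finset.mem_Iic.2 (Fin.castSucc_le_castSucc_iff.1 h), rfl⟩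

theorem flagSet_F0 : ∀ (n : ℕ) (k : Fin (n + 1)), flagSet (F0 n) k = Finset.Iic k
  | 0, k => by
      have : k = 0 := Fin.ext (by have := k.2; simp at this ⊢)
      subst this
      ext i
      have : i = 0 := Fin.ext (by have := i.2; simp at this ⊢)
      subst this
      simp [flagSet, lab]
  | n + 1, k => by
      refine Fin.lastCases ?_ (fun j => ?_) k
      · rw [flagSet_last]
        ext i
        simp [Fin.le_last]
      · rw [flagSet_castSucc, F0]
        simp only
        rw [flagSet_F0 n j]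
        have : (Fin.last (n + 1)).succAbove = (Fin.castSucc : Fin (n + 1) → Fin (n + 2)) := by
          funext a; rw [Fin.succAbove_last]
        rw [this, image_castSucc_Iic]

theorem flagSet_eq : ∀ (n : ℕ) (F : Flag n), (∀ k, flagSet F k = Finset.Iic k) → F = F0 n
  | 0, F, _ => rfl
  | n + 1, F, h => by
      have h1 : F.1 = Fin.last (n + 1) := by
        have h2 := h (Fin.castSucc (Fin.last n))
        rw [flagSet_castSucc] at h2
        have h3 : F.1 ∉ Finset.Iic (Fin.castSucc (Fin.last n)) := by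
          rw [← h2, Finset.mem_image]
          rintro ⟨a, _, ha⟩
          exact Fin.succAbove_ne _ _ ha
        rw [Finset.mem_Iic, not_le, Fin.lt_def] at h3
        apply Fin.ext
        have := F.1.2
        simp at h3 ⊢
        omega
      have h2 : F.2 = F0 n := by
        refine flagSet_eq n F.2 fun k => ?_
        have h3 := h k.castSucc
        rw [flagSet_castSucc, h1] at h3
        have h4 : (Fin.last (n + 1)).succAbove = (Fin.castSucc : Fin (n + 1) → Fin (n + 2)) := by
          funext a; rw [Fin.succAbove_last]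
        rw [h4, ← image_castSucc_Iic] at h3
        exact Finset.image_injective (Fin.castSucc_injective _) h3
      exact Prod.ext h1 h2

section zT

variable {n : ℕ} {S : Type} [Fintype S] (C : Colored n S)

/-- The tuples of the fundamental cycle. -/
noncomputable def T' (s : S) (F : Flag (n + 1)) : Tup C.Cells (n + 1) :=
  fun k => C.cellOf (flagSet F k) (lab_nonempty F _ k) s

omit [Fintype S] in
theorem T'_strictMono (s : S) (F : Flag (n + 1)) : StrictMono (T' C s F) :=
  cellOf_strictMono C s (fun k => lab_nonempty F _ k) (flagSet_strictMono F)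

theorem zT_eq : zT C = ∑ s : S, ∑ F : Flag (n + 1), (C.ε s * F.sgn) •
    Finsupp.single (T' C s F) (1 : ℤ) := rfl

open Classical in
theorem zT_apply (x : Tup C.Cells (n + 1)) : zT C x = ∑ s : S, ∑ F : Flag (n + 1),
    if T' C s F = x then C.ε s * F.sgn else 0 := by
  rw [zT_eq, Finsupp.finsetSum_apply]
  refine Finset.sum_congr rfl fun s _ => ?_
  rw [Finsupp.finsetSum_apply]
  refine Finset.sum_congr rfl fun F _ => ?_
  rw [Finsupp.smul_apply, Finsupp.single_apply]
  split_ifs <;> simp

theorem zT_strict : ∀ x ∈ (zT C).support, StrictMono x := by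
  intro x hx
  rw [Finsupp.mem_support_iff] at hx
  by_contra hcon
  apply hx
  rw [zT_apply]
  refine Finset.sum_eq_zero fun s _ => Finset.sum_eq_zero fun F _ => ?_
  rw [if_neg]
  rintro rfl
  exact hcon (T'_strictMono C s F)

theorem J_one (k : Fin (n + 2)) : J (1 : Equiv.Perm (Fin (n + 2))) k = Finset.Iic k := by
  ext i
  rw [mem_J, Finset.mem_Iic]
  rfl

omit [Fintype S] in
theorem T'_eq_T_one (s s0 : S) (F : Flag (n + 1)) :
    T' C s F = T C s0 1 ↔ s = s0 ∧ F = F0 (n + 1) := by
  constructor
  · intro h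
    have h1 : ∀ k, flagSet F k = J 1 k ∧ C.cell (flagSet F k) s = C.cell (J 1 k) s0 :=
      fun k => (cellOf_eq_iff C).1 (congrFun h k)
    refine ⟨?_, flagSet_eq _ F fun k => ?_⟩
    · have h2 := (h1 (Fin.last _)).2
      rw [flagSet_last, J_last, cell_univ, cell_univ] at h2
      exact Set.singleton_eq_singleton_iff.1 h2
    · rw [(h1 k).1, J_one]
  · rintro ⟨rfl, rfl⟩
    funext k
    refine (cellOf_eq_iff C).2 ?_
    have : flagSet (F0 (n + 1)) k = J 1 k := by rw [flagSet_F0, J_one]
    exact ⟨this, by rw [this]⟩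

theorem zT_one (s0 : S) : zT C (T C s0 1) = C.ε s0 * (F0 (n + 1)).sgn := by
  classical
  rw [zT_apply, Finset.sum_eq_single s0, Finset.sum_eq_single (F0 (n + 1))]
  · rw [if_pos ((T'_eq_T_one C s0 s0 _).2 ⟨rfl, rfl⟩)]
  · intro F _ hF
    rw [if_neg]
    intro h
    exact hF ((T'_eq_T_one C s0 s0 _).1 h).2
  · intro h; exact absurd (Finset.mem_univ _) h
  · intro s _ hs
    refine Finset.sum_eq_zero fun F _ => ?_
    rw [if_neg]
    intro h
    exact hs ((T'_eq_T_one C s s0 _).1 h).1
  · intro h; exact absurd (Finset.mem_univ _) h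

/-- Every strict cycle is a multiple of the fundamental cycle. -/
theorem strict_eq [Nonempty S] (hconn : C.Conn) (hz : bdT (zT C) = 0)
    (c : Tup C.Cells (n + 1) →₀ ℤ) (hc : bdT c = 0) (hs : ∀ x ∈ c.support, StrictMono x) :
    ∃ a : ℤ, c = a • zT C := by
  obtain ⟨s0⟩ := ‹Nonempty S›
  set gz := C.ε s0 * zT C (T C s0 1) with hgz
  have hgz1 : gz * gz = 1 := by
    rw [hgz, zT_one]
    rcases C.unit s0 with h | h <;> rcases F0_sgn (n + 1) with h' | h' <;> rw [h, h'] <;> norm_num
  refine ⟨C.ε s0 * c (T C s0 1) * gz, ?_⟩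
  ext x
  rw [Finsupp.smul_apply, smul_eq_mul]
  by_cases hx : StrictMono x
  · obtain ⟨s, π, rfl⟩ := T_surj C hx
    rw [coeff_eq C hconn c hc hs s0 s π, coeff_eq C hconn (zT C) hz (zT_strict C) s0 s π, ← hgz]
    calc C.ε s * (Equiv.Perm.sign π : ℤ) * (C.ε s0 * c (T C s0 1))
        = (C.ε s * (Equiv.Perm.sign π : ℤ) * (C.ε s0 * c (T C s0 1))) * (gz * gz) := by
          rw [hgz1, mul_one]
      _ = _ := by ring
  · have h1 : c x = 0 := by
      by_contra h
      exact hx (hs x (Finsupp.mem_support_iff.2 h))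
    have h2 : zT C x = 0 := by
      by_contra h
      exact hx (zT_strict C x (Finsupp.mem_support_iff.2 h))
    rw [h1, h2, mul_zero]

end zT

end Top
end MPb00168
end

section
set_option autoImplicit false

/-!
# MP_b00168_gt, module TOP: the top homology of a connected coloured set
-/

namespace MPb00168

open MPb00168.Top

theorem specTop (hSS : SpecSS.{0}) (hSmall : SpecSmall.{0}) (hFam : SpecFamily.{0})
    (hSM : SpecSdMap) (hSd : SpecSdHom) (hZC : SpecZC) (hCh : SpecChains) (hR : SpecRealT) :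
    SpecTop := by
  intro n S _ _ C hconn c hc
  have hP := hCh n S C
  choose φ hφ using exists_big (P := C.Cells) n hP
  set δ : ℝ := ((n : ℝ) + 2)⁻¹ with hδ
  have hδ0 : 0 < δ := by positivity
  -- small subdivision
  obtain ⟨r, hr⟩ := hSmall (RP C.Cells)
    {U | IsOpen U ∧ ∀ y ∈ U, ∀ y' ∈ U, ∀ p, |(y : C.Cells → ℝ) p - (y' : C.Cells → ℝ) p| < δ}
    (fun U hU => hU.1) (by
      intro x
      refine ⟨{y | ∀ p, |(y : C.Cells → ℝ) p - (x : C.Cells → ℝ) p| < δ / 2}, ⟨?_, ?_⟩, ?_⟩
      · have : {y : RP C.Cells | ∀ p, |(y : C.Cells → ℝ) p - (x : C.Cells → ℝ) p| < δ / 2} =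
            ⋂ p, {y : RP C.Cells | |(y : C.Cells → ℝ) p - (x : C.Cells → ℝ) p| < δ / 2} := by
          ext y; simp
        rw [this]
        refine isOpen_iInter_of_finite fun p => ?_
        refine isOpen_lt ?_ continuous_const
        have h1 : Continuous fun y : RP C.Cells => (y : C.Cells → ℝ) p :=
          (continuous_apply p).comp continuous_subtype_val
        exact (h1.sub continuous_const).abs
      · intro y hy y' hy' p
        have h1 := hy p
        have h2 := hy' p
        rw [abs_lt] at h1 h2 ⊢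
        constructor <;> linarith [h1.1, h1.2, h2.1, h2.2]
      · intro p
        simp [hδ0]) (n + 1) c
  obtain ⟨hc', hcc'⟩ := iter_sd hSS c hc r
  set c' := (⇑(SdS (X := RP C.Cells) (n := n + 1)))^[r] c with hc'def
  have hsm : ∀ σ ∈ c'.support, Small n σ := by
    intro σ hσ
    obtain ⟨U, hU, hσU⟩ := hr r le_rfl σ hσ
    intro t t' p
    exact hU.2 _ (hσU ⟨t, rfl⟩) _ (hσU ⟨t', rfl⟩) p
  have h1 := small_hom hFam hφ c' hc' hsm
  have hc1 : bdT (W φ c') = 0 := by rw [bdT_W, hc', map_zero]
  obtain ⟨s, b, hs0, hss, hb, hb'⟩ := straighten hSM hSd (W φ c') hc1 (W_chainSupp hφ c' hsm)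
  obtain ⟨a, ha⟩ := strict_eq C hconn (hZC n S C).2.1 s hs0 hss
  refine ⟨a, ?_⟩
  have h2 : Homologous (realT C.Cells s) (realT C.Cells (W φ c')) :=
    ⟨realT C.Cells b, by rw [hR C.Cells (n + 1) b hb, hb', map_sub]⟩
  have h3 : realT C.Cells s = a • zR C := by
    rw [ha, map_smul]; rfl
  rw [← h3]
  exact hom_trans (hom_symm hcc') (hom_trans (hom_symm h1) (hom_symm h2))

end MPb00168
end
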