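import Pool.Agent.Lib.MP_b00168_gt.Spec
import Pool.Agent.Lib.MP_b00168_gt.Transfer
import Pool.Agent.Lib.MP_b00168_gt.SDT

set_option autoImplicit false

/-!
# MP_b00168_gt : module TYPES
-/

namespace MPb00168

universe u v

namespace Types

open Finset

/-! ### labels -/

section lab

variable {E : Type u} {E' : Type v}

/-- Naturality of the labels. -/
lemma lab_natural {E'' : Type*} (L : ∀ k, Tup E k → E') (g : E' → E'') :
    ∀ {n : ℕ} (F : Flag n) (x : Tup E n), lab (fun k x => g (L k x)) F x = g ∘ lab L F x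
  | 0, F, x => rfl
  | n + 1, F, x => by
      funext j
      refine Fin.lastCases ?_ (fun j => ?_) j
      · simp [lab]
      · simp only [lab, Fin.snoc_castSucc, Function.comp_apply]
        exact congrFun (lab_natural L g F.2 (x ∘ F.1.succAbove)) j

/-- The label function: dimension and set of entries. -/
def LL (E : Type u) [DecidableEq E] : ∀ k, Tup E k → ℕ × Finset E := fun k x => (k, univ.image x)

lemma lab_fst [DecidableEq E] : ∀ {n : ℕ} (F : Flag n) (x : Tup E n) (j : Fin (n + 1)),
    (lab (LL E) F x j).1 = j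
  | 0, F, x, j => by
      have : j = 0 := Fin.fin_one_eq_zero j
      subst this
      rfl
  | n + 1, F, x, j => by
      refine Fin.lastCases ?_ (fun j => ?_) j
      · simp [lab, LL]
      · simp only [lab, Fin.snoc_castSucc, Fin.val_castSucc]
        exact lab_fst F.2 (x ∘ F.1.succAbove) j

/-- Every label is the set of entries of a subtuple. -/
lemma lab_snd [DecidableEq E] {n : ℕ} (F : Flag n) (x : Tup E n) (j : Fin (n + 1)) :
    (lab (LL E) F x j).2.Nonempty ∧ (lab (LL E) F x j).2 ⊆ univ.image x := by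
  obtain ⟨k, θ, _, h⟩ := SDT.lab_mem (LL E) F x j
  rw [h]
  refine ⟨⟨x (θ 0), ?_⟩, ?_⟩
  · exact Finset.mem_image.2 ⟨0, Finset.mem_univ _, rfl⟩
  · intro y hy
    obtain ⟨a, _, rfl⟩ := Finset.mem_image.1 hy
    exact Finset.mem_image.2 ⟨θ a, Finset.mem_univ _, rfl⟩

/-- Two positions of label tuples are equal if the facets agree. -/
lemma pos_eq [DecidableEq E] {n : ℕ} {F F' : Flag (n + 1)} {x x' : Tup E (n + 1)}
    {i i' : Fin (n + 2)}
    (h : lab (LL E) F x ∘ i.succAbove = lab (LL E) F' x' ∘ i'.succAbove) : i = i' := by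
  have h1 : i.succAbove = i'.succAbove := by
    funext j
    have := congrArg Prod.fst (congrFun h j)
    simp only [Function.comp_apply, lab_fst] at this
    exact Fin.ext this
  exact Fin.succAbove_left_injective h1

/-- The balance: the weighted number of flags with a given facet of labels vanishes. -/
lemma balance [DecidableEq E] {n : ℕ} (c : Tup E (n + 1) →₀ ℤ) (hc : bdT c = 0) (i : Fin (n + 2))
    (y : Tup (ℕ × Finset E) n) :
    ∑ x ∈ c.support, ∑ F : Flag (n + 1),
      (if lab (LL E) F x ∘ i.succAbove = y then F.sgn * c x else 0) = 0 := by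
  by_cases hex : ∃ (x0 : Tup E (n + 1)) (F0 : Flag (n + 1)), lab (LL E) F0 x0 ∘ i.succAbove = y
  · obtain ⟨x0, F0, h0⟩ := hex
    have h1 : bdT (Sd (LL E) c) = 0 := by rw [SDT.bdT_Sd, hc, map_zero]
    have h2 := DFunLike.congr_fun h1 y
    rw [Finsupp.zero_apply, lin_eq_sum (bdT.comp (Sd (LL E))) c |> (fun h => show
      bdT (Sd (LL E) c) = _ from h), Finsupp.finsetSum_apply] at h2
    have h3 : ∀ x ∈ c.support, ((c x • (bdT.comp (Sd (LL E))) (Finsupp.single x (1 : ℤ))) :
        Tup (ℕ × Finset E) n →₀ ℤ) y = (-1 : ℤ) ^ (i : ℕ) * ∑ F : Flag (n + 1),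
      (if lab (LL E) F x ∘ i.succAbove = y then F.sgn * c x else 0) := by
      intro x _
      rw [LinearMap.comp_apply, SDT.Sd_single, map_sum, Finsupp.smul_apply, Finsupp.finsetSum_apply,
        Finset.mul_sum, Finset.smul_sum]
      refine Finset.sum_congr rfl fun F _ => ?_
      rw [map_smul, SDT.bdT_single, one_smul, Finsupp.smul_apply, Finsupp.finsetSum_apply]
      rw [Finset.sum_eq_single i]
      · rw [Finsupp.smul_apply, Finsupp.single_apply]
        split_ifs with h
        · simp only [smul_eq_mul]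
          ring
        · simp
      · intro i' _ hi'
        rw [Finsupp.smul_apply, Finsupp.single_apply, if_neg, smul_zero]
        intro h
        exact hi' (pos_eq (h.trans h0.symm))
      · intro h
        exact absurd (Finset.mem_univ _) h
    rw [Finset.sum_congr rfl h3, ← Finset.mul_sum] at h2
    rcases mul_eq_zero.1 h2 with h | h
    · exact absurd h (pow_ne_zero _ (by norm_num))
    · exact h
  · push Not at hex
    refine Finset.sum_eq_zero fun x _ => Finset.sum_eq_zero fun F _ => ?_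
    rw [if_neg (hex x F)]

/-! ### connectedness -/

/-- A flag. -/
def flag0 : ∀ n, Flag n
  | 0 => ()
  | n + 1 => ((0 : Fin (n + 2)), flag0 n)

/-- Facets of labels agree. -/
def Adj (L : ∀ k, Tup E k → E') {n : ℕ} (t t' : Tup E (n + 1) × Flag (n + 1)) : Prop :=
  ∃ i : Fin (n + 2), lab L t.2 t.1 ∘ i.succAbove = lab L t'.2 t'.1 ∘ i.succAbove

lemma flags_conn (L : ∀ k, Tup E k → E') : ∀ {n : ℕ} (x : Tup E (n + 1)) (F F' : Flag (n + 1)),
    Relation.ReflTransGen (fun G G' : Flag (n + 1) =>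
      ∃ i : Fin (n + 2), lab L G x ∘ i.succAbove = lab L G' x ∘ i.succAbove) F F'
  | 0, x, F, F' => by
      refine Relation.ReflTransGen.single ⟨0, ?_⟩
      funext j
      have : j = 0 := Fin.fin_one_eq_zero j
      subst this
      have h : (0 : Fin 2).succAbove 0 = Fin.last 1 := rfl
      simp only [Function.comp_apply]
      rw [h]
      simp only [lab, Fin.snoc_last]
  | n + 1, x, F, F' => by
      -- same first entry
      have same : ∀ (p : Fin (n + 3)) (G G' : Flag (n + 1)),
          Relation.ReflTransGen (fun G G' : Flag (n + 2) =>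
            ∃ i : Fin (n + 3), lab L G x ∘ i.succAbove = lab L G' x ∘ i.succAbove)
            ((p, G) : Fin (n + 3) × Flag (n + 1)) ((p, G') : Fin (n + 3) × Flag (n + 1)) := by
        intro p G G'
        have := flags_conn L (x ∘ p.succAbove) G G'
        induction this with
        | refl => exact Relation.ReflTransGen.refl
        | tail _ h ih =>
          refine ih.tail ?_
          obtain ⟨i, hi⟩ := h
          refine ⟨i.castSucc, ?_⟩
          funext j
          refine Fin.lastCases ?_ (fun j => ?_) j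
          · simp [lab]
          · simp only [Function.comp_apply, lab]
            rw [Fin.castSucc_succAbove_castSucc, Fin.snoc_castSucc, Fin.snoc_castSucc]
            exact congrFun hi j
      obtain ⟨p, F⟩ := F
      obtain ⟨p', F'⟩ := F'
      by_cases hp : p' = p
      · subst hp
        exact same _ _ _
      · obtain ⟨q, hq⟩ := Fin.exists_succAbove_eq hp
        refine (same p F (q, flag0 n)).trans (Relation.ReflTransGen.trans ?_
          (same p' (q.predAbove p, flag0 n) F'))
        refine Relation.ReflTransGen.single ⟨(Fin.last (n + 1)).castSucc, ?_⟩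
        subst hq
        funext j
        refine Fin.lastCases ?_ (fun j => ?_) j
        · simp [lab]
        · simp only [Function.comp_apply, lab]
          rw [Fin.castSucc_succAbove_castSucc, Fin.snoc_castSucc, Fin.snoc_castSucc,
            Fin.succAbove_last, Fin.snoc_castSucc, Fin.snoc_castSucc]
          have : (x ∘ (p.succAbove q).succAbove) ∘ (q.predAbove p).succAbove =
              (x ∘ p.succAbove) ∘ q.succAbove := by
            funext l
            simp only [Function.comp_apply]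
            rw [Fin.succAbove_succAbove_succAbove_predAbove]
          rw [this]

end lab

/-! ### types -/

section types

variable {N : ℕ}

open Classical in
/-- Near tuples of points of `D`. -/
noncomputable def TS (n : ℕ) (D : Finset (Fin N → ℤ)) : Finset (Tup (Fin N → ℤ) (n + 1)) :=
  (Fintype.piFinset fun _ => D).filter fun x => ∀ a b i, |x a i - x b i| ≤ 2

lemma mem_TS {n : ℕ} {D : Finset (Fin N → ℤ)} {x : Tup (Fin N → ℤ) (n + 1)} :
    x ∈ TS n D ↔ (∀ a, x a ∈ D) ∧ ∀ a b i, |x a i - x b i| ≤ 2 := by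
  simp [TS, Fintype.mem_piFinset]

/-- Types. -/
abbrev Typ (n : ℕ) (D : Finset (Fin N → ℤ)) : Type := ↥(TS n D) × Flag (n + 1)

/-- Keys. -/
def kap {n : ℕ} {D : Finset (Fin N → ℤ)} (i : Fin (n + 2)) (t : Typ n D) :
    Tup (ℕ × Finset (Fin N → ℤ)) n :=
  lab (LL _) t.2 t.1.1 ∘ i.succAbove

/-- Connectedness of types. -/
def RT {n : ℕ} {D : Finset (Fin N → ℤ)} (t t' : Typ n D) : Prop :=
  Relation.ReflTransGen (fun t t' : Typ n D => ∃ i, kap i t = kap i t') t t'

lemma RT_same {n : ℕ} {D : Finset (Fin N → ℤ)} (x : ↥(TS n D)) (F F' : Flag (n + 1)) :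
    RT (x, F) (x, F') := by
  refine Relation.ReflTransGen.lift (fun F => ((x, F) : Typ n D)) ?_ _ _
    (flags_conn (LL _) x.1 F F')
  rintro G G' ⟨i, hi⟩
  exact ⟨i, hi⟩

lemma RT_facet {n : ℕ} {D : Finset (Fin N → ℤ)} (x x' : ↥(TS n D)) (F F' : Flag (n + 1))
    (j : Fin (n + 2)) (h : x.1 ∘ j.succAbove = x'.1 ∘ j.succAbove) : RT (x, F) (x', F') := by
  refine Relation.ReflTransGen.trans (RT_same x F (j, flag0 n))
    (Relation.ReflTransGen.trans (Relation.ReflTransGen.single ⟨Fin.last (n + 1), ?_⟩)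
      (RT_same x' (j, flag0 n) F'))
  funext l
  simp only [kap, lab, Function.comp_apply, Fin.succAbove_last, Fin.snoc_castSucc]
  rw [h]

lemma RT_near {n : ℕ} {D : Finset (Fin N → ℤ)} (x x' : ↥(TS n D)) (F F' : Flag (n + 1))
    (h : ∀ a b i, |x.1 a i - x'.1 b i| ≤ 2) : RT (x, F) (x', F') := by
  classical
  have hx := mem_TS.1 x.2
  have hx' := mem_TS.1 x'.2
  have hmem : ∀ s : Finset (Fin (n + 2)), s.piecewise x'.1 x.1 ∈ TS n D := by
    intro s
    rw [mem_TS]
    constructor
    · intro a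
      by_cases ha : a ∈ s
      · simpa [ha] using hx'.1 a
      · simpa [ha] using hx.1 a
    · intro a b i
      by_cases ha : a ∈ s <;> by_cases hb : b ∈ s <;> simp only [ha, hb,
        Finset.piecewise_eq_of_mem, Finset.piecewise_eq_of_notMem, not_false_eq_true]
      · exact hx'.2 a b i
      · rw [abs_sub_comm]; exact h b a i
      · exact h a b i
      · exact hx.2 a b i
  have key : ∀ s : Finset (Fin (n + 2)), RT (x, F) (⟨s.piecewise x'.1 x.1, hmem s⟩, F') := by
    intro s
    induction s using Finset.induction_on with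
    | empty =>
      have : (⟨(∅ : Finset (Fin (n + 2))).piecewise x'.1 x.1, hmem ∅⟩ : ↥(TS n D)) = x := by
        ext1
        simp
      rw [this]
      exact RT_same _ _ _
    | insert a s ha ih =>
      refine Relation.ReflTransGen.trans ih (RT_facet _ _ _ _ a ?_)
      funext l
      have hl : a.succAbove l ≠ a := Fin.succAbove_ne a l
      by_cases hs : a.succAbove l ∈ s
      · simp [Finset.piecewise, hs]
      · simp [Finset.piecewise, hs, hl]
  have h1 := key Finset.univ
  have : (⟨(Finset.univ : Finset (Fin (n + 2))).piecewise x'.1 x.1, hmem Finset.univ⟩ :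
      ↥(TS n D)) = x' := by
    ext1
    simp
  rwa [this] at h1

lemma const_mem_TS (n : ℕ) {D : Finset (Fin N → ℤ)} {p : Fin N → ℤ} (hp : p ∈ D) :
    (fun _ => p : Tup (Fin N → ℤ) (n + 1)) ∈ TS n D :=
  mem_TS.2 ⟨fun _ => hp, fun _ _ _ => by simp⟩

lemma RT_const {n : ℕ} {D : Finset (Fin N → ℤ)} {p q : Fin N → ℤ} (hp : p ∈ D) (hq : q ∈ D)
    (h : Relation.ReflTransGen (fun a b => a ∈ D ∧ b ∈ D ∧ ∀ i, |a i - b i| ≤ 1) p q)
    (F F' : Flag (n + 1)) :
    RT (⟨fun _ => p, const_mem_TS n hp⟩, F) (⟨fun _ => q, const_mem_TS n hq⟩, F') := by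
  induction h generalizing F' with
  | refl => exact RT_same _ _ _
  | tail _ h ih =>
    refine Relation.ReflTransGen.trans (ih h.1 F') (RT_near _ _ _ _ ?_)
    intro a b i
    exact (h.2.2 i).trans (by norm_num)

lemma RT_all {n : ℕ} {D : Finset (Fin N → ℤ)}
    (hD : ∀ x ∈ D, ∀ y ∈ D, Relation.ReflTransGen
        (fun a b => a ∈ D ∧ b ∈ D ∧ ∀ i, |a i - b i| ≤ 1) x y) (t t' : Typ n D) : RT t t' := by
  obtain ⟨x, F⟩ := t
  obtain ⟨x', F'⟩ := t'
  have hx := mem_TS.1 x.2
  have hx' := mem_TS.1 x'.2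
  refine Relation.ReflTransGen.trans (RT_near x ⟨fun _ => x.1 0, const_mem_TS n (hx.1 0)⟩ F F
    (fun a b i => hx.2 a 0 i)) (Relation.ReflTransGen.trans
      (RT_const (hx.1 0) (hx'.1 0) (hD _ (hx.1 0) _ (hx'.1 0)) F F')
      (RT_near _ _ _ _ (fun a b i => hx'.2 0 b i)))

lemma sgn_eq : ∀ {n : ℕ} (F : Flag n), F.sgn = 1 ∨ F.sgn = -1
  | 0, F => Or.inl rfl
  | n + 1, F => by
      have h : Flag.sgn F = (-1) ^ (n + 1 + (F.1 : ℕ)) * Flag.sgn F.2 := rfl
      rw [h]
      rcases neg_one_pow_eq_or ℤ (n + 1 + (F.1 : ℕ)) with h1 | h1 <;>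
      rcases sgn_eq F.2 with h2 | h2 <;> rw [h1, h2] <;> simp

lemma card_box (p : Fin N → ℤ) : (Finset.Icc (p - 2) (p + 2)).card = 5 ^ N := by
  rw [Pi.card_Icc]
  simp only [Pi.add_apply, Pi.sub_apply, Pi.ofNat_apply, Int.card_Icc]
  have : ∀ i, (p i + 2 + 1 - (p i - 2)).toNat = 5 := by
    intro i
    have : p i + 2 + 1 - (p i - 2) = 5 := by ring
    rw [this]
    rfl
  simp [this]

lemma count {n : ℕ} {D : Finset (Fin N → ℤ)} (Np Nm : Typ n D → ℕ) (K : ℕ)
    (hK : ∀ t, Np t + Nm t ≤ K) (v : Finset (Fin N → ℤ)) (hv : v.Nonempty) (i : Fin (n + 2)) :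
    {u : Σ t : Typ n D, Fin (Np t) ⊕ Fin (Nm t) | (lab (LL _) u.1.2 u.1.1.1 i).2 = v}.ncard ≤
      (5 ^ N) ^ (n + 2) * Fintype.card (Flag (n + 1)) * K := by
  classical
  obtain ⟨p, hp⟩ := hv
  rw [Set.ncard_eq_toFinset_card']
  have h1 : {u : Σ t : Typ n D, Fin (Np t) ⊕ Fin (Nm t) |
      (lab (LL _) u.1.2 u.1.1.1 i).2 = v}.toFinset ⊆
      (Finset.univ.filter fun t : Typ n D => (lab (LL _) t.2 t.1.1 i).2 = v).sigma
        (fun _ => Finset.univ) := by
    intro u hu
    simp only [Set.mem_toFinset, Set.mem_ofPred_eq] at hu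
    simp [hu]
  refine (Finset.card_le_card h1).trans ?_
  rw [Finset.card_sigma]
  have h2 : ∑ t ∈ (Finset.univ.filter fun t : Typ n D => (lab (LL _) t.2 t.1.1 i).2 = v),
      (Finset.univ : Finset (Fin (Np t) ⊕ Fin (Nm t))).card ≤
      (Finset.univ.filter fun t : Typ n D => (lab (LL _) t.2 t.1.1 i).2 = v).card * K := by
    refine Finset.sum_le_card_nsmul _ _ K (fun t _ => ?_) |>.trans (by simp)
    simpa using hK t
  refine h2.trans (Nat.mul_le_mul_right K ?_)
  have h3 : ((Fintype.piFinset fun _ : Fin (n + 2) => Finset.Icc (p - 2) (p + 2)) ×ˢ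
      (Finset.univ : Finset (Flag (n + 1)))).card = (5 ^ N) ^ (n + 2) * Fintype.card (Flag (n + 1)) := by
    rw [Finset.card_product, Fintype.card_piFinset, Finset.card_univ]
    simp [card_box]
  rw [← h3]
  refine Finset.card_le_card_of_injOn (fun t : Typ n D => (t.1.1, t.2)) ?_ ?_
  · intro t ht
    simp only [Finset.coe_filter, Finset.mem_univ, true_and, Set.mem_ofPred_eq] at ht
    simp only [Finset.coe_product, Set.mem_prod, Finset.mem_coe, Fintype.mem_piFinset,
      Finset.mem_univ, and_true]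
    intro a
    have hp' : p ∈ Finset.univ.image t.1.1 := (lab_snd t.2 t.1.1 i).2 (ht ▸ hp)
    obtain ⟨b, _, hb⟩ := Finset.mem_image.1 hp'
    have := (mem_TS.1 t.1.2).2 a b
    rw [Finset.mem_Icc, ← hb]
    constructor
    · intro l
      have := this l
      rw [abs_le] at this
      simp only [Pi.sub_apply, Pi.ofNat_apply]
      linarith [this.1]
    · intro l
      have := this l
      rw [abs_le] at this
      simp only [Pi.add_apply, Pi.ofNat_apply]
      linarith [this.2]
  · rintro ⟨x, F⟩ _ ⟨x', F'⟩ _ h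
    simp only [Prod.mk.injEq] at h
    exact Prod.ext (Subtype.ext h.1) h.2

end types

/-! ### closed simplices of `RP P` -/

section KK

variable {P : Type} [Fintype P] [PartialOrder P]

/-- The closed simplex with vertex set `t`. -/
def KK (t : Set P) : Set (P → ℝ) :=
  {x | (∀ p, 0 ≤ x p) ∧ ∑ p, x p = 1 ∧ ∀ p, x p ≠ 0 → p ∈ t}

lemma convex_KK (t : Set P) : Convex ℝ (KK t) := by
  intro x hx y hy a b ha hb hab
  refine ⟨fun p => ?_, ?_, fun p hp => ?_⟩
  · simp only [Pi.add_apply, Pi.smul_apply, smul_eq_mul]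
    exact add_nonneg (mul_nonneg ha (hx.1 p)) (mul_nonneg hb (hy.1 p))
  · simp only [Pi.add_apply, Pi.smul_apply, smul_eq_mul]
    rw [Finset.sum_add_distrib, ← Finset.mul_sum, ← Finset.mul_sum, hx.2.1, hy.2.1]
    linarith
  · by_contra hcon
    apply hp
    have h1 : x p = 0 := by
      by_contra h
      exact hcon (hx.2.2 p h)
    have h2 : y p = 0 := by
      by_contra h
      exact hcon (hy.2.2 p h)
    simp [h1, h2]

lemma KK_subset {t : Set P} (ht : IsChain (· ≤ ·) t) : KK t ⊆ RP P := fun _ hx =>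
  ⟨hx.1, hx.2.1, ht.mono fun p hp => hx.2.2 p hp⟩

lemma vert_mem {t : Set P} {p : P} (hp : p ∈ t) : vert p ∈ KK t := by
  classical
  refine ⟨fun q => ?_, ?_, fun q hq => ?_⟩
  · unfold vert
    by_cases h : q = p
    · subst h; simp
    · simp [Pi.single_eq_of_ne h]
  · unfold vert
    simp
  · unfold vert at hq
    by_cases h : q = p
    · exact h ▸ hp
    · exact absurd (by simp [Pi.single_eq_of_ne h]) hq

/-- The average of the vertices `ψ p`, `p ∈ v`. -/
noncomputable def av {E : Type} (ψ : E → P) (v : Finset E) : P → ℝ :=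
  ∑ p ∈ v, ((v.card : ℝ)⁻¹) • vert (ψ p)

lemma av_mem {E : Type} (ψ : E → P) (v : Finset E) (hv : v.Nonempty) {t : Set P}
    (h : ∀ p ∈ v, ψ p ∈ t) : av ψ v ∈ KK t := by
  refine (convex_KK t).sum_mem (fun p _ => by positivity) ?_ (fun p hp => vert_mem (h p hp))
  rw [Finset.sum_const, nsmul_eq_mul, mul_inv_cancel₀]
  exact_mod_cast hv.card_pos.ne'

lemma aff_mem {t : Set P} {k : ℕ} (y : Tup (P → ℝ) k) (hy : ∀ j, y j ∈ KK t) :
    Set.range (aff y) ⊆ KK t := by
  rintro _ ⟨s, rfl⟩
  exact (convex_KK t).sum_mem (fun j _ => s.2.1 j) s.2.2 (fun j _ => hy j)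

lemma suppIn_affS {k : ℕ} (b : Tup (P → ℝ) k →₀ ℤ)
    (h : ∀ y ∈ b.support, ∃ t : Set P, IsChain (· ≤ ·) t ∧ ∀ j, y j ∈ KK t) :
    SuppIn (RP P) (affS b) := by
  intro σ hσ
  obtain ⟨y, hy, hyσ⟩ := mem_support_lin affS b hσ
  rw [affS_single] at hyσ
  have h1 := Finsupp.support_single_subset hyσ
  rw [Finset.mem_singleton] at h1
  subst h1
  obtain ⟨t, ht, hyt⟩ := h y hy
  exact (aff_mem y hyt).trans (KK_subset ht)

lemma suppIn_add {E : Type u} [TopologicalSpace E] {Y : Set E} {k : ℕ} {b b' : Chain E k}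
    (h : SuppIn Y b) (h' : SuppIn Y b') : SuppIn Y (b + b') := by
  classical
  intro σ hσ
  rcases Finset.mem_union.1 (Finsupp.support_add hσ) with h1 | h1
  · exact h σ h1
  · exact h' σ h1

end KK

end Types

open Classical in
theorem specLattice (hPack : SpecPack) (hMatch : SpecMatch) : SpecLattice := by
  intro n
  obtain ⟨A, N, hPack⟩ := hPack n
  refine ⟨(5 ^ N) ^ (n + 2) * Fintype.card (Flag (n + 1)) * (A + 4), ?_⟩
  intro P _ _ hP hPC ζ hζ hζc F₀ hF₀
  obtain ⟨D, ψ, c, hc, hcs, hcA, hψ, hD, hcard, hne, b2, hb2, hb2'⟩ :=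
    hPack P hP hPC ζ hζ hζc (F₀ + 1)
  -- the support of `c`
  have hsupp : c.support ⊆ Types.TS n D := fun x hx => Types.mem_TS.2 (hcs x hx)
  -- weights
  let w : Types.Typ n D → ℤ := fun t => t.2.sgn * c t.1.1
  have hwA : ∀ t, |w t| ≤ A := by
    intro t
    have h1 : |w t| = |c t.1.1| := by
      simp only [w, abs_mul]
      rcases Types.sgn_eq t.2 with h | h <;> rw [h] <;> simp
    rw [h1]
    exact hcA _
  -- number of extra elements
  obtain ⟨p0, hp0⟩ := hne
  have hTyp : F₀ + 1 ≤ (Finset.univ : Finset (Types.Typ n D)).card := by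
    refine hcard.trans ?_
    have : (D.attach.image fun p => ((⟨fun _ => p.1, Types.const_mem_TS n p.2⟩,
        Types.flag0 (n + 1)) : Types.Typ n D)).card = D.card := by
      rw [Finset.card_image_of_injective, Finset.card_attach]
      intro p q h
      have h1 := congrArg (fun t : Types.Typ n D => t.1.1 0) h
      exact Subtype.ext h1
    rw [← this]
    exact Finset.card_le_card (Finset.subset_univ _)
  let base : ℕ := ∑ t : Types.Typ n D, ((w t).toNat + 1)
  have hbase : base % F₀ < F₀ := Nat.mod_lt _ hF₀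
  obtain ⟨Ex, -, hEx⟩ := Finset.exists_subset_card_eq (s := (Finset.univ : Finset (Types.Typ n D)))
    (n := F₀ - base % F₀ + 1) (by omega)
  let Np : Types.Typ n D → ℕ := fun t => (w t).toNat + 1 + if t ∈ Ex then 1 else 0
  let Nm : Types.Typ n D → ℕ := fun t => (-w t).toNat + 1 + if t ∈ Ex then 1 else 0
  have hNpNm : ∀ t, (Np t : ℤ) - Nm t = w t := by
    intro t
    simp only [Np, Nm]
    push_cast
    have := Int.toNat_sub_toNat_neg (w t)
    linarith
  have hNsum : ∀ t, Np t + Nm t ≤ A + 4 := by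
    intro t
    have h1 := hwA t
    simp only [Np, Nm]
    rw [abs_le] at h1
    split_ifs <;> omega
  have hsumNp : ∑ t, Np t = F₀ * (base / F₀ + 1) + 1 := by
    have h1 : ∑ t, Np t = base + Ex.card := by
      simp only [Np]
      rw [Finset.sum_add_distrib]
      simp [base]
    rw [h1, hEx]
    have h2 := Nat.div_add_mod base F₀
    have h3 : F₀ * (base / F₀ + 1) = F₀ * (base / F₀) + F₀ := by ring
    rw [h3]
    omega
  -- nonempty
  have : Nonempty (Types.Typ n D) := ⟨(⟨fun _ => p0, Types.const_mem_TS n hp0⟩, Types.flag0 _)⟩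
  -- balance
  have hbal : ∀ (i : Fin (n + 2)) (κ₀ : Tup (ℕ × Finset (Fin N → ℤ)) n),
      ∑ t with Types.kap (D := D) i t = κ₀, Np t = ∑ t with Types.kap (D := D) i t = κ₀, Nm t := by
    intro i κ₀
    have h1 : ∑ t with Types.kap (D := D) i t = κ₀, w t = 0 := by
      rw [Finset.sum_filter]
      have h2 := Types.balance c hc i κ₀
      rw [Finset.sum_subset hsupp (f := fun x => ∑ F : Flag (n + 1),
        (if lab (Types.LL _) F x ∘ i.succAbove = κ₀ then F.sgn * c x else 0))] at h2
      · rw [← Finset.sum_coe_sort (Types.TS n D), ← Fintype.sum_prod_type'] at h2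
        rw [← h2]
        refine Finset.sum_congr rfl fun t _ => ?_
        simp only [Types.kap, w]
        congr
      · intro x _ hx
        have : c x = 0 := by simpa using hx
        simp [this]
    have h2 : (∑ t with Types.kap (D := D) i t = κ₀, (Np t : ℤ)) -
        ∑ t with Types.kap (D := D) i t = κ₀, (Nm t : ℤ) = 0 := by
      rw [← Finset.sum_sub_distrib, ← h1]
      exact Finset.sum_congr rfl fun t _ => hNpNm t
    have h3 := sub_eq_zero.1 h2
    exact_mod_cast h3
  obtain ⟨C, hconn, hkap, hεp, hεm⟩ := hMatch n (Types.Typ n D)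
    (fun _ => Tup (ℕ × Finset (Fin N → ℤ)) n) (fun i => Types.kap i) Np Nm
    (fun t => ⟨by simp only [Np]; omega, by simp only [Nm]; omega⟩)
    (fun i κ₀ => by convert hbal i κ₀)
    (fun t t' => Types.RT_all hD t t')
  -- labels
  let g : ℕ × Finset (Fin N → ℤ) → P → ℝ := fun q => Types.av ψ q.2
  let β : (Σ t, Fin (Np t) ⊕ Fin (Nm t)) → Tup (P → ℝ) (n + 1) :=
    fun u => g ∘ lab (Types.LL _) u.1.2 u.1.1.1
  have hlabel : ∀ (i : Fin (n + 2)) (u : Σ t, Fin (Np t) ⊕ Fin (Nm t)) (k : Fin (n + 2)), k ≠ i →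
      lab (Types.LL _) (C.a i u).1.2 (C.a i u).1.1.1 k = lab (Types.LL _) u.1.2 u.1.1.1 k := by
    intro i u k hk
    obtain ⟨l, rfl⟩ := Fin.exists_succAbove_eq hk
    exact congrFun (hkap i u) l
  -- closed simplices
  have hchain : ∀ x ∈ Types.TS n D, IsChain (· ≤ ·) (ψ '' (Set.range x)) := by
    intro x hx
    have hx := Types.mem_TS.1 hx
    have := hψ (Finset.univ.image x) (by
      intro y hy
      obtain ⟨a, _, rfl⟩ := Finset.mem_image.1 hy
      exact hx.1 a) (by
      intro y hy z hz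
      obtain ⟨a, _, rfl⟩ := Finset.mem_image.1 hy
      obtain ⟨b, _, rfl⟩ := Finset.mem_image.1 hz
      exact hx.2 a b)
    simpa using this
  have hLmem : ∀ (x : Tup (Fin N → ℤ) (n + 1)) (k : ℕ) (θ : Fin (k + 1) → Fin (n + 2)),
      Types.av ψ (Finset.univ.image (x ∘ θ)) ∈ Types.KK (ψ '' (Set.range x)) := by
    intro x k θ
    refine Types.av_mem ψ _ ⟨x (θ 0), Finset.mem_image.2 ⟨0, Finset.mem_univ _, rfl⟩⟩ ?_
    intro p hp
    obtain ⟨a, _, rfl⟩ := Finset.mem_image.1 hp
    exact ⟨_, ⟨θ a, rfl⟩, rfl⟩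
  refine ⟨_, inferInstance, ?_, C, β, hconn, ?_, ?_, ?_, ?_, ?_⟩
  · exact ⟨⟨(⟨fun _ => p0, Types.const_mem_TS n hp0⟩, Types.flag0 _), Sum.inl ⟨0, by
      simp only [Np]; omega⟩⟩⟩
  · -- the star bound
    intro i u
    refine le_trans (Set.ncard_le_ncard ?_ (Set.toFinite _)) (Types.count Np Nm (A + 4) hNsum
      (lab (Types.LL _) u.1.2 u.1.1.1 i).2 (Types.lab_snd _ _ _).1 i)
    rintro u' ⟨wd, hwd, rfl⟩
    simp only [Set.mem_ofPred_eq]
    congr 1
    clear hwA
    induction wd with
    | nil => rfl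
    | cons j wd ih =>
      have hj : j ≠ i := by simpa using hwd j (by simp)
      rw [← ih (fun l hl => hwd l (List.mem_cons_of_mem _ hl))]
      exact hlabel j (C.act wd u) i hj.symm
  · intro i u k hk
    exact congrArg g (hlabel i u k hk)
  · intro u
    refine ⟨ψ '' (Set.range u.1.1.1), hchain _ u.1.1.2, fun k => ?_⟩
    obtain ⟨k', θ, _, h⟩ := SDT.lab_mem (Types.LL _) u.1.2 u.1.1.1 k
    have h1 : β u k ∈ Types.KK (ψ '' (Set.range u.1.1.1)) := by
      have h2 : β u k = Types.av ψ (Finset.univ.image (u.1.1.1 ∘ θ)) := by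
        simp only [β, g, Function.comp_apply]
        rw [h]
        rfl
      rw [h2]
      exact hLmem _ _ _
    exact ⟨Types.KK_subset (hchain _ u.1.1.2) h1, h1.2.2⟩
  · -- the number of positive elements
    have h1 : {u | C.ε u = 1}.ncard = ∑ t, Np t := by
      have h2 : {u | C.ε u = 1} = Set.range (fun s : (Σ t, Fin (Np t)) =>
          (⟨s.1, Sum.inl s.2⟩ : Σ t, Fin (Np t) ⊕ Fin (Nm t))) := by
        ext ⟨t, j⟩
        simp only [Set.mem_ofPred_eq, Set.mem_range]
        constructor
        · intro h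
          rcases j with j | j
          · exact ⟨⟨t, j⟩, rfl⟩
          · rw [hεm] at h
            norm_num at h
        · rintro ⟨⟨t', j'⟩, h⟩
          rw [← h]
          exact hεp _ _
      rw [h2, ← Set.image_univ, Set.ncard_image_of_injective, Set.ncard_univ, Nat.card_eq_fintype_card,
        Fintype.card_sigma]
      · simp
      · rintro ⟨t, j⟩ ⟨t', j'⟩ h
        simp only [Sigma.mk.injEq] at h
        obtain ⟨h1, h2⟩ := h
        subst h1
        simpa using h2
    rw [h1, hsumNp]
    simp [Nat.coprime_mul_left_add_left]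
  · -- the class
    have hsum : (∑ u, Finsupp.single (aff (β u)) (C.ε u)) =
        affS (Sd (fun k x => g (Types.LL _ k x)) c) := by
      rw [Fintype.sum_sigma]
      have h1 : ∀ t : Types.Typ n D, ∑ j : Fin (Np t) ⊕ Fin (Nm t),
          Finsupp.single (aff (β ⟨t, j⟩)) (C.ε ⟨t, j⟩) =
          Finsupp.single (aff (g ∘ lab (Types.LL _) t.2 t.1.1)) (t.2.sgn * c t.1.1) := by
        intro t
        rw [Fintype.sum_sum_type]
        simp only [hεp, hεm, β]
        rw [Finset.sum_const, Finset.sum_const, Finset.card_univ, Finset.card_univ,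
          Fintype.card_fin, Fintype.card_fin, ← Finsupp.smul_single_one _ (t.2.sgn * c t.1.1)]
        have h2 := hNpNm t
        simp only [w] at h2
        rw [← h2, Finsupp.single_neg]
        module
      rw [Finset.sum_congr rfl fun t _ => h1 t]
      rw [Fintype.sum_prod_type, Finset.sum_coe_sort (Types.TS n D) (fun x => ∑ F : Flag (n + 1),
        Finsupp.single (aff (g ∘ lab (Types.LL _) F x)) (F.sgn * c x))]
      rw [← Finset.sum_subset hsupp]
      · rw [lin_eq_sum (affS.comp (Sd (fun k x => g (Types.LL _ k x)))) c |> (fun h => show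
          affS (Sd (fun k x => g (Types.LL _ k x)) c) = _ from h)]
        refine Finset.sum_congr rfl fun x _ => ?_
        rw [LinearMap.comp_apply, SDT.Sd_single, map_sum, Finset.smul_sum]
        refine Finset.sum_congr rfl fun F _ => ?_
        rw [map_smul, affS_single, Types.lab_natural, smul_smul, Finsupp.smul_single]
        simp [mul_comm]
      · intro x _ hx
        have : c x = 0 := by simpa using hx
        simp [this]
    obtain ⟨b1, hb1, hs1⟩ := specSdHom' (fun k x => g (Types.LL _ k x)) (vert ∘ ψ) n c hc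
    refine ⟨affS b1 + b2, Types.suppIn_add (Types.suppIn_affS b1 ?_) hb2, ?_⟩
    · intro y hy
      obtain ⟨x, hx, h⟩ := hs1 y hy
      refine ⟨ψ '' (Set.range x), hchain _ (hsupp hx), fun j => ?_⟩
      rcases h j with ⟨i, hi⟩ | ⟨k, θ, _, hk⟩
      · rw [hi]
        exact Types.vert_mem ⟨_, ⟨i, rfl⟩, rfl⟩
      · rw [hk]
        exact hLmem _ _ _
    · rw [map_add, hb2', hsum, ← affS_bdT, hb1, map_sub, ← mapT_comp]
      abel

end MPb00168
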