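import Pool.Agent.Lib.MP_b00168_gt.Spec
import Pool.Agent.Lib.MP_b00168_gt.Transfer
import Pool.Agent.Lib.MP_b00168_gt.ZC
import Pool.Agent.Lib.MP_b00168_gt.Final
import Pool.Agent.Lib.MP_b00168_gt.SDT
import Pool.Agent.Lib.MP_b00168_gt.Local
import Pool.Agent.Lib.MP_b00168_gt.Cover
import Pool.Agent.Lib.MP_b00168_gt.Top
import Pool.Agent.Lib.MP_b00168_gt.PACK
import Pool.Agent.Lib.MP_b00168_gt.Types
import Pool.Agent.Lib.MP_b00168_gt.Gen
import Pool.Agent.Lib.MP_b00168_gt.Arc

section
set_option autoImplicit false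

/-! # MP_b00168_gt : module PUSH -/

namespace MPb00168

universe u

namespace Push

open Finset

/-- The barycentre of a set of vertices of the standard simplex. -/
noncomputable def bJ {N : ℕ} (J : Finset (Fin (N + 1))) : Fin (N + 1) → ℝ :=
  fun i => if i ∈ J then (J.card : ℝ)⁻¹ else 0

lemma bJ_mem {N : ℕ} (J : Finset (Fin (N + 1))) (hJ : J.Nonempty) :
    bJ J ∈ stdSimplex ℝ (Fin (N + 1)) := by
  have hc : (J.card : ℝ) ≠ 0 := by
    have := Finset.card_pos.mpr hJ
    positivity
  refine ⟨fun i => ?_, ?_⟩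
  · unfold bJ
    split_ifs
    · positivity
    · exact le_refl _
  · unfold bJ
    rw [← Finset.sum_filter]
    simp [hc]

lemma bJ_zero {N : ℕ} {J : Finset (Fin (N + 1))} {i : Fin (N + 1)} (hi : i ∉ J) : bJ J i = 0 := by
  simp [bJ, hi]

lemma bary_single {N m : ℕ} (y : Tup (Fin (N + 1)) m) (hy : Function.Injective y) :
    bary m (fun j => (Pi.single (y j) 1 : Fin (N + 1) → ℝ)) = bJ (Finset.univ.image y) := by
  classical
  have hcard : (Finset.univ.image y).card = m + 1 := by
    rw [Finset.card_image_of_injective _ hy, Finset.card_univ, Fintype.card_fin]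
  funext i
  unfold bary bJ
  rw [hcard]
  simp only [Pi.smul_apply, Finset.sum_apply, Pi.single_apply, smul_eq_mul]
  by_cases hi : i ∈ Finset.univ.image y
  · rw [if_pos hi]
    obtain ⟨j, -, rfl⟩ := Finset.mem_image.mp hi
    rw [Finset.sum_eq_single j]
    · push_cast; simp
    · intro b _ hb
      rw [if_neg]
      intro h
      exact hb (hy h).symm
    · intro h; exact absurd (Finset.mem_univ j) h
  · rw [if_neg hi, Finset.sum_eq_zero, mul_zero]
    intro j _
    rw [if_neg]
    intro h
    exact hi (Finset.mem_image.mpr ⟨j, Finset.mem_univ _, h.symm⟩)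

lemma lab_bary {N : ℕ} : ∀ {m : ℕ} (F : Flag m) (y : Tup (Fin (N + 1)) m)
    (_ : Function.Injective y) (k : Fin (m + 1)),
    ((lab baryD F (fun i => vertsD N (y i)) k : stdSimplex ℝ (Fin (N + 1))) : Fin (N + 1) → ℝ) =
      bJ (lab (fun _ x => Finset.univ.image x) F y k)
  | 0, _, y, hy, k => by
      exact bary_single y hy
  | m + 1, F, y, hy, k => by
      refine Fin.lastCases ?_ (fun j => ?_) k
      · simp only [lab, Fin.snoc_last]
        exact bary_single y hy
      · simp only [lab, Fin.snoc_castSucc]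
        exact lab_bary F.2 (y ∘ F.1.succAbove)
          (hy.comp Fin.succAbove_right_injective) j

/-- A point with vanishing `j`-th coordinate lies in the `j`-th face. -/
lemma exists_faceMap {k : ℕ} (j : Fin (k + 2)) (t : stdSimplex ℝ (Fin (k + 2)))
    (ht : (t : Fin (k + 2) → ℝ) j = 0) : ∃ t', faceMap k j t' = t := by
  refine ⟨⟨fun m => (t : Fin (k + 2) → ℝ) (j.succAbove m), ?_, ?_⟩, ?_⟩
  · intro m; exact t.2.1 _
  · have h : ∑ i, (t : Fin (k + 2) → ℝ) i = 1 := t.2.2
    rw [Fin.sum_univ_succAbove _ j, ht, zero_add] at h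
    exact h
  · apply Subtype.ext
    funext i
    rcases Fin.eq_self_or_eq_succAbove j i with h | ⟨m, hm⟩
    · rw [h]
      exact (faceMap_apply_self j _).trans ht.symm
    · rw [hm]
      exact faceMap_apply j _ m

variable {n : ℕ} {S : Type} [Fintype S] (C : Colored n S)

/-- The barycentric map to the standard simplex (on colours). -/
noncomputable def beta (x : RP C.Cells) : stdSimplex ℝ (Fin (n + 2)) :=
  ⟨∑ q, x.1 q • bJ q.1.1, (convex_stdSimplex ℝ (Fin (n + 2))).sum_mem (fun q _ => x.2.1 q)
    x.2.2.1 (fun q _ => bJ_mem _ q.2.1)⟩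

lemma beta_cont : Continuous (beta C) := by
  refine Continuous.subtype_mk ?_ _
  refine continuous_finsetSum _ fun q _ => ?_
  exact ((continuous_apply q).comp continuous_subtype_val).smul continuous_const

/-- The set of points whose support consists of cells of `s`. -/
def Good (s : S) : Set (RP C.Cells) :=
  {x | ∀ q : C.Cells, x.1 q ≠ 0 → s ∈ OrderDual.ofDual q.1.2}

lemma exists_top (x : RP C.Cells) :
    ∃ q : C.Cells, x.1 q ≠ 0 ∧ ∀ q', x.1 q' ≠ 0 → q' ≤ q := by
  classical
  have hne : (Finset.univ.filter fun q : C.Cells => x.1 q ≠ 0).Nonempty := by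
    by_contra h
    rw [Finset.not_nonempty_iff_eq_empty, Finset.filter_eq_empty_iff] at h
    have h1 := x.2.2.1
    rw [Finset.sum_eq_zero fun q hq => not_not.mp (h hq)] at h1
    exact zero_ne_one h1
  obtain ⟨q, hq⟩ := Finset.exists_maximal hne
  have hq0 : x.1 q ≠ 0 := (Finset.mem_filter.mp hq.1).2
  refine ⟨q, hq0, ?_⟩
  intro q' hq'
  by_cases he : q' = q
  · rw [he]
  · rcases x.2.2.2 hq' hq0 he with h | h
    · exact h
    · exact hq.2 (Finset.mem_filter.mpr ⟨Finset.mem_univ _, hq'⟩) h

lemma exists_good (x : RP C.Cells) : ∃ s, x ∈ Good C s := by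
  obtain ⟨q, -, hq⟩ := exists_top C x
  obtain ⟨-, s, hs⟩ := q.2
  refine ⟨s, ?_⟩
  intro q' hq'
  have h : OrderDual.ofDual q.1.2 ⊆ OrderDual.ofDual q'.1.2 := (hq q' hq').2
  apply h
  rw [hs]
  exact C.self_mem_cell _ _

lemma isClosed_good (s : S) : IsClosed (Good C s) := by
  have h : Good C s = ⋂ q : C.Cells, {x : RP C.Cells | x.1 q ≠ 0 → s ∈ OrderDual.ofDual q.1.2} := by
    ext x
    simp [Good]
  rw [h]
  refine isClosed_iInter fun q => ?_
  by_cases hs : s ∈ OrderDual.ofDual q.1.2
  · convert isClosed_univ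
    ext x
    simp [hs]
  · have h2 : {x : RP C.Cells | x.1 q ≠ 0 → s ∈ OrderDual.ofDual q.1.2} =
        {x : RP C.Cells | x.1 q = 0} := by
      ext x
      constructor
      · intro h
        by_contra h3
        exact hs (h h3)
      · intro h h3
        exact absurd h h3
    rw [h2]
    exact isClosed_eq ((continuous_apply q).comp continuous_subtype_val) continuous_const

variable {X : Type u} [TopologicalSpace X] (σ : S → Sing X (n + 1))
  (hσ : ∀ i s, face i (σ (C.a i s)) = face i (σ s))

include hσ in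
omit [Fintype S] in
lemma act_eq (t : stdSimplex ℝ (Fin (n + 2))) (w : List (Fin (n + 2)))
    (hw : ∀ j ∈ w, (t : Fin (n + 2) → ℝ) j = 0) (s : S) : σ (C.act w s) t = σ s t := by
  induction w with
  | nil => rfl
  | cons i w ih =>
      rw [Colored.act_cons]
      have h1 := ih fun j hj => hw j (List.mem_cons_of_mem _ hj)
      obtain ⟨t', ht'⟩ := exists_faceMap i t (hw i List.mem_cons_self)
      have h2 : face i (σ (C.a i (C.act w s))) t' = face i (σ (C.act w s)) t' := by
        rw [hσ i (C.act w s)]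
      have h3 : σ (C.a i (C.act w s)) (faceMap n i t') = σ (C.act w s) (faceMap n i t') := h2
      rw [ht'] at h3
      rw [h3, h1]

include hσ in
lemma good_eq (x : RP C.Cells) (s s' : S) (h : x ∈ Good C s) (h' : x ∈ Good C s') :
    σ s (beta C x) = σ s' (beta C x) := by
  obtain ⟨q, hq0, hq⟩ := exists_top C x
  obtain ⟨-, s₀, hs₀⟩ := q.2
  have hs := h q hq0
  have hs' := h' q hq0
  rw [hs₀] at hs hs'
  have h1 : C.cell q.1.1 s = C.cell q.1.1 s₀ := C.cell_eq_of_mem hs
  have h2 : s' ∈ C.cell q.1.1 s := by rw [h1]; exact hs'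
  obtain ⟨w, hw, rfl⟩ := h2
  refine (act_eq C σ hσ _ w ?_ s).symm
  intro j hj
  have hjJ := hw j hj
  change (∑ q', x.1 q' • bJ q'.1.1) j = 0
  rw [Finset.sum_apply]
  refine Finset.sum_eq_zero fun q' _ => ?_
  by_cases h0 : x.1 q' = 0
  · rw [Pi.smul_apply, h0, zero_smul]
  · have hsub : q'.1.1 ⊆ q.1.1 := (hq q' h0).1
    rw [Pi.smul_apply, bJ_zero (fun hmem => hjJ (hsub hmem)), smul_zero]

/-- The map defined by the simplices `σ`. -/
noncomputable def gFun (x : RP C.Cells) : X := σ (exists_good C x).choose (beta C x)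

include hσ in
lemma gFun_eq (x : RP C.Cells) (s : S) (h : x ∈ Good C s) : gFun C σ x = σ s (beta C x) :=
  good_eq C σ hσ x _ s (exists_good C x).choose_spec h

include hσ in
lemma gFun_cont : Continuous (gFun C σ) := by
  refine LocallyFinite.continuous (f := Good C) (locallyFinite_of_finite _) ?_
    (isClosed_good C) ?_
  · ext x
    simp only [Set.mem_iUnion, Set.mem_univ, iff_true]
    exact exists_good C x
  · intro s
    refine ContinuousOn.congr (f := fun x => σ s (beta C x)) ?_ ?_
    · exact ((σ s).continuous.comp (beta_cont C)).continuousOn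
    · intro x hx
      exact gFun_eq C σ hσ x s hx

/-- The simplex of the realisation associated with `(s, F)`. -/
noncomputable def simp' (s : S) (F : Flag (n + 1)) : Sing (RP C.Cells) (n + 1) :=
  intoY (aff (vert ∘ ZC.cellTup C s F)) (aff_vert_mem_RP _ (ZC.cellTup_chain C s F))

lemma simp'_good (s : S) (F : Flag (n + 1)) (t : stdSimplex ℝ (Fin (n + 2))) :
    simp' C s F t ∈ Good C s := by
  intro q hq
  have hq' : (∑ j, (t : Fin (n + 2) → ℝ) j • vert (ZC.cellTup C s F j)) q ≠ 0 := hq
  rw [Finset.sum_apply] at hq'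
  obtain ⟨k, -, hk⟩ := Finset.exists_ne_zero_of_sum_ne_zero hq'
  have h1 : q = ZC.cellTup C s F k := vert_ne_zero (right_ne_zero_of_mul hk)
  rw [h1]
  exact C.self_mem_cell _ _

lemma beta_simp' (s : S) (F : Flag (n + 1)) (t : stdSimplex ℝ (Fin (n + 2))) :
    beta C (simp' C s F t) = affD (lab baryD F (vertsD (n + 1))) t := by
  classical
  apply Subtype.ext
  change (∑ q, (∑ j, (t : Fin (n + 2) → ℝ) j • vert (ZC.cellTup C s F j)) q • bJ q.1.1) =
    ∑ j, (t : Fin (n + 2) → ℝ) j •
      ((lab baryD F (vertsD (n + 1)) j : stdSimplex ℝ (Fin (n + 2))) : Fin (n + 2) → ℝ)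
  have h1 : ∀ q : C.Cells, (∑ j, (t : Fin (n + 2) → ℝ) j • vert (ZC.cellTup C s F j)) q • bJ q.1.1 =
      ∑ j, ((t : Fin (n + 2) → ℝ) j * vert (ZC.cellTup C s F j) q) • bJ q.1.1 := by
    intro q
    rw [Finset.sum_apply, Finset.sum_smul]
    rfl
  rw [Finset.sum_congr rfl fun q _ => h1 q, Finset.sum_comm]
  refine Finset.sum_congr rfl fun j _ => ?_
  rw [Finset.sum_eq_single (ZC.cellTup C s F j)]
  · have h2 : vert (ZC.cellTup C s F j) (ZC.cellTup C s F j) = 1 := by simp [vert]
    rw [h2, mul_one]
    congr 1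
    have h3 := lab_bary F (id : Fin (n + 2) → Fin (n + 2)) Function.injective_id j
    exact h3.symm
  · intro q _ hq
    have h2 : vert (ZC.cellTup C s F j) q = 0 := by simp [vert, hq]
    rw [h2, mul_zero, zero_smul]
  · intro h; exact absurd (Finset.mem_univ _) h

end Push

open Push in
theorem specPush : SpecPush.{u} := by
  intro X _ n S _ C σ hσ
  refine ⟨⟨gFun C σ, gFun_cont C σ hσ⟩, ?_⟩
  have h1 : zR C = ∑ s : S, ∑ F : Flag (n + 1), (C.ε s * F.sgn) •
      Finsupp.single (simp' C s F) (1 : ℤ) := by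
    unfold zR
    rw [ZC.zT_eq, map_sum]
    refine Finset.sum_congr rfl fun s _ => ?_
    rw [map_sum]
    refine Finset.sum_congr rfl fun F _ => ?_
    rw [map_smul, realT_single _ (ZC.cellTup_chain C s F)]
    rfl
  rw [h1, map_sum, map_sum]
  refine Finset.sum_congr rfl fun s _ => ?_
  rw [map_sum, SdS_single, Finset.smul_sum]
  refine Finset.sum_congr rfl fun F _ => ?_
  rw [map_smul, push_single, smul_smul]
  congr 2
  ext t
  change gFun C σ (simp' C s F t) = σ s (affD (lab baryD F (vertsD (n + 1))) t)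
  rw [gFun_eq C σ hσ _ s (simp'_good C s F t), beta_simp']

end MPb00168
end

section
set_option autoImplicit false

/-!
# MP_b00168_gt : all modules together
-/

namespace MPb00168

universe u

theorem specResult_all : SpecResult.{u} :=
  specResult (specSS specSdMap specSdHomot) specColX specPush specChains specZC specArc specPoint
    specPath specCover
    (specTop (specSS specSdMap specSdHomot) specSmall specFamily specSdMap specSdHom specZC
      specChains specRealT)
    specGroup specTransfer
    (specLocal (specSS specSdMap specSdHomot) specSmall specTransfer)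
    specPull specComp specCompose specLC
    (specLattice (specPack (specFloor specPrism) specSdMap specSdHom specPrism) specMatch)
    specGen

end MPb00168
end
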