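import Pool.Agent.Lib.MP_b00168_gt.ZC
import Pool.Agent.Lib.MP_b00168_gt.Spec

set_option autoImplicit false

/-! # MP_b00168_gt : final assembly, part A: products of coloured sets -/

namespace MPb00168

namespace Final

open Finset

universe u v

/-- The product of two coloured sets (pairs of elements of equal signs). -/
abbrev PT {n : ℕ} {U S : Type} (CU : Colored n U) (CS : Colored n S) : Type :=
  {p : U × S // CU.ε p.1 = CS.ε p.2}

variable {n : ℕ} {U S : Type} (CU : Colored n U) (CS : Colored n S)

/-- The product coloured set. -/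
def prod : Colored n (PT CU CS) where
  a i p := ⟨(CU.a i p.1.1, CS.a i p.1.2), by
    show CU.ε (CU.a i p.1.1) = CS.ε (CS.a i p.1.2)
    rw [CU.flip, CS.flip, p.2]⟩
  inv i p := by
    apply Subtype.ext
    exact Prod.ext (CU.inv i _) (CS.inv i _)
  ε p := CU.ε p.1.1
  unit p := CU.unit _
  flip i p := CU.flip i _

lemma prod_act (w : List (Fin (n + 2))) (p : PT CU CS) :
    ((prod CU CS).act w p).1 = (CU.act w p.1.1, CS.act w p.1.2) := by
  induction w with
  | nil => rfl
  | cons i w ih =>
      rw [Colored.act_cons, Colored.act_cons, Colored.act_cons]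
      show (CU.a i _, CS.a i _) = _
      rw [ih]

noncomputable instance [Fintype U] [Fintype S] : Fintype (PT CU CS) := by
  classical
  exact Subtype.fintype _

/-- The projection to the second factor is a star map if the star property holds. -/
lemma isStarMap_snd {G : Type} (CG : Colored n G) (φ : S → G) (hφ : IsStarMap CS CG φ)
    (hst : ∀ (i : Fin (n + 2)) (w : List (Fin (n + 2))), i ∉ w → ∀ (g : G) (u : U),
      CG.act w g = g → CU.act w u = u) :
    IsStarMap (prod CU CS) CS (fun p => p.1.2) := by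
  have hact : ∀ (w : List (Fin (n + 2))) (s : S), φ (CS.act w s) = CG.act w (φ s) := by
    intro w
    induction w with
    | nil => intro s; rfl
    | cons i w ih =>
        intro s
        rw [Colored.act_cons, Colored.act_cons, hφ.equiv, ih]
  refine ⟨fun i s => rfl, fun s => s.2.symm, ?_⟩
  intro i w hw s hs
  apply Subtype.ext
  rw [prod_act]
  have h1 : CG.act w (φ s.1.2) = φ s.1.2 := by
    rw [← hact, hs]
  have h2 := hst i w hw (φ s.1.2) s.1.1 h1
  exact Prod.ext h2 hs

lemma isStarMap_comp {G : Type} {R : Type} {CR : Colored n R} {CG : Colored n G} {φ : S → G}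
    {ψ : R → S} (hφ : IsStarMap CS CG φ) (hψ : IsStarMap CR CS ψ) :
    IsStarMap CR CG (φ ∘ ψ) := by
  have hact : ∀ (w : List (Fin (n + 2))) (s : R), ψ (CR.act w s) = CS.act w (ψ s) := by
    intro w
    induction w with
    | nil => intro s; rfl
    | cons i w ih =>
        intro s
        rw [Colored.act_cons, Colored.act_cons, hψ.equiv, ih]
  refine ⟨fun i s => ?_, fun s => ?_, ?_⟩
  · simp only [Function.comp_apply, hψ.equiv, hφ.equiv]
  · simp only [Function.comp_apply, hφ.sign, hψ.sign]
  · intro i w hw s hs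
    exact hψ.star i w hw s (hφ.star i w hw (ψ s) hs)

/-- The number of positive elements. -/
noncomputable def N {n : ℕ} {S : Type} (CS : Colored n S) : ℕ := {s | CS.ε s = 1}.ncard

lemma ncard_neg [Finite S] : {s | CS.ε s = -1}.ncard = N CS := by
  unfold N
  refine Set.ncard_congr (fun s _ => CS.a 0 s) ?_ ?_ ?_
  · intro s hs
    have hs' : CS.ε s = -1 := hs
    show CS.ε (CS.a 0 s) = 1
    rw [CS.flip, hs']; norm_num
  · intro s t _ _ h
    have := congrArg (CS.a 0) h
    rwa [CS.inv, CS.inv] at this
  · intro s hs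
    have hs' : CS.ε s = 1 := hs
    refine ⟨CS.a 0 s, ?_, CS.inv 0 s⟩
    show CS.ε (CS.a 0 s) = -1
    rw [CS.flip, hs']

lemma ncard_sign [Finite S] (e : ℤ) (he : e = 1 ∨ e = -1) : {s | CS.ε s = e}.ncard = N CS := by
  rcases he with rfl | rfl
  · rfl
  · exact ncard_neg CS

lemma N_pos [Finite S] [Nonempty S] : 0 < N CS := by
  obtain ⟨s⟩ := ‹Nonempty S›
  rw [← ncard_sign CS (CS.ε s) (CS.unit s)]
  exact (Set.ncard_pos (Set.toFinite _)).mpr ⟨s, rfl⟩

/-- Fibres of the second projection. -/
lemma fiber_snd [Finite U] (s : S) :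
    ((fun p : PT CU CS => p.1.2) ⁻¹' {s}).ncard = N CU := by
  rw [← ncard_sign CU (CS.ε s) (CS.unit s)]
  refine Set.ncard_congr (fun p _ => p.1.1) ?_ ?_ ?_
  · intro p hp
    have hp' : p.1.2 = s := hp
    show CU.ε p.1.1 = CS.ε s
    rw [p.2, hp']
  · intro p q hp hq h
    have hp' : p.1.2 = s := hp
    have hq' : q.1.2 = s := hq
    exact Subtype.ext (Prod.ext h (hp'.trans hq'.symm))
  · intro u hu
    exact ⟨⟨(u, s), hu⟩, rfl, rfl⟩

/-- Sums over the product of functions of the first coordinate. -/
lemma sum_fst [Fintype U] [Fintype S] {A : Type*} [AddCommGroup A] (f : U → A) :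
    ∑ p : PT CU CS, f p.1.1 = (N CS : ℤ) • ∑ u, f u := by
  classical
  have h1 : ∑ p : PT CU CS, f p.1.1 =
      ∑ u : U, ∑ p ∈ (Finset.univ : Finset (PT CU CS)).filter (fun p => p.1.1 = u), f p.1.1 := by
    exact (Finset.sum_fiberwise_of_maps_to (g := fun p : PT CU CS => p.1.1)
      (fun p _ => Finset.mem_univ _) _).symm
  rw [h1, Finset.smul_sum]
  refine Finset.sum_congr rfl fun u _ => ?_
  have h2 : ∑ p ∈ (Finset.univ : Finset (PT CU CS)).filter (fun p => p.1.1 = u), f p.1.1 =
      ∑ p ∈ (Finset.univ : Finset (PT CU CS)).filter (fun p => p.1.1 = u), f u := by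
    refine Finset.sum_congr rfl fun p hp => ?_
    rw [(Finset.mem_filter.mp hp).2]
  rw [h2, Finset.sum_const]
  have h3 : ((Finset.univ : Finset (PT CU CS)).filter (fun p => p.1.1 = u)).card = N CS := by
    rw [← ncard_sign CS (CU.ε u) (CU.unit u), ← Set.ncard_coe_finset]
    refine Set.ncard_congr (fun p _ => p.1.2) ?_ ?_ ?_
    · intro p hp
      have hp' : p.1.1 = u := by simpa using hp
      show CS.ε p.1.2 = CU.ε u
      rw [← p.2, hp']
    · intro p q hp hq h
      have hp' : p.1.1 = u := by simpa using hp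
      have hq' : q.1.1 = u := by simpa using hq
      exact Subtype.ext (Prod.ext (hp'.trans hq'.symm) h)
    · intro s hs
      have hs' : CS.ε s = CU.ε u := hs
      exact ⟨⟨(u, s), hs'.symm⟩, by simp, rfl⟩
  rw [h3, natCast_zsmul]

/-- Connectedness of the product when the numbers of positive elements are coprime. -/
lemma prod_conn [Finite U] [Finite S] (hU : CU.Conn) (hS : CS.Conn)
    (hco : Nat.Coprime (N CU) (N CS)) : (prod CU CS).Conn := by
  classical
  have hfin : Finite (PT CU CS) := inferInstance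
  -- it suffices to treat positive elements
  suffices key : ∀ p q : PT CU CS, (prod CU CS).ε p = 1 → (prod CU CS).ε q = 1 →
      ∃ w, (prod CU CS).act w p = q by
    have pos : ∀ p : PT CU CS, ∃ w, (prod CU CS).ε ((prod CU CS).act w p) = 1 := by
      intro p
      rcases (prod CU CS).unit p with h | h
      · exact ⟨[], by simpa using h⟩
      · refine ⟨[0], ?_⟩
        rw [Colored.act_cons, Colored.act_nil, (prod CU CS).flip, h]; norm_num
    intro p q
    obtain ⟨w, hw⟩ := pos p
    obtain ⟨w', hw'⟩ := pos q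
    obtain ⟨v, hv⟩ := key _ _ hw hw'
    refine ⟨w'.reverse ++ (v ++ w), ?_⟩
    rw [Colored.act_append, Colored.act_append, hv, Colored.act_reverse_act]
  intro p q hp hq
  let O : Set (PT CU CS) := {r | (∃ w, (prod CU CS).act w p = r) ∧ (prod CU CS).ε r = 1}
  let A : Set (PT CU CS) := {r | (prod CU CS).ε r = 1}
  have hOA : O ⊆ A := fun r hr => hr.2
  -- the fibres of `O` over the two factors
  have hstep : ∀ (r : PT CU CS) (i j : Fin (n + 2)), r ∈ O →
      (prod CU CS).act [i, j] r ∈ O := by
    rintro r i j ⟨⟨w, rfl⟩, hr⟩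
    refine ⟨⟨[i, j] ++ w, by rw [Colored.act_append]⟩, ?_⟩
    rw [Colored.ε_act, hr]; norm_num
  have hword : ∀ (w : List (Fin (n + 2))), Even w.length → ∀ r : PT CU CS, r ∈ O →
      (prod CU CS).act w r ∈ O := by
    rintro w hw r ⟨⟨v, rfl⟩, hr⟩
    refine ⟨⟨w ++ v, by rw [Colored.act_append]⟩, ?_⟩
    rw [Colored.ε_act, hr, hw.neg_one_pow, one_mul]
  have heven : ∀ (T : Type) (CT : Colored n T) (s t : T), CT.ε s = 1 → CT.ε t = 1 → ∀ w,
      CT.act w s = t → Even w.length := by
    intro T CT s t hs ht w hw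
    have := CT.ε_act w s
    rw [hw, hs, ht, mul_one] at this
    by_contra hne
    rw [Nat.not_even_iff_odd] at hne
    rw [hne.neg_one_pow] at this
    norm_num at this
  -- N CU divides |O|
  have hdvdU : N CU ∣ O.ncard := by
    -- all fibres over positive elements of U have the same size
    have hfib : ∀ u u' : U, CU.ε u = 1 → CU.ε u' = 1 →
        {r ∈ O | r.1.1 = u}.ncard ≤ {r ∈ O | r.1.1 = u'}.ncard := by
      intro u u' hu hu'
      obtain ⟨w, hw⟩ := hU u u'
      have hev := heven U CU u u' hu hu' w hw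
      refine Set.ncard_le_ncard_of_injOn (fun r => (prod CU CS).act w r) ?_ ?_ (Set.toFinite _)
      · rintro r ⟨hrO, hru⟩
        refine ⟨hword w hev r hrO, ?_⟩
        show ((prod CU CS).act w r).1.1 = u'
        rw [prod_act]
        show CU.act w r.1.1 = u'
        rw [hru, hw]
      · intro r _ r' _ h
        exact (prod CU CS).act_injective w h
    obtain ⟨m, hm⟩ : ∃ m, ∀ u, CU.ε u = 1 → {r ∈ O | r.1.1 = u}.ncard = m := by
      refine ⟨{r ∈ O | r.1.1 = p.1.1}.ncard, fun u hu => le_antisymm ?_ ?_⟩
      · exact hfib u p.1.1 hu hp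
      · exact hfib p.1.1 u hp hu
    have : O.ncard = N CU * m := by
      have : Fintype U := Fintype.ofFinite U
      have : Fintype (PT CU CS) := Fintype.ofFinite _
      have e1 : O.ncard = ∑ u ∈ (Finset.univ : Finset U).filter (fun u => CU.ε u = 1),
          {r ∈ O | r.1.1 = u}.ncard := by
        rw [Set.ncard_eq_toFinset_card' O]
        rw [Finset.card_eq_sum_card_fiberwise (f := fun r : PT CU CS => r.1.1)
          (t := (Finset.univ : Finset U).filter (fun u => CU.ε u = 1))]
        · refine Finset.sum_congr rfl fun u _ => ?_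
          rw [Set.ncard_eq_toFinset_card']
          congr 1
          ext r
          simp
        · intro r hr
          have hr' : r ∈ O := by simpa using hr
          simp only [Finset.coe_filter, Finset.mem_univ, true_and, Set.mem_ofPred_eq]
          exact hr'.2
      rw [e1, Finset.sum_congr rfl (fun u hu => hm u (Finset.mem_filter.mp hu).2),
        Finset.sum_const, smul_eq_mul]
      congr 1
      unfold N
      rw [Set.ncard_eq_toFinset_card']
      congr 1
      ext u; simp
    exact ⟨m, this⟩
  have hdvdS : N CS ∣ O.ncard := by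
    have hfib : ∀ u u' : S, CS.ε u = 1 → CS.ε u' = 1 →
        {r ∈ O | r.1.2 = u}.ncard ≤ {r ∈ O | r.1.2 = u'}.ncard := by
      intro u u' hu hu'
      obtain ⟨w, hw⟩ := hS u u'
      have hev := heven S CS u u' hu hu' w hw
      refine Set.ncard_le_ncard_of_injOn (fun r => (prod CU CS).act w r) ?_ ?_ (Set.toFinite _)
      · rintro r ⟨hrO, hru⟩
        refine ⟨hword w hev r hrO, ?_⟩
        show ((prod CU CS).act w r).1.2 = u'
        rw [prod_act]
        show CS.act w r.1.2 = u'
        rw [hru, hw]
      · intro r _ r' _ h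
        exact (prod CU CS).act_injective w h
    have hp2 : CS.ε p.1.2 = 1 := by rw [← p.2]; exact hp
    obtain ⟨m, hm⟩ : ∃ m, ∀ u, CS.ε u = 1 → {r ∈ O | r.1.2 = u}.ncard = m := by
      refine ⟨{r ∈ O | r.1.2 = p.1.2}.ncard, fun u hu => le_antisymm ?_ ?_⟩
      · exact hfib u p.1.2 hu hp2
      · exact hfib p.1.2 u hp2 hu
    have : O.ncard = N CS * m := by
      have : Fintype S := Fintype.ofFinite S
      have : Fintype (PT CU CS) := Fintype.ofFinite _
      have e1 : O.ncard = ∑ u ∈ (Finset.univ : Finset S).filter (fun u => CS.ε u = 1),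
          {r ∈ O | r.1.2 = u}.ncard := by
        rw [Set.ncard_eq_toFinset_card' O]
        rw [Finset.card_eq_sum_card_fiberwise (f := fun r : PT CU CS => r.1.2)
          (t := (Finset.univ : Finset S).filter (fun u => CS.ε u = 1))]
        · refine Finset.sum_congr rfl fun u _ => ?_
          rw [Set.ncard_eq_toFinset_card']
          congr 1
          ext r
          simp
        · intro r hr
          have hr' : r ∈ O := by simpa using hr
          simp only [Finset.coe_filter, Finset.mem_univ, true_and, Set.mem_ofPred_eq]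
          rw [← r.2]
          exact hr'.2
      rw [e1, Finset.sum_congr rfl (fun u hu => hm u (Finset.mem_filter.mp hu).2),
        Finset.sum_const, smul_eq_mul]
      congr 1
      unfold N
      rw [Set.ncard_eq_toFinset_card']
      congr 1
      ext u; simp
    exact ⟨m, this⟩
  have hdvd : N CU * N CS ∣ O.ncard := Nat.Coprime.mul_dvd_of_dvd_of_dvd hco hdvdU hdvdS
  have hpO : p ∈ O := ⟨⟨[], rfl⟩, hp⟩
  have hOpos : 0 < O.ncard := (Set.ncard_pos (Set.toFinite _)).mpr ⟨p, hpO⟩
  have hAcard : A.ncard = N CU * N CS := by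
    have : A.ncard = ({u | CU.ε u = 1} ×ˢ {s | CS.ε s = 1}).ncard := by
      refine Set.ncard_congr (fun r _ => r.1) ?_ ?_ ?_
      · intro r hr
        have hr' : CU.ε r.1.1 = 1 := hr
        exact ⟨hr', by show CS.ε r.1.2 = 1; rw [← r.2]; exact hr'⟩
      · intro r r' _ _ h; exact Subtype.ext h
      · rintro ⟨u, s⟩ ⟨hu, hs⟩
        have hu' : CU.ε u = 1 := hu
        have hs' : CS.ε s = 1 := hs
        exact ⟨⟨(u, s), hu'.trans hs'.symm⟩, hu', rfl⟩
    rw [this, Set.ncard_prod]
    rfl
  have hle : A.ncard ≤ O.ncard := by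
    rw [hAcard]; exact Nat.le_of_dvd hOpos hdvd
  have hEq : O = A := Set.eq_of_subset_of_ncard_le hOA hle (Set.toFinite _)
  have : q ∈ O := by rw [hEq]; exact hq
  exact this.1

end Final

end MPb00168
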