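import Mathlib

set_option autoImplicit false

/-!
# MP_b00168_gt : the definitions used in the statement of the result

Elementary singular homology (integer coefficients), fundamental cycles, oriented finite-sheeted
coverings, realisation of cycles, URC-manifolds and uniform integers.
-/

namespace MPb00168

open Finset

universe u v

/-! ## Singular chains -/

/-- Singular `k`-simplices of `X`. -/
abbrev Sing (X : Type u) [TopologicalSpace X] (k : ℕ) : Type u :=
  C(stdSimplex ℝ (Fin (k + 1)), X)

/-- Singular `k`-chains of `X` with integer coefficients. -/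
abbrev Chain (X : Type u) [TopologicalSpace X] (k : ℕ) : Type u := Sing X k →₀ ℤ

/-- The inclusion of the standard `k`-simplex as the `i`-th face (opposite to the vertex `i`) of
the standard `(k+1)`-simplex. -/
noncomputable def faceMap (k : ℕ) (i : Fin (k + 2)) :
    C(stdSimplex ℝ (Fin (k + 1)), stdSimplex ℝ (Fin (k + 2))) :=
  ⟨stdSimplex.map i.succAbove, stdSimplex.continuous_map _⟩

/-- The `i`-th face of a singular simplex. -/
noncomputable def face {X : Type u} [TopologicalSpace X] {k : ℕ} (i : Fin (k + 2))
    (σ : Sing X (k + 1)) : Sing X k :=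
  σ.comp (faceMap k i)

/-- The boundary of singular chains. -/
noncomputable def bd {X : Type u} [TopologicalSpace X] {k : ℕ} :
    Chain X (k + 1) →ₗ[ℤ] Chain X k :=
  Finsupp.linearCombination ℤ fun σ =>
    ∑ i : Fin (k + 2), (-1 : ℤ) ^ (i : ℕ) • Finsupp.single (face i σ) (1 : ℤ)

/-- Push-forward of singular chains by a continuous map. -/
noncomputable def push {X : Type u} {Y : Type v} [TopologicalSpace X] [TopologicalSpace Y]
    (f : C(X, Y)) {k : ℕ} : Chain X k →ₗ[ℤ] Chain Y k :=
  Finsupp.lmapDomain ℤ ℤ fun σ => f.comp σ

/-- Two chains are homologous if their difference is a boundary. -/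
def Homologous {X : Type u} [TopologicalSpace X] {k : ℕ} (c c' : Chain X k) : Prop :=
  ∃ b : Chain X (k + 1), bd b = c - c'

/-- The chain `c` lies in the complement of the point `x`. -/
def Avoids {X : Type u} [TopologicalSpace X] {k : ℕ} (x : X) (c : Chain X k) : Prop :=
  ∀ σ ∈ c.support, x ∉ Set.range σ

/-- `c` is a fundamental cycle of the `(n+1)`-dimensional manifold `M`: it is a cycle and for
every point `x` its class generates `H_{n+1}(M, M \ {x}; ℤ)`, i.e. every relative cycle `d` of
`(M, M \ {x})` is homologous, modulo chains in `M \ {x}`, to an integer multiple of `c`. -/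
def IsFund {M : Type u} [TopologicalSpace M] {n : ℕ} (c : Chain M (n + 1)) : Prop :=
  bd c = 0 ∧ ∀ (x : M) (d : Chain M (n + 1)), Avoids x (bd d) →
    ∃ (k : ℤ) (b : Chain M (n + 2)) (e : Chain M (n + 1)), Avoids x e ∧ d = k • c + bd b + e

/-- A connected finite-sheeted covering of the closed manifold `M` with fundamental cycle `μ`,
oriented by a fundamental cycle `c` whose image is homologous to `d • μ`, where `d` is the number
of sheets. -/
structure OCover {M : Type} [TopologicalSpace M] {n : ℕ} (μ : Chain M (n + 1)) where
  /-- the total space -/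
  T : Type
  [top : TopologicalSpace T]
  [t2 : T2Space T]
  [compact : CompactSpace T]
  [conn : ConnectedSpace T]
  /-- the projection -/
  p : C(T, M)
  cov : IsCoveringMap p
  /-- the number of sheets -/
  d : ℕ
  d_pos : 0 < d
  sheets : ∀ x, (p ⁻¹' {x}).Finite ∧ (p ⁻¹' {x}).ncard = d
  /-- the fundamental cycle -/
  c : Chain T (n + 1)
  fund : IsFund c
  orient : Homologous (push p c) ((d : ℤ) • μ)

attribute [instance] OCover.top OCover.t2 OCover.compact OCover.conn

/-- The class of the cycle `z` of `X` is the image of the fundamental class of a connected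
finite-sheeted covering of `M`. -/
def Realised {M : Type} [TopologicalSpace M] {n : ℕ} (μ : Chain M (n + 1))
    {X : Type u} [TopologicalSpace X] (z : Chain X (n + 1)) : Prop :=
  ∃ (C : OCover μ) (f : C(C.T, X)), Homologous (push f C.c) z

/-- The class of the cycle `z` of `X` is the image of the fundamental class of a possibly
disconnected finite-sheeted covering of `M`, that is, of the disjoint union of `r` connected
finite-sheeted coverings. -/
def RealisedSum {M : Type} [TopologicalSpace M] {n : ℕ} (μ : Chain M (n + 1)) (r : ℕ)
    {X : Type u} [TopologicalSpace X] (z : Chain X (n + 1)) : Prop :=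
  ∃ (C : Fin r → OCover μ) (f : ∀ l, C((C l).T, X)),
    Homologous (∑ l, push (f l) (C l).c) z

/-- The URC property (in a weak form): for every path-connected space `X` and every cycle `z` a
nonzero multiple of the class of `z` is realised by a (possibly disconnected) finite-sheeted
covering of `M`. -/
def IsURC {M : Type} [TopologicalSpace M] {n : ℕ} (μ : Chain M (n + 1)) : Prop :=
  ∀ (X : Type) [TopologicalSpace X] [PathConnectedSpace X] (z : Chain X (n + 1)), bd z = 0 →
    ∃ k : ℤ, k ≠ 0 ∧ ∃ r, RealisedSum μ r (k • z)

/-- `q` is uniform for `M` (in a strong form): for every path-connected space `X` and every cycle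
`z` the class of `q • z` is realised by a connected finite-sheeted covering of `M`, and for every
nonempty space `X` it is realised by a finite-sheeted covering of `M`. -/
def IsUniform {M : Type} [TopologicalSpace M] {n : ℕ} (μ : Chain M (n + 1)) (q : ℕ) : Prop :=
  (∀ (X : Type u) [TopologicalSpace X] [PathConnectedSpace X] (z : Chain X (n + 1)), bd z = 0 →
    Realised μ ((q : ℤ) • z)) ∧
  (∀ (X : Type u) [TopologicalSpace X] [Nonempty X] (z : Chain X (n + 1)), bd z = 0 →
    ∃ r, 0 < r ∧ RealisedSum μ r ((q : ℤ) • z))

end MPb00168
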