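import Pool.Agent.Lib.MP_b00168_gt.Spec

set_option autoImplicit false

/-!
# MP_b00168_gt, module TOP, part A: tuples, degenerate tuples, subdivision
-/

namespace MPb00168
namespace Top

open Finset

theorem bdT_single {E : Type} {k : ℕ} (x : Tup E (k + 1)) :
    bdT (Finsupp.single x (1 : ℤ)) =
      ∑ i : Fin (k + 2), (-1 : ℤ) ^ (i : ℕ) • Finsupp.single (x ∘ i.succAbove) (1 : ℤ) := by
  simp [bdT, Finsupp.linearCombination_single]

theorem bdT_eq {E : Type} {k : ℕ} (c : Tup E (k + 1) →₀ ℤ) :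
    bdT c = ∑ x ∈ c.support, c x •
      ∑ i : Fin (k + 2), (-1 : ℤ) ^ (i : ℕ) • Finsupp.single (x ∘ i.succAbove) (1 : ℤ) := rfl

open Classical in
theorem bdT_apply {E : Type} {k : ℕ} (c : Tup E (k + 1) →₀ ℤ) (y : Tup E k) :
    bdT c y = ∑ x ∈ c.support, c x *
      ∑ i : Fin (k + 2), (if x ∘ i.succAbove = y then (-1 : ℤ) ^ (i : ℕ) else 0) := by
  rw [bdT_eq, Finsupp.finsetSum_apply]
  refine Finset.sum_congr rfl fun x _ => ?_
  rw [Finsupp.smul_apply, smul_eq_mul, Finsupp.finsetSum_apply]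
  congr 1
  refine Finset.sum_congr rfl fun i _ => ?_
  rw [Finsupp.smul_apply, Finsupp.single_apply, smul_eq_mul]
  split_ifs <;> simp

theorem Sd_single {E E' : Type} (L : ∀ k, Tup E k → E') {n : ℕ} (x : Tup E n) :
    Sd L (Finsupp.single x (1 : ℤ)) =
      ∑ F : Flag n, F.sgn • Finsupp.single (lab L F x) (1 : ℤ) := by
  simp [Sd, Finsupp.linearCombination_single]

theorem Sd_succ {E E' : Type} (L : ∀ k, Tup E k → E') {n : ℕ} (x : Tup E (n + 1)) :
    Sd L (Finsupp.single x (1 : ℤ)) =
      (-1 : ℤ) ^ (n + 1) • snocT (L (n + 1) x) (Sd L (bdT (Finsupp.single x (1 : ℤ)))) := by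
  rw [bdT_single, map_sum, map_sum, Finset.smul_sum, Sd_single]
  have h1 : ∀ f : Flag (n + 1) → (Tup E' (n + 1) →₀ ℤ),
      ∑ F : Flag (n + 1), f F = ∑ p : Fin (n + 2), ∑ F : Flag n, f (p, F) :=
    fun f => Fintype.sum_prod_type f
  rw [h1]
  refine Finset.sum_congr rfl fun p _ => ?_
  rw [map_smul, Sd_single, map_smul, map_sum, Finset.smul_sum, Finset.smul_sum]
  refine Finset.sum_congr rfl fun F _ => ?_
  rw [map_smul, smul_smul, smul_smul]
  simp only [snocT, Finsupp.lmapDomain_apply, Finsupp.mapDomain_single, lab, Flag.sgn]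
  congr 1
  ring

/-- Adjacent equal entries. -/
def AdjEq {E : Type} {k : ℕ} (x : Tup E k) : Prop := ∃ j : Fin k, x j.castSucc = x j.succ

theorem face_eq_of_adj {E : Type} {k : ℕ} (x : Tup E (k + 1)) (j : Fin (k + 1))
    (h : x j.castSucc = x j.succ) :
    x ∘ j.castSucc.succAbove = x ∘ j.succ.succAbove := by
  funext a
  simp only [Function.comp_apply, Fin.succAbove]
  rcases lt_trichotomy a j with h1 | h1 | h1
  · rw [if_pos (by simpa using h1), if_pos (by
      rw [Fin.lt_def] at h1 ⊢; simp; omega)]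
  · subst h1
    rw [if_neg (by simp), if_pos (by rw [Fin.lt_def]; simp)]
    exact h.symm
  · rw [if_neg (by simpa using h1.le), if_neg (by
      rw [Fin.lt_def] at h1 ⊢; simp; omega)]

theorem adj_face {E : Type} {k : ℕ} (x : Tup E (k + 1)) (j : Fin (k + 1))
    (h : x j.castSucc = x j.succ) (i : Fin (k + 2)) (h1 : i ≠ j.castSucc) (h2 : i ≠ j.succ) :
    AdjEq (x ∘ i.succAbove) := by
  rcases lt_or_gt_of_ne h1 with h3 | h3
  · -- i < j
    have hj : (j : ℕ) ≠ 0 := by
      rw [Fin.lt_def] at h3; simp at h3; omega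
    refine ⟨⟨(j : ℕ) - 1, by omega⟩, ?_⟩
    have e1 : i.succAbove (Fin.castSucc ⟨(j : ℕ) - 1, by omega⟩) = j.castSucc := by
      rw [Fin.succAbove, if_neg]
      · ext; simp; omega
      · rw [Fin.lt_def] at h3 ⊢; simp at h3 ⊢; omega
    have e2 : i.succAbove (Fin.succ ⟨(j : ℕ) - 1, by omega⟩) = j.succ := by
      rw [Fin.succAbove, if_neg]
      · ext; simp; omega
      · rw [Fin.lt_def] at h3 ⊢; simp at h3 ⊢; omega
    simp only [Function.comp_apply]
    rw [e1, e2, h]
  · have h4 : (j : ℕ) + 1 < (i : ℕ) := by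
      rw [Fin.lt_def] at h3
      simp at h3
      rcases Nat.lt_or_ge ((j : ℕ) + 1) i with h5 | h5
      · exact h5
      · exact absurd (Fin.ext (by simp; omega)) h2
    have hjk : (j : ℕ) < k := by have := i.2; omega
    refine ⟨⟨(j : ℕ), hjk⟩, ?_⟩
    have e1 : i.succAbove (Fin.castSucc ⟨(j : ℕ), hjk⟩) = j.castSucc := by
      rw [Fin.succAbove, if_pos]
      · ext; simp
      · rw [Fin.lt_def]; simp; omega
    have e2 : i.succAbove (Fin.succ ⟨(j : ℕ), hjk⟩) = j.succ := by
      rw [Fin.succAbove, if_pos]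
      · ext; simp
      · rw [Fin.lt_def]; simp; omega
    simp only [Function.comp_apply]
    rw [e1, e2, h]

/-- A linear map on the boundary of a tuple with adjacent equal entries. -/
theorem map_bdT_adj {E : Type} {k : ℕ} {M : Type} [AddCommGroup M]
    (Φ : (Tup E k →₀ ℤ) →ₗ[ℤ] M) (hΦ : ∀ y : Tup E k, AdjEq y → Φ (Finsupp.single y 1) = 0)
    (x : Tup E (k + 1)) (hx : AdjEq x) : Φ (bdT (Finsupp.single x 1)) = 0 := by
  obtain ⟨j, hj⟩ := hx
  rw [bdT_single, map_sum]
  rw [Finset.sum_eq_add (j.castSucc) (j.succ) (by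
      intro h; rw [Fin.ext_iff] at h; simp at h)]
  · rw [face_eq_of_adj x j hj, map_smul, map_smul, ← add_smul]
    have : ((-1 : ℤ) ^ ((j.castSucc : Fin (k + 2)) : ℕ) + (-1) ^ ((j.succ : Fin (k + 2)) : ℕ)) = 0 := by
      simp [pow_succ]
    rw [this, zero_smul]
  · intro i _ hi
    rw [map_smul, hΦ _ (adj_face x j hj i hi.1 hi.2), smul_zero]
  · intro h; exact absurd (Finset.mem_univ _) h
  · intro h; exact absurd (Finset.mem_univ _) h

theorem Sd_adj {E E' : Type} (L : ∀ k, Tup E k → E') : ∀ {n : ℕ} (x : Tup E n), AdjEq x →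
    Sd L (Finsupp.single x (1 : ℤ)) = 0
  | 0, x, ⟨j, _⟩ => j.elim0
  | n + 1, x, hx => by
      rw [Sd_succ, map_bdT_adj (Sd L) (fun y hy => Sd_adj L y hy) x hx, map_zero, smul_zero]

/-! ### Splitting a cycle -/

theorem not_injective_of_adj {E : Type} {k : ℕ} {x : Tup E k} (h : AdjEq x) :
    ¬ Function.Injective x := by
  obtain ⟨j, hj⟩ := h
  intro hinj
  have := hinj hj
  rw [Fin.ext_iff] at this
  simp at this

theorem adj_of_not_injective {P : Type} [PartialOrder P] {k : ℕ} {x : Tup P k}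
    (hx : Monotone x) (h : ¬ Function.Injective x) : AdjEq x := by
  by_contra hc
  unfold AdjEq at hc
  push Not at hc
  refine h (StrictMono.injective ?_)
  rw [Fin.strictMono_iff_lt_succ]
  intro i
  exact lt_of_le_of_ne (hx (Fin.castSucc_lt_succ).le) (hc i)

open Classical in
/-- The nondegenerate part of a cycle of monotone tuples. -/
theorem split {P : Type} [PartialOrder P] {n : ℕ} (c : Tup P (n + 1) →₀ ℤ) (hc : bdT c = 0)
    (hm : ∀ x ∈ c.support, Monotone x) :
    ∃ s : Tup P (n + 1) →₀ ℤ, bdT s = 0 ∧ (∀ x ∈ s.support, StrictMono x) ∧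
      ∀ (E' : Type) (L : ∀ k, Tup P k → E'), Sd L s = Sd L c := by
  set s := c.filter (fun x => Function.Injective x) with hs
  set d := c.filter (fun x => ¬ Function.Injective x) with hd
  have hsd : s + d = c := Finsupp.filter_add_filter_not c _
  have hsm : ∀ x ∈ s.support, StrictMono x := by
    intro x hx
    rw [hs, Finsupp.support_filter, Finset.mem_filter] at hx
    exact (hm x hx.1).strictMono_of_injective hx.2
  have hdm : ∀ x ∈ d.support, AdjEq x := by
    intro x hx
    rw [hd, Finsupp.support_filter, Finset.mem_filter] at hx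
    exact adj_of_not_injective (hm x hx.1) hx.2
  have hd0 : ∀ y : Tup P n, Function.Injective y → bdT d y = 0 := by
    intro y hy
    have h1 : bdT d = ∑ x ∈ d.support, d x • bdT (Finsupp.single x 1) := by
      rw [bdT_eq]
      exact Finset.sum_congr rfl fun x _ => by rw [bdT_single]
    rw [h1, Finsupp.finsetSum_apply]
    refine Finset.sum_eq_zero fun x hx => ?_
    rw [Finsupp.smul_apply]
    have := map_bdT_adj (Finsupp.lapply y) (fun z hz => by
      rw [Finsupp.lapply_apply, Finsupp.single_apply, if_neg]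
      rintro rfl
      exact not_injective_of_adj hz hy) x (hdm x hx)
    rw [Finsupp.lapply_apply] at this
    rw [this, smul_zero]
  have hs0 : ∀ y : Tup P n, ¬ Function.Injective y → bdT s y = 0 := by
    intro y hy
    rw [bdT_apply]
    refine Finset.sum_eq_zero fun x hx => ?_
    rw [Finset.sum_eq_zero, mul_zero]
    intro i _
    rw [if_neg]
    rintro rfl
    exact hy ((hsm x hx).injective.comp (Fin.succAbove_right_injective))
  have hsum : bdT s + bdT d = 0 := by rw [← map_add, hsd, hc]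
  refine ⟨s, ?_, hsm, ?_⟩
  · ext y
    by_cases hy : Function.Injective y
    · have := DFunLike.congr_fun hsum y
      rw [Finsupp.add_apply, hd0 y hy, add_zero] at this
      exact this
    · exact hs0 y hy
  · intro E' L
    rw [← hsd, map_add]
    have : Sd L d = 0 := by
      have h1 : Sd L d = ∑ x ∈ d.support, d x • Sd L (Finsupp.single x 1) := by
        conv_lhs => rw [← Finsupp.sum_single d, Finsupp.sum, map_sum]
        refine Finset.sum_congr rfl fun x _ => ?_
        rw [← map_smul, Finsupp.smul_single, smul_eq_mul, mul_one]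
      rw [h1]
      exact Finset.sum_eq_zero fun x hx => by rw [Sd_adj L x (hdm x hx), smul_zero]
    rw [this, add_zero]

/-! ### Greatest entries -/

open Classical in
/-- The greatest entry of a tuple (if any; else the first entry). -/
noncomputable def gr {P : Type} [PartialOrder P] (k : ℕ) (x : Tup P k) : P :=
  if h : ∃ i, ∀ j, x j ≤ x i then x h.choose else x 0

theorem gr_mem {P : Type} [PartialOrder P] (k : ℕ) (x : Tup P k) : ∃ i, gr k x = x i := by
  unfold gr
  split_ifs with h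
  · exact ⟨_, rfl⟩
  · exact ⟨_, rfl⟩

theorem le_gr {P : Type} [PartialOrder P] {k : ℕ} {x : Tup P k}
    (hx : IsChain (· ≤ ·) (Set.range x)) (j : Fin (k + 1)) : x j ≤ gr k x := by
  have h : ∃ i, ∀ j, x j ≤ x i := by
    obtain ⟨p, hp, hmax⟩ := (Set.finite_range x).exists_maximal (Set.range_nonempty x)
    obtain ⟨i, rfl⟩ := hp
    refine ⟨i, fun j => ?_⟩
    rcases hx.total (Set.mem_range_self j) (Set.mem_range_self i) with h | h
    · exact h
    · exact hmax (Set.mem_range_self j) h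
  unfold gr
  rw [dif_pos h]
  exact h.choose_spec j

theorem chain_comp {P : Type} [PartialOrder P] {k m : ℕ} {x : Tup P k}
    (hx : IsChain (· ≤ ·) (Set.range x)) (f : Fin (m + 1) → Fin (k + 1)) :
    IsChain (· ≤ ·) (Set.range (x ∘ f)) :=
  hx.mono (by rintro _ ⟨i, rfl⟩; exact ⟨f i, rfl⟩)

theorem lab_mono {P : Type} [PartialOrder P] : ∀ {n : ℕ} (F : Flag n) (x : Tup P n),
    IsChain (· ≤ ·) (Set.range x) → Monotone (lab gr F x) ∧ ∀ j, lab gr F x j ≤ gr n x
  | 0, F, x, hx => by
      refine ⟨fun i j _ => ?_, fun j => ?_⟩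
      · exact le_rfl
      · exact le_rfl
  | n + 1, F, x, hx => by
      obtain ⟨h1, h2⟩ := lab_mono F.2 (x ∘ F.1.succAbove) (chain_comp hx _)
      have h3 : gr n (x ∘ F.1.succAbove) ≤ gr (n + 1) x := by
        obtain ⟨i, hi⟩ := gr_mem n (x ∘ F.1.succAbove)
        rw [hi]
        exact le_gr hx _
      have h4 : ∀ j, lab gr F x j ≤ gr (n + 1) x := by
        intro j
        refine Fin.lastCases ?_ (fun j => ?_) j
        · simp only [lab, Fin.snoc_last]; exact le_rfl
        · simp only [lab, Fin.snoc_castSucc]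
          exact (h2 j).trans h3
      refine ⟨?_, h4⟩
      intro i j hij
      refine Fin.lastCases (fun hij => ?_) (fun j hij => ?_) j hij
      · have := h4 i
        refine this.trans ?_
        simp only [lab, Fin.snoc_last]; exact le_rfl
      · have h5 : (i : ℕ) ≤ ((j.castSucc : Fin (n + 2)) : ℕ) := hij
        have hi : (i : ℕ) < n + 1 := lt_of_le_of_lt h5 j.2
        have hi' : i = (⟨i, hi⟩ : Fin (n + 1)).castSucc := by ext; rfl
        rw [hi']
        simp only [lab, Fin.snoc_castSucc]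
        refine h1 ?_
        rw [hi', Fin.castSucc_le_castSucc_iff] at hij
        exact hij

open Classical in
theorem Sd_support {E E' : Type} (L : ∀ k, Tup E k → E') {n : ℕ} (c : Tup E n →₀ ℤ)
    (y : Tup E' n) (hy : y ∈ (Sd L c).support) : ∃ x ∈ c.support, ∃ F : Flag n, y = lab L F x := by
  by_contra hcon
  push Not at hcon
  rw [Finsupp.mem_support_iff] at hy
  apply hy
  have h1 : Sd L c = ∑ x ∈ c.support, c x • ∑ F : Flag n, F.sgn • Finsupp.single (lab L F x) (1 : ℤ) :=
    rfl
  rw [h1, Finsupp.finsetSum_apply]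
  refine Finset.sum_eq_zero fun x hx => ?_
  rw [Finsupp.smul_apply, Finsupp.finsetSum_apply, Finset.sum_eq_zero, smul_zero]
  intro F _
  rw [Finsupp.smul_apply, Finsupp.single_apply, if_neg (fun h => hcon x hx F h.symm), smul_zero]

/-- Every cycle supported on chains can be replaced by a cycle of strictly increasing tuples;
the differences are boundaries of chains supported on chains of the poset. -/
theorem straighten (hSM : SpecSdMap) (hSd : SpecSdHom) {P : Type} [PartialOrder P] {n : ℕ}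
    (c : Tup P (n + 1) →₀ ℤ) (hc : bdT c = 0) (hs : ChainSupp c) :
    ∃ (s : Tup P (n + 1) →₀ ℤ) (b : Tup P (n + 2) →₀ ℤ), bdT s = 0 ∧
      (∀ x ∈ s.support, StrictMono x) ∧ ChainSupp b ∧ bdT b = s - c := by
  have key : ∀ c : Tup P (n + 1) →₀ ℤ, bdT c = 0 → ChainSupp c →
      ∃ b : Tup P (n + 2) →₀ ℤ, bdT b = Sd gr c - c ∧ ChainSupp b := by
    intro c hc hs
    obtain ⟨b, hb, hb'⟩ := hSd P P gr id n c hc
    refine ⟨b, ?_, ?_⟩
    · rw [hb]
      congr 1
      have h0 : (fun x : Tup P (n + 1) => (id : P → P) ∘ x) = id := rfl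
      rw [mapT, h0, Finsupp.lmapDomain_id, LinearMap.id_apply]
    · intro y hy
      obtain ⟨x, hx, hxy⟩ := hb' y hy
      refine (hs x hx).mono ?_
      rintro _ ⟨j, rfl⟩
      rcases hxy j with ⟨i, hi⟩ | ⟨k, θ, _, hk⟩
      · exact ⟨i, hi.symm⟩
      · obtain ⟨i, hi⟩ := gr_mem k (x ∘ θ)
        exact ⟨θ i, by rw [hk, hi]; rfl⟩
  have hm : ∀ y ∈ (Sd gr c).support, Monotone y := by
    intro y hy
    obtain ⟨x, hx, F, rfl⟩ := Sd_support gr c y hy
    exact (lab_mono F x (hs x hx)).1
  have hch : ∀ (c : Tup P (n + 1) →₀ ℤ), (∀ y ∈ c.support, Monotone y) → ChainSupp c := by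
    intro c hc y hy
    exact (hc y hy).isChain_range
  have hc2 : bdT (Sd gr c) = 0 := by rw [hSM, hc, map_zero]
  obtain ⟨s, hs0, hss, hsS⟩ := split (Sd gr c) hc2 hm
  obtain ⟨b1, hb1, hb1'⟩ := key c hc hs
  obtain ⟨b2, hb2, hb2'⟩ := key (Sd gr c) hc2 (hch _ hm)
  obtain ⟨b3, hb3, hb3'⟩ := key s hs0 (hch _ fun y hy => (hss y hy).monotone)
  have hadd : ∀ u v : Tup P (n + 2) →₀ ℤ, ChainSupp u → ChainSupp v → ChainSupp (u + v) := by
    classical
    intro u v hu hv x hx
    rcases Finset.mem_union.1 (Finsupp.support_add hx) with h | h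
    · exact hu x h
    · exact hv x h
  have hneg : ∀ u : Tup P (n + 2) →₀ ℤ, ChainSupp u → ChainSupp (-u) := by
    intro u hu x hx
    rw [Finsupp.support_neg] at hx
    exact hu x hx
  refine ⟨s, b1 + b2 + -b3, hs0, hss, hadd _ _ (hadd _ _ hb1' hb2') (hneg _ hb3'), ?_⟩
  rw [map_add, map_add, map_neg, hb1, hb2, hb3, hsS P gr]
  abel

end Top
end MPb00168
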