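import Pool.Agent.Lib.MP_b00168_gt.TopA

set_option autoImplicit false

/-!
# MP_b00168_gt, module TOP, part B: strict tuples of cells of a coloured set
-/

namespace MPb00168
namespace Top

open Finset

section cells

variable {n : ℕ} {S : Type} (C : Colored n S)

theorem act_append (w w' : List (Fin (n + 2))) (s : S) :
    C.act (w ++ w') s = C.act w (C.act w' s) := by
  simp [Colored.act, List.foldr_append]

theorem act_reverse (w : List (Fin (n + 2))) (s : S) : C.act w.reverse (C.act w s) = s := by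
  induction w generalizing s with
  | nil => rfl
  | cons i w ih =>
    rw [List.reverse_cons, act_append]
    change C.act w.reverse (C.a i (C.a i (C.act w s))) = s
    rw [C.inv, ih]

theorem mem_cell_self (J : Finset (Fin (n + 2))) (s : S) : s ∈ C.cell J s := ⟨[], by simp, rfl⟩

theorem cell_subset {J : Finset (Fin (n + 2))} {s s' : S} (h : s' ∈ C.cell J s) :
    C.cell J s' ⊆ C.cell J s := by
  obtain ⟨w, hw, rfl⟩ := h
  rintro _ ⟨w', hw', rfl⟩
  refine ⟨w' ++ w, ?_, act_append C _ _ _⟩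
  intro i hi
  rcases List.mem_append.1 hi with h | h
  · exact hw' i h
  · exact hw i h

theorem cell_symm {J : Finset (Fin (n + 2))} {s s' : S} (h : s' ∈ C.cell J s) :
    s ∈ C.cell J s' := by
  obtain ⟨w, hw, rfl⟩ := h
  exact ⟨w.reverse, fun i hi => hw i (List.mem_reverse.1 hi), act_reverse C w s⟩

theorem cell_eq {J : Finset (Fin (n + 2))} {s s' : S} (h : s' ∈ C.cell J s) :
    C.cell J s' = C.cell J s :=
  Set.Subset.antisymm (cell_subset C h) (cell_subset C (cell_symm C h))

theorem cell_anti {J J' : Finset (Fin (n + 2))} (h : J ⊆ J') (s : S) :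
    C.cell J' s ⊆ C.cell J s := by
  rintro _ ⟨w, hw, rfl⟩
  exact ⟨w, fun i hi hJ => hw i hi (h hJ), rfl⟩

theorem cell_univ (s : S) : C.cell univ s = {s} := by
  ext s'
  constructor
  · rintro ⟨w, hw, rfl⟩
    cases w with
    | nil => rfl
    | cons i w => exact absurd (Finset.mem_univ i) (hw i (by simp))
  · rintro rfl
    exact mem_cell_self C _ _

theorem cell_compl {p : Fin (n + 2)} {J : Finset (Fin (n + 2))} (hJ : ∀ i, i ∉ J → i = p)
    {s s' : S} (h : s' ∈ C.cell J s) : s' = s ∨ s' = C.a p s := by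
  obtain ⟨w, hw, rfl⟩ := h
  induction w with
  | nil => exact Or.inl rfl
  | cons i w ih =>
    have hi : i = p := hJ i (hw i (by simp))
    change C.a i (C.act w s) = s ∨ C.a i (C.act w s) = C.a p s
    rw [hi]
    rcases ih (fun j hj => hw j (by simp [hj])) with h | h
    · rw [h]; exact Or.inr rfl
    · rw [h, C.inv]; exact Or.inl rfl

theorem a_ne (i : Fin (n + 2)) (s : S) : C.a i s ≠ s := by
  intro h
  have h1 := C.flip i s
  rw [h] at h1
  rcases C.unit s with h2 | h2 <;> rw [h2] at h1 <;> norm_num at h1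

/-- The colour sets associated with a permutation. -/
def J (π : Equiv.Perm (Fin (n + 2))) (k : Fin (n + 2)) : Finset (Fin (n + 2)) :=
  (Finset.Iic k).map π.toEmbedding

theorem mem_J (π : Equiv.Perm (Fin (n + 2))) (k i : Fin (n + 2)) : i ∈ J π k ↔ π.symm i ≤ k := by
  unfold J
  rw [Finset.mem_map]
  constructor
  · rintro ⟨a, ha, rfl⟩
    rw [Finset.mem_Iic] at ha
    simpa using ha
  · intro h
    exact ⟨π.symm i, Finset.mem_Iic.2 h, by simp⟩

theorem J_nonempty (π : Equiv.Perm (Fin (n + 2))) (k : Fin (n + 2)) : (J π k).Nonempty :=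
  ⟨π k, by rw [mem_J]; simp⟩

theorem card_J (π : Equiv.Perm (Fin (n + 2))) (k : Fin (n + 2)) : (J π k).card = (k : ℕ) + 1 := by
  unfold J
  rw [Finset.card_map, Fin.card_Iic]

theorem J_last (π : Equiv.Perm (Fin (n + 2))) : J π (Fin.last (n + 1)) = univ := by
  ext i
  rw [mem_J]
  simp [Fin.le_last]

theorem J_mono (π : Equiv.Perm (Fin (n + 2))) {j k : Fin (n + 2)} (h : j ≤ k) :
    J π j ⊆ J π k := by
  intro i hi
  rw [mem_J] at hi ⊢
  exact hi.trans h

theorem J_inj {π π' : Equiv.Perm (Fin (n + 2))} (h : ∀ k, J π k = J π' k) : π = π' := by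
  have h1 : ∀ i k, π.symm i ≤ k ↔ π'.symm i ≤ k := by
    intro i k
    rw [← mem_J, ← mem_J, h]
  have h2 : π.symm = π'.symm := by
    ext1 i
    exact le_antisymm ((h1 i _).2 le_rfl) ((h1 i _).1 le_rfl)
  have := congrArg Equiv.symm h2
  simpa using this

/-- The strict tuples of cells. -/
noncomputable def T (s : S) (π : Equiv.Perm (Fin (n + 2))) : Tup C.Cells (n + 1) :=
  fun k => C.cellOf (J π k) (J_nonempty π k) s

theorem le_iff (q q' : C.Cells) : q ≤ q' ↔
    q.1.1 ⊆ q'.1.1 ∧ OrderDual.ofDual q'.1.2 ⊆ OrderDual.ofDual q.1.2 := Iff.rfl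

theorem cellOf_eq_iff {J J' : Finset (Fin (n + 2))} {hJ : J.Nonempty} {hJ' : J'.Nonempty}
    {s s' : S} : C.cellOf J hJ s = C.cellOf J' hJ' s' ↔ J = J' ∧ C.cell J s = C.cell J' s' := by
  constructor
  · intro h
    have h1 := congrArg (fun q : C.Cells => q.1) h
    have h2 : (J, OrderDual.toDual (C.cell J s)) = (J', OrderDual.toDual (C.cell J' s')) := h1
    rw [Prod.mk.injEq] at h2
    exact h2
  · rintro ⟨h1, h2⟩
    refine Subtype.ext (Prod.ext h1 ?_)
    exact congrArg OrderDual.toDual h2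

theorem cellOf_strictMono (s : S) {K : Fin (n + 2) → Finset (Fin (n + 2))}
    (hK : ∀ k, (K k).Nonempty) (hm : StrictMono K) :
    StrictMono (fun k => C.cellOf (K k) (hK k) s : Tup C.Cells (n + 1)) := by
  intro j k hjk
  refine lt_of_le_not_ge ?_ ?_
  · rw [le_iff]
    exact ⟨hm.monotone hjk.le, cell_anti C (hm.monotone hjk.le) s⟩
  · intro h
    rw [le_iff] at h
    exact absurd (hm hjk) (not_lt_of_ge h.1)

theorem T_strictMono (s : S) (π : Equiv.Perm (Fin (n + 2))) : StrictMono (T C s π) := by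
  refine cellOf_strictMono C s _ ?_
  intro j k hjk
  refine lt_of_le_of_ne (J_mono π hjk.le) ?_
  intro h
  have h1 := card_J π j
  rw [h, card_J] at h1
  rw [Fin.lt_def] at hjk
  omega

theorem T_inj {s s' : S} {π π' : Equiv.Perm (Fin (n + 2))} (h : T C s π = T C s' π') :
    s = s' ∧ π = π' := by
  have h1 : ∀ k, J π k = J π' k ∧ C.cell (J π k) s = C.cell (J π' k) s' := by
    intro k
    exact (cellOf_eq_iff C).1 (congrFun h k)
  refine ⟨?_, J_inj fun k => (h1 k).1⟩
  have := (h1 (Fin.last _)).2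
  rw [J_last, J_last, cell_univ, cell_univ] at this
  exact Set.singleton_eq_singleton_iff.1 this

theorem T_surj {x : Tup C.Cells (n + 1)} (hx : StrictMono x) : ∃ s π, x = T C s π := by
  have hsub : ∀ {j k : Fin (n + 2)}, j ≤ k → (x j).1.1 ⊆ (x k).1.1 :=
    fun h => ((le_iff C _ _).1 (hx.monotone h)).1
  have hsup : ∀ {j k : Fin (n + 2)}, j ≤ k →
      OrderDual.ofDual (x k).1.2 ⊆ OrderDual.ofDual (x j).1.2 :=
    fun h => ((le_iff C _ _).1 (hx.monotone h)).2
  have hne : ∀ {j k : Fin (n + 2)}, j < k → ¬ (x k).1.1 ⊆ (x j).1.1 := by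
    intro j k hjk h
    have hJ : (x j).1.1 = (x k).1.1 := Finset.Subset.antisymm (hsub hjk.le) h
    obtain ⟨s1, h1⟩ := (x j).2.2
    obtain ⟨s2, h2⟩ := (x k).2.2
    refine (hx hjk).ne ?_
    refine Subtype.ext (Prod.ext hJ ?_)
    rw [h1, h2]
    have h3 := hsup hjk.le
    rw [h1, h2] at h3
    have h4 : s2 ∈ C.cell (x j).1.1 s1 := h3 (mem_cell_self C _ _)
    rw [← cell_eq C h4, hJ]
  have hex : ∀ k : Fin (n + 2), ∃ i ∈ (x k).1.1, ∀ j < k, i ∉ (x j).1.1 := by
    intro k
    refine Fin.cases ?_ (fun k' => ?_) k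
    · obtain ⟨i, hi⟩ := (x 0).2.1
      exact ⟨i, hi, fun j hj => absurd hj (Fin.not_lt_zero j)⟩
    · have := hne (Fin.castSucc_lt_succ (i := k'))
      rw [Finset.not_subset] at this
      obtain ⟨i, hi, hi'⟩ := this
      refine ⟨i, hi, fun j hj hij => hi' (hsub ?_ hij)⟩
      rw [Fin.lt_def] at hj
      rw [Fin.le_def]
      simp at hj ⊢
      omega
  choose p hp hp' using hex
  have hinj : Function.Injective p := by
    intro j k hjk
    by_contra hne
    rcases lt_or_gt_of_ne hne with h | h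
    · exact hp' k j h (hjk ▸ hp j)
    · exact hp' j k h (hjk ▸ hp k)
  let π : Equiv.Perm (Fin (n + 2)) := Equiv.ofBijective p (Finite.injective_iff_bijective.1 hinj)
  have hpπ : ∀ i, p (π.symm i) = i := fun i => π.apply_symm_apply i
  have hJ : ∀ k, (x k).1.1 = J π k := by
    intro k
    ext i
    rw [mem_J]
    constructor
    · intro hi
      by_contra hlt
      rw [not_le] at hlt
      have := hp' _ _ hlt
      rw [hpπ] at this
      exact this hi
    · intro hle
      have := hp (π.symm i)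
      rw [hpπ] at this
      exact hsub hle this
  obtain ⟨s, hs⟩ := (x (Fin.last (n + 1))).2.2
  refine ⟨s, π, ?_⟩
  funext k
  obtain ⟨sk, hk⟩ := (x k).2.2
  refine Subtype.ext (Prod.ext (hJ k) ?_)
  change (x k).1.2 = OrderDual.toDual (C.cell (J π k) s)
  rw [hk, hJ k]
  have h3 := hsup (Fin.le_last k)
  rw [hs, hk] at h3
  have h4 : s ∈ C.cell (x k).1.1 sk := h3 (mem_cell_self C _ _)
  rw [hJ k] at h4
  rw [cell_eq C h4]

/-! ### Adjacency -/

/-- The exceptional position of a face of a strict tuple. -/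
theorem face_pos {s s' : S} {π π' : Equiv.Perm (Fin (n + 2))} {i k : Fin (n + 2)}
    (h : T C s' π' ∘ i.succAbove = T C s π ∘ k.succAbove) : i = k := by
  by_contra hik
  obtain ⟨m, hm⟩ := Fin.exists_succAbove_eq (Ne.symm hik)
  have h1 := congrFun h m
  simp only [Function.comp_apply, hm] at h1
  have h2 := ((cellOf_eq_iff C).1 h1).1
  have h3 := congrArg Finset.card h2
  rw [card_J, card_J] at h3
  exact Fin.succAbove_ne k m (Fin.ext (by omega))

theorem agree_of_face {s s' : S} {π π' : Equiv.Perm (Fin (n + 2))} {k : Fin (n + 2)}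
    (h : T C s' π' ∘ k.succAbove = T C s π ∘ k.succAbove) {j : Fin (n + 2)} (hj : j ≠ k) :
    J π' j = J π j ∧ C.cell (J π' j) s' = C.cell (J π j) s := by
  obtain ⟨m, hm⟩ := Fin.exists_succAbove_eq hj
  have h1 := congrFun h m
  simp only [Function.comp_apply, hm] at h1
  exact (cellOf_eq_iff C).1 h1

theorem face_last (s : S) (π : Equiv.Perm (Fin (n + 2))) :
    T C (C.a (π (Fin.last (n + 1))) s) π ∘ (Fin.last (n + 1)).succAbove =
      T C s π ∘ (Fin.last (n + 1)).succAbove := by
  funext m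
  simp only [Function.comp_apply]
  refine (cellOf_eq_iff C).2 ⟨rfl, ?_⟩
  refine cell_eq C ⟨[π (Fin.last (n + 1))], ?_, rfl⟩
  intro i hi
  rw [List.mem_singleton] at hi
  subst hi
  rw [mem_J]
  simp only [Equiv.symm_apply_apply, not_le]
  exact lt_of_le_of_ne (Fin.le_last _) (Fin.succAbove_ne _ m)

theorem face_last_only {s s' : S} {π π' : Equiv.Perm (Fin (n + 2))}
    (h : T C s' π' ∘ (Fin.last (n + 1)).succAbove = T C s π ∘ (Fin.last (n + 1)).succAbove) :
    T C s' π' = T C s π ∨ T C s' π' = T C (C.a (π (Fin.last (n + 1))) s) π := by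
  have hπ : π' = π := by
    refine J_inj fun k => ?_
    by_cases hk : k = Fin.last (n + 1)
    · rw [hk, J_last, J_last]
    · exact (agree_of_face C h hk).1
  subst hπ
  have hm : (Fin.castSucc (Fin.last n)) ≠ Fin.last (n + 1) := (Fin.castSucc_lt_last _).ne
  have h1 := (agree_of_face C h hm).2
  have h2 : s' ∈ C.cell (J π' (Fin.castSucc (Fin.last n))) s := by
    rw [← h1]; exact mem_cell_self C _ _
  have h3 : ∀ i, i ∉ J π' (Fin.castSucc (Fin.last n)) → i = π' (Fin.last (n + 1)) := by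
    intro i hi
    rw [mem_J, not_le] at hi
    have : π'.symm i = Fin.last (n + 1) := by
      rw [Fin.lt_def] at hi
      apply Fin.ext
      have := (π'.symm i).2
      simp at hi ⊢
      omega
    rw [← this, Equiv.apply_symm_apply]
  rcases cell_compl C h3 h2 with h4 | h4
  · left; rw [h4]
  · right; rw [h4]

theorem swap_le_iff {k0 : Fin (n + 1)} {v j : Fin (n + 2)} (hj : j ≠ k0.castSucc) :
    Equiv.swap k0.castSucc k0.succ v ≤ j ↔ v ≤ j := by
  have hj' : (j : ℕ) ≠ (k0 : ℕ) := fun h => hj (Fin.ext (by simpa using h))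
  by_cases h1 : v = k0.castSucc
  · subst h1
    rw [Equiv.swap_apply_left, Fin.le_def, Fin.le_def]
    simp
    omega
  · by_cases h2 : v = k0.succ
    · subst h2
      rw [Equiv.swap_apply_right, Fin.le_def, Fin.le_def]
      simp
      omega
    · rw [Equiv.swap_apply_of_ne_of_ne h1 h2]

theorem mem_J_mul (π τ : Equiv.Perm (Fin (n + 2))) (k i : Fin (n + 2)) :
    i ∈ J (π * τ) k ↔ τ.symm (π.symm i) ≤ k := by
  rw [mem_J]; rfl

theorem J_swap (π : Equiv.Perm (Fin (n + 2))) (k0 : Fin (n + 1)) {j : Fin (n + 2)}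
    (hj : j ≠ k0.castSucc) : J (π * Equiv.swap k0.castSucc k0.succ) j = J π j := by
  ext i
  rw [mem_J_mul, mem_J, Equiv.symm_swap, swap_le_iff hj]

theorem face_swap (s : S) (π : Equiv.Perm (Fin (n + 2))) (k0 : Fin (n + 1)) :
    T C s (π * Equiv.swap k0.castSucc k0.succ) ∘ k0.castSucc.succAbove =
      T C s π ∘ k0.castSucc.succAbove := by
  funext m
  simp only [Function.comp_apply]
  have h1 := J_swap π k0 (Fin.succAbove_ne k0.castSucc m)
  exact (cellOf_eq_iff C).2 ⟨h1, by rw [h1]⟩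

theorem face_swap_only {s s' : S} {π π' : Equiv.Perm (Fin (n + 2))} {k0 : Fin (n + 1)}
    (h : T C s' π' ∘ k0.castSucc.succAbove = T C s π ∘ k0.castSucc.succAbove) :
    T C s' π' = T C s π ∨ T C s' π' = T C s (π * Equiv.swap k0.castSucc k0.succ) := by
  have hlast : Fin.last (n + 1) ≠ k0.castSucc := (Fin.castSucc_lt_last _).ne'
  have hs : s' = s := by
    have := (agree_of_face C h hlast).2
    rw [J_last, J_last, cell_univ, cell_univ] at this
    exact Set.singleton_eq_singleton_iff.1 this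
  subst hs
  have hJ : ∀ j, j ≠ k0.castSucc → J π' j = J π j := fun j hj => (agree_of_face C h hj).1
  have hle : ∀ i, π'.symm i ≤ k0.succ ↔ π.symm i ≤ k0.succ := by
    intro i
    rw [← mem_J, ← mem_J, hJ _ (Fin.castSucc_lt_succ).ne']
  have hlt : ∀ i, π'.symm i < k0.castSucc ↔ π.symm i < k0.castSucc := by
    intro i
    by_cases h0 : (k0 : ℕ) = 0
    · constructor
      · intro h1; rw [Fin.lt_def] at h1; simp at h1; omega
      · intro h1; rw [Fin.lt_def] at h1; simp at h1; omega
    · have h1 : (⟨(k0 : ℕ) - 1, by omega⟩ : Fin (n + 2)) ≠ k0.castSucc := by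
        intro h2
        rw [Fin.ext_iff] at h2
        simp at h2
        omega
      have h2 : ∀ v : Fin (n + 2), v < k0.castSucc ↔ v ≤ (⟨(k0 : ℕ) - 1, by omega⟩ : Fin (n + 2)) := by
        intro v
        rw [Fin.lt_def, Fin.le_def]
        simp
        omega
      rw [h2, h2, ← mem_J, ← mem_J, hJ _ h1]
  -- the position of `π' k`
  have hcase : ∀ v : Fin (n + 2), v ≤ k0.succ → ¬ v < k0.castSucc →
      v = k0.castSucc ∨ v = k0.succ := by
    intro v h1 h2
    rw [Fin.le_def] at h1
    rw [Fin.lt_def] at h2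
    simp at h1 h2
    rcases Nat.lt_or_ge (v : ℕ) ((k0 : ℕ) + 1) with h3 | h3
    · left; apply Fin.ext; simp; omega
    · right; apply Fin.ext; simp; omega
  have hk : π.symm (π' k0.castSucc) = k0.castSucc ∨ π.symm (π' k0.castSucc) = k0.succ := by
    refine hcase _ ?_ ?_
    · rw [← hle]; simp [(Fin.castSucc_lt_succ).le]
    · rw [← hlt]; simp
  have hall : ∀ π'' : Equiv.Perm (Fin (n + 2)), (∀ k, J π' k = J π'' k) →
      T C s' π' = T C s' π'' := by
    intro π'' h1
    rw [J_inj h1]
  have hk' : ∀ i, i ∈ J π' k0.castSucc ↔ (π.symm i < k0.castSucc ∨ i = π' k0.castSucc) := by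
    intro i
    rw [mem_J, ← hlt, le_iff_lt_or_eq]
    have : π'.symm i = k0.castSucc ↔ i = π' k0.castSucc := by
      rw [Equiv.symm_apply_eq]
    rw [this]
  rcases hk with hk | hk
  · left
    refine hall π fun k => ?_
    by_cases hkk : k = k0.castSucc
    · subst hkk
      ext i
      rw [hk', mem_J, le_iff_lt_or_eq]
      have : i = π' k0.castSucc ↔ π.symm i = k0.castSucc := by
        rw [Equiv.symm_apply_eq] at hk ⊢
        rw [hk]
      rw [this]
    · exact hJ k hkk
  · right
    refine hall _ fun k => ?_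
    by_cases hkk : k = k0.castSucc
    · subst hkk
      ext i
      rw [hk', mem_J_mul, Equiv.symm_swap]
      have h1 : i = π' k0.castSucc ↔ π.symm i = k0.succ := by
        rw [Equiv.symm_apply_eq] at hk ⊢
        rw [hk]
      rw [h1]
      by_cases h2 : π.symm i = k0.castSucc
      · rw [h2, Equiv.swap_apply_left]
        have h3 : ¬ k0.succ ≤ k0.castSucc := not_le.2 Fin.castSucc_lt_succ
        have h4 : k0.castSucc ≠ k0.succ := Fin.castSucc_lt_succ.ne
        simp [h3, h4]
      · by_cases h3 : π.symm i = k0.succ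
        · rw [h3, Equiv.swap_apply_right]
          simp
        · rw [Equiv.swap_apply_of_ne_of_ne h2 h3, le_iff_lt_or_eq]
          simp [h2, h3]
    · rw [hJ k hkk, J_swap π k0 hkk]

end cells

/-! ### Cycles of strict tuples -/

open Classical in
theorem two_faces {P : Type} {m : ℕ} (c : Tup P (m + 1) →₀ ℤ) (hc : bdT c = 0)
    (x1 x2 : Tup P (m + 1)) (hx : x1 ≠ x2) (k : Fin (m + 2))
    (h12 : x2 ∘ k.succAbove = x1 ∘ k.succAbove)
    (h : ∀ x ∈ c.support, ∀ i : Fin (m + 2), x ∘ i.succAbove = x1 ∘ k.succAbove →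
      i = k ∧ (x = x1 ∨ x = x2)) (h1' : ∀ i : Fin (m + 2), x1 ∘ i.succAbove = x1 ∘ k.succAbove → i = k)
    (h2' : ∀ i : Fin (m + 2), x2 ∘ i.succAbove = x1 ∘ k.succAbove → i = k) :
    c x2 = - c x1 := by
  have h0 : bdT c (x1 ∘ k.succAbove) = 0 := by rw [hc]; rfl
  rw [bdT_apply] at h0
  have hin : ∀ x : Tup P (m + 1), (x = x1 ∨ x = x2) →
      ∑ i : Fin (m + 2), (if x ∘ i.succAbove = x1 ∘ k.succAbove then (-1 : ℤ) ^ (i : ℕ) else 0) =
        (-1) ^ (k : ℕ) := by
    intro x hx
    rw [Finset.sum_eq_single k]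
    · rw [if_pos]
      rcases hx with rfl | rfl
      · rfl
      · exact h12
    · intro i _ hik
      rw [if_neg]
      intro h3
      rcases hx with rfl | rfl
      · exact hik (h1' i h3)
      · exact hik (h2' i h3)
    · intro h3; exact absurd (Finset.mem_univ _) h3
  have hsum : ∑ x ∈ c.support, c x *
      ∑ i : Fin (m + 2), (if x ∘ i.succAbove = x1 ∘ k.succAbove then (-1 : ℤ) ^ (i : ℕ) else 0) =
      ∑ x ∈ ({x1, x2} : Finset (Tup P (m + 1))), c x * (-1) ^ (k : ℕ) := by
    refine Finset.sum_congr_of_eq_on_inter ?_ ?_ ?_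
    · intro x hx hx'
      rw [Finset.sum_eq_zero, mul_zero]
      intro i _
      rw [if_neg]
      intro h3
      apply hx'
      rw [Finset.mem_insert, Finset.mem_singleton]
      exact (h x hx i h3).2
    · intro x _ hx'
      rw [Finsupp.notMem_support_iff.1 hx', zero_mul]
    · intro x _ hx'
      rw [Finset.mem_insert, Finset.mem_singleton] at hx'
      rw [hin x hx']
  rw [hsum, Finset.sum_pair hx, ← add_mul] at h0
  have h4 : ((-1 : ℤ) ^ (k : ℕ)) ≠ 0 := pow_ne_zero _ (by norm_num)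
  rcases mul_eq_zero.1 h0 with h5 | h5
  · linarith
  · exact absurd h5 h4

section cyc

variable {n : ℕ} {S : Type} (C : Colored n S)

theorem coeff_last (c : Tup C.Cells (n + 1) →₀ ℤ) (hc : bdT c = 0)
    (hs : ∀ x ∈ c.support, StrictMono x) (s : S) (π : Equiv.Perm (Fin (n + 2))) :
    c (T C (C.a (π (Fin.last (n + 1))) s) π) = - c (T C s π) := by
  refine two_faces c hc _ _ ?_ (Fin.last (n + 1)) (face_last C s π) ?_ ?_ ?_
  · intro h
    exact a_ne C _ _ (T_inj C h).1.symm
  · intro x hx i hi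
    obtain ⟨s', π', rfl⟩ := T_surj C (hs x hx)
    have h1 := face_pos C hi
    subst h1
    exact ⟨rfl, face_last_only C hi⟩
  · intro i hi
    exact face_pos C hi
  · intro i hi
    exact face_pos C hi

theorem coeff_swap (c : Tup C.Cells (n + 1) →₀ ℤ) (hc : bdT c = 0)
    (hs : ∀ x ∈ c.support, StrictMono x) (s : S) (π : Equiv.Perm (Fin (n + 2)))
    (k0 : Fin (n + 1)) :
    c (T C s (π * Equiv.swap k0.castSucc k0.succ)) = - c (T C s π) := by
  refine two_faces c hc _ _ ?_ k0.castSucc (face_swap C s π k0) ?_ ?_ ?_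
  · intro h
    have h1 := (T_inj C h).2
    have h2 : Equiv.swap k0.castSucc k0.succ = 1 := by
      have : π * 1 = π * Equiv.swap k0.castSucc k0.succ := by rw [mul_one]; exact h1
      exact (mul_left_cancel this).symm
    rw [Equiv.swap_eq_one_iff] at h2
    exact Fin.castSucc_lt_succ.ne h2
  · intro x hx i hi
    obtain ⟨s', π', rfl⟩ := T_surj C (hs x hx)
    have h1 := face_pos C hi
    subst h1
    exact ⟨rfl, face_swap_only C hi⟩
  · intro i hi
    exact face_pos C hi
  · intro i hi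
    exact face_pos C hi

/-- The coefficients of a strict cycle. -/
theorem coeff_eq (hconn : C.Conn) (c : Tup C.Cells (n + 1) →₀ ℤ) (hc : bdT c = 0)
    (hs : ∀ x ∈ c.support, StrictMono x) (s0 s : S) (π : Equiv.Perm (Fin (n + 2))) :
    c (T C s π) = C.ε s * (Equiv.Perm.sign π : ℤ) * (C.ε s0 * c (T C s0 1)) := by
  have hπ : ∀ (s : S) (τ π : Equiv.Perm (Fin (n + 2))),
      c (T C s (π * τ)) = (Equiv.Perm.sign τ : ℤ) * c (T C s π) := by
    intro s τ
    have hτ : τ ∈ Submonoid.closure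
        (Set.range fun i : Fin (n + 1) ↦ Equiv.swap i.castSucc i.succ) := by
      rw [Equiv.Perm.mclosure_swap_castSucc_succ]; exact Submonoid.mem_top _
    induction hτ using Submonoid.closure_induction with
    | mem x hx =>
      obtain ⟨k0, rfl⟩ := hx
      intro π
      simp only
      rw [coeff_swap C c hc hs, Equiv.Perm.sign_swap Fin.castSucc_lt_succ.ne]
      simp
    | one => intro π; simp
    | mul x y _ _ hx hy =>
      intro π
      rw [← mul_assoc, hy, hx, map_mul]
      push_cast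
      ring
  have hε : ∀ s, C.ε s * C.ε s = 1 := by
    intro s
    rcases C.unit s with h | h <;> rw [h] <;> norm_num
  have hsg : ∀ τ : Equiv.Perm (Fin (n + 2)), (Equiv.Perm.sign τ : ℤ) * (Equiv.Perm.sign τ : ℤ) = 1 := by
    intro τ
    rw [← Units.val_mul, Int.units_mul_self, Units.val_one]
  have ha : ∀ (i : Fin (n + 2)) (s : S), c (T C (C.a i s) 1) = - c (T C s 1) := by
    intro i s
    set τ : Equiv.Perm (Fin (n + 2)) := Equiv.swap (Fin.last (n + 1)) i with hτ
    have h1 := coeff_last C c hc hs s τ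
    have h2 : τ (Fin.last (n + 1)) = i := Equiv.swap_apply_left _ _
    rw [h2] at h1
    have h3 := hπ (C.a i s) τ 1
    have h4 := hπ s τ 1
    rw [one_mul] at h3 h4
    rw [h3, h4] at h1
    have h5 := hsg τ
    calc c (T C (C.a i s) 1)
        = ((Equiv.Perm.sign τ : ℤ) * (Equiv.Perm.sign τ : ℤ)) * c (T C (C.a i s) 1) := by
          rw [h5, one_mul]
      _ = (Equiv.Perm.sign τ : ℤ) * ((Equiv.Perm.sign τ : ℤ) * c (T C (C.a i s) 1)) := by ring
      _ = (Equiv.Perm.sign τ : ℤ) * (- ((Equiv.Perm.sign τ : ℤ) * c (T C s 1))) := by rw [h1]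
      _ = -(((Equiv.Perm.sign τ : ℤ) * (Equiv.Perm.sign τ : ℤ)) * c (T C s 1)) := by ring
      _ = - c (T C s 1) := by rw [h5, one_mul]
  have hw : ∀ (w : List (Fin (n + 2))) (s : S),
      C.ε (C.act w s) * c (T C (C.act w s) 1) = C.ε s * c (T C s 1) := by
    intro w s
    induction w with
    | nil => rfl
    | cons i w ih =>
      change C.ε (C.a i (C.act w s)) * c (T C (C.a i (C.act w s)) 1) = _
      rw [C.flip, ha, ← ih]
      ring
  obtain ⟨w, hw'⟩ := hconn s0 s
  have h1 := hw w s0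
  rw [hw'] at h1
  have h2 := hπ s π 1
  rw [one_mul] at h2
  rw [h2, ← h1]
  calc (Equiv.Perm.sign π : ℤ) * c (T C s 1)
      = (C.ε s * C.ε s) * ((Equiv.Perm.sign π : ℤ) * c (T C s 1)) := by rw [hε, one_mul]
    _ = _ := by ring

end cyc

end Top
end MPb00168
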